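import Pool.Agent.Helper2.PB.Err

/-!
# ERR2: operator norm versions of `err_bound` and `pow_diff`
-/

set_option autoImplicit false

namespace Pool.Agent.Helper2.PB

open Matrix
open scoped Matrix.Norms.L2Operator ComplexOrder

namespace Err2

section ord

variable {A : Type} [CStarAlgebra A] [PartialOrder A] [StarOrderedRing A]
variable {E : Type} [Fintype E] [DecidableEq E]

theorem norm_K_le (hb : E → A) (J x : ℝ) (hx : 0 ≤ x)
    (hherm : ∀ b, IsSelfAdjoint (hb b)) (hnorm : ∀ b, ‖hb b‖ ≤ J) (hH : 0 ≤ ∑ b, hb b)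
    (hu : x * J * Fintype.card E ≤ 1 / 4) : ‖(1 : A) - (x : ℂ) • ∑ b, hb b‖ ≤ 1 := by
  set Z := (x : ℂ) • ∑ b, hb b with hZ
  have hZs : IsSelfAdjoint Z :=
    Leaf.isSelfAdjoint_rsmul x (isSelfAdjoint_sum _ fun b _ => hherm b)
  have hZn : ‖Z‖ ≤ 1 := ((Leaf.norm_smul_sum_le hb J x hx hnorm).trans hu).trans (by norm_num)
  have h1 : Z ≤ ((1 : ℝ) : ℂ) • (1 : A) := Leaf.le_smul_one hZs hZn
  rw [Complex.ofReal_one, one_smul] at h1
  have h0 : 0 ≤ Z := Leaf.rsmul_nonneg hx hH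
  have h2 : (0 : A) ≤ 1 - Z := sub_nonneg.2 h1
  have h3 : (1 : A) - Z ≤ 1 := sub_le_self _ h0
  exact (CStarAlgebra.norm_le_norm_of_nonneg_of_le h2 h3).trans Leaf.norm_one_le'

theorem leaf_norm_sq (hb : E → A) (J x : ℝ) (hJ : 0 ≤ J) (hx : 0 ≤ x)
    (hherm : ∀ b, IsSelfAdjoint (hb b)) (hnorm : ∀ b, ‖hb b‖ ≤ J) (hH : 0 ≤ ∑ b, hb b)
    (hu : x * J * Fintype.card E ≤ 1 / 4) (F : Finset E) (a : E → Bool) :
    ‖Leaf.Lf hb x F a‖ ^ 2 ≤ (2 * x * J) ^ (2 * (F.filter fun b => a b = true).card) *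
      (1 + 4 * x * J * F.card + 8 * (x * J * Fintype.card E) ^ 2) := by
  have h1 := Leaf.core hb J x hJ hx hherm hnorm hu F a
  have h2 := CStarAlgebra.norm_le_norm_of_nonneg_of_le (mul_star_self_nonneg _) h1
  have hc : (0 : ℝ) ≤ (2 * x * J) ^ (2 * (F.filter fun b => a b = true).card) *
      (1 + 4 * x * J * F.card + 8 * (x * J * Fintype.card E) ^ 2) := by positivity
  rw [CStarRing.norm_self_mul_star, Leaf.norm_smul_real hc] at h2
  have h3 := norm_K_le hb J x hx hherm hnorm hH hu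
  have h4 : ‖((1 : A) - (x : ℂ) • ∑ b, hb b) ^ 2‖ ≤ 1 := by
    rw [sq]
    refine (norm_mul_le _ _).trans ?_
    calc _ ≤ (1 : ℝ) * 1 := mul_le_mul h3 h3 (norm_nonneg _) zero_le_one
      _ = 1 := one_mul 1
  rw [sq]
  exact h2.trans (mul_le_of_le_one_right hc h4)

end ord

section ERR2

variable {E : Type} [Fintype E] [DecidableEq E] {ι : Type} [Fintype ι] [DecidableEq ι]

open scoped MatrixOrder in
theorem leafM_norm_sq (hb : E → Matrix ι ι ℂ) (J x : ℝ) (hJ : 0 ≤ J) (hx : 0 ≤ x)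
    (hherm : ∀ b, (hb b).IsHermitian) (hnorm : ∀ b, ‖hb b‖ ≤ J) (hH : (∑ b, hb b).PosSemidef)
    (hu : x * J * Fintype.card E ≤ 1 / 4) (F : Finset E) (a : E → Bool) :
    ‖leafM hb x F a‖ ^ 2 ≤ (2 * x * J) ^ (2 * (F.filter fun b => a b = true).card) *
      (1 + 4 * x * J * F.card + 8 * (x * J * Fintype.card E) ^ 2) :=
  leaf_norm_sq hb J x hJ hx hherm hnorm (Matrix.nonneg_iff_posSemidef.2 hH) hu F a

theorem norm_tprod_sq_le {α : Type} (f : α → Matrix ι ι ℂ) (c : α → ℝ)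
    (h : ∀ a, ‖f a‖ ^ 2 ≤ c a) : ∀ (n : ℕ) (t : Tr α n), ‖tprod f n t‖ ^ 2 ≤ tprod c n t
  | 0, t => h t
  | n + 1, t => by
    show ‖tprod f n t.1 * tprod f n t.2‖ ^ 2 ≤ tprod c n t.1 * tprod c n t.2
    have h1 := norm_tprod_sq_le f c h n t.1
    have h2 := norm_tprod_sq_le f c h n t.2
    calc ‖tprod f n t.1 * tprod f n t.2‖ ^ 2 ≤ (‖tprod f n t.1‖ * ‖tprod f n t.2‖) ^ 2 :=
          pow_le_pow_left₀ (norm_nonneg _) (norm_mul_le _ _) 2
      _ = ‖tprod f n t.1‖ ^ 2 * ‖tprod f n t.2‖ ^ 2 := mul_pow _ _ _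
      _ ≤ _ := mul_le_mul h1 h2 (by positivity) ((by positivity : (0:ℝ) ≤ _).trans h1)

theorem norm_Wm_le (hb : E → Matrix ι ι ℂ) (J β : ℝ) (hJ : 0 ≤ J) (hβ : 0 ≤ β)
    (hherm : ∀ b, (hb b).IsHermitian) (hnorm : ∀ b, ‖hb b‖ ≤ J) (hH : (∑ b, hb b).PosSemidef)
    (n : ℕ) (x : ℝ) (hx : x = β / 2 ^ n)
    (hu : x * J * Fintype.card E ≤ 1 / 4)
    (hu2 : 4 * 2 ^ n * (x * J * Fintype.card E) ^ 2 ≤ Real.log 2) (F : Finset E)
    (η : E → Tr Bool n) :
    ‖Wm (leafM hb x F) n η‖ ≤ (2 * x * J) ^ (∑ b ∈ F, size n (η b)) *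
      (2 * Real.exp (2 * β * J * F.card)) := by
  have hx0 : 0 ≤ x := by rw [hx]; positivity
  set u := x * J * Fintype.card E with hudef
  set K : ℝ := 1 + 4 * x * J * F.card + 8 * u ^ 2 with hK
  have hK0 : 0 ≤ K := by positivity
  have h1 := norm_tprod_sq_le (leafM hb x F)
    (fun a => (2 * x * J) ^ (2 * (F.filter fun b => a b = true).card) * K)
    (fun a => leafM_norm_sq hb J x hJ hx0 hherm hnorm hH hu F a) n (Err.zipT n η)
  rw [← Err.Wm_eq_tprod, Err.tprod_leaf] at h1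
  have hKn : K ^ 2 ^ n ≤ (2 * Real.exp (2 * β * J * F.card)) ^ 2 := by
    have e1 : K ≤ Real.exp (4 * x * J * F.card + 8 * u ^ 2) := by
      have := Real.add_one_le_exp (4 * x * J * F.card + 8 * u ^ 2)
      rw [hK]; linarith
    have e2 : K ^ 2 ^ n ≤ Real.exp (4 * x * J * F.card + 8 * u ^ 2) ^ 2 ^ n :=
      pow_le_pow_left₀ hK0 e1 _
    refine e2.trans ?_
    rw [← Real.exp_nat_mul]
    have e3 : (((2 ^ n : ℕ) : ℝ)) * (4 * x * J * F.card + 8 * u ^ 2) ≤
        Real.log 2 + Real.log 2 + 2 * (2 * β * J * F.card) := by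
      have e4 : (2 : ℝ) ^ n * x = β := by
        rw [hx]; field_simp
      push_cast
      have e5 : (2 : ℝ) ^ n * (4 * x * J * F.card + 8 * u ^ 2) =
          4 * ((2 : ℝ) ^ n * x) * J * F.card + 2 * (4 * 2 ^ n * u ^ 2) := by ring
      rw [e5, e4]
      linarith
    refine (Real.exp_le_exp.2 e3).trans (le_of_eq ?_)
    rw [Real.exp_add, Real.exp_add, Real.exp_log (by norm_num : (0 : ℝ) < 2), mul_pow,
      ← Real.exp_nat_mul]
    norm_num
  refine le_of_sq_le_sq ?_ (by positivity)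
  refine h1.trans ?_
  have h9 : ((2 * x * J) ^ (∑ b ∈ F, size n (η b)) * (2 * Real.exp (2 * β * J * F.card))) ^ 2 =
      (2 * x * J) ^ (2 * ∑ b ∈ F, size n (η b)) *
        (2 * Real.exp (2 * β * J * F.card)) ^ 2 := by
    rw [mul_pow (_ ^ _) (_ * _) 2, ← pow_mul, mul_comm (∑ b ∈ F, size n (η b)) 2]
  rw [h9]
  exact mul_le_mul_of_nonneg_left hKn (by positivity)

open Classical in
theorem norm_TB_le (hb : E → Matrix ι ι ℂ) (J β : ℝ) (hJ : 0 ≤ J) (hβ : 0 ≤ β)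
    (hherm : ∀ b, (hb b).IsHermitian) (hnorm : ∀ b, ‖hb b‖ ≤ J) (hH : (∑ b, hb b).PosSemidef)
    (adj : E → E → Prop) (hsymm : ∀ b b', adj b b' → adj b' b) (hirr : ∀ b, ¬ adj b b) (Δ₀ : ℕ)
    (hdeg : ∀ b (s : Finset E), (∀ b' ∈ s, adj b b') → s.card ≤ Δ₀)
    (q P m : ℕ) (R x : ℝ) (hR : 1 ≤ R) (hR2 : R ^ (2 * Δ₀) ≤ 4 / 3) (hx : x = β / 2 ^ (q + P))
    (hu : x * J * Fintype.card E ≤ 1 / 4)
    (hu2 : 4 * 2 ^ (q + P) * (x * J * Fintype.card E) ^ 2 ≤ Real.log 2)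
    (hsmall : 8 * β * J * Δ₀ / 2 ^ P ≤ Real.log 2) (B : Finset E) :
    ‖Err.TB hb x adj q (q + P) m B‖ ≤
      2 * (Real.exp (6 * β * J * (Δ₀ + 1)) / R ^ m) ^ B.card := by
  have hx0 : 0 ≤ x := by rw [hx]; positivity
  set F := Err.nbh adj B with hF
  have hR0 : 0 < R := lt_of_lt_of_le one_pos hR
  have hRm : 0 < R ^ (m * B.card) := pow_pos hR0 _
  set pi := Fintype.piFinset (fun b => if b ∈ F then (Finset.univ : Finset (Tr Bool (q + P)))
        else {off (q + P)}) with hpi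
  rw [Err.TB_eq]
  refine (norm_sum_le _ _).trans ?_
  have hterm : ∀ η ∈ pi, ‖(if ∀ b ∈ B, m < cost adj q (q + P) η b then
      Wm (leafM hb x F) (q + P) η else 0)‖ ≤
      ((2 * x * J) ^ (∑ b, size (q + P) (η b)) * R ^ (∑ b, cost adj q (q + P) η b)) *
        ((2 * Real.exp (2 * β * J * F.card)) / R ^ (m * B.card)) := by
    intro η hη
    by_cases hc : ∀ b ∈ B, m < cost adj q (q + P) η b
    · rw [if_pos hc]
      refine (norm_Wm_le hb J β hJ hβ hherm hnorm hH (q + P) x hx hu hu2 F η).trans ?_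
      have hsz : ∑ b ∈ F, size (q + P) (η b) = ∑ b, size (q + P) (η b) := by
        refine Finset.sum_subset (Finset.subset_univ _) fun b _ hbF => ?_
        have := (Fintype.mem_piFinset.1 hη) b
        rw [if_neg hbF, Finset.mem_singleton] at this
        rw [this, Err.size_off]
      rw [hsz]
      have hcost : R ^ (m * B.card) ≤ R ^ (∑ b, cost adj q (q + P) η b) := by
        refine pow_le_pow_right₀ hR ?_
        calc m * B.card = ∑ b ∈ B, m := by rw [Finset.sum_const, smul_eq_mul, mul_comm]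
          _ ≤ ∑ b ∈ B, cost adj q (q + P) η b := Finset.sum_le_sum fun b hb => (hc b hb).le
          _ ≤ ∑ b, cost adj q (q + P) η b :=
            Finset.sum_le_sum_of_subset (Finset.subset_univ _)
      have h1 : 1 ≤ R ^ (∑ b, cost adj q (q + P) η b) / R ^ (m * B.card) := by
        rwa [le_div_iff₀ hRm, one_mul]
      have h2 : 0 ≤ (2 * x * J) ^ (∑ b, size (q + P) (η b)) *
          (2 * Real.exp (2 * β * J * F.card)) := by positivity
      calc (2 * x * J) ^ (∑ b, size (q + P) (η b)) *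
          (2 * Real.exp (2 * β * J * F.card))
          = (2 * x * J) ^ (∑ b, size (q + P) (η b)) *
          (2 * Real.exp (2 * β * J * F.card)) * 1 := by ring
        _ ≤ (2 * x * J) ^ (∑ b, size (q + P) (η b)) *
          (2 * Real.exp (2 * β * J * F.card)) *
            (R ^ (∑ b, cost adj q (q + P) η b) / R ^ (m * B.card)) :=
          mul_le_mul_of_nonneg_left h1 h2
        _ = _ := by ring
    · rw [if_neg hc, norm_zero]
      positivity
  refine (Finset.sum_le_sum hterm).trans ?_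
  rw [← Finset.sum_mul]
  have hcomb := comb_bound adj hsymm hirr Δ₀ hdeg q (q + P) (2 * x * J) R (by positivity) hR hR2
    (by
      have : 4 * (2 * x * J) * 2 ^ q * Δ₀ = 8 * β * J * Δ₀ / 2 ^ P := by
        rw [hx, pow_add]
        field_simp
        ring
      rw [this]; exact hsmall) F
  have hx2 : x * 2 ^ (q + P) = β := by rw [hx]; field_simp
  have h3 : 2 * (2 * x * J) * 2 ^ (q + P) * F.card = 4 * β * J * F.card := by
    rw [← hx2]; ring
  rw [h3] at hcomb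
  refine (mul_le_mul_of_nonneg_right hcomb (by positivity)).trans ?_
  have h4 : Real.exp (4 * β * J * F.card) * (2 * Real.exp (2 * β * J * F.card) /
      R ^ (m * B.card)) = 2 * (Real.exp (6 * β * J * F.card) / R ^ (m * B.card)) := by
    have : Real.exp (6 * β * J * F.card) =
        Real.exp (4 * β * J * F.card) * Real.exp (2 * β * J * F.card) := by
      rw [← Real.exp_add]; congr 1; ring
    rw [this]; ring
  rw [h4]
  refine mul_le_mul_of_nonneg_left ?_ (by positivity)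
  rw [div_pow, ← pow_mul]
  refine div_le_div_of_nonneg_right ?_ hRm.le
  rw [← Real.exp_nat_mul]
  refine Real.exp_le_exp.2 ?_
  have h5 : (F.card : ℝ) ≤ (Δ₀ + 1) * B.card := by
    exact_mod_cast Err.card_nbh_le adj Δ₀ hdeg B
  have h6 : 0 ≤ 6 * β * J := by positivity
  calc 6 * β * J * F.card ≤ 6 * β * J * ((Δ₀ + 1) * B.card) := mul_le_mul_of_nonneg_left h5 h6
    _ = B.card * (6 * β * J * (Δ₀ + 1)) := by ring

end ERR2

end Err2

section ERR2

variable {E : Type} [Fintype E] [DecidableEq E] {ι : Type} [Fintype ι] [DecidableEq ι]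

theorem err_bound_op (hb : E → Matrix ι ι ℂ) (J β : ℝ) (hJ : 0 ≤ J) (hβ : 0 ≤ β)
    (hherm : ∀ b, (hb b).IsHermitian) (hnorm : ∀ b, ‖hb b‖ ≤ J) (hH : (∑ b, hb b).PosSemidef)
    (adj : E → E → Prop) (hsymm : ∀ b b', adj b b' → adj b' b) (hirr : ∀ b, ¬ adj b b) (Δ₀ : ℕ)
    (hdeg : ∀ b (s : Finset E), (∀ b' ∈ s, adj b b') → s.card ≤ Δ₀)
    (q P m : ℕ) (R x : ℝ) (hR : 1 ≤ R) (hR2 : R ^ (2 * Δ₀) ≤ 4 / 3) (hx : x = β / 2 ^ (q + P))
    (hu : x * J * Fintype.card E ≤ 1 / 4)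
    (hu2 : 4 * 2 ^ (q + P) * (x * J * Fintype.card E) ^ 2 ≤ Real.log 2)
    (hsmall : 8 * β * J * Δ₀ / 2 ^ P ≤ Real.log 2) (a₀ : E → Bool) :
    ‖Tm hb x adj q (q + P) m - leafM hb x ∅ a₀ ^ 2 ^ (q + P)‖ ≤
      2 * ((1 + Real.exp (6 * β * J * (Δ₀ + 1)) / R ^ m) ^ Fintype.card E - 1) := by
  classical
  set δ := Real.exp (6 * β * J * (Δ₀ + 1)) / R ^ m with hδ
  have h1 : Tm hb x adj q (q + P) m - leafM hb x ∅ a₀ ^ 2 ^ (q + P) =
      ∑ B ∈ (Finset.univ : Finset (Finset E)).erase ∅,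
        ((-1 : ℂ) ^ B.card) • Err.TB hb x adj q (q + P) m B := by
    rw [Err.Tm_eq_sum, ← Finset.add_sum_erase _ _ (Finset.mem_univ (∅ : Finset E))]
    rw [Err.TB_empty hb x adj q (q + P) m a₀]
    simp
  rw [h1]
  refine (norm_sum_le _ _).trans ?_
  have h2 : ∀ B ∈ (Finset.univ : Finset (Finset E)).erase ∅,
      ‖((-1 : ℂ) ^ B.card) • Err.TB hb x adj q (q + P) m B‖ ≤ 2 * δ ^ B.card := by
    intro B _
    rw [norm_smul]
    have : ‖((-1 : ℂ) ^ B.card)‖ = 1 := by simp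
    rw [this, one_mul]
    exact Err2.norm_TB_le hb J β hJ hβ hherm hnorm hH adj hsymm hirr Δ₀ hdeg q P m R x hR hR2 hx
      hu hu2 hsmall B
  refine (Finset.sum_le_sum h2).trans (le_of_eq ?_)
  rw [← Finset.mul_sum]
  congr 1
  have h3 : ∑ B : Finset E, δ ^ B.card = (1 + δ) ^ Fintype.card E := by
    have := Finset.sum_pow_mul_eq_add_pow δ (1 : ℝ) (Finset.univ : Finset E)
    simp only [one_pow, mul_one, Finset.powerset_univ, Finset.card_univ] at this
    rw [this, add_comm]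
  have h4 := Finset.add_sum_erase (Finset.univ : Finset (Finset E)) (fun B => δ ^ B.card)
    (Finset.mem_univ ∅)
  rw [h3] at h4
  simp only [Finset.card_empty, pow_zero] at h4
  linarith

/-- operator norm version of pow_diff -/
theorem pow_diff_op (hb : E → Matrix ι ι ℂ) (J x : ℝ) (hJ : 0 ≤ J) (hx : 0 ≤ x)
    (hherm : ∀ b, (hb b).IsHermitian) (hnorm : ∀ b, ‖hb b‖ ≤ J) (hH : (∑ b, hb b).PosSemidef)
    (hu : x * J * Fintype.card E ≤ 1 / 4) (a : E → Bool) (n : ℕ) :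
    ‖leafM hb x ∅ a ^ n - (1 - (x : ℂ) • ∑ b, hb b) ^ n‖ ≤
      n * Real.exp (n * (x * J * Fintype.card E)) * (x * J * Fintype.card E) ^ 2 := by
  rcases n with _ | n
  · simp
  set u := x * J * Fintype.card E with hudef
  have hu0 : 0 ≤ u := by positivity
  have ht : 0 ≤ x * J := mul_nonneg hx hJ
  have h1 : ‖leafM hb x ∅ a‖ ≤ Real.exp u := by
    have h2 := Leaf.norm_listprod_le (fun b => if b ∈ (∅ : Finset E) then
      (if a b = true then (-(x : ℂ)) • hb b else 1) else 1 - (x : ℂ) • hb b) (fun _ => 1 + x * J)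
      (by
        intro b
        simp only [Finset.notMem_empty, if_false]
        refine (norm_sub_le _ _).trans (add_le_add Leaf.norm_one_le' ?_)
        rw [Leaf.norm_smul_real hx]
        exact mul_le_mul_of_nonneg_left (hnorm b) hx) (Finset.univ : Finset E).toList
    refine h2.trans ?_
    rw [Finset.prod_map_toList, Finset.prod_const, Finset.card_univ]
    refine (Leaf.pow_le_exp ht _).trans (le_of_eq ?_)
    congr 1
    rw [hudef]
    ring
  have h3 : ‖(1 : Matrix ι ι ℂ) - (x : ℂ) • ∑ b, hb b‖ ≤ Real.exp u := by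
    refine (norm_sub_le _ _).trans ?_
    have := Leaf.norm_smul_sum_le hb J x hx hnorm
    have h4 := Real.add_one_le_exp u
    have h5 := Leaf.norm_one_le' (A := Matrix ι ι ℂ)
    linarith
  have h6 : ‖leafM hb x ∅ a - (1 - (x : ℂ) • ∑ b, hb b)‖ ≤ u ^ 2 := by
    have h7 := Leaf.Lf_expand hb J x hJ hx hnorm hu ∅ a (by simp)
    convert h7 using 2
    rw [Finset.smul_sum]
    simp only [Finset.notMem_empty, if_false, Finset.sum_neg_distrib, Leaf.Lf, leafM]
    abel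
  refine (Leaf.norm_pow_sub_le _ _ (Real.exp u) (u ^ 2) (Real.exp_pos _).le h1 h3 h6 n).trans ?_
  have h8 : Real.exp u ^ n ≤ Real.exp ((n + 1 : ℕ) * u) := by
    rw [← Real.exp_nat_mul]
    apply Real.exp_le_exp.2
    push_cast
    nlinarith
  have h9 : (0 : ℝ) ≤ u ^ 2 := by positivity
  calc ((n : ℝ) + 1) * Real.exp u ^ n * u ^ 2 ≤
        ((n : ℝ) + 1) * Real.exp ((n + 1 : ℕ) * u) * u ^ 2 := by gcongr
    _ = ((n + 1 : ℕ) : ℝ) * Real.exp (((n + 1 : ℕ) : ℝ) * u) * u ^ 2 := by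
        push_cast
        ring

end ERR2

end Pool.Agent.Helper2.PB
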