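import Pool.Agent.Helper2.PB.Rep

/-!
# The truncated sum over records applied to a projected entangled pair state
-/

set_option autoImplicit false

namespace Pool.Agent.Helper2.PB

open Matrix
open scoped Matrix.Norms.L2Operator ComplexOrder

namespace RepAux

open Classical in
/-- The entries of the truncated sum over records. -/
theorem rec_sum_apply {d s L : ℕ} [NeZero L] (q P m : ℕ)
    (g : Matrix (Box s → Fin d) (Box s → Fin d) ℂ) (x : ℝ)
    (R : Type) [Fintype R] (val : R → Tr (RecG (Lab (Box s) d) (Box s → Bool) q) P)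
    (hinj : Function.Injective val) (hle : ∀ r, costT q P (val r) ≤ m)
    (hsurj : ∀ y, costT q P y ≤ m → ∃ r, val r = y) (σ τ : Torus L → Fin d) :
    (∑ ρ : Torus L → Tr (RecG (Lab (Box s) d) (Box s → Bool) q) P,
        if ∀ b, costT q P (ρ b) ≤ m then
          (∏ b, coefT g x q P (ρ b)) • tens (fun v => phiT (site (L := L)) v q P ρ)
        else 0 : Matrix (Torus L → Fin d) (Torus L → Fin d) ℂ) σ τ =
      ∑ r : Torus L → R, (∏ v : Torus L, coefT g x q P (val (r v))) *
        ∏ v : Torus L, phiT (site (L := L)) v q P (fun b => val (r b)) (σ v) (τ v) := by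
  rw [Matrix.sum_apply]
  symm
  refine Fintype.sum_of_injective (fun (r : Torus L → R) (b : Torus L) => val (r b)) ?_ _ _ ?_ ?_
  · intro r r' h
    funext v
    exact hinj (congrFun h v)
  · intro ρ hρ
    have hn : ¬ ∀ b, costT q P (ρ b) ≤ m := by
      intro hall
      choose r hr using fun b => hsurj (ρ b) (hall b)
      exact hρ ⟨r, funext hr⟩
    rw [if_neg hn]
    rfl
  · intro r
    have hp : ∀ b, costT q P ((fun b => val (r b)) b) ≤ m := fun b => hle (r b)
    rw [if_pos hp]
    rfl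

open Classical in
theorem peps_gen2 {d s L D' : ℕ} [NeZero L] (hs1 : 1 ≤ s) (q P m : ℕ)
    (g : Matrix (Box s → Fin d) (Box s → Fin d) ℂ) (x : ℝ) (c : ℂ)
    (A' : Torus L → Fin d → Fin D' → Fin D' → Fin D' → Fin D' → ℂ)
    (R : Type) [Fintype R] (val : R → Tr (RecG (Lab (Box s) d) (Box s → Bool) q) P)
    (hinj : Function.Injective val) (hle : ∀ r, costT q P (val r) ≤ m)
    (hsurj : ∀ y, costT q P y ≤ m → ∃ r, val r = y) :
    ∃ A : Torus L → Fin d → Fin (Fintype.card R ^ (s ^ 2) * D') →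
        Fin (Fintype.card R ^ (s ^ 2) * D') →
        Fin (Fintype.card R ^ (s ^ 2) * D') → Fin (Fintype.card R ^ (s ^ 2) * D') → ℂ,
      ∀ σ, pepsState A σ = c * ((∑ ρ : Torus L → Tr (RecG (Lab (Box s) d) (Box s → Bool) q) P,
        if ∀ b, costT q P (ρ b) ≤ m then
          (∏ b, coefT g x q P (ρ b)) • tens (fun v => phiT (site (L := L)) v q P ρ)
        else 0 : Matrix (Torus L → Fin d) (Torus L → Fin d) ℂ).mulVec (pepsState A')) σ := by
  have hcard : Fintype.card (Box s → R) = Fintype.card R ^ (s ^ 2) := by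
    rw [Fintype.card_fun]
    congr 1
    simp [Box, sq]
  let e0 : Fin (Fintype.card R ^ (s ^ 2)) ≃ (Box s → R) := (Fintype.equivFinOfCardEq hcard).symm
  let e : Fin (Fintype.card R ^ (s ^ 2) * D') ≃ (Box s → R) × Fin D' :=
    finProdFinEquiv.symm.trans (Equiv.prodCongr e0 (Equiv.refl _))
  let K : Torus L → Fin d → (Box s → R) → Fin D' → Fin D' → Fin D' → Fin D' → ℂ :=
    fun v t w y y1 z z1 => ∑ t' : Fin d,
      phiT (site (L := L)) v q P (fun b => val (ext (w (⟨0, hs1⟩, ⟨0, hs1⟩)) v w b)) t t' *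
        A' v t' y y1 z z1
  let A2 : Torus L → Fin d → (Box s → R) × Fin D' → (Box s → R) × Fin D' →
      (Box s → R) × Fin D' → (Box s → R) × Fin D' → ℂ :=
    fun v t w w1 u u1 =>
      if Cons w.1 w1.1 u.1 u1.1 then (if v = 0 then c else 1) *
        (coefT g x q P (val (w.1 (⟨0, hs1⟩, ⟨0, hs1⟩))) * K v t w.1 w.2 w1.2 u.2 u1.2)
      else 0
  refine ⟨fun v t i1 i2 i3 i4 => A2 v t (e i1) (e i2) (e i3) (e i4), ?_⟩
  intro σ
  -- the left-hand side over windows and the old virtual indices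
  have step1 : pepsState (fun v t i1 i2 i3 i4 => A2 v t (e i1) (e i2) (e i3) (e i4)) σ =
      ∑ yz : (Torus L → Fin D') × (Torus L → Fin D'),
      ∑ ab : (Torus L → Box s → R) × (Torus L → Box s → R), ∏ v : Torus L,
        A2 v (σ v) (ab.1 v, yz.1 v) (ab.1 (v.1 - 1, v.2), yz.1 (v.1 - 1, v.2))
          (ab.2 v, yz.2 v) (ab.2 (v.1, v.2 - 1), yz.2 (v.1, v.2 - 1)) := by
    unfold pepsState
    rw [← Fintype.sum_prod_type', ← Fintype.sum_prod_type']
    refine Fintype.sum_equiv ((((Equiv.piCongrRight fun _ => e).prodCongr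
      (Equiv.piCongrRight fun _ => e)).trans
      ((Equiv.arrowProdEquivProdArrow (Torus L) (fun _ => Box s → R) (fun _ => Fin D')).prodCongr
        (Equiv.arrowProdEquivProdArrow (Torus L) (fun _ => Box s → R) (fun _ => Fin D')))).trans
      ((Equiv.prodProdProdComm _ _ _ _).trans (Equiv.prodComm _ _))) _ _ ?_
    rintro ⟨a, b⟩
    rfl
  -- for fixed old virtual indices
  have step2 : ∀ yz : (Torus L → Fin D') × (Torus L → Fin D'),
      ∑ ab : (Torus L → Box s → R) × (Torus L → Box s → R), ∏ v : Torus L,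
        A2 v (σ v) (ab.1 v, yz.1 v) (ab.1 (v.1 - 1, v.2), yz.1 (v.1 - 1, v.2))
          (ab.2 v, yz.2 v) (ab.2 (v.1, v.2 - 1), yz.2 (v.1, v.2 - 1)) =
      ∑ r : Torus L → R, ∏ v : Torus L, ((if v = 0 then c else 1) *
        (coefT g x q P (val (r v)) * ∑ t' : Fin d,
          phiT (site (L := L)) v q P (fun b => val (r b)) (σ v) t' *
            A' v t' (yz.1 v) (yz.1 (v.1 - 1, v.2)) (yz.2 v) (yz.2 (v.1, v.2 - 1)))) := by
    intro yz
    symm
    refine Fintype.sum_of_injective (fun r : Torus L → R => (win (s := s) r, win (s := s) r))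
      ?_ _ _ ?_ ?_
    · intro r r' h
      have h1 : win (s := s) r = win (s := s) r' := (Prod.mk.inj h).1
      funext v
      have h2 := congrFun (congrFun h1 v) (⟨0, hs1⟩, ⟨0, hs1⟩)
      unfold win at h2
      simpa using h2
    · rintro ⟨a, b⟩ hab
      by_contra hne
      apply hab
      have hall : ∀ v : Torus L, Cons (a v) (a (v.1 - 1, v.2)) (b v) (b (v.1, v.2 - 1)) := by
        intro v
        by_contra hv
        apply hne
        apply Finset.prod_eq_zero (Finset.mem_univ v)
        exact if_neg hv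
      obtain ⟨h1, h2⟩ := eq_win hs1 a b hall
      refine ⟨fun v => a v (⟨0, hs1⟩, ⟨0, hs1⟩), ?_⟩
      exact Prod.ext h1.symm h2.symm
    · intro r
      apply Finset.prod_congr rfl
      intro v _
      have h1 : A2 v (σ v) (win (s := s) r v, yz.1 v)
          (win (s := s) r (v.1 - 1, v.2), yz.1 (v.1 - 1, v.2))
          (win (s := s) r v, yz.2 v) (win (s := s) r (v.1, v.2 - 1), yz.2 (v.1, v.2 - 1)) =
          (if v = 0 then c else 1) *
        (coefT g x q P (val ((win (s := s) r v) (⟨0, hs1⟩, ⟨0, hs1⟩))) *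
          K v (σ v) (win (s := s) r v) (yz.1 v) (yz.1 (v.1 - 1, v.2)) (yz.2 v)
            (yz.2 (v.1, v.2 - 1))) := if_pos (cons_win r v)
      have h0 : (win (s := s) r v) (⟨0, hs1⟩, ⟨0, hs1⟩) = r v := by
        unfold win
        simp
      have h3 : phiT (site (L := L)) v q P
            (fun b => val (ext ((win (s := s) r v) (⟨0, hs1⟩, ⟨0, hs1⟩)) v
              (win (s := s) r v) b)) =
          phiT (site (L := L) (s := s)) v q P (fun b => val (r b)) := by
        apply phiT_loc
        intro b hb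
        rw [ext_win _ r v b hb]
      simp only
      rw [h1]
      simp only [K]
      rw [h3, h0]
  rw [step1]
  simp only [step2]
  have step3 : ∀ (yz : (Torus L → Fin D') × (Torus L → Fin D')) (r : Torus L → R),
      ∏ v : Torus L, ((if v = 0 then c else 1) *
        (coefT g x q P (val (r v)) * ∑ t' : Fin d,
          phiT (site (L := L)) v q P (fun b => val (r b)) (σ v) t' *
            A' v t' (yz.1 v) (yz.1 (v.1 - 1, v.2)) (yz.2 v) (yz.2 (v.1, v.2 - 1)))) =
      ∑ τ : Torus L → Fin d, c * (((∏ v : Torus L, coefT g x q P (val (r v))) *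
        ∏ v : Torus L, phiT (site (L := L)) v q P (fun b => val (r b)) (σ v) (τ v)) *
        ∏ v : Torus L, A' v (τ v) (yz.1 v) (yz.1 (v.1 - 1, v.2)) (yz.2 v)
          (yz.2 (v.1, v.2 - 1))) := by
    intro yz r
    rw [Finset.prod_mul_distrib, Finset.prod_mul_distrib, Finset.prod_univ_sum,
      Fintype.piFinset_univ, Finset.mul_sum, Finset.mul_sum]
    apply Finset.sum_congr rfl
    intro τ _
    rw [Finset.prod_mul_distrib, Finset.prod_ite_eq' Finset.univ (0 : Torus L) (fun _ => c)]
    simp only [Finset.mem_univ, if_true]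
    ring
  simp only [step3]
  unfold Matrix.mulVec dotProduct
  rw [Finset.mul_sum]
  have step4 : ∀ τ : Torus L → Fin d, pepsState A' τ =
      ∑ yz : (Torus L → Fin D') × (Torus L → Fin D'), ∏ v : Torus L,
        A' v (τ v) (yz.1 v) (yz.1 (v.1 - 1, v.2)) (yz.2 v) (yz.2 (v.1, v.2 - 1)) := by
    intro τ
    unfold pepsState
    rw [← Fintype.sum_prod_type']
  have step5 : ∀ τ : Torus L → Fin d,
      c * ((∑ ρ : Torus L → Tr (RecG (Lab (Box s) d) (Box s → Bool) q) P,
        if ∀ b, costT q P (ρ b) ≤ m then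
          (∏ b, coefT g x q P (ρ b)) • tens (fun v => phiT (site (L := L)) v q P ρ)
        else 0 : Matrix (Torus L → Fin d) (Torus L → Fin d) ℂ) σ τ * pepsState A' τ) =
      ∑ yz : (Torus L → Fin D') × (Torus L → Fin D'), ∑ r : Torus L → R,
        c * (((∏ v : Torus L, coefT g x q P (val (r v))) *
        ∏ v : Torus L, phiT (site (L := L)) v q P (fun b => val (r b)) (σ v) (τ v)) *
        ∏ v : Torus L, A' v (τ v) (yz.1 v) (yz.1 (v.1 - 1, v.2)) (yz.2 v)
          (yz.2 (v.1, v.2 - 1))) := by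
    intro τ
    rw [rec_sum_apply q P m g x R val hinj hle hsurj σ τ, step4 τ, Finset.sum_mul_sum,
      Finset.sum_comm, Finset.mul_sum]
    apply Finset.sum_congr rfl
    intro yz _
    rw [Finset.mul_sum]
  simp only [step5]
  calc _ = ∑ yz : (Torus L → Fin D') × (Torus L → Fin D'), ∑ τ : Torus L → Fin d,
        ∑ r : Torus L → R, c * (((∏ v : Torus L, coefT g x q P (val (r v))) *
        ∏ v : Torus L, phiT (site (L := L)) v q P (fun b => val (r b)) (σ v) (τ v)) *
        ∏ v : Torus L, A' v (τ v) (yz.1 v) (yz.1 (v.1 - 1, v.2)) (yz.2 v)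
          (yz.2 (v.1, v.2 - 1))) := Finset.sum_congr rfl fun yz _ => Finset.sum_comm
    _ = _ := Finset.sum_comm

end RepAux

open RepAux

open Classical in
theorem peps_of_rec_peps {d s L D' : ℕ} [NeZero L] (hs1 : 1 ≤ s) (hsL : s ≤ L) (q P m : ℕ)
    (g : Matrix (Box s → Fin d) (Box s → Fin d) ℂ) (x : ℝ) (c : ℂ)
    (A' : Torus L → Fin d → Fin D' → Fin D' → Fin D' → Fin D' → ℂ) :
    ∃ A : Torus L → Fin d →
        Fin (Fintype.card {r : Tr (RecG (Lab (Box s) d) (Box s → Bool) q) P //
          costT q P r ≤ m} ^ (s ^ 2) * D') →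
        Fin (Fintype.card {r : Tr (RecG (Lab (Box s) d) (Box s → Bool) q) P //
          costT q P r ≤ m} ^ (s ^ 2) * D') →
        Fin (Fintype.card {r : Tr (RecG (Lab (Box s) d) (Box s → Bool) q) P //
          costT q P r ≤ m} ^ (s ^ 2) * D') →
        Fin (Fintype.card {r : Tr (RecG (Lab (Box s) d) (Box s → Bool) q) P //
          costT q P r ≤ m} ^ (s ^ 2) * D') → ℂ,
      ∀ σ, pepsState A σ = c * ((∑ ρ : Torus L → Tr (RecG (Lab (Box s) d) (Box s → Bool) q) P,
        if ∀ b, costT q P (ρ b) ≤ m then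
          (∏ b, coefT g x q P (ρ b)) • tens (fun v => phiT (site (L := L)) v q P ρ)
        else 0 : Matrix (Torus L → Fin d) (Torus L → Fin d) ℂ).mulVec (pepsState A')) σ := by
  exact peps_gen2 hs1 q P m g x c A'
    {r : Tr (RecG (Lab (Box s) d) (Box s → Bool) q) P // costT q P r ≤ m} Subtype.val
    Subtype.val_injective (fun r => r.2) (fun y hy => ⟨⟨y, hy⟩, rfl⟩)

end Pool.Agent.Helper2.PB
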