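import Pool.Agent.Helper2.PB.Spec

/-! Convergence of the filter to the ground state projection in operator norm -/

set_option autoImplicit false

namespace Pool.Agent.Helper2.PB

open Matrix
open scoped Matrix.Norms.L2Operator ComplexOrder

variable {ι : Type} [Fintype ι] [DecidableEq ι]

theorem norm_specF_le {H : Matrix ι ι ℂ} (hH : H.IsHermitian) (f : ι → ℂ) (c : ℝ) (hc : 0 ≤ c)
    (hf : ∀ i, ‖f i‖ ≤ c) : ‖specF hH f‖ ≤ c := by
  rcases isEmpty_or_nonempty ι with hι | hι
  · have : specF hH f = 0 := Subsingleton.elim _ _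
    rw [this, norm_zero]; exact hc
  have hU : ‖specU hH‖ ≤ 1 := by
    have h1 : ‖(specU hH)ᴴ * specU hH‖ = ‖specU hH‖ * ‖specU hH‖ :=
      l2_opNorm_conjTranspose_mul_self _
    rw [show (specU hH)ᴴ * specU hH = 1 from specU_star_mul hH, norm_one] at h1
    nlinarith [norm_nonneg (specU hH)]
  have hU' : ‖star (specU hH)‖ ≤ 1 := by
    rw [star_eq_conjTranspose, l2_opNorm_conjTranspose]; exact hU
  have hD : ‖(diagonal f : Matrix ι ι ℂ)‖ ≤ c := by
    rw [l2_opNorm_diagonal]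
    exact (pi_norm_le_iff_of_nonneg hc).2 hf
  unfold specF
  calc ‖specU hH * diagonal f * star (specU hH)‖
      ≤ ‖specU hH‖ * ‖(diagonal f : Matrix ι ι ℂ)‖ * ‖star (specU hH)‖ :=
        (norm_mul_le _ _).trans (mul_le_mul_of_nonneg_right (norm_mul_le _ _) (norm_nonneg _))
    _ ≤ 1 * c * 1 := by
        apply mul_le_mul _ hU' (norm_nonneg _) (by linarith)
        exact mul_le_mul hU hD (norm_nonneg _) zero_le_one
    _ = c := by ring

theorem spec_pow_form {H : Matrix ι ι ℂ} (hH : H.IsHermitian) (E₀ x : ℝ) (N : ℕ) :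
    (1 - (x : ℂ) • (H - (E₀ : ℂ) • 1)) ^ N =
      specF hH (fun i => (((1 - x * (hH.eigenvalues i - E₀)) ^ N : ℝ) : ℂ)) := by
  rw [specF_A hH E₀ x, specF_pow]
  congr 1
  funext i
  push_cast
  rfl

theorem spec_decay {H : Matrix ι ι ℂ} (hH : H.IsHermitian) (E₀ Δ : ℝ) (hΔ : 0 < Δ) (ψ : ι → ℂ)
    (hg : IsGappedGround H E₀ Δ ψ) (x β : ℝ) (N : ℕ) (hx : 0 ≤ x) (hβ : β = N * x)
    (h1 : ∀ i, x * (hH.eigenvalues i - E₀) ≤ 1) :
    ‖(1 - (x : ℂ) • (H - (E₀ : ℂ) • 1)) ^ N - vecMulVec ψ (star ψ)‖ ≤ Real.exp (-(β * Δ)) := by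
  obtain ⟨i₀, hi₀, hgap⟩ := spec_gap hH E₀ Δ hΔ ψ hg
  obtain ⟨hψ, hHψ, _⟩ := hg
  set v : ι → ι → ℂ := fun i k => specU hH k i with hv
  set c : ι → ℂ := fun i => star (v i) ⬝ᵥ ψ with hc
  have hci : ∀ i, i ≠ i₀ → c i = 0 := by
    intro i hi
    by_contra hne
    have h2 : star (v i) ⬝ᵥ H.mulVec ψ = (hH.eigenvalues i : ℂ) * c i := by
      have h2 : star (v i) ᵥ* H = ((hH.eigenvalues i : ℂ)) • star (v i) := by
        have h3 := congrArg star (spec_mulVec hH i)
        rw [Matrix.star_mulVec, hH.eq] at h3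
        have h5 : star ((hH.eigenvalues i : ℂ)) = (hH.eigenvalues i : ℂ) := Complex.conj_ofReal _
        rw [h3, star_smul, h5]
      rw [Matrix.dotProduct_mulVec, h2, smul_dotProduct]
      rfl
    rw [hHψ, dotProduct_smul] at h2
    have h4 : (E₀ : ℂ) = (hH.eigenvalues i : ℂ) := mul_right_cancel₀ hne h2
    have h5 : E₀ = hH.eigenvalues i := by exact_mod_cast h4
    linarith [hgap i hi]
  -- ψ = c i₀ • v i₀
  have hψv : ψ = c i₀ • v i₀ := by
    have h2 : (star (specU hH)).mulVec ψ = fun i => c i := by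
      funext i; rfl
    have h3 : ψ = (specU hH).mulVec (fun i => c i) := by
      rw [← h2, Matrix.mulVec_mulVec, specU_mul_star, Matrix.one_mulVec]
    rw [h3]
    funext k
    show ∑ i, specU hH k i * c i = c i₀ * specU hH k i₀
    rw [Finset.sum_eq_single i₀]
    · ring
    · intro i _ hi; rw [hci i hi, mul_zero]
    · intro h; exact absurd (Finset.mem_univ _) h
  have hnv : nsq (v i₀) = 1 := by
    have h1 := nsq_eq (v i₀)
    have h2 := spec_orth hH i₀ i₀
    rw [if_pos rfl] at h2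
    have h3 : ((nsq (v i₀) : ℝ) : ℂ) = 1 := by rw [← h1]; exact h2
    exact_mod_cast h3
  have hcn : ‖c i₀‖ ^ 2 = 1 := by
    have h2 : nsq ψ = ‖c i₀‖ ^ 2 * nsq (v i₀) := by
      conv_lhs => rw [hψv]
      unfold nsq
      rw [Finset.mul_sum]
      refine Finset.sum_congr rfl fun k _ => ?_
      rw [Pi.smul_apply, smul_eq_mul, norm_mul, mul_pow]
    rw [hψ, hnv, mul_one] at h2
    exact h2.symm
  have hcc : c i₀ * star (c i₀) = 1 := by
    rw [Complex.star_def, Complex.mul_conj, Complex.normSq_eq_norm_sq, hcn, Complex.ofReal_one]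
  have hP : vecMulVec ψ (star ψ) = specF hH (fun i => if i = i₀ then 1 else 0) := by
    ext k l
    unfold specF
    rw [Matrix.mul_apply]
    rw [Finset.sum_eq_single i₀]
    · rw [Matrix.mul_diagonal, if_pos rfl, mul_one, vecMulVec_apply]
      conv_lhs => rw [hψv]
      show c i₀ * specU hH k i₀ * star (c i₀ * specU hH l i₀) = _
      rw [star_mul']
      show c i₀ * specU hH k i₀ * (star (c i₀) * star (specU hH l i₀)) =
        specU hH k i₀ * star (specU hH l i₀)
      linear_combination (specU hH k i₀ * star (specU hH l i₀)) * hcc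
    · intro i _ hi
      rw [Matrix.mul_diagonal, if_neg hi, mul_zero, zero_mul]
    · intro h; exact absurd (Finset.mem_univ _) h
  rw [spec_pow_form hH, hP, specF_sub]
  apply norm_specF_le hH _ _ (Real.exp_pos _).le
  intro i
  by_cases hi : i = i₀
  · rw [if_pos hi, hi, hi₀]
    simp
    exact (Real.exp_pos _).le
  · rw [if_neg hi, sub_zero, Complex.norm_real, Real.norm_eq_abs]
    have h2 := hgap i hi
    have h3 : 0 ≤ 1 - x * (hH.eigenvalues i - E₀) := by linarith [h1 i]
    rw [abs_of_nonneg (pow_nonneg h3 N)]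
    have h4 : 1 - x * (hH.eigenvalues i - E₀) ≤ Real.exp (-(x * Δ)) := by
      have h5 := Real.add_one_le_exp (-(x * (hH.eigenvalues i - E₀)))
      have h6 : Real.exp (-(x * (hH.eigenvalues i - E₀))) ≤ Real.exp (-(x * Δ)) := by
        apply Real.exp_le_exp.2
        nlinarith
      linarith
    calc (1 - x * (hH.eigenvalues i - E₀)) ^ N ≤ Real.exp (-(x * Δ)) ^ N :=
          pow_le_pow_left₀ h3 h4 N
      _ = Real.exp (-(β * Δ)) := by
          rw [← Real.exp_nat_mul, hβ]; congr 1; ring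

end Pool.Agent.Helper2.PB
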