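import Pool.Agent.Helper2.PB.Main
import Pool.Agent.Helper2.PB.Err2
import Pool.Agent.Helper2.PB.Rep2
import Pool.Agent.Helper2.PB.Spec2

/-! Amplification: from a small overlap to high accuracy -/

set_option autoImplicit false

namespace Pool.Agent.Helper2.PB

open Matrix
open scoped Matrix.Norms.L2Operator ComplexOrder

theorem sqrt_nsq_eq {ι : Type} [Fintype ι] (φ : ι → ℂ) :
    ‖(WithLp.toLp 2 φ : EuclideanSpace ℂ ι)‖ = Real.sqrt (nsq φ) := by
  rw [EuclideanSpace.norm_eq]; rfl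

theorem nsq_mulVec_le {ι : Type} [Fintype ι] [DecidableEq ι] (M : Matrix ι ι ℂ) (φ : ι → ℂ)
    (c : ℝ) (hM : ‖M‖ ≤ c) : Real.sqrt (nsq (M.mulVec φ)) ≤ c * Real.sqrt (nsq φ) := by
  have h1 := l2_opNorm_mulVec M (WithLp.toLp 2 φ)
  have h4 : Real.sqrt (nsq (M.mulVec φ)) ≤ ‖M‖ * Real.sqrt (nsq φ) := by
    rw [← sqrt_nsq_eq, ← sqrt_nsq_eq]; exact h1
  exact h4.trans (mul_le_mul_of_nonneg_right hM (Real.sqrt_nonneg _))

/-- The core estimate on one torus, operator norm version. -/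
theorem core_op {d s L : ℕ} [NeZero L] (hs1 : 1 ≤ s) (hsL : s ≤ L)
    (h : Matrix (Box s → Fin d) (Box s → Fin d) ℂ) (hh : h.IsHermitian) (E₀ Δ : ℝ) (hΔ : 0 < Δ)
    (ψ : (Torus L → Fin d) → ℂ) (hg : IsGappedGround (ham L h) E₀ Δ ψ)
    (β ε R : ℝ) (hβ : 0 ≤ β) (hε : 0 < ε)
    (hε1 : ε ≤ 1) (hR : 1 ≤ R) (hR2 : R ^ (2 * s ^ 4) ≤ 4 / 3) (P m : ℕ)
    (hP : 8 * β * (2 * ‖h‖ + 1) * (s ^ 4 : ℕ) / 2 ^ P ≤ Real.log 2)
    (hm : (L : ℝ) ^ 2 * (Real.exp (6 * β * (2 * ‖h‖ + 1) * ((s ^ 4 : ℕ) + 1)) / R ^ m) ≤ ε / 16)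
    {D' : ℕ} (A' : Torus L → Fin d → Fin D' → Fin D' → Fin D' → Fin D' → ℂ)
    (c : ℂ) :
    ∃ q : ℕ, ∃ A : Torus L → Fin d → Fin (nrec s d q P m ^ (s ^ 2) * D') →
      Fin (nrec s d q P m ^ (s ^ 2) * D') → Fin (nrec s d q P m ^ (s ^ 2) * D') →
      Fin (nrec s d q P m ^ (s ^ 2) * D') → ℂ,
      Real.sqrt (nsq (fun σ => pepsState A σ - c * ((star ψ ⬝ᵥ pepsState A') * ψ σ))) ≤
        ‖c‖ * (ε + Real.exp (-(β * Δ))) * Real.sqrt (nsq (pepsState A')) := by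
  classical
  set hH := ham_isHermitian L h hh with hHdef
  obtain ⟨hψ, hHψ, hgap⟩ := hg
  have hg' : IsGappedGround (ham L h) E₀ Δ ψ := ⟨hψ, hHψ, hgap⟩
  obtain ⟨i₀, hi₀, hgap'⟩ := spec_gap hH E₀ Δ hΔ ψ hg'
  have h0 : ∀ i, E₀ ≤ hH.eigenvalues i := by
    intro i
    by_cases hi : i = i₀
    · rw [hi, hi₀]
    · linarith [hgap' i hi]
  set J : ℝ := 2 * ‖h‖ + 1 with hJdef
  have hJ : 0 ≤ J := by positivity
  set N : ℝ := (Fintype.card (Torus L) : ℝ) with hNdef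
  have hN0 : 0 ≤ N := Nat.cast_nonneg _
  have hNL : N = (L : ℝ) ^ 2 := by rw [hNdef, card_torus]; push_cast; ring
  set K0 : ℝ := 4 * (β * J * N) + 4 * (β * J * N) ^ 2 / Real.log 2 +
    2 * (Real.exp (β * J * N) * (β * J * N) ^ 2) / ε with hK0
  have hlog2 : 0 < Real.log 2 := Real.log_pos one_lt_two
  obtain ⟨q, hq⟩ := exists_q K0
  set n : ℕ := 2 ^ (q + P) with hn
  have hn' : (n : ℝ) = 2 ^ (q + P) := by rw [hn]; push_cast; rfl
  have hnK : K0 ≤ (n : ℝ) := by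
    rw [hn', pow_add]
    have : (1 : ℝ) ≤ 2 ^ P := one_le_pow₀ one_le_two
    nlinarith [pow_pos (zero_lt_two (α := ℝ)) q]
  have hnpos : (0 : ℝ) < n := by rw [hn']; positivity
  set x : ℝ := β / 2 ^ (q + P) with hx
  have hx0 : 0 ≤ x := by positivity
  have hnx : (n : ℝ) * x = β := by rw [hn', hx]; field_simp
  have hw0 : 0 ≤ β * J * N := by positivity
  have hu_eq : x * J * N = β * J * N / n := by rw [hx, hn']; ring
  have ht1 : 0 ≤ 4 * (β * J * N) ^ 2 / Real.log 2 := by positivity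
  have ht2 : 0 ≤ 2 * (Real.exp (β * J * N) * (β * J * N) ^ 2) / ε := by
    positivity
  have hu : x * J * N ≤ 1 / 4 := by
    rw [hu_eq, div_le_iff₀ hnpos]; linarith
  have hu2 : 4 * 2 ^ (q + P) * (x * J * N) ^ 2 ≤ Real.log 2 := by
    rw [← hn', hu_eq, div_pow]
    have : 4 * (n : ℝ) * ((β * J * N) ^ 2 / (n : ℝ) ^ 2) = 4 * (β * J * N) ^ 2 / n := by
      field_simp
    rw [this, div_le_iff₀ hnpos]
    have h3 : 4 * (β * J * N) ^ 2 / Real.log 2 ≤ n := by linarith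
    rw [div_le_iff₀ hlog2] at h3
    linarith
  -- the terms
  set g := shifted L h E₀ with hg0
  have hgH : g.IsHermitian := shifted_herm L h hh E₀
  have hsum : ∑ v : Torus L, emb (site v) g = ham L h - (E₀ : ℂ) • 1 := sum_shifted L hsL h E₀
  have hnorm : ∀ b : Torus L, ‖emb (site b) g‖ ≤ J := fun b =>
    (norm_emb_le _ (site_injective hsL b) g).trans (norm_shifted_le L hsL h E₀ ψ hψ hHψ)
  have hherm : ∀ b : Torus L, (emb (site b) g).IsHermitian := fun b => emb_isHermitian _ g hgH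
  have hpsd : (∑ v : Torus L, emb (site v) g).PosSemidef := by
    rw [hsum]; exact spec_psd hH E₀ h0
  have h1 : ∀ i, x * (hH.eigenvalues i - E₀) ≤ 1 := by
    intro i
    have e1 : hH.eigenvalues i - E₀ ≤ J * N := by
      refine (spec_norm hH E₀ i).trans ?_
      rw [← hsum]
      refine (norm_sum_le _ _).trans ?_
      calc ∑ v : Torus L, ‖emb (site v) g‖ ≤ ∑ _v : Torus L, J := Finset.sum_le_sum fun v _ => hnorm v
        _ = J * N := by rw [Finset.sum_const, Finset.card_univ, nsmul_eq_mul, hNdef]; ring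
    nlinarith [mul_le_mul_of_nonneg_left e1 hx0]
  -- the three errors
  set T := Tm (fun b => emb (site b) g) x (adjP (site : Torus L → Box s → Torus L)) q (q + P) m
    with hT
  set S := leafM (fun b : Torus L => emb (site b) g) x ∅ (fun _ => false) with hS
  set Kx : Matrix (Torus L → Fin d) (Torus L → Fin d) ℂ :=
    1 - (x : ℂ) • (ham L h - (E₀ : ℂ) • 1) with hKx
  have e1 : ‖T - S ^ n‖ ≤ ε / 2 := by
    have := err_bound_op (fun b : Torus L => emb (site b) g) J β hJ hβ hherm hnorm hpsd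
      (adjP (site : Torus L → Box s → Torus L)) (adjP_symm _) (adjP_irr _) (s ^ 4)
      (fun b t ht => adjP_deg b t ht) q P m R x hR hR2 hx hu hu2 hP (fun _ => false)
    refine this.trans ?_
    set δ : ℝ := Real.exp (6 * β * J * ((s ^ 4 : ℕ) + 1)) / R ^ m with hδ
    have hδ0 : 0 ≤ δ := by positivity
    have hNδ : N * δ ≤ ε / 16 := by rw [hNL]; exact hm
    have h2 : (1 + δ) ^ Fintype.card (Torus L) - 1 ≤ ε / 8 := by
      refine (pow_le_exp_aux _ δ hδ0 (by rw [← hNdef]; linarith)).trans ?_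
      rw [← hNdef]; linarith
    linarith
  have e2 : ‖S ^ n - Kx ^ n‖ ≤ ε / 2 := by
    have := pow_diff_op (fun b : Torus L => emb (site b) g) J x hJ hx0 hherm hnorm hpsd hu
      (fun _ => false) n
    rw [hsum] at this
    refine this.trans ?_
    have h5 : (n : ℝ) * (x * J * Fintype.card (Torus L)) = β * J * N := by
      rw [← hNdef]; linear_combination (J * N) * hnx
    rw [h5, ← hNdef, hu_eq, div_pow]
    have h6 : (n : ℝ) * Real.exp (β * J * N) *
        ((β * J * N) ^ 2 / (n : ℝ) ^ 2) =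
        (Real.exp (β * J * N) * (β * J * N) ^ 2) / n := by
      field_simp
    rw [h6, div_le_iff₀ hnpos]
    have h7 : 2 * (Real.exp (β * J * N) * (β * J * N) ^ 2) / ε ≤ n := by
      have : 0 ≤ 4 * (β * J * N) := by positivity
      linarith
    rw [div_le_iff₀ hε] at h7
    linarith
  have e3 : ‖Kx ^ n - vecMulVec ψ (star ψ)‖ ≤ Real.exp (-(β * Δ)) :=
    spec_decay hH E₀ Δ hΔ ψ hg' x β n hx0 hnx.symm h1
  have e4 : ‖T - vecMulVec ψ (star ψ)‖ ≤ ε + Real.exp (-(β * Δ)) := by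
    have : T - vecMulVec ψ (star ψ) = (T - S ^ n) + (S ^ n - Kx ^ n) +
        (Kx ^ n - vecMulVec ψ (star ψ)) := by abel
    rw [this]
    refine (norm_add_le _ _).trans ?_
    refine (add_le_add (norm_add_le _ _) le_rfl).trans ?_
    linarith
  obtain ⟨A, hA⟩ := peps_of_rec_peps (L := L) hs1 hsL q P m g x c A'
  refine ⟨q, A, ?_⟩
  have h8 : (fun σ => pepsState A σ - c * ((star ψ ⬝ᵥ pepsState A') * ψ σ)) =
      (c • (T - vecMulVec ψ (star ψ))).mulVec (pepsState A') := by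
    funext σ
    rw [hA σ, ← Tm_eq _ (fun b => site_injective hsL b), Matrix.smul_mulVec, Matrix.sub_mulVec,
      ← hT]
    rw [vecMulVec_mulVec]
    show c * (T *ᵥ pepsState A') σ - c * ((star ψ ⬝ᵥ pepsState A') * ψ σ) =
      c * ((T *ᵥ pepsState A') σ - _)
    rw [Pi.smul_apply]
    show _ = c * ((T *ᵥ pepsState A') σ - ψ σ * (star ψ ⬝ᵥ pepsState A'))
    ring
  have h9 := congrArg nsq h8
  refine (Real.sqrt_le_sqrt h9.le).trans ?_
  apply nsq_mulVec_le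
  rw [norm_smul]
  exact mul_le_mul_of_nonneg_left e4 (norm_nonneg _)

end Pool.Agent.Helper2.PB
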