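import Pool.Agent.Helper2.PB.Amp

/-! Amplification: parameters and the final statements -/

set_option autoImplicit false

namespace Pool.Agent.Helper2.PB

open Matrix
open scoped Matrix.Norms.L2Operator ComplexOrder

/-- Choice of the parameters. -/
theorem params {d s : ℕ} (hs1 : 1 ≤ s) (h : Matrix (Box s → Fin d) (Box s → Fin d) ℂ) :
    ∃ C : ℝ, 0 < C ∧ ∀ (L : ℕ) [NeZero L], ∀ β ε : ℝ, 0 ≤ β → 0 < ε → ε ≤ 1 →
      ∃ (R : ℝ) (P m : ℕ), 1 ≤ R ∧ R ^ (2 * s ^ 4) ≤ 4 / 3 ∧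
        8 * β * (2 * ‖h‖ + 1) * (s ^ 4 : ℕ) / 2 ^ P ≤ Real.log 2 ∧
        (L : ℝ) ^ 2 * (Real.exp (6 * β * (2 * ‖h‖ + 1) * ((s ^ 4 : ℕ) + 1)) / R ^ m) ≤ ε / 16 ∧
        ∀ q : ℕ, ((nrec s d q P m ^ (s ^ 2) : ℕ) : ℝ) ≤ C * (L / ε) ^ C * Real.exp (C * β) := by
  classical
  obtain ⟨κ, hκ, hrec⟩ := nrec_le s d
  set J : ℝ := 2 * ‖h‖ + 1 with hJ
  have hJ0 : 0 < J := by positivity
  set Δ₀ : ℝ := ((s ^ 4 : ℕ) : ℝ) with hΔ₀
  have hΔ1 : 1 ≤ Δ₀ := by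
    rw [hΔ₀]; exact_mod_cast Nat.one_le_pow _ _ hs1
  have hlog2 : 0 < Real.log 2 := Real.log_pos one_lt_two
  set R : ℝ := (4 / 3 : ℝ) ^ ((1 : ℝ) / (2 * (s ^ 4 : ℕ) : ℕ)) with hR
  have hs4 : (2 * (s ^ 4 : ℕ) : ℕ) ≠ 0 := by positivity
  have hR2 : R ^ (2 * s ^ 4) ≤ 4 / 3 := by
    rw [hR, one_div, Real.rpow_inv_natCast_pow (by norm_num) hs4]
  have hR1 : 1 < R := by
    rw [hR]
    apply Real.one_lt_rpow (by norm_num)
    positivity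
  have hlogR : 0 < Real.log R := Real.log_pos hR1
  -- the constants
  set k₁ : ℝ := 6 * J * (Δ₀ + 1) / Real.log R with hk₁
  set k₂ : ℝ := 2 * (8 * J * Δ₀ / Real.log 2) with hk₂
  set C : ℝ := Real.exp (κ * (Real.log 16 / Real.log R + 2)) + κ * (k₁ + k₂) +
    κ * (2 / Real.log R) + 1 with hC
  have hk₁0 : 0 ≤ k₁ := by positivity
  have hk₂0 : 0 ≤ k₂ := by positivity
  have hC1 : 1 ≤ C := by
    have : 0 ≤ Real.exp (κ * (Real.log 16 / Real.log R + 2)) + κ * (k₁ + k₂) +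
      κ * (2 / Real.log R) := by positivity
    linarith
  have hC0 : 0 < C := by linarith
  refine ⟨C, hC0, ?_⟩
  intro L _ β ε hβ hε hε1
  have hL1 : (1 : ℝ) ≤ L := by exact_mod_cast Nat.pos_of_ne_zero (NeZero.ne L)
  have hLε : 1 ≤ (L : ℝ) / ε := by rw [le_div_iff₀ hε]; linarith
  have hLε0 : 0 < (L : ℝ) / ε := by linarith
  -- parameters
  obtain ⟨P, hP1, hP2⟩ := exists_P (8 * β * J * Δ₀ / Real.log 2) (by positivity)
  set m : ℕ := ⌈(6 * β * J * (Δ₀ + 1) + Real.log (16 * (L : ℝ) ^ 2 / ε)) / Real.log R⌉₊ with hm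
  have hP : 8 * β * (2 * ‖h‖ + 1) * (s ^ 4 : ℕ) / 2 ^ P ≤ Real.log 2 := by
    rw [div_le_iff₀ (by positivity)]
    rw [div_le_iff₀ hlog2] at hP1
    calc 8 * β * (2 * ‖h‖ + 1) * (s ^ 4 : ℕ) = 8 * β * J * Δ₀ := by rw [hJ, hΔ₀]
      _ ≤ 2 ^ P * Real.log 2 := hP1
      _ = Real.log 2 * 2 ^ P := by ring
  have harg : 0 < 16 * (L : ℝ) ^ 2 / ε := by positivity
  have hm1 : 6 * β * J * (Δ₀ + 1) + Real.log (16 * (L : ℝ) ^ 2 / ε) ≤ m * Real.log R := by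
    have := Nat.le_ceil ((6 * β * J * (Δ₀ + 1) + Real.log (16 * (L : ℝ) ^ 2 / ε)) / Real.log R)
    rw [← hm, div_le_iff₀ hlogR] at this
    exact this
  have hmm : (L : ℝ) ^ 2 * (Real.exp (6 * β * (2 * ‖h‖ + 1) * ((s ^ 4 : ℕ) + 1)) / R ^ m) ≤
      ε / 16 := by
    have hR0 : 0 < R := by linarith
    have h1 : R ^ m = Real.exp (m * Real.log R) := by
      rw [Real.exp_nat_mul, Real.exp_log hR0]
    have h2 : Real.exp (6 * β * J * (Δ₀ + 1)) * (16 * (L : ℝ) ^ 2 / ε) ≤ R ^ m := by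
      rw [h1]
      calc Real.exp (6 * β * J * (Δ₀ + 1)) * (16 * (L : ℝ) ^ 2 / ε)
          = Real.exp (6 * β * J * (Δ₀ + 1) + Real.log (16 * (L : ℝ) ^ 2 / ε)) := by
            rw [Real.exp_add, Real.exp_log harg]
        _ ≤ _ := Real.exp_le_exp.2 hm1
    have h3 : 0 < R ^ m := by positivity
    rw [← hJ, ← hΔ₀, ← mul_div_assoc, div_le_iff₀ h3]
    have h4 : Real.exp (6 * β * J * (Δ₀ + 1)) * (16 * (L : ℝ) ^ 2 / ε) * (ε / 16) ≤
        R ^ m * (ε / 16) := mul_le_mul_of_nonneg_right h2 (by positivity)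
    have h5 : Real.exp (6 * β * J * (Δ₀ + 1)) * (16 * (L : ℝ) ^ 2 / ε) * (ε / 16) =
        (L : ℝ) ^ 2 * Real.exp (6 * β * J * (Δ₀ + 1)) := by field_simp
    linarith
  refine ⟨R, P, m, hR1.le, hR2, hP, hmm, fun q => ?_⟩
  -- the bound for D
  set X : ℝ := (k₁ + k₂) * β + (Real.log 16 / Real.log R + 2) +
    2 / Real.log R * Real.log (L / ε) with hX
  have hmle : (m : ℝ) ≤ (6 * β * J * (Δ₀ + 1) + Real.log (16 * (L : ℝ) ^ 2 / ε)) / Real.log R + 1 := by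
    rw [hm]
    refine (Nat.ceil_lt_add_one ?_).le
    have : 0 ≤ Real.log (16 * (L : ℝ) ^ 2 / ε) := by
      apply Real.log_nonneg
      rw [le_div_iff₀ hε]; nlinarith
    positivity
  have hlog : Real.log (16 * (L : ℝ) ^ 2 / ε) ≤ Real.log 16 + 2 * Real.log (L / ε) := by
    have e1 : Real.log 16 + 2 * Real.log (L / ε) = Real.log (16 * ((L : ℝ) / ε) ^ 2) := by
      rw [Real.log_mul (by norm_num) (by positivity), Real.log_pow]; push_cast; ring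
    rw [e1]
    apply Real.log_le_log harg
    rw [div_pow, mul_div_assoc]
    apply mul_le_mul_of_nonneg_left _ (by norm_num)
    apply div_le_div_of_nonneg_left (by positivity) (by positivity)
    nlinarith
  have hXle : (m : ℝ) + 2 ^ P ≤ X := by
    have e2 : (6 * β * J * (Δ₀ + 1) + Real.log (16 * (L : ℝ) ^ 2 / ε)) / Real.log R ≤
        k₁ * β + (Real.log 16 / Real.log R + 2 / Real.log R * Real.log (L / ε)) := by
      have : (6 * β * J * (Δ₀ + 1) + (Real.log 16 + 2 * Real.log (L / ε))) / Real.log R =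
          k₁ * β + (Real.log 16 / Real.log R + 2 / Real.log R * Real.log (L / ε)) := by
        rw [hk₁]; field_simp
      rw [← this]
      exact div_le_div_of_nonneg_right (by linarith) hlogR.le
    have e3 : (2 : ℝ) ^ P ≤ k₂ * β + 1 := by
      refine hP2.trans (le_of_eq ?_)
      rw [hk₂]; ring
    rw [hX]; linarith
  refine (hrec q P m X hXle).trans ?_
  have hlogLε : 0 ≤ Real.log (L / ε) := Real.log_nonneg hLε
  have e4 : Real.exp (κ * X) = Real.exp (κ * (Real.log 16 / Real.log R + 2)) *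
      Real.exp (κ * (2 / Real.log R) * Real.log (L / ε)) * Real.exp (κ * (k₁ + k₂) * β) := by
    rw [← Real.exp_add, ← Real.exp_add]; congr 1; rw [hX]; ring
  rw [e4]
  have e5 : Real.exp (κ * (Real.log 16 / Real.log R + 2)) ≤ C := by
    have : 0 ≤ κ * (k₁ + k₂) + κ * (2 / Real.log R) + 1 := by positivity
    linarith
  have e6 : Real.exp (κ * (2 / Real.log R) * Real.log (L / ε)) ≤ ((L : ℝ) / ε) ^ C := by
    rw [Real.rpow_def_of_pos hLε0]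
    apply Real.exp_le_exp.2
    have : κ * (2 / Real.log R) ≤ C := by
      have : 0 ≤ Real.exp (κ * (Real.log 16 / Real.log R + 2)) + κ * (k₁ + k₂) + 1 := by positivity
      linarith
    nlinarith
  have e7 : Real.exp (κ * (k₁ + k₂) * β) ≤ Real.exp (C * β) := by
    apply Real.exp_le_exp.2
    have : κ * (k₁ + k₂) ≤ C := by
      have : 0 ≤ Real.exp (κ * (Real.log 16 / Real.log R + 2)) + κ * (2 / Real.log R) + 1 := by
        positivity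
      linarith
    exact mul_le_mul_of_nonneg_right this hβ
  exact mul_le_mul (mul_le_mul e5 e6 (Real.exp_pos _).le hC0.le) e7 (Real.exp_pos _).le
    (by positivity)

/-- Amplification of a small overlap with the ground state to any accuracy. -/
theorem amplify {d s : ℕ} (hs1 : 1 ≤ s) (h : Matrix (Box s → Fin d) (Box s → Fin d) ℂ)
    (hh : h.IsHermitian) (Δ : ℝ) (hΔ : 0 < Δ) :
    ∃ C : ℝ, 0 < C ∧ ∀ (L : ℕ) [NeZero L], s ≤ L → ∀ (E₀ : ℝ) (ψ : (Torus L → Fin d) → ℂ),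
      IsGappedGround (ham L h) E₀ Δ ψ → ∀ (D' : ℕ)
      (A' : Torus L → Fin d → Fin D' → Fin D' → Fin D' → Fin D' → ℂ) (η δ : ℝ),
      0 < η → η ≤ 1 → 0 < δ → δ ≤ 1 → star ψ ⬝ᵥ pepsState A' ≠ 0 →
      η * Real.sqrt (nsq (pepsState A')) ≤ ‖star ψ ⬝ᵥ pepsState A'‖ →
        ∃ D : ℕ, (D : ℝ) ≤ C * (L / (η * δ)) ^ C * D' ∧
          ∃ A : Torus L → Fin d → Fin D → Fin D → Fin D → Fin D → ℂ,
            Real.sqrt (nsq (fun σ => pepsState A σ - ψ σ)) ≤ δ := by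
  obtain ⟨C, hC, hpar⟩ := params (d := d) hs1 h
  set C' : ℝ := C * 2 ^ C * 2 ^ (C / Δ) + (C + C / Δ) with hC'
  have hC'0 : 0 < C' := by positivity
  refine ⟨C', hC'0, ?_⟩
  intro L _ hsL E₀ ψ hg D' A' η δ hη hη1 hδ hδ1 hne hov
  have hL1 : (1 : ℝ) ≤ L := by exact_mod_cast Nat.pos_of_ne_zero (NeZero.ne L)
  set t : ℝ := η * δ with ht
  have ht0 : 0 < t := by positivity
  have ht1 : t ≤ 1 := by nlinarith
  set β : ℝ := Real.log (2 / t) / Δ with hβ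
  have h2t : 1 ≤ 2 / t := by rw [le_div_iff₀ ht0]; linarith
  have hβ0 : 0 ≤ β := div_nonneg (Real.log_nonneg h2t) hΔ.le
  have hε0 : 0 < t / 2 := by positivity
  have hε1 : t / 2 ≤ 1 := by linarith
  obtain ⟨R, P, m, hR, hR2, hP, hm, hD⟩ := hpar L β (t / 2) hβ0 hε0 hε1
  set c : ℂ := (star ψ ⬝ᵥ pepsState A')⁻¹ with hc
  obtain ⟨q, A, hA⟩ := core_op hs1 hsL h hh E₀ Δ hΔ ψ hg β (t / 2) R hβ0 hε0 hε1 hR hR2 P m hP hm
    A' c
  refine ⟨_, ?_, A, ?_⟩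
  · rw [Nat.cast_mul]
    apply mul_le_mul_of_nonneg_right _ (Nat.cast_nonneg _)
    refine (hD q).trans ?_
    have hLt : 1 ≤ (L : ℝ) / t := by rw [le_div_iff₀ ht0]; linarith
    have hLt0 : 0 < (L : ℝ) / t := by linarith
    have e1 : (L : ℝ) / (t / 2) = 2 * (L / t) := by field_simp
    have e2 : Real.exp (C * β) ≤ 2 ^ (C / Δ) * ((L : ℝ) / t) ^ (C / Δ) := by
      have e3 : Real.exp (C * β) = (2 / t) ^ (C / Δ) := by
        rw [Real.rpow_def_of_pos (by positivity), hβ]; congr 1; field_simp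
      rw [e3, ← Real.mul_rpow (by norm_num) hLt0.le]
      apply Real.rpow_le_rpow (by positivity) _ (by positivity)
      rw [← mul_div_assoc]
      apply div_le_div_of_nonneg_right _ ht0.le
      linarith
    rw [e1, Real.mul_rpow (by norm_num) hLt0.le]
    calc C * (2 ^ C * ((L : ℝ) / t) ^ C) * Real.exp (C * β)
        ≤ C * (2 ^ C * ((L : ℝ) / t) ^ C) * (2 ^ (C / Δ) * ((L : ℝ) / t) ^ (C / Δ)) :=
          mul_le_mul_of_nonneg_left e2 (by positivity)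
      _ = (C * 2 ^ C * 2 ^ (C / Δ)) * ((L : ℝ) / t) ^ (C + C / Δ) := by
          rw [Real.rpow_add hLt0]; ring
      _ ≤ C' * ((L : ℝ) / t) ^ C' := by
          apply mul_le_mul _ _ (Real.rpow_nonneg hLt0.le _) hC'0.le
          · rw [hC']
            have : 0 ≤ C + C / Δ := by positivity
            linarith
          · apply Real.rpow_le_rpow_of_exponent_le hLt
            rw [hC']
            have : 0 ≤ C * 2 ^ C * 2 ^ (C / Δ) := by positivity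
            linarith
  · have e1 : (fun σ => pepsState A σ - c * ((star ψ ⬝ᵥ pepsState A') * ψ σ)) =
        fun σ => pepsState A σ - ψ σ := by
      funext σ
      rw [hc, ← mul_assoc, inv_mul_cancel₀ hne, one_mul]
    have e2 := congrArg nsq e1
    refine (Real.sqrt_le_sqrt e2.symm.le).trans (hA.trans ?_)
    have e3 : ‖c‖ * Real.sqrt (nsq (pepsState A')) ≤ η⁻¹ := by
      rw [hc, norm_inv, inv_mul_le_iff₀ (norm_pos_iff.2 hne), ← div_eq_mul_inv, le_div_iff₀ hη,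
        mul_comm]
      exact hov
    have e4 : Real.exp (-(β * Δ)) = t / 2 := by
      rw [hβ, div_mul_cancel₀ _ hΔ.ne', Real.exp_neg, Real.exp_log (by positivity), inv_div]
    rw [e4]
    calc ‖c‖ * (t / 2 + t / 2) * Real.sqrt (nsq (pepsState A'))
        = ‖c‖ * Real.sqrt (nsq (pepsState A')) * (t / 2 + t / 2) := by ring
      _ ≤ η⁻¹ * (t / 2 + t / 2) := mul_le_mul_of_nonneg_right e3 (by positivity)
      _ = δ := by rw [ht]; field_simp; ring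

/-- Q1 for one inverse polynomial overlap is equivalent to Q1 for all accuracies. -/
theorem amplify_poly {d s : ℕ} (hs1 : 1 ≤ s) (h : Matrix (Box s → Fin d) (Box s → Fin d) ℂ)
    (hh : h.IsHermitian) (Δ : ℝ) (hΔ : 0 < Δ) (E₀ : ℕ → ℝ)
    (ψ : (L : ℕ) → (Torus L → Fin d) → ℂ)
    (hg : ∀ (L : ℕ) [NeZero L], s ≤ L → IsGappedGround (ham L h) (E₀ L) Δ (ψ L))
    (hov : ∃ C k : ℕ, ∀ (L : ℕ) [NeZero L], s ≤ L → ∃ D : ℕ, D ≤ C * L ^ k ∧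
      ∃ A : Torus L → Fin d → Fin D → Fin D → Fin D → Fin D → ℂ,
        star (ψ L) ⬝ᵥ pepsState A ≠ 0 ∧
        Real.sqrt (nsq (pepsState A)) ≤ C * (L : ℝ) ^ k * ‖star (ψ L) ⬝ᵥ pepsState A‖)
    (c : ℝ) (hc : 0 ≤ c) :
    ∃ C k : ℕ, ∀ (L : ℕ) [NeZero L], s ≤ L → ∃ D : ℕ, D ≤ C * L ^ k ∧
      ∃ A : Torus L → Fin d → Fin D → Fin D → Fin D → Fin D → ℂ,
        Real.sqrt (nsq (fun σ => pepsState A σ - ψ L σ)) ≤ (L : ℝ) ^ (-c) := by
  obtain ⟨C₀, hC₀, hamp⟩ := amplify hs1 h hh Δ hΔ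
  obtain ⟨C₁, k₁, hov⟩ := hov
  set B : ℝ := C₀ * (C₁ + 1 : ℝ) ^ C₀ * C₁ with hB
  set k₀ : ℝ := (1 + k₁ + c) * C₀ + k₁ with hk₀
  have hB0 : 0 ≤ B := by positivity
  refine ⟨⌈B⌉₊, ⌈k₀⌉₊, ?_⟩
  intro L _ hsL
  have hL1 : (1 : ℝ) ≤ L := by exact_mod_cast Nat.pos_of_ne_zero (NeZero.ne L)
  have hL0 : (0 : ℝ) < L := by linarith
  obtain ⟨D', hD', A', hA', hA'ov⟩ := hov L hsL
  set η : ℝ := ((C₁ + 1 : ℝ) * (L : ℝ) ^ k₁)⁻¹ with hη
  have hη0 : 0 < η := by positivity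
  have hη1 : η ≤ 1 := by
    rw [hη]
    apply inv_le_one_of_one_le₀
    have h1 : (1 : ℝ) ≤ (L : ℝ) ^ k₁ := one_le_pow₀ hL1
    have h2 : (0 : ℝ) ≤ C₁ := Nat.cast_nonneg _
    nlinarith
  have hηov : η * Real.sqrt (nsq (pepsState A')) ≤ ‖star (ψ L) ⬝ᵥ pepsState A'‖ := by
    rw [hη, inv_mul_le_iff₀ (by positivity)]
    refine hA'ov.trans ?_
    apply mul_le_mul_of_nonneg_right _ (norm_nonneg _)
    apply mul_le_mul_of_nonneg_right _ (by positivity)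
    linarith
  set δ : ℝ := (L : ℝ) ^ (-c) with hδ
  have hδ0 : 0 < δ := Real.rpow_pos_of_pos hL0 _
  have hδ1 : δ ≤ 1 := Real.rpow_le_one_of_one_le_of_nonpos hL1 (by linarith)
  obtain ⟨D, hD, A, hA⟩ := hamp L hsL (E₀ L) (ψ L) (hg L hsL) D' A' η δ hη0 hη1 hδ0 hδ1 hA' hηov
  refine ⟨D, ?_, A, hA⟩
  have h1 : (D : ℝ) ≤ B * (L : ℝ) ^ k₀ := by
    have e1 : (L : ℝ) / (η * δ) = (C₁ + 1 : ℝ) * (L : ℝ) ^ (1 + (k₁ : ℝ) + c) := by
      rw [hη, hδ, Real.rpow_add hL0, Real.rpow_add hL0, Real.rpow_one, Real.rpow_neg hL0.le,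
        Real.rpow_natCast]
      have : (L : ℝ) ^ c ≠ 0 := (Real.rpow_pos_of_pos hL0 _).ne'
      field_simp
    have e2 : ((D' : ℕ) : ℝ) ≤ C₁ * (L : ℝ) ^ (k₁ : ℝ) := by
      rw [Real.rpow_natCast]; exact_mod_cast hD'
    refine hD.trans ?_
    rw [e1, Real.mul_rpow (by positivity) (Real.rpow_nonneg hL0.le _), ← Real.rpow_mul hL0.le]
    calc C₀ * ((C₁ + 1 : ℝ) ^ C₀ * (L : ℝ) ^ ((1 + (k₁ : ℝ) + c) * C₀)) * (D' : ℝ)
        ≤ C₀ * ((C₁ + 1 : ℝ) ^ C₀ * (L : ℝ) ^ ((1 + (k₁ : ℝ) + c) * C₀)) *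
          (C₁ * (L : ℝ) ^ (k₁ : ℝ)) := mul_le_mul_of_nonneg_left e2 (by positivity)
      _ = B * (L : ℝ) ^ k₀ := by
          rw [hk₀, Real.rpow_add hL0, hB]; ring
  have h2 : B * (L : ℝ) ^ k₀ ≤ (⌈B⌉₊ : ℝ) * (L : ℝ) ^ (⌈k₀⌉₊ : ℕ) := by
    apply mul_le_mul (Nat.le_ceil B) _ (Real.rpow_nonneg hL0.le _) (Nat.cast_nonneg _)
    rw [← Real.rpow_natCast]
    exact Real.rpow_le_rpow_of_exponent_le hL1 (Nat.le_ceil k₀)
  have h3 : (D : ℝ) ≤ ((⌈B⌉₊ * L ^ ⌈k₀⌉₊ : ℕ) : ℝ) := by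
    push_cast; exact h1.trans h2
  exact_mod_cast h3

/-- A PEPS at distance `δ₀ < 1` from the unit vector `ψ` has overlap at least `(1-δ₀)/2` times its
norm. -/
theorem overlap_of_close {ι : Type} [Fintype ι] (ψ φ : ι → ℂ) (hψ : nsq ψ = 1) (δ₀ : ℝ)
    (h : Real.sqrt (nsq (fun i => φ i - ψ i)) ≤ δ₀) (h0 : 0 ≤ δ₀) (h1 : δ₀ < 1) :
    star ψ ⬝ᵥ φ ≠ 0 ∧ (1 - δ₀) / 2 * Real.sqrt (nsq φ) ≤ ‖star ψ ⬝ᵥ φ‖ := by
  set p : EuclideanSpace ℂ ι := WithLp.toLp 2 ψ with hp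
  set f : EuclideanSpace ℂ ι := WithLp.toLp 2 φ with hf
  have hpn : ‖p‖ = 1 := by rw [hp, sqrt_nsq_eq, hψ, Real.sqrt_one]
  have hfn : ‖f‖ = Real.sqrt (nsq φ) := sqrt_nsq_eq φ
  have hd : ‖f - p‖ ≤ δ₀ := by
    have : f - p = WithLp.toLp 2 (fun i => φ i - ψ i) := rfl
    rw [this, sqrt_nsq_eq]; exact h
  have hin : inner ℂ p f = star ψ ⬝ᵥ φ := by
    rw [EuclideanSpace.inner_eq_star_dotProduct, dotProduct_comm]
  have hpp : inner ℂ p p = (1 : ℂ) := by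
    rw [inner_self_eq_norm_sq_to_K, hpn]; simp
  have e1 : inner ℂ p f = 1 + inner ℂ p (f - p) := by
    rw [inner_sub_right, hpp]; ring
  have e2 : ‖inner ℂ p (f - p)‖ ≤ δ₀ := by
    refine (norm_inner_le_norm _ _).trans ?_
    rw [hpn, one_mul]; exact hd
  have e3 : 1 - δ₀ ≤ ‖star ψ ⬝ᵥ φ‖ := by
    rw [← hin, e1]
    have := norm_sub_le (1 + inner ℂ p (f - p)) (inner ℂ p (f - p))
    rw [add_sub_cancel_right, norm_one] at this
    linarith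
  have e4 : Real.sqrt (nsq φ) ≤ 2 := by
    rw [← hfn]
    have : ‖f‖ ≤ ‖f - p‖ + ‖p‖ := by
      have := norm_add_le (f - p) p
      rwa [sub_add_cancel] at this
    linarith
  refine ⟨fun hz => ?_, ?_⟩
  · rw [hz, norm_zero] at e3; linarith
  · refine le_trans ?_ e3
    nlinarith

/-- `Q1` for one accuracy `δ₀ < 1` implies `Q1` for all accuracies `L^{-c}`. -/
theorem one_accuracy {d s : ℕ} (hs1 : 1 ≤ s) (h : Matrix (Box s → Fin d) (Box s → Fin d) ℂ)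
    (hh : h.IsHermitian) (Δ : ℝ) (hΔ : 0 < Δ) (E₀ : ℕ → ℝ)
    (ψ : (L : ℕ) → (Torus L → Fin d) → ℂ)
    (hg : ∀ (L : ℕ) [NeZero L], s ≤ L → IsGappedGround (ham L h) (E₀ L) Δ (ψ L))
    (δ₀ : ℝ) (hδ₀ : δ₀ < 1)
    (hov : ∃ C k : ℕ, ∀ (L : ℕ) [NeZero L], s ≤ L → ∃ D : ℕ, D ≤ C * L ^ k ∧
      ∃ A : Torus L → Fin d → Fin D → Fin D → Fin D → Fin D → ℂ,
        Real.sqrt (nsq (fun σ => pepsState A σ - ψ L σ)) ≤ δ₀)
    (c : ℝ) (hc : 0 ≤ c) :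
    ∃ C k : ℕ, ∀ (L : ℕ) [NeZero L], s ≤ L → ∃ D : ℕ, D ≤ C * L ^ k ∧
      ∃ A : Torus L → Fin d → Fin D → Fin D → Fin D → Fin D → ℂ,
        Real.sqrt (nsq (fun σ => pepsState A σ - ψ L σ)) ≤ (L : ℝ) ^ (-c) := by
  obtain ⟨C₁, k₁, hov⟩ := hov
  refine amplify_poly hs1 h hh Δ hΔ E₀ ψ hg ?_ c hc
  refine ⟨C₁ + ⌈2 / (1 - δ₀)⌉₊, k₁, ?_⟩
  intro L _ hsL
  have hL1 : (1 : ℝ) ≤ L := by exact_mod_cast Nat.pos_of_ne_zero (NeZero.ne L)
  obtain ⟨D, hD, A, hA⟩ := hov L hsL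
  have h0 : 0 ≤ δ₀ := (Real.sqrt_nonneg _).trans hA
  obtain ⟨hne, hb⟩ := overlap_of_close (ψ L) (pepsState A) (hg L hsL).1 δ₀ hA h0 hδ₀
  refine ⟨D, hD.trans (Nat.mul_le_mul_right _ (Nat.le_add_right _ _)), A, hne, ?_⟩
  have h1 : 0 < (1 - δ₀) / 2 := by linarith
  have h2 : Real.sqrt (nsq (pepsState A)) ≤ 2 / (1 - δ₀) * ‖star (ψ L) ⬝ᵥ pepsState A‖ := by
    have h3 : Real.sqrt (nsq (pepsState A)) ≤ ‖star (ψ L) ⬝ᵥ pepsState A‖ / ((1 - δ₀) / 2) := by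
      rw [le_div_iff₀ h1, mul_comm]; exact hb
    refine h3.trans (le_of_eq ?_)
    field_simp
  refine h2.trans ?_
  apply mul_le_mul_of_nonneg_right _ (norm_nonneg _)
  have h4 : 2 / (1 - δ₀) ≤ (⌈2 / (1 - δ₀)⌉₊ : ℝ) := Nat.le_ceil _
  have h5 : (1 : ℝ) ≤ (L : ℝ) ^ k₁ := one_le_pow₀ hL1
  have h6 : (0 : ℝ) ≤ C₁ := Nat.cast_nonneg _
  have h7 : (0 : ℝ) ≤ (⌈2 / (1 - δ₀)⌉₊ : ℝ) := Nat.cast_nonneg _
  push_cast
  nlinarith

end Pool.Agent.Helper2.PB
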