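import Pool.Agent.Helper2.PB.Defs2

/-!
# Exponential moment of the tree conflicts
-/

set_option autoImplicit false

namespace Pool.Agent.Helper2.PB

namespace Comb

lemma act_off : (n : ℕ) → act n (off n) = false
  | 0 => rfl
  | n + 1 => by simp [act, off, act_off n]

lemma size_off : (n : ℕ) → size n (off n) = 0
  | 0 => rfl
  | n + 1 => by simp [size, off, size_off n]

lemma eq_off_of_act : (n : ℕ) → (t : Tr Bool n) → act n t = false → t = off n
  | 0, t, h => h
  | n + 1, (t1, t2), h => by
    simp only [act, Bool.or_eq_false_iff] at h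
    rw [eq_off_of_act n t1 h.1, eq_off_of_act n t2 h.2]
    rfl

lemma act_of_size_zero : (n : ℕ) → (t : Tr Bool n) → size n t = 0 → act n t = false
  | 0, t, h => by
    cases t
    · rfl
    · simp [size] at h
  | n + 1, (t1, t2), h => by
    simp only [size, Nat.add_eq_zero_iff] at h
    simp [act, act_of_size_zero n t1 h.1, act_of_size_zero n t2 h.2]

lemma conf_off_left (q : ℕ) : (n : ℕ) → (u : Tr Bool n) → conf q n (off n) u = 0
  | 0, _ => rfl
  | n + 1, (u1, u2) => by
    have h : act (n + 1) (off (n + 1)) = false := act_off (n + 1)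
    simp only [conf, h]
    simp [off, conf_off_left q n]

lemma conf_off_right (q : ℕ) : (n : ℕ) → (s : Tr Bool n) → conf q n s (off n) = 0
  | 0, _ => rfl
  | n + 1, (u1, u2) => by
    have h : act (n + 1) (off (n + 1)) = false := act_off (n + 1)
    simp only [conf, h]
    simp [off, conf_off_right q n]

lemma sum_tr_succ {M : Type} [AddCommMonoid M] (n : ℕ) (g : Tr Bool (n + 1) → M) :
    ∑ S : Tr Bool (n + 1), g S = ∑ S1 : Tr Bool n, ∑ S2 : Tr Bool n, g (S1, S2) :=
  Fintype.sum_prod_type (f := fun S : Tr Bool n × Tr Bool n => g S)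

lemma sum_size (y : ℝ) : (n : ℕ) → ∑ S : Tr Bool n, y ^ size n S = (1 + y) ^ 2 ^ n
  | 0 => by
    show ∑ S : Bool, y ^ (bif S then 1 else 0) = (1 + y) ^ 2 ^ 0
    simp [add_comm]
  | n + 1 => by
    rw [sum_tr_succ]
    have : ∀ S1 S2 : Tr Bool n, y ^ size (n + 1) ((S1, S2) : Tr Bool (n + 1)) =
        y ^ size n S1 * y ^ size n S2 := by
      intro S1 S2
      rw [← pow_add]
      rfl
    simp only [this]
    rw [← Finset.sum_mul_sum, sum_size y n, ← pow_add]
    congr 1
    ring

section C1

variable {E : Type} (q : ℕ) (y R : ℝ) (N : Finset E)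

/-- The sum over the tree of one term. -/
noncomputable def F1 (n : ℕ) (U : E → Tr Bool n) : ℝ :=
  ∑ S : Tr Bool n, y ^ size n S * R ^ (2 * ∑ b ∈ N, conf q n S (U b))

variable {y R}

lemma F1_nonneg (hy : 0 ≤ y) (hR : 1 ≤ R) (n : ℕ) (U : E → Tr Bool n) : 0 ≤ F1 q y R N n U := by
  unfold F1
  refine Finset.sum_nonneg fun S _ => mul_nonneg (pow_nonneg hy _) (pow_nonneg (by linarith) _)

lemma sum_half (n : ℕ) (U : E → Tr Bool (n + 1)) :
    ∑ b ∈ N, size (n + 1) (U b) =
      (∑ b ∈ N, size n (U b).1) + ∑ b ∈ N, size n (U b).2 := by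
  rw [← Finset.sum_add_distrib]
  rfl

lemma F1_succ_of_lt (n : ℕ) (hn : ¬ (n + 1 ≤ q)) (U : E → Tr Bool (n + 1)) :
    F1 q y R N (n + 1) U =
      F1 q y R N n (fun b => (U b).1) * F1 q y R N n (fun b => (U b).2) := by
  unfold F1
  rw [sum_tr_succ, Finset.sum_mul_sum]
  refine Finset.sum_congr rfl fun S1 _ => Finset.sum_congr rfl fun S2 _ => ?_
  have h1 : size (n + 1) ((S1, S2) : Tr Bool (n + 1)) = size n S1 + size n S2 := rfl
  have h2 : ∀ b, conf q (n + 1) ((S1, S2) : Tr Bool (n + 1)) (U b) =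
      conf q n S1 (U b).1 + conf q n S2 (U b).2 := by
    intro b
    simp [conf, hn]
  simp only [h1, h2]
  rw [Finset.sum_add_distrib, mul_add, pow_add, pow_add]
  ring

lemma F1_succ_le (hy : 0 ≤ y) (hR : 1 ≤ R) (Δ₀ : ℕ) (hN : N.card ≤ Δ₀) (n : ℕ)
    (U : E → Tr Bool (n + 1)) :
    F1 q y R N (n + 1) U ≤ 1 + R ^ (2 * Δ₀) *
      (F1 q y R N n (fun b => (U b).1) * F1 q y R N n (fun b => (U b).2) - 1) := by
  have hR1 : 1 ≤ R ^ (2 * Δ₀) := one_le_pow₀ hR
  set R1 := R ^ (2 * Δ₀) with hR1def
  have key : ∀ S1 S2 : Tr Bool n,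
      y ^ size (n + 1) ((S1, S2) : Tr Bool (n + 1)) *
        R ^ (2 * ∑ b ∈ N, conf q (n + 1) ((S1, S2) : Tr Bool (n + 1)) (U b)) ≤
      R1 * ((y ^ size n S1 * R ^ (2 * ∑ b ∈ N, conf q n S1 (U b).1)) *
        (y ^ size n S2 * R ^ (2 * ∑ b ∈ N, conf q n S2 (U b).2))) -
        (R1 - 1) * ((if S1 = off n then (1 : ℝ) else 0) * (if S2 = off n then (1 : ℝ) else 0)) := by
    intro S1 S2
    by_cases hS : S1 = off n ∧ S2 = off n
    · obtain ⟨rfl, rfl⟩ := hS
      have h1 : size (n + 1) ((off n, off n) : Tr Bool (n + 1)) = 0 := size_off (n + 1)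
      have h2 : ∀ b, conf q (n + 1) ((off n, off n) : Tr Bool (n + 1)) (U b) = 0 :=
        fun b => conf_off_left q (n + 1) (U b)
      simp only [h1, h2, size_off, conf_off_left]
      simp
    · have h0 : ((if S1 = off n then (1 : ℝ) else 0) * (if S2 = off n then (1 : ℝ) else 0)) = 0 := by
        by_cases h1 : S1 = off n
        · have h2 : S2 ≠ off n := fun h => hS ⟨h1, h⟩
          simp [h2]
        · simp [h1]
      rw [h0, mul_zero, sub_zero]
      have h1 : size (n + 1) ((S1, S2) : Tr Bool (n + 1)) = size n S1 + size n S2 := rfl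
      have h2 : ∑ b ∈ N, conf q (n + 1) ((S1, S2) : Tr Bool (n + 1)) (U b) ≤
          Δ₀ + ((∑ b ∈ N, conf q n S1 (U b).1) + ∑ b ∈ N, conf q n S2 (U b).2) := by
        calc ∑ b ∈ N, conf q (n + 1) ((S1, S2) : Tr Bool (n + 1)) (U b)
            ≤ ∑ b ∈ N, (1 + (conf q n S1 (U b).1 + conf q n S2 (U b).2)) := by
              refine Finset.sum_le_sum fun b _ => ?_
              simp only [conf]
              split_ifs <;> omega
          _ = N.card + ((∑ b ∈ N, conf q n S1 (U b).1) + ∑ b ∈ N, conf q n S2 (U b).2) := by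
              rw [Finset.sum_add_distrib, Finset.sum_add_distrib]
              simp
          _ ≤ _ := by gcongr
      calc y ^ size (n + 1) ((S1, S2) : Tr Bool (n + 1)) *
            R ^ (2 * ∑ b ∈ N, conf q (n + 1) ((S1, S2) : Tr Bool (n + 1)) (U b))
          ≤ y ^ (size n S1 + size n S2) *
            R ^ (2 * (Δ₀ + ((∑ b ∈ N, conf q n S1 (U b).1) + ∑ b ∈ N, conf q n S2 (U b).2))) := by
            rw [h1]
            refine mul_le_mul_of_nonneg_left ?_ (pow_nonneg hy _)
            exact pow_le_pow_right₀ hR (by omega)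
        _ = _ := by
            rw [mul_add, mul_add, pow_add, pow_add, pow_add]
            ring
  unfold F1
  rw [sum_tr_succ]
  calc ∑ S1 : Tr Bool n, ∑ S2 : Tr Bool n, y ^ size (n + 1) ((S1, S2) : Tr Bool (n + 1)) *
        R ^ (2 * ∑ b ∈ N, conf q (n + 1) ((S1, S2) : Tr Bool (n + 1)) (U b))
      ≤ ∑ S1 : Tr Bool n, ∑ S2 : Tr Bool n,
        (R1 * ((y ^ size n S1 * R ^ (2 * ∑ b ∈ N, conf q n S1 (U b).1)) *
        (y ^ size n S2 * R ^ (2 * ∑ b ∈ N, conf q n S2 (U b).2))) -
        (R1 - 1) * ((if S1 = off n then (1 : ℝ) else 0) *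
          (if S2 = off n then (1 : ℝ) else 0))) :=
        Finset.sum_le_sum fun S1 _ => Finset.sum_le_sum fun S2 _ => key S1 S2
    _ = _ := by
        have e1 : ∑ S1 : Tr Bool n, ∑ S2 : Tr Bool n, ((if S1 = off n then (1 : ℝ) else 0) *
          (if S2 = off n then (1 : ℝ) else 0)) = 1 := by
          rw [← Finset.sum_mul_sum]
          simp
        simp only [Finset.sum_sub_distrib, ← Finset.mul_sum]
        simp only [← Finset.mul_sum] at e1
        rw [e1, ← Finset.sum_mul]
        ring

lemma F1_exp_le (hy : 0 ≤ y) (hR : 1 ≤ R) (Δ₀ : ℕ) (hR2 : R ^ (2 * Δ₀) ≤ 4 / 3)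
    (hN : N.card ≤ Δ₀) : ∀ (n : ℕ), n ≤ q → ∀ U : E → Tr Bool n,
    F1 q y R N n U ≤
      Real.exp (y * 2 ^ n * max 1 (2 * ((∑ b ∈ N, size n (U b) : ℕ) : ℝ))) := by
  intro n
  induction n with
  | zero =>
    intro _ U
    have h : F1 q y R N 0 U = 1 + y := by
      show ∑ S : Bool, y ^ (bif S then 1 else 0) * R ^ (2 * ∑ b ∈ N, 0) = 1 + y
      simp [add_comm]
    rw [h]
    calc 1 + y ≤ Real.exp y := by
          have := Real.add_one_le_exp y
          linarith
      _ ≤ _ := by
          apply Real.exp_le_exp.2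
          rw [pow_zero, mul_one]
          exact le_mul_of_one_le_right hy (le_max_left _ _)
  | succ n ih =>
    intro hn U
    have hn' : n ≤ q := by omega
    by_cases hu : ∑ b ∈ N, size (n + 1) (U b) = 0
    · have hconf : ∀ S : Tr Bool (n + 1), ∑ b ∈ N, conf q (n + 1) S (U b) = 0 := by
        intro S
        refine Finset.sum_eq_zero fun b hb => ?_
        have h0 : size (n + 1) (U b) = 0 := Finset.sum_eq_zero_iff.1 hu b hb
        rw [eq_off_of_act _ _ (act_of_size_zero _ _ h0)]
        exact conf_off_right q (n + 1) S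
      have h1 : F1 q y R N (n + 1) U = (1 + y) ^ 2 ^ (n + 1) := by
        unfold F1
        simp only [hconf]
        simp only [mul_zero, pow_zero, mul_one]
        exact sum_size y (n + 1)
      rw [h1]
      calc (1 + y) ^ 2 ^ (n + 1) ≤ (Real.exp y) ^ 2 ^ (n + 1) := by
            refine pow_le_pow_left₀ (by linarith) ?_ _
            have := Real.add_one_le_exp y
            linarith
        _ = Real.exp (y * 2 ^ (n + 1)) := by
            rw [← Real.exp_nat_mul]
            congr 1
            push_cast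
            ring
        _ ≤ _ := by
            apply Real.exp_le_exp.2
            exact le_mul_of_one_le_right (by positivity) (le_max_left _ _)
    · have h2 := F1_succ_le q N hy hR Δ₀ hN n U
      have hA := ih hn' (fun b => (U b).1)
      have hB := ih hn' (fun b => (U b).2)
      set u1 : ℕ := ∑ b ∈ N, size n (U b).1 with hu1
      set u2 : ℕ := ∑ b ∈ N, size n (U b).2 with hu2
      have hsum : ∑ b ∈ N, size (n + 1) (U b) = u1 + u2 := sum_half N n U
      rw [hsum] at hu ⊢
      set R1 := R ^ (2 * Δ₀) with hR1def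
      have hR1 : 1 ≤ R1 := one_le_pow₀ hR
      set v : ℝ := y * 2 ^ n * max 1 (2 * (u1 : ℝ)) + y * 2 ^ n * max 1 (2 * (u2 : ℝ)) with hv
      have hAB : F1 q y R N n (fun b => (U b).1) * F1 q y R N n (fun b => (U b).2) ≤
          Real.exp v := by
        rw [hv, Real.exp_add]
        exact mul_le_mul hA hB (F1_nonneg q N hy hR n _) (Real.exp_pos _).le
      have hbern : 1 + R1 * (Real.exp v - 1) ≤ Real.exp (v * R1) := by
        rw [Real.exp_mul]
        have h3 := one_add_mul_self_le_rpow_one_add (s := Real.exp v - 1)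
          (by linarith [Real.exp_pos v]) hR1
        rwa [add_sub_cancel] at h3
      have hG : v * R1 ≤ y * 2 ^ (n + 1) * max 1 (2 * ((u1 + u2 : ℕ) : ℝ)) := by
        have hc : (max 1 (2 * (u1 : ℝ)) + max 1 (2 * (u2 : ℝ))) * R1 ≤
            2 * max 1 (2 * ((u1 + u2 : ℕ) : ℝ)) := by
          have hpos : 0 ≤ max 1 (2 * (u1 : ℝ)) + max 1 (2 * (u2 : ℝ)) := by positivity
          have h4 : (max 1 (2 * (u1 : ℝ)) + max 1 (2 * (u2 : ℝ))) * R1 ≤
              (max 1 (2 * (u1 : ℝ)) + max 1 (2 * (u2 : ℝ))) * (4 / 3) :=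
            mul_le_mul_of_nonneg_left hR2 hpos
          refine h4.trans ?_
          have h5 : 2 * ((u1 + u2 : ℕ) : ℝ) ≤ max 1 (2 * ((u1 + u2 : ℕ) : ℝ)) := le_max_right _ _
          have h6 : (1 : ℝ) ≤ ((u1 + u2 : ℕ) : ℝ) := by
            exact_mod_cast Nat.one_le_iff_ne_zero.2 hu
          push_cast at h5 h6 ⊢
          rcases Nat.eq_zero_or_pos u1 with h7 | h7 <;> rcases Nat.eq_zero_or_pos u2 with h8 | h8
          · simp [h7, h8] at hu
          · have h9 : (1 : ℝ) ≤ u2 := by exact_mod_cast h8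
            have e1 : max 1 (2 * (u1 : ℝ)) = 1 := by rw [h7]; simp
            have e2 : max 1 (2 * (u2 : ℝ)) = 2 * u2 := max_eq_right (by linarith)
            rw [e1, e2]
            rw [h7] at h5 ⊢
            push_cast at h5 ⊢
            linarith
          · have h9 : (1 : ℝ) ≤ u1 := by exact_mod_cast h7
            have e1 : max 1 (2 * (u2 : ℝ)) = 1 := by rw [h8]; simp
            have e2 : max 1 (2 * (u1 : ℝ)) = 2 * u1 := max_eq_right (by linarith)
            rw [e1, e2]
            rw [h8] at h5 ⊢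
            push_cast at h5 ⊢
            linarith
          · have h9 : (1 : ℝ) ≤ u1 := by exact_mod_cast h7
            have h10 : (1 : ℝ) ≤ u2 := by exact_mod_cast h8
            have e1 : max 1 (2 * (u1 : ℝ)) = 2 * u1 := max_eq_right (by linarith)
            have e2 : max 1 (2 * (u2 : ℝ)) = 2 * u2 := max_eq_right (by linarith)
            rw [e1, e2]
            linarith
        calc v * R1 = (y * 2 ^ n) * ((max 1 (2 * (u1 : ℝ)) + max 1 (2 * (u2 : ℝ))) * R1) := by
              rw [hv]; ring
          _ ≤ (y * 2 ^ n) * (2 * max 1 (2 * ((u1 + u2 : ℕ) : ℝ))) :=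
              mul_le_mul_of_nonneg_left hc (by positivity)
          _ = _ := by rw [pow_succ]; ring
      calc F1 q y R N (n + 1) U ≤ 1 + R1 *
            (F1 q y R N n (fun b => (U b).1) * F1 q y R N n (fun b => (U b).2) - 1) := h2
        _ ≤ 1 + R1 * (Real.exp v - 1) := by
            have := mul_le_mul_of_nonneg_left (sub_le_sub_right hAB 1) (by linarith : 0 ≤ R1)
            linarith
        _ ≤ Real.exp (v * R1) := hbern
        _ ≤ _ := Real.exp_le_exp.2 hG

lemma one_max_le (a : ℝ) (ha : 0 ≤ a) : max 1 (2 * a) ≤ 1 + 2 * a :=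
  max_le (by linarith) (by linarith)

/-- (C1) -/
lemma F1_bound (hy : 0 ≤ y) (hR : 1 ≤ R) (Δ₀ : ℕ) (hR2 : R ^ (2 * Δ₀) ≤ 4 / 3)
    (hN : N.card ≤ Δ₀) : ∀ (n : ℕ) (U : E → Tr Bool n),
    F1 q y R N n U ≤
      Real.exp (y * 2 ^ n + 2 * y * 2 ^ q * ((∑ b ∈ N, size n (U b) : ℕ) : ℝ)) := by
  intro n
  induction n with
  | zero =>
    intro U
    refine (F1_exp_le q N hy hR Δ₀ hR2 hN 0 (Nat.zero_le _) U).trans (Real.exp_le_exp.2 ?_)
    have h1 : max 1 (2 * ((∑ b ∈ N, size 0 (U b) : ℕ) : ℝ)) ≤
        1 + 2 * ((∑ b ∈ N, size 0 (U b) : ℕ) : ℝ) :=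
      one_max_le _ (Nat.cast_nonneg _)
    have h2 : (1 : ℝ) ≤ 2 ^ q := one_le_pow₀ (by norm_num)
    have h3 : 0 ≤ 2 * ((∑ b ∈ N, size 0 (U b) : ℕ) : ℝ) := by positivity
    calc y * 2 ^ 0 * max 1 (2 * ((∑ b ∈ N, size 0 (U b) : ℕ) : ℝ))
        ≤ y * 2 ^ 0 * (1 + 2 * ((∑ b ∈ N, size 0 (U b) : ℕ) : ℝ)) :=
          mul_le_mul_of_nonneg_left h1 (by positivity)
      _ = y * 2 ^ 0 + y * 1 * (2 * ((∑ b ∈ N, size 0 (U b) : ℕ) : ℝ)) := by ring
      _ ≤ y * 2 ^ 0 + y * 2 ^ q * (2 * ((∑ b ∈ N, size 0 (U b) : ℕ) : ℝ)) := by gcongr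
      _ = _ := by ring
  | succ n ih =>
    intro U
    by_cases hn : n + 1 ≤ q
    · refine (F1_exp_le q N hy hR Δ₀ hR2 hN (n + 1) hn U).trans (Real.exp_le_exp.2 ?_)
      have h1 : max 1 (2 * ((∑ b ∈ N, size (n + 1) (U b) : ℕ) : ℝ)) ≤
          1 + 2 * ((∑ b ∈ N, size (n + 1) (U b) : ℕ) : ℝ) :=
        one_max_le _ (Nat.cast_nonneg _)
      have h2 : (2 : ℝ) ^ (n + 1) ≤ 2 ^ q := pow_le_pow_right₀ (by norm_num) hn
      calc y * 2 ^ (n + 1) * max 1 (2 * ((∑ b ∈ N, size (n + 1) (U b) : ℕ) : ℝ))
          ≤ y * 2 ^ (n + 1) * (1 + 2 * ((∑ b ∈ N, size (n + 1) (U b) : ℕ) : ℝ)) :=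
            mul_le_mul_of_nonneg_left h1 (by positivity)
        _ = y * 2 ^ (n + 1) + y * 2 ^ (n + 1) * (2 * ((∑ b ∈ N, size (n + 1) (U b) : ℕ) : ℝ)) := by
            ring
        _ ≤ y * 2 ^ (n + 1) + y * 2 ^ q * (2 * ((∑ b ∈ N, size (n + 1) (U b) : ℕ) : ℝ)) := by
            gcongr
        _ = _ := by ring
    · rw [F1_succ_of_lt q N n hn U, sum_half N n U]
      calc F1 q y R N n (fun b => (U b).1) * F1 q y R N n (fun b => (U b).2)
          ≤ Real.exp (y * 2 ^ n + 2 * y * 2 ^ q * ((∑ b ∈ N, size n (U b).1 : ℕ) : ℝ)) *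
            Real.exp (y * 2 ^ n + 2 * y * 2 ^ q * ((∑ b ∈ N, size n (U b).2 : ℕ) : ℝ)) :=
            mul_le_mul (ih _) (ih _) (F1_nonneg q N hy hR n _) (Real.exp_pos _).le
        _ = _ := by
            rw [← Real.exp_add]
            congr 1
            push_cast
            ring

end C1

section C2

variable {E : Type} [Fintype E] [DecidableEq E] (adj : E → E → Prop)

open Classical in
lemma cost_succ (q n : ℕ) (ξ : E → Tr Bool (n + 1)) (b : E) :
    cost adj q (n + 1) ξ b = (if n + 1 ≤ q ∧ act (n + 1) (ξ b) = true ∧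
          ∃ b', adj b b' ∧ act (n + 1) (ξ b') = true then 1 else 0) +
      cost adj q n (fun b' => (ξ b').1) b + cost adj q n (fun b' => (ξ b').2) b := by
  rw [cost]
  split_ifs <;> rfl

open Classical in
/-- (C2): switching off one term. -/
lemma cost_le (hsymm : ∀ b b', adj b b' → adj b' b) (q : ℕ) (b₀ : E) :
    ∀ (n : ℕ) (ξ : E → Tr Bool n),
    ∑ b, cost adj q n ξ b ≤ ∑ b, cost adj q n (Function.update ξ b₀ (off n)) b +
      2 * ∑ b ∈ Finset.univ.filter (adj b₀), conf q n (ξ b₀) (ξ b) := by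
  intro n
  induction n with
  | zero => intro ξ; simp [cost]
  | succ n ih =>
    intro ξ
    have hupd1 : (fun b' => (Function.update ξ b₀ (off (n + 1)) b').1) =
        Function.update (fun b' => (ξ b').1) b₀ (off n) := by
      funext b'
      by_cases h : b' = b₀
      · subst h
        rw [Function.update_self, Function.update_self]
        rfl
      · rw [Function.update_of_ne h, Function.update_of_ne h]
    have hupd2 : (fun b' => (Function.update ξ b₀ (off (n + 1)) b').2) =
        Function.update (fun b' => (ξ b').2) b₀ (off n) := by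
      funext b'
      by_cases h : b' = b₀
      · subst h
        rw [Function.update_self, Function.update_self]
        rfl
      · rw [Function.update_of_ne h, Function.update_of_ne h]
    have h1 := ih (fun b' => (ξ b').1)
    have h2 := ih (fun b' => (ξ b').2)
    have hnode : ∑ b, (if n + 1 ≤ q ∧ act (n + 1) (ξ b) = true ∧
          ∃ b', adj b b' ∧ act (n + 1) (ξ b') = true then 1 else 0) ≤
        ∑ b, (if n + 1 ≤ q ∧ act (n + 1) (Function.update ξ b₀ (off (n + 1)) b) = true ∧
          ∃ b', adj b b' ∧ act (n + 1) (Function.update ξ b₀ (off (n + 1)) b') = true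
          then 1 else 0) +
        2 * ∑ b ∈ Finset.univ.filter (adj b₀),
          (if n + 1 ≤ q ∧ act (n + 1) (ξ b₀) = true ∧ act (n + 1) (ξ b) = true
            then 1 else 0) := by
      by_cases hn : n + 1 ≤ q
      swap
      · simp [hn]
      by_cases h0 : act (n + 1) (ξ b₀) = true
      swap
      · have h0' : act (n + 1) (ξ b₀) = false := by simpa using h0
        have : Function.update ξ b₀ (off (n + 1)) = ξ := by
          rw [← eq_off_of_act _ _ h0']
          simp
        rw [this]
        omega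
      have hpt : ∀ b, (if n + 1 ≤ q ∧ act (n + 1) (ξ b) = true ∧
          ∃ b', adj b b' ∧ act (n + 1) (ξ b') = true then 1 else 0) ≤
          (if n + 1 ≤ q ∧ act (n + 1) (Function.update ξ b₀ (off (n + 1)) b) = true ∧
          ∃ b', adj b b' ∧ act (n + 1) (Function.update ξ b₀ (off (n + 1)) b') = true
          then 1 else 0) +
          ((if b = b₀ then (if ∃ b', adj b₀ b' ∧ act (n + 1) (ξ b') = true then 1 else 0) else 0) +
          (if adj b₀ b ∧ act (n + 1) (ξ b) = true then 1 else 0)) := by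
        intro b
        by_cases hb : b = b₀
        · subst hb
          simp only [hn, h0, true_and, if_true]
          omega
        · by_cases hadj : adj b₀ b
          · by_cases ha : act (n + 1) (ξ b) = true
            · simp only [hn, ha, hadj, true_and, and_self, if_true, hb, if_false]
              split_ifs <;> omega
            · simp [ha]
          · by_cases hcond : n + 1 ≤ q ∧ act (n + 1) (ξ b) = true ∧
                ∃ b', adj b b' ∧ act (n + 1) (ξ b') = true
            · obtain ⟨_, ha, b', hb', ha'⟩ := hcond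
              have hne : b' ≠ b₀ := by
                rintro rfl
                exact hadj (hsymm _ _ hb')
              have hcond' : n + 1 ≤ q ∧
                  act (n + 1) (Function.update ξ b₀ (off (n + 1)) b) = true ∧
                  ∃ b', adj b b' ∧
                    act (n + 1) (Function.update ξ b₀ (off (n + 1)) b') = true := by
                refine ⟨hn, ?_, b', hb', ?_⟩
                · rw [Function.update_of_ne hb]; exact ha
                · rw [Function.update_of_ne hne]; exact ha'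
              rw [if_pos hcond']
              split_ifs <;> omega
            · rw [if_neg hcond]
              omega
      refine (Finset.sum_le_sum fun b _ => hpt b).trans ?_
      rw [Finset.sum_add_distrib, Finset.sum_add_distrib]
      have e1 : ∑ b, (if b = b₀ then (if ∃ b', adj b₀ b' ∧ act (n + 1) (ξ b') = true
          then 1 else 0) else 0) =
          (if ∃ b', adj b₀ b' ∧ act (n + 1) (ξ b') = true then 1 else 0) := by
        simp
      have e2 : ∑ b, (if adj b₀ b ∧ act (n + 1) (ξ b) = true then 1 else 0) =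
          ∑ b ∈ Finset.univ.filter (adj b₀),
          (if n + 1 ≤ q ∧ act (n + 1) (ξ b₀) = true ∧ act (n + 1) (ξ b) = true
            then 1 else 0) := by
        rw [Finset.sum_filter]
        refine Finset.sum_congr rfl fun b _ => ?_
        by_cases h3 : adj b₀ b <;> simp [h3, hn, h0]
      have e3 : (if ∃ b', adj b₀ b' ∧ act (n + 1) (ξ b') = true then 1 else 0) ≤
          ∑ b, (if adj b₀ b ∧ act (n + 1) (ξ b) = true then 1 else 0) := by
        split_ifs with h3
        · obtain ⟨b', hb', ha'⟩ := h3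
          calc 1 = (if adj b₀ b' ∧ act (n + 1) (ξ b') = true then 1 else 0) := by
                rw [if_pos ⟨hb', ha'⟩]
            _ ≤ _ := Finset.single_le_sum
                (f := fun b => (if adj b₀ b ∧ act (n + 1) (ξ b) = true then 1 else 0))
                (fun _ _ => Nat.zero_le _) (Finset.mem_univ b')
        · exact Nat.zero_le _
      rw [e1, ← e2]
      omega
    have hL : ∑ b, cost adj q (n + 1) ξ b =
        ∑ b, (if n + 1 ≤ q ∧ act (n + 1) (ξ b) = true ∧
          ∃ b', adj b b' ∧ act (n + 1) (ξ b') = true then 1 else 0) +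
        ∑ b, cost adj q n (fun b' => (ξ b').1) b + ∑ b, cost adj q n (fun b' => (ξ b').2) b := by
      rw [← Finset.sum_add_distrib, ← Finset.sum_add_distrib]
      exact Finset.sum_congr rfl fun b _ => cost_succ adj q n ξ b
    have hR : ∑ b, cost adj q (n + 1) (Function.update ξ b₀ (off (n + 1))) b =
        ∑ b, (if n + 1 ≤ q ∧ act (n + 1) (Function.update ξ b₀ (off (n + 1)) b) = true ∧
          ∃ b', adj b b' ∧ act (n + 1) (Function.update ξ b₀ (off (n + 1)) b') = true
          then 1 else 0) +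
        ∑ b, cost adj q n (Function.update (fun b' => (ξ b').1) b₀ (off n)) b +
        ∑ b, cost adj q n (Function.update (fun b' => (ξ b').2) b₀ (off n)) b := by
      rw [← Finset.sum_add_distrib, ← Finset.sum_add_distrib]
      refine Finset.sum_congr rfl fun b _ => ?_
      rw [← hupd1, ← hupd2]
      exact cost_succ adj q n _ b
    have hC : ∑ b ∈ Finset.univ.filter (adj b₀), conf q (n + 1) (ξ b₀) (ξ b) =
        ∑ b ∈ Finset.univ.filter (adj b₀),
          (if n + 1 ≤ q ∧ act (n + 1) (ξ b₀) = true ∧ act (n + 1) (ξ b) = true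
            then 1 else 0) +
        ∑ b ∈ Finset.univ.filter (adj b₀), conf q n (ξ b₀).1 (ξ b).1 +
        ∑ b ∈ Finset.univ.filter (adj b₀), conf q n (ξ b₀).2 (ξ b).2 := by
      rw [← Finset.sum_add_distrib, ← Finset.sum_add_distrib]
      rfl
    rw [hL, hR, hC]
    omega

end C2

section C3

variable {E : Type} [Fintype E] [DecidableEq E] (adj : E → E → Prop)

/-- Configurations supported on `F`. -/
def supp (n : ℕ) (F : Finset E) : Finset (E → Tr Bool n) :=
  Fintype.piFinset (fun b => if b ∈ F then (Finset.univ : Finset (Tr Bool n)) else {off n})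

lemma mem_supp (n : ℕ) (F : Finset E) (ξ : E → Tr Bool n) :
    ξ ∈ supp n F ↔ ∀ b, b ∉ F → ξ b = off n := by
  unfold supp
  rw [Fintype.mem_piFinset]
  refine forall_congr' fun b => ?_
  by_cases hb : b ∈ F <;> simp [hb]

lemma sum_supp_insert (n : ℕ) (F : Finset E) (b₀ : E) (hb : b₀ ∉ F)
    (g : (E → Tr Bool n) → ℝ) :
    ∑ ξ ∈ supp n (insert b₀ F), g ξ =
      ∑ ξ ∈ supp n F, ∑ S : Tr Bool n, g (Function.update ξ b₀ S) := by
  rw [← Finset.sum_product']
  symm
  refine Finset.sum_nbij' (fun p => Function.update p.1 b₀ p.2)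
    (fun ξ => (Function.update ξ b₀ (off n), ξ b₀)) ?_ ?_ ?_ ?_ ?_
  · rintro ⟨ξ, S⟩ h
    rw [Finset.mem_product] at h
    rw [mem_supp] at h ⊢
    intro b hb'
    rw [Finset.mem_insert, not_or] at hb'
    show Function.update ξ b₀ S b = off n
    rw [Function.update_of_ne hb'.1]
    exact h.1 b hb'.2
  · intro ξ h
    rw [Finset.mem_product]
    refine ⟨?_, Finset.mem_univ _⟩
    rw [mem_supp] at h ⊢
    intro b hb'
    show Function.update ξ b₀ (off n) b = off n
    by_cases hbb : b = b₀
    · subst hbb; simp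
    · rw [Function.update_of_ne hbb]
      exact h b (by simp [hbb, hb'])
  · rintro ⟨ξ, S⟩ h
    rw [Finset.mem_product, mem_supp] at h
    have h0 : ξ b₀ = off n := h.1 b₀ hb
    simp only [Function.update_idem, Function.update_self, Prod.mk.injEq, and_true]
    rw [← h0]
    simp
  · intro ξ _
    simp
  · rintro ⟨ξ, S⟩ _
    rfl

lemma prod_update (n : ℕ) (w : E → ℝ) (ξ : E → Tr Bool n) (b₀ : E) (h0 : ξ b₀ = off n)
    (S : Tr Bool n) :
    ∏ b, w b ^ size n (Function.update ξ b₀ S b) =
      w b₀ ^ size n S * ∏ b, w b ^ size n (ξ b) := by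
  rw [← Finset.mul_prod_erase Finset.univ
    (fun b => w b ^ size n (Function.update ξ b₀ S b)) (Finset.mem_univ b₀)]
  rw [← Finset.mul_prod_erase Finset.univ (fun b => w b ^ size n (ξ b)) (Finset.mem_univ b₀)]
  simp only [Function.update_self, h0, size_off, pow_zero, one_mul]
  congr 1
  refine Finset.prod_congr rfl fun b hb => ?_
  rw [Function.update_of_ne (Finset.ne_of_mem_erase hb)]

open Classical in
/-- (C3) -/
lemma weighted (hsymm : ∀ b b', adj b b' → adj b' b) (hirr : ∀ b, ¬ adj b b) (Δ₀ : ℕ)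
    (hdeg : ∀ b (s : Finset E), (∀ b' ∈ s, adj b b') → s.card ≤ Δ₀)
    (q n : ℕ) (Y R : ℝ) (hR : 1 ≤ R) (hR2 : R ^ (2 * Δ₀) ≤ 4 / 3)
    (F : Finset E) : ∀ (w : E → ℝ), (∀ b, 0 ≤ w b) →
    (∀ b ∈ F, w b ≤ Y * Real.exp (-(2 * 2 ^ q * Y * ((F.filter (adj b)).card : ℝ)))) →
    ∑ ξ ∈ supp n F, (∏ b, w b ^ size n (ξ b)) * R ^ (∑ b, cost adj q n ξ b) ≤
      Real.exp (Y * 2 ^ n * F.card) := by
  induction F using Finset.induction_on with
  | empty =>
    intro w _ _
    have h1 : supp n (∅ : Finset E) = {fun _ => off n} := by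
      ext ξ
      rw [mem_supp, Finset.mem_singleton]
      constructor
      · intro h
        funext b
        exact h b (by simp)
      · rintro rfl b _
        rfl
    have hcost : ∀ n, ∀ b, cost adj q n (fun _ : E => off n) b = 0 := by
      intro n
      induction n with
      | zero => intro b; rfl
      | succ n ih =>
        intro b
        rw [cost_succ]
        have h2 : (fun b' : E => ((fun _ : E => off (n + 1)) b').1) = fun _ => off n := rfl
        have h3 : (fun b' : E => ((fun _ : E => off (n + 1)) b').2) = fun _ => off n := rfl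
        rw [h2, h3, ih b]
        simp [act_off (n + 1)]
    rw [h1, Finset.sum_singleton]
    simp [size_off, hcost]
  | insert b₀ F hb ih =>
    intro w hw hwF
    have hY : 0 ≤ Y := by
      have h1 := hwF b₀ (Finset.mem_insert_self _ _)
      have h2 := hw b₀
      by_contra hneg
      have h3 := mul_neg_of_neg_of_pos (not_le.1 hneg)
        (Real.exp_pos (-(2 * 2 ^ q * Y * (((insert b₀ F).filter (adj b₀)).card : ℝ))))
      linarith
    have hexp1 : ∀ c : ℕ, Real.exp (-(2 * 2 ^ q * Y * (c : ℝ))) ≤ 1 := by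
      intro c
      rw [Real.exp_le_one_iff]
      have : 0 ≤ 2 * 2 ^ q * Y * (c : ℝ) := by positivity
      linarith
    have hw0 : w b₀ ≤ Y := by
      refine (hwF b₀ (Finset.mem_insert_self _ _)).trans ?_
      exact mul_le_of_le_one_right hY (hexp1 _)
    set N : Finset E := Finset.univ.filter (adj b₀) with hN
    have hNcard : N.card ≤ Δ₀ := hdeg b₀ N (fun b' h => (Finset.mem_filter.1 h).2)
    set w' : E → ℝ := fun b => w b * (if adj b₀ b then Real.exp (2 * w b₀ * 2 ^ q) else 1)
      with hw'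
    have hw'0 : ∀ b, 0 ≤ w' b := by
      intro b
      rw [hw']
      refine mul_nonneg (hw b) ?_
      split_ifs
      · exact (Real.exp_pos _).le
      · exact zero_le_one
    have hw'F : ∀ b ∈ F, w' b ≤
        Y * Real.exp (-(2 * 2 ^ q * Y * ((F.filter (adj b)).card : ℝ))) := by
      intro b hbF
      have h1 := hwF b (Finset.mem_insert_of_mem hbF)
      by_cases hadj : adj b₀ b
      · have hadj' : adj b b₀ := hsymm _ _ hadj
        have h2 : ((insert b₀ F).filter (adj b)).card = (F.filter (adj b)).card + 1 := by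
          rw [Finset.filter_insert, if_pos hadj', Finset.card_insert_of_notMem]
          simp [hb]
        rw [h2] at h1
        have h3 : w' b = w b * Real.exp (2 * w b₀ * 2 ^ q) := by
          rw [hw']
          simp [hadj]
        rw [h3]
        calc w b * Real.exp (2 * w b₀ * 2 ^ q)
            ≤ (Y * Real.exp (-(2 * 2 ^ q * Y * (((F.filter (adj b)).card + 1 : ℕ) : ℝ)))) *
              Real.exp (2 * Y * 2 ^ q) := by
              refine mul_le_mul h1 (Real.exp_le_exp.2 (by gcongr)) (Real.exp_pos _).le ?_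
              exact mul_nonneg hY (Real.exp_pos _).le
          _ = Y * (Real.exp (-(2 * 2 ^ q * Y * (((F.filter (adj b)).card + 1 : ℕ) : ℝ))) *
              Real.exp (2 * Y * 2 ^ q)) := by ring
          _ = _ := by
              rw [← Real.exp_add]
              congr 2
              push_cast
              ring
      · have h2 : (insert b₀ F).filter (adj b) = F.filter (adj b) := by
          rw [Finset.filter_insert, if_neg (fun h => hadj (hsymm _ _ h))]
        rw [h2] at h1
        have h3 : w' b = w b := by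
          rw [hw']
          simp [hadj]
        rw [h3]
        exact h1
    rw [sum_supp_insert n F b₀ hb]
    have hin : ∀ ξ ∈ supp n F, ∑ S : Tr Bool n,
        (∏ b, w b ^ size n (Function.update ξ b₀ S b)) *
          R ^ (∑ b, cost adj q n (Function.update ξ b₀ S) b) ≤
        Real.exp (w b₀ * 2 ^ n) *
          ((∏ b, w' b ^ size n (ξ b)) * R ^ (∑ b, cost adj q n ξ b)) := by
      intro ξ hξ
      have h0 : ξ b₀ = off n := (mem_supp n F ξ).1 hξ b₀ hb
      have hP : 0 ≤ ∏ b, w b ^ size n (ξ b) := Finset.prod_nonneg fun b _ => pow_nonneg (hw b) _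
      have hRpos : 0 ≤ R := by linarith
      have hterm : ∀ S : Tr Bool n,
          (∏ b, w b ^ size n (Function.update ξ b₀ S b)) *
            R ^ (∑ b, cost adj q n (Function.update ξ b₀ S) b) ≤
          ((∏ b, w b ^ size n (ξ b)) * R ^ (∑ b, cost adj q n ξ b)) *
            ((w b₀) ^ size n S * R ^ (2 * ∑ b ∈ N, conf q n S (ξ b))) := by
        intro S
        rw [prod_update n w ξ b₀ h0 S]
        have hc := cost_le adj hsymm q b₀ n (Function.update ξ b₀ S)
        rw [Function.update_idem, Function.update_self] at hc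
        have e0 : Function.update ξ b₀ (off n) = ξ := by
          rw [← h0]; simp
        rw [e0] at hc
        have e1 : ∑ b ∈ Finset.univ.filter (adj b₀), conf q n S (Function.update ξ b₀ S b) =
            ∑ b ∈ N, conf q n S (ξ b) := by
          refine Finset.sum_congr rfl fun b hb' => ?_
          have hne : b ≠ b₀ := by
            rintro rfl
            exact hirr _ (Finset.mem_filter.1 hb').2
          rw [Function.update_of_ne hne]
        rw [e1] at hc
        calc w b₀ ^ size n S * (∏ b, w b ^ size n (ξ b)) *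
              R ^ (∑ b, cost adj q n (Function.update ξ b₀ S) b)
            ≤ w b₀ ^ size n S * (∏ b, w b ^ size n (ξ b)) *
              R ^ (∑ b, cost adj q n ξ b + 2 * ∑ b ∈ N, conf q n S (ξ b)) := by
              refine mul_le_mul_of_nonneg_left (pow_le_pow_right₀ hR hc) ?_
              exact mul_nonneg (pow_nonneg (hw _) _) hP
          _ = _ := by rw [pow_add]; ring
      calc ∑ S : Tr Bool n, (∏ b, w b ^ size n (Function.update ξ b₀ S b)) *
            R ^ (∑ b, cost adj q n (Function.update ξ b₀ S) b)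
          ≤ ∑ S : Tr Bool n, ((∏ b, w b ^ size n (ξ b)) * R ^ (∑ b, cost adj q n ξ b)) *
            ((w b₀) ^ size n S * R ^ (2 * ∑ b ∈ N, conf q n S (ξ b))) :=
            Finset.sum_le_sum fun S _ => hterm S
        _ = ((∏ b, w b ^ size n (ξ b)) * R ^ (∑ b, cost adj q n ξ b)) *
            F1 q (w b₀) R N n ξ := by
            rw [← Finset.mul_sum]
            rfl
        _ ≤ ((∏ b, w b ^ size n (ξ b)) * R ^ (∑ b, cost adj q n ξ b)) *
            Real.exp (w b₀ * 2 ^ n + 2 * w b₀ * 2 ^ q * ((∑ b ∈ N, size n (ξ b) : ℕ) : ℝ)) := by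
            refine mul_le_mul_of_nonneg_left
              (F1_bound q N (hw b₀) hR Δ₀ hR2 hNcard n ξ) ?_
            exact mul_nonneg hP (pow_nonneg hRpos _)
        _ = _ := by
            have e2 : Real.exp (2 * w b₀ * 2 ^ q * ((∑ b ∈ N, size n (ξ b) : ℕ) : ℝ)) =
                ∏ b, (if adj b₀ b then Real.exp (2 * w b₀ * 2 ^ q) else 1) ^ size n (ξ b) := by
              have e3 : ∏ b, (if adj b₀ b then Real.exp (2 * w b₀ * 2 ^ q) else 1) ^
                  size n (ξ b) = ∏ b ∈ N, Real.exp (2 * w b₀ * 2 ^ q) ^ size n (ξ b) := by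
                rw [hN, Finset.prod_filter]
                refine Finset.prod_congr rfl fun b _ => ?_
                by_cases h : adj b₀ b <;> simp [h]
              rw [e3, Finset.prod_pow_eq_pow_sum, ← Real.exp_nat_mul]
              congr 1
              ring
            have e4 : ∏ b, w' b ^ size n (ξ b) = (∏ b, w b ^ size n (ξ b)) *
                ∏ b, (if adj b₀ b then Real.exp (2 * w b₀ * 2 ^ q) else 1) ^ size n (ξ b) := by
              rw [← Finset.prod_mul_distrib]
              refine Finset.prod_congr rfl fun b _ => ?_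
              rw [← mul_pow]
            rw [Real.exp_add, e2, e4]
            ring
    calc ∑ ξ ∈ supp n F, ∑ S : Tr Bool n,
          (∏ b, w b ^ size n (Function.update ξ b₀ S b)) *
            R ^ (∑ b, cost adj q n (Function.update ξ b₀ S) b)
        ≤ ∑ ξ ∈ supp n F, Real.exp (w b₀ * 2 ^ n) *
          ((∏ b, w' b ^ size n (ξ b)) * R ^ (∑ b, cost adj q n ξ b)) :=
          Finset.sum_le_sum hin
      _ = Real.exp (w b₀ * 2 ^ n) * ∑ ξ ∈ supp n F,
          ((∏ b, w' b ^ size n (ξ b)) * R ^ (∑ b, cost adj q n ξ b)) := by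
          rw [Finset.mul_sum]
      _ ≤ Real.exp (w b₀ * 2 ^ n) * Real.exp (Y * 2 ^ n * F.card) :=
          mul_le_mul_of_nonneg_left (ih w' hw'0 hw'F) (Real.exp_pos _).le
      _ ≤ Real.exp (Y * 2 ^ n) * Real.exp (Y * 2 ^ n * F.card) := by
          refine mul_le_mul_of_nonneg_right (Real.exp_le_exp.2 ?_) (Real.exp_pos _).le
          exact mul_le_mul_of_nonneg_right hw0 (by positivity)
      _ = _ := by
          rw [← Real.exp_add, Finset.card_insert_of_notMem hb]
          congr 1
          push_cast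
          ring

end C3

end Comb

open Comb

theorem comb_bound {E : Type} [Fintype E] [DecidableEq E] (adj : E → E → Prop)
    (hsymm : ∀ b b', adj b b' → adj b' b) (hirr : ∀ b, ¬ adj b b) (Δ₀ : ℕ)
    (hdeg : ∀ b (s : Finset E), (∀ b' ∈ s, adj b b') → s.card ≤ Δ₀)
    (q n : ℕ) (y R : ℝ) (hy : 0 ≤ y) (hR : 1 ≤ R) (hR2 : R ^ (2 * Δ₀) ≤ 4 / 3)
    (hsmall : 4 * y * 2 ^ q * Δ₀ ≤ Real.log 2) (F : Finset E) :
    ∑ ξ ∈ Fintype.piFinset (fun b => if b ∈ F then (Finset.univ : Finset (Tr Bool n))
        else {off n}),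
      y ^ (∑ b, size n (ξ b)) * R ^ (∑ b, cost adj q n ξ b) ≤
      Real.exp (2 * y * 2 ^ n * F.card) := by
  classical
  have h := weighted adj hsymm hirr Δ₀ hdeg q n (2 * y) R hR hR2 F (fun _ => y) (fun _ => hy) ?_
  · refine le_trans (le_of_eq ?_) h
    refine Finset.sum_congr rfl fun ξ _ => ?_
    rw [Finset.prod_pow_eq_pow_sum]
  · intro b _
    have hc : (((F.filter (adj b)).card : ℕ) : ℝ) ≤ Δ₀ := by
      exact_mod_cast hdeg b _ (fun b' h => (Finset.mem_filter.1 h).2)
    have h1 : Real.log (1 / 2) ≤ -(2 * 2 ^ q * (2 * y) * (((F.filter (adj b)).card : ℕ) : ℝ)) := by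
      rw [one_div, Real.log_inv]
      have : 2 * 2 ^ q * (2 * y) * (((F.filter (adj b)).card : ℕ) : ℝ) ≤
          2 * 2 ^ q * (2 * y) * (Δ₀ : ℝ) := by gcongr
      have h2 : 2 * 2 ^ q * (2 * y) * (Δ₀ : ℝ) = 4 * y * 2 ^ q * Δ₀ := by ring
      linarith
    have h3 : (1 / 2 : ℝ) ≤
        Real.exp (-(2 * 2 ^ q * (2 * y) * (((F.filter (adj b)).card : ℕ) : ℝ))) := by
      calc (1 / 2 : ℝ) = Real.exp (Real.log (1 / 2)) := (Real.exp_log (by norm_num)).symm
        _ ≤ _ := Real.exp_le_exp.2 h1
    have h4 := mul_le_mul_of_nonneg_left h3 (by linarith : 0 ≤ 2 * y)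
    linarith

end Pool.Agent.Helper2.PB
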