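import Pool.Agent.Helper2.PB.Defs2

/-!
# The number of records of bounded cost
-/

set_option autoImplicit false

namespace Pool.Agent.Helper2.PB

open Matrix

section COUNT

/-- generating function of the records -/
theorem sum_rec_le {Λ W : Type} [Fintype Λ] [Fintype W] (z : ℝ)
    (hz : z * (4 * Fintype.card W * (1 + Fintype.card Λ)) = 1) (hz0 : 0 ≤ z) (n : ℕ) :
    ∑ r : RecG Λ W n, z ^ rcost n r ≤ 2 * (1 + Fintype.card Λ) := by
  have hl : (0 : ℝ) ≤ Fintype.card Λ := Nat.cast_nonneg _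
  induction n with
  | zero =>
    have h1 : ∑ r : RecG Λ W 0, z ^ rcost 0 r = ∑ _r : Option Λ, (1 : ℝ) := by
      refine Finset.sum_congr rfl fun r _ => ?_
      simp [rcost]
    rw [h1]
    simp only [Finset.sum_const, Finset.card_univ, Fintype.card_option, nsmul_eq_mul, mul_one]
    push_cast
    linarith
  | succ n ih =>
    have h0 : ∑ r : RecG Λ W (n + 1), z ^ rcost (n + 1) r
        = ∑ r : Option (Λ ⊕ (W × RecG Λ W n × RecG Λ W n)),
          z ^ rcost (n + 1) (r : RecG Λ W (n + 1)) := rfl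
    have h1 : ∑ r : Option (Λ ⊕ (W × RecG Λ W n × RecG Λ W n)),
          z ^ rcost (n + 1) (r : RecG Λ W (n + 1))
        = 1 + (Fintype.card Λ + Fintype.card W * (z * ((∑ r : RecG Λ W n, z ^ rcost n r) *
            ∑ r : RecG Λ W n, z ^ rcost n r))) := by
      rw [Fintype.sum_option, Fintype.sum_sum_type, Fintype.sum_prod_type]
      have e1 : z ^ rcost (n + 1) ((none : Option (Λ ⊕ (W × RecG Λ W n × RecG Λ W n))) :
          RecG Λ W (n + 1)) = 1 := by simp [rcost]
      have e2 : ∀ l : Λ, z ^ rcost (n + 1) ((some (Sum.inl l) :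
          Option (Λ ⊕ (W × RecG Λ W n × RecG Λ W n))) : RecG Λ W (n + 1)) = 1 := by
        intro l; simp [rcost]
      have e3 : ∀ (w : W) (p : RecG Λ W n × RecG Λ W n), z ^ rcost (n + 1)
          ((some (Sum.inr (w, p)) : Option (Λ ⊕ (W × RecG Λ W n × RecG Λ W n))) :
            RecG Λ W (n + 1)) = z * (z ^ rcost n p.1 * z ^ rcost n p.2) := by
        intro w p
        obtain ⟨l, r⟩ := p
        simp only [rcost]
        rw [pow_add, pow_add, pow_one, mul_assoc]
      rw [e1, Finset.sum_congr rfl (fun l _ => e2 l)]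
      simp only [e3]
      simp only [Finset.sum_const, Finset.card_univ, nsmul_eq_mul, mul_one,
        Fintype.sum_prod_type, ← Finset.mul_sum, ← Finset.sum_mul]
    rw [h0, h1]
    set G := ∑ r : RecG Λ W n, z ^ rcost n r with hG
    have hG0 : 0 ≤ G := Finset.sum_nonneg fun r _ => pow_nonneg hz0 _
    have hGG : G * G ≤ (2 * (1 + (Fintype.card Λ : ℝ))) * (2 * (1 + Fintype.card Λ)) :=
      mul_le_mul ih ih hG0 (by positivity)
    have hw : (0 : ℝ) ≤ Fintype.card W * z := by positivity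
    have h2 : Fintype.card W * (z * (G * G))
        ≤ Fintype.card W * z * ((2 * (1 + (Fintype.card Λ : ℝ))) * (2 * (1 + Fintype.card Λ))) := by
      rw [← mul_assoc]
      exact mul_le_mul_of_nonneg_left hGG hw
    have h3 : Fintype.card W * z * ((2 * (1 + (Fintype.card Λ : ℝ))) * (2 * (1 + Fintype.card Λ)))
        = (1 + Fintype.card Λ) * (z * (4 * Fintype.card W * (1 + Fintype.card Λ))) := by ring
    rw [h3, hz, mul_one] at h2
    linarith

theorem sum_tree_le {Λ W : Type} [Fintype Λ] [Fintype W] (z : ℝ)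
    (hz : z * (4 * Fintype.card W * (1 + Fintype.card Λ)) = 1) (hz0 : 0 ≤ z) (q P : ℕ) :
    ∑ r : Tr (RecG Λ W q) P, z ^ costT q P r ≤ (2 * (1 + Fintype.card Λ)) ^ 2 ^ P := by
  induction P with
  | zero =>
    rw [pow_zero, pow_one]
    exact sum_rec_le z hz hz0 q
  | succ P ih =>
    have h0 : ∑ r : Tr (RecG Λ W q) (P + 1), z ^ costT q (P + 1) r
        = ∑ r : Tr (RecG Λ W q) P × Tr (RecG Λ W q) P, z ^ (costT q P r.1 + costT q P r.2) := rfl
    have h1 : ∑ r : Tr (RecG Λ W q) P × Tr (RecG Λ W q) P, z ^ (costT q P r.1 + costT q P r.2)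
        = (∑ r : Tr (RecG Λ W q) P, z ^ costT q P r) * ∑ r : Tr (RecG Λ W q) P, z ^ costT q P r := by
      rw [Fintype.sum_prod_type]
      simp only [pow_add, ← Finset.mul_sum, ← Finset.sum_mul]
    rw [h0, h1]
    have hG0 : 0 ≤ ∑ r : Tr (RecG Λ W q) P, z ^ costT q P r :=
      Finset.sum_nonneg fun r _ => pow_nonneg hz0 _
    have h2 : (2 * (1 + (Fintype.card Λ : ℝ))) ^ 2 ^ (P + 1)
        = (2 * (1 + (Fintype.card Λ : ℝ))) ^ 2 ^ P * (2 * (1 + (Fintype.card Λ : ℝ))) ^ 2 ^ P := by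
      rw [← pow_add]; congr 1; rw [pow_succ]; ring
    rw [h2]
    exact mul_le_mul ih ih hG0 (by positivity)

theorem card_rec_le {Λ W : Type} [Fintype Λ] [Fintype W] [Nonempty W] (q P m : ℕ) :
    Fintype.card {r : Tr (RecG Λ W q) P // costT q P r ≤ m} ≤
      (4 * Fintype.card W * (1 + Fintype.card Λ)) ^ m * (2 * (1 + Fintype.card Λ)) ^ 2 ^ P := by
  have hw : 1 ≤ Fintype.card W := Fintype.card_pos
  have hw' : (1 : ℝ) ≤ Fintype.card W := by exact_mod_cast hw
  have hl : (0 : ℝ) ≤ Fintype.card Λ := Nat.cast_nonneg _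
  set Z : ℝ := 4 * Fintype.card W * (1 + Fintype.card Λ) with hZ
  have hZ1 : 1 ≤ Z := by nlinarith
  have hZ0 : 0 < Z := by linarith
  set z : ℝ := 1 / Z with hz
  have hz0 : 0 < z := by positivity
  have hz1 : z ≤ 1 := by rw [hz, div_le_one hZ0]; exact hZ1
  have hzZ : z * (4 * Fintype.card W * (1 + Fintype.card Λ)) = 1 := by
    rw [← hZ, hz]; field_simp
  have h1 := sum_tree_le (Λ := Λ) (W := W) z hzZ hz0.le q P
  have h2 : (Fintype.card {r : Tr (RecG Λ W q) P // costT q P r ≤ m} : ℝ) * z ^ m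
      ≤ ∑ r : Tr (RecG Λ W q) P, z ^ costT q P r := by
    rw [Fintype.card_subtype, ← nsmul_eq_mul, ← Finset.sum_const]
    calc ∑ _r ∈ Finset.univ.filter (fun r : Tr (RecG Λ W q) P => costT q P r ≤ m), z ^ m
        ≤ ∑ r ∈ Finset.univ.filter (fun r : Tr (RecG Λ W q) P => costT q P r ≤ m),
            z ^ costT q P r := by
          refine Finset.sum_le_sum fun r hr => ?_
          exact pow_le_pow_of_le_one hz0.le hz1 (Finset.mem_filter.1 hr).2
      _ ≤ ∑ r : Tr (RecG Λ W q) P, z ^ costT q P r :=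
          Finset.sum_le_sum_of_subset_of_nonneg (Finset.filter_subset _ _)
            fun r _ _ => pow_nonneg hz0.le _
  have h3 : (Fintype.card {r : Tr (RecG Λ W q) P // costT q P r ≤ m} : ℝ)
      ≤ Z ^ m * (2 * (1 + Fintype.card Λ)) ^ 2 ^ P := by
    have h4 := h2.trans h1
    have h5 : z ^ m * Z ^ m = 1 := by rw [← mul_pow, hz, one_div_mul_cancel hZ0.ne', one_pow]
    calc (Fintype.card {r : Tr (RecG Λ W q) P // costT q P r ≤ m} : ℝ)
        = (Fintype.card {r : Tr (RecG Λ W q) P // costT q P r ≤ m} : ℝ) * z ^ m * Z ^ m := by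
          rw [mul_assoc, h5, mul_one]
      _ ≤ (2 * (1 + Fintype.card Λ)) ^ 2 ^ P * Z ^ m :=
          mul_le_mul_of_nonneg_right h4 (by positivity)
      _ = Z ^ m * (2 * (1 + Fintype.card Λ)) ^ 2 ^ P := mul_comm _ _
  rw [hZ] at h3
  exact_mod_cast h3

end COUNT

end Pool.Agent.Helper2.PB
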