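import Mathlib

/-!
# Quantum spin systems on the torus and projected entangled pair states
-/

set_option autoImplicit false

namespace Pool.Agent.Helper2.PB

open Matrix

/-- The `L × L` torus. -/
abbrev Torus (L : ℕ) : Type := ZMod L × ZMod L

/-- The box of side `s`. -/
abbrev Box (s : ℕ) : Type := Fin s × Fin s

/-- The site of the torus at position `p` of the box placed at `v`. -/
def site {L s : ℕ} (v : Torus L) (p : Box s) : Torus L := (v.1 + ((p.1 : ℕ) : ZMod L), v.2 + ((p.2 : ℕ) : ZMod L))

open Classical in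
/-- The operator on the Hilbert space `(ℂ^d)^{⊗ V}` (matrices indexed by the basis configurations
`V → Fin d`) which acts as `g` on the sites `pos p`, `p : B`, and as the identity elsewhere. -/
noncomputable def emb {V B : Type} {d : ℕ} (pos : B → V)
    (g : Matrix (B → Fin d) (B → Fin d) ℂ) : Matrix (V → Fin d) (V → Fin d) ℂ :=
  fun σ τ => if ∀ u, (∀ p, pos p ≠ u) → σ u = τ u then
    g (fun p => σ (pos p)) (fun p => τ (pos p)) else 0

/-- The Hamiltonian `H_L = ∑ τ(h)` on the `L × L` torus: the sum of all translates of `h`. -/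
noncomputable def ham {d s : ℕ} (L : ℕ) [NeZero L] (h : Matrix (Box s → Fin d) (Box s → Fin d) ℂ) :
    Matrix (Torus L → Fin d) (Torus L → Fin d) ℂ :=
  ∑ v : Torus L, emb (site v) h

/-- The squared norm of a vector. -/
noncomputable def nsq {ι : Type} [Fintype ι] (φ : ι → ℂ) : ℝ := ∑ i, ‖φ i‖ ^ 2

/-- The state of a projected entangled pair state of bond dimension `D` on the torus: `a v` is the
virtual index of the edge from `v` to `v + (1,0)` and `b v` the one of the edge from `v` to
`v + (0,1)`; the tensor at `v` has one physical and four virtual indices. -/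
noncomputable def pepsState {d L D : ℕ} [NeZero L]
    (A : Torus L → Fin d → Fin D → Fin D → Fin D → Fin D → ℂ) : (Torus L → Fin d) → ℂ :=
  fun σ => ∑ a : Torus L → Fin D, ∑ b : Torus L → Fin D,
    ∏ v : Torus L, A v (σ v) (a v) (a (v.1 - 1, v.2)) (b v) (b (v.1, v.2 - 1))

/-- `ψ` is the unique ground state of `H`, a unit vector, with energy `E₀`, and all the other energies
are at least `E₀ + Δ`: `ψ` is a unit eigenvector and the energy of every vector orthogonal to `ψ` is
at least `E₀ + Δ` times its squared norm. -/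
def IsGappedGround {ι : Type} [Fintype ι] (H : Matrix ι ι ℂ) (E₀ Δ : ℝ) (ψ : ι → ℂ) : Prop :=
  nsq ψ = 1 ∧ H.mulVec ψ = (E₀ : ℂ) • ψ ∧
    ∀ φ : ι → ℂ, star ψ ⬝ᵥ φ = 0 → (E₀ + Δ) * nsq φ ≤ (star φ ⬝ᵥ H.mulVec φ).re

/-- `Z(2β) = ∑ exp(-2β(E_i - E₀))`, the sum over all eigenvalues of `H` with multiplicity. -/
noncomputable def partZ {ι : Type} [Fintype ι] [DecidableEq ι] {H : Matrix ι ι ℂ}
    (hH : H.IsHermitian) (E₀ β : ℝ) : ℝ :=
  ∑ i, Real.exp (-(2 * β * (hH.eigenvalues i - E₀)))

end Pool.Agent.Helper2.PB
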