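import Pool.Agent.Helper2.PB.Defs

/-!
# Internal definitions: time trees, costs, records
-/

set_option autoImplicit false

namespace Pool.Agent.Helper2.PB

open Matrix

/-- Binary trees of depth `n` with leaves in `α`. -/
def Tr (α : Type) : ℕ → Type
  | 0 => α
  | n + 1 => Tr α n × Tr α n

instance Tr.instFintype (α : Type) [Fintype α] : (n : ℕ) → Fintype (Tr α n)
  | 0 => inferInstanceAs (Fintype α)
  | n + 1 => @instFintypeProd _ _ (Tr.instFintype α n) (Tr.instFintype α n)

instance Tr.instDecidableEq (α : Type) [DecidableEq α] : (n : ℕ) → DecidableEq (Tr α n)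
  | 0 => inferInstanceAs (DecidableEq α)
  | n + 1 => @instDecidableEqProd _ _ (Tr.instDecidableEq α n) (Tr.instDecidableEq α n)

/-- The ordered product of the values of `f` over the leaves. -/
def tprod {α M : Type} [Mul M] (f : α → M) : (n : ℕ) → Tr α n → M
  | 0, a => f a
  | n + 1, t => tprod f n t.1 * tprod f n t.2

/-- There is a `true` leaf. -/
def act : (n : ℕ) → Tr Bool n → Bool
  | 0, a => a
  | n + 1, t => act n t.1 || act n t.2

/-- The number of `true` leaves. -/
def size : (n : ℕ) → Tr Bool n → ℕ
  | 0, a => bif a then 1 else 0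
  | n + 1, t => size n t.1 + size n t.2

/-- The tree all of whose leaves are `false`. -/
def off : (n : ℕ) → Tr Bool n
  | 0 => false
  | n + 1 => (off n, off n)

/-- The number of nodes at levels `1, ..., q` at which both trees are active. -/
def conf (q : ℕ) : (n : ℕ) → Tr Bool n → Tr Bool n → ℕ
  | 0, _, _ => 0
  | n + 1, s, u => (if n + 1 ≤ q ∧ act (n + 1) s = true ∧ act (n + 1) u = true then 1 else 0) +
      conf q n s.1 u.1 + conf q n s.2 u.2

open Classical in
/-- The number of nodes at levels `1, ..., q` at which `b` and some neighbour of `b` are active. -/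
noncomputable def cost {E : Type} (adj : E → E → Prop) (q : ℕ) :
    (n : ℕ) → (E → Tr Bool n) → E → ℕ
  | 0, _, _ => 0
  | n + 1, ξ, b =>
      (if n + 1 ≤ q ∧ act (n + 1) (ξ b) = true ∧ ∃ b', adj b b' ∧ act (n + 1) (ξ b') = true
        then 1 else 0) +
      cost adj q n (fun b' => (ξ b').1) b + cost adj q n (fun b' => (ξ b').2) b

/-- The ordered product over the leaves of a matrix depending on the leaf configuration. -/
def Wm {E M : Type} [Mul M] (leaf : (E → Bool) → M) : (n : ℕ) → (E → Tr Bool n) → M
  | 0, ξ => leaf ξ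
  | n + 1, ξ => Wm leaf n (fun b => (ξ b).1) * Wm leaf n (fun b => (ξ b).2)

/-- Hilbert-Schmidt norm. -/
noncomputable def hs {ι : Type} [Fintype ι] (M : Matrix ι ι ℂ) : ℝ :=
  Real.sqrt (∑ i, ∑ j, ‖M i j‖ ^ 2)

section leaf

variable {E : Type} [Fintype E] [DecidableEq E] {ι : Type} [Fintype ι] [DecidableEq ι]

/-- The leaf matrix: the ordered product over all terms of `-x h_b` (event), `1` (no event) for the
terms in `F`, and of `1 - x h_b` (summed over both possibilities) for the terms not in `F`. -/
noncomputable def leafM (hb : E → Matrix ι ι ℂ) (x : ℝ) (F : Finset E) (a : E → Bool) :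
    Matrix ι ι ℂ :=
  ((Finset.univ : Finset E).toList.map fun b =>
    if b ∈ F then (if a b = true then (-(x : ℂ)) • hb b else 1) else 1 - (x : ℂ) • hb b).prod

open Classical in
/-- The truncated sum: all event sets in which every term has cost at most `m`. -/
noncomputable def Tm (hb : E → Matrix ι ι ℂ) (x : ℝ) (adj : E → E → Prop) (q n m : ℕ) :
    Matrix ι ι ℂ :=
  ∑ ξ : E → Tr Bool n,
    if ∀ b, cost adj q n ξ b ≤ m then Wm (leafM hb x Finset.univ) n ξ else 0

end leaf

/-! ### Records -/

/-- Records of depth `n`: `none` = inactive, `some (inl l)` = a lump with label `l`,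
`some (inr (w, l, r))` = a node with witness `w` and two halves; at level `0` only inactive or
an event with a label. -/
def RecG (Λ W : Type) : ℕ → Type
  | 0 => Option Λ
  | n + 1 => Option (Λ ⊕ (W × RecG Λ W n × RecG Λ W n))

instance RecG.instFintype (Λ W : Type) [Fintype Λ] [Fintype W] : (n : ℕ) → Fintype (RecG Λ W n)
  | 0 => inferInstanceAs (Fintype (Option Λ))
  | n + 1 =>
    letI := RecG.instFintype Λ W n
    inferInstanceAs (Fintype (Option (Λ ⊕ (W × RecG Λ W n × RecG Λ W n))))

instance RecG.instDecidableEq (Λ W : Type) [DecidableEq Λ] [DecidableEq W] :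
    (n : ℕ) → DecidableEq (RecG Λ W n)
  | 0 => inferInstanceAs (DecidableEq (Option Λ))
  | n + 1 =>
    letI := RecG.instDecidableEq Λ W n
    inferInstanceAs (DecidableEq (Option (Λ ⊕ (W × RecG Λ W n × RecG Λ W n))))

/-- The inactive record. -/
def roff {Λ W : Type} : (n : ℕ) → RecG Λ W n
  | 0 => (none : Option Λ)
  | _ + 1 => (none : Option (Λ ⊕ (W × RecG Λ W _ × RecG Λ W _)))

/-- The record is active. -/
def ron {Λ W : Type} : (n : ℕ) → RecG Λ W n → Bool
  | 0, r => Option.isSome (α := Λ) r
  | n + 1, r => Option.isSome (α := Λ ⊕ (W × RecG Λ W n × RecG Λ W n)) r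

/-- The number of nodes. -/
def rcost {Λ W : Type} : (n : ℕ) → RecG Λ W n → ℕ
  | 0, _ => 0
  | _ + 1, none => 0
  | _ + 1, some (Sum.inl _) => 0
  | n + 1, some (Sum.inr (_, l, r)) => 1 + rcost n l + rcost n r

/-- First half. -/
def half1 {Λ W : Type} {n : ℕ} : RecG Λ W (n + 1) → RecG Λ W n
  | none => roff n
  | some (Sum.inl _) => roff n
  | some (Sum.inr (_, l, _)) => l

/-- Second half. -/
def half2 {Λ W : Type} {n : ℕ} : RecG Λ W (n + 1) → RecG Λ W n
  | none => roff n
  | some (Sum.inl _) => roff n
  | some (Sum.inr (_, _, r)) => r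

/-- Forget the labels. -/
def forget {Λ W : Type} : (n : ℕ) → RecG Λ W n → RecG Unit W n
  | 0, none => (none : Option Unit)
  | 0, some _ => (some () : Option Unit)
  | n + 1, none => (none : Option (Unit ⊕ (W × RecG Unit W n × RecG Unit W n)))
  | n + 1, some (Sum.inl _) =>
      (some (Sum.inl ()) : Option (Unit ⊕ (W × RecG Unit W n × RecG Unit W n)))
  | n + 1, some (Sum.inr (w, l, r)) =>
      (some (Sum.inr (w, forget n l, forget n r)) :
        Option (Unit ⊕ (W × RecG Unit W n × RecG Unit W n)))

/-- Labels: pairs of configurations of the block. -/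
abbrev Lab (B : Type) (d : ℕ) : Type := (B → Fin d) × (B → Fin d)

section pos

variable {E V B : Type} {d : ℕ}

/-- Two different terms with overlapping supports. -/
def adjP (pos : E → B → V) (b b' : E) : Prop := b ≠ b' ∧ ∃ p p', pos b p = pos b' p'

open Classical in
/-- The sites of `b` at which another active term is seen. -/
noncomputable def wit (pos : E → B → V) (A : E → Bool) (b : E) : B → Bool :=
  fun p => decide (∃ b' p', b' ≠ b ∧ A b' = true ∧ pos b' p' = pos b p)

open Classical in
/-- The records of a configuration of events. -/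
noncomputable def recOf (pos : E → B → V) :
    (n : ℕ) → (E → Tr Bool n) → E → RecG Unit (B → Bool) n
  | 0, ξ, b => (if ξ b = true then some () else none : Option Unit)
  | n + 1, ξ, b =>
      (if act (n + 1) (ξ b) = true then
        (if ∀ p, wit pos (fun b' => act (n + 1) (ξ b')) b p = false then some (Sum.inl ())
        else some (Sum.inr (wit pos (fun b' => act (n + 1) (ξ b')) b,
          recOf pos n (fun b' => (ξ b').1) b, recOf pos n (fun b' => (ξ b').2) b)))
      else none :
        Option (Unit ⊕ ((B → Bool) × RecG Unit (B → Bool) n × RecG Unit (B → Bool) n)))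

/-- The local check at the site `v`. -/
def chk {Λ : Type} {n : ℕ} (pos : E → B → V) (v : V) (ρ : E → RecG Λ (B → Bool) (n + 1)) : Prop :=
  ∀ b p, pos b p = v → match ρ b with
    | none => True
    | some (Sum.inl _) => wit pos (fun b' => ron (n + 1) (ρ b')) b p = false
    | some (Sum.inr (w, _, _)) => w p = wit pos (fun b' => ron (n + 1) (ρ b')) b p

open Classical in
/-- The matrix unit at `v` of a lump of `b` with label `l`. -/
noncomputable def unitAt (pos : E → B → V) (v : V) (b : E) (l : Lab B d) :
    Matrix (Fin d) (Fin d) ℂ :=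
  if h : ∃ p, pos b p = v then Matrix.single (l.1 h.choose) (l.2 h.choose) 1 else 1

/-- The factor at `v` of an event (level `0`). -/
noncomputable def evU (pos : E → B → V) (v : V) (b : E) : RecG (Lab B d) (B → Bool) 0 →
    Matrix (Fin d) (Fin d) ℂ
  | none => 1
  | some l => unitAt pos v b l

/-- The factor at `v` of a lump. -/
noncomputable def lumpU {n : ℕ} (pos : E → B → V) (v : V) (b : E) :
    RecG (Lab B d) (B → Bool) (n + 1) → Matrix (Fin d) (Fin d) ℂ
  | none => 1
  | some (Sum.inl l) => unitAt pos v b l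
  | some (Sum.inr _) => 1

open Classical in
/-- The factor at the site `v` of a family of labelled records. -/
noncomputable def phi [Fintype E] (pos : E → B → V) (v : V) :
    (n : ℕ) → (E → RecG (Lab B d) (B → Bool) n) → Matrix (Fin d) (Fin d) ℂ
  | 0, ρ => ((Finset.univ : Finset E).toList.map fun b => evU pos v b (ρ b)).prod
  | n + 1, ρ => if chk pos v ρ then
      ((Finset.univ : Finset E).toList.map fun b => lumpU pos v b (ρ b)).prod *
        (phi pos v n (fun b => half1 (ρ b)) * phi pos v n (fun b => half2 (ρ b))) else 0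

open Classical in
/-- The coefficient of a labelled record. -/
noncomputable def coef [Fintype B] [DecidableEq B] (g : Matrix (B → Fin d) (B → Fin d) ℂ) (x : ℝ) :
    (n : ℕ) → RecG (Lab B d) (B → Bool) n → ℂ
  | 0, none => 1
  | 0, some l => (-(x : ℂ)) * g l.1 l.2
  | _ + 1, none => 1
  | n + 1, some (Sum.inl l) =>
      ((1 - (x : ℂ) • g) ^ 2 ^ (n + 1) - 1 : Matrix (B → Fin d) (B → Fin d) ℂ) l.1 l.2
  | n + 1, some (Sum.inr (w, l, r)) =>
      if (∃ p, w p = true) ∧ (ron n l = true ∨ ron n r = true) then coef g x n l * coef g x n r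
      else 0

/-- Product operators. -/
noncomputable def tens [Fintype V] (A : V → Matrix (Fin d) (Fin d) ℂ) :
    Matrix (V → Fin d) (V → Fin d) ℂ :=
  fun σ τ => ∏ v, A v (σ v) (τ v)

open Classical in
/-- The sum of all event sets with given records. -/
noncomputable def Qr [Fintype E] [DecidableEq E] [Fintype V] [DecidableEq V] [Fintype B]
    (pos : E → B → V) (g : Matrix (B → Fin d) (B → Fin d) ℂ) (x : ℝ) (n : ℕ)
    (r : E → RecG Unit (B → Bool) n) : Matrix (V → Fin d) (V → Fin d) ℂ :=
  ∑ ξ : E → Tr Bool n,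
    if recOf pos n ξ = r then Wm (leafM (fun b => emb (pos b) g) x Finset.univ) n ξ else 0

open Classical in
/-- The value of a family of records, as a sum over labels of product operators. -/
noncomputable def Vr [Fintype E] [DecidableEq E] [Fintype V] [DecidableEq V] [Fintype B]
    [DecidableEq B]
    (pos : E → B → V) (g : Matrix (B → Fin d) (B → Fin d) ℂ) (x : ℝ) (n : ℕ)
    (r : E → RecG Unit (B → Bool) n) : Matrix (V → Fin d) (V → Fin d) ℂ :=
  ∑ ρ : E → RecG (Lab B d) (B → Bool) n,
    if (fun b => forget n (ρ b)) = r then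
      (∏ b, coef g x n (ρ b)) • tens (fun v => phi pos v n ρ) else 0

/-! ### The top levels (slabs) -/

/-- Total cost. -/
def costT {Λ W : Type} (q : ℕ) : (P : ℕ) → Tr (RecG Λ W q) P → ℕ
  | 0, r => rcost q r
  | P + 1, r => costT q P r.1 + costT q P r.2

/-- The factor at the site `v`. -/
noncomputable def phiT [Fintype E] (pos : E → B → V) (v : V) (q : ℕ) :
    (P : ℕ) → (E → Tr (RecG (Lab B d) (B → Bool) q) P) → Matrix (Fin d) (Fin d) ℂ
  | 0, ρ => phi pos v q ρ
  | P + 1, ρ => phiT pos v q P (fun b => (ρ b).1) * phiT pos v q P (fun b => (ρ b).2)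

/-- The coefficient. -/
noncomputable def coefT [Fintype B] [DecidableEq B] (g : Matrix (B → Fin d) (B → Fin d) ℂ) (x : ℝ)
    (q : ℕ) : (P : ℕ) → Tr (RecG (Lab B d) (B → Bool) q) P → ℂ
  | 0, r => coef g x q r
  | P + 1, r => coefT g x q P r.1 * coefT g x q P r.2

end pos

end Pool.Agent.Helper2.PB
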