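import Pool.Agent.Helper2.PB.Defs2

/-!
# Polynomial density of states
-/

set_option autoImplicit false

namespace Pool.Agent.Helper2.PB

open Matrix

section DOS

theorem dos_bound {ι : Type} [Fintype ι] (μ : ι → ℝ) (Δ : ℝ) (hΔ : 0 < Δ) (i₀ : ι) (h0 : μ i₀ = 0)
    (hgap : ∀ i, i ≠ i₀ → Δ ≤ μ i) (a : ℕ) (ha : 1 ≤ a) (L : ℕ) (hL : 1 ≤ L)
    (hdos : ∀ M : ℝ, 0 ≤ M → ((Finset.univ.filter fun i => μ i < M).card : ℝ) ≤
      ((a : ℝ) * L) ^ ((a : ℝ) * (M + 1)))
    (c K β : ℝ) (hc : 0 ≤ c) (hK : (a : ℝ) ≤ K) (hKΔ : 2 * a + 2 * c + 3 ≤ K * Δ)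
    (hβ : β = K * Real.log (2 * a * L)) :
    ∑ i, Real.exp (-(2 * β * μ i)) - 1 ≤ (1 / 2 * (L : ℝ) ^ (-c)) ^ 2 := by
  classical
  have ha' : (1 : ℝ) ≤ a := by exact_mod_cast ha
  have hL' : (1 : ℝ) ≤ L := by exact_mod_cast hL
  have haL : (1 : ℝ) ≤ a * L := by nlinarith
  set X : ℝ := 2 * a * L with hX
  have hX2 : 2 ≤ X := by rw [hX]; nlinarith
  have hX0 : 0 < X := by linarith
  have hK0 : 0 < K := by linarith
  have hlog : 0 ≤ Real.log X := Real.log_nonneg (by linarith)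
  have hβ0 : 0 ≤ β := by rw [hβ]; positivity
  have hμ0 : ∀ i, 0 ≤ μ i := by
    intro i
    by_cases hi : i = i₀
    · rw [hi, h0]
    · exact hΔ.le.trans (hgap i hi)
  have hexp : ∀ t : ℝ, Real.exp (-(β * t)) = X ^ (-(K * t)) := by
    intro t
    rw [Real.rpow_def_of_pos hX0, hβ]
    congr 1; ring
  -- the sum at inverse temperature `β`
  have hsum : ∑ i, Real.exp (-(β * μ i)) ≤ 2 * (a * L : ℝ) ^ (2 * (a : ℝ)) := by
    obtain ⟨N, hN⟩ : ∃ N : ℕ, ∀ i, ⌊μ i⌋₊ < N := by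
      obtain ⟨N, hN⟩ := (Set.finite_range fun i => ⌊μ i⌋₊).bddAbove
      exact ⟨N + 1, fun i => Nat.lt_succ_of_le (hN ⟨i, rfl⟩)⟩
    have h1 : ∑ i, Real.exp (-(β * μ i)) ≤ ∑ i, Real.exp (-(β * (⌊μ i⌋₊ : ℝ))) := by
      refine Finset.sum_le_sum fun i _ => Real.exp_le_exp.2 ?_
      have := Nat.floor_le (hμ0 i)
      nlinarith
    have h2 : ∑ i, Real.exp (-(β * (⌊μ i⌋₊ : ℝ)))
        = ∑ k ∈ Finset.range N, ∑ i ∈ Finset.univ.filter (fun i => ⌊μ i⌋₊ = k),
          Real.exp (-(β * (k : ℝ))) := by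
      rw [← Finset.sum_fiberwise_of_maps_to (s := Finset.univ) (t := Finset.range N)
        (g := fun i => ⌊μ i⌋₊) (fun i _ => Finset.mem_range.2 (hN i))]
      refine Finset.sum_congr rfl fun k _ => Finset.sum_congr rfl fun i hi => ?_
      rw [(Finset.mem_filter.1 hi).2]
    have h3 : ∀ k : ℕ, ∑ i ∈ Finset.univ.filter (fun i => ⌊μ i⌋₊ = k), Real.exp (-(β * (k : ℝ)))
        ≤ (a * L : ℝ) ^ (2 * (a : ℝ)) * (1 / 2) ^ k := by
      intro k
      rw [Finset.sum_const, nsmul_eq_mul]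
      have e1 : ((Finset.univ.filter fun i => ⌊μ i⌋₊ = k).card : ℝ)
          ≤ ((a : ℝ) * L) ^ ((a : ℝ) * ((k + 1 : ℝ) + 1)) := by
        refine le_trans ?_ (hdos (k + 1) (by positivity))
        have : (Finset.univ.filter fun i => ⌊μ i⌋₊ = k) ⊆ Finset.univ.filter fun i => μ i < k + 1 := by
          intro i hi
          rw [Finset.mem_filter] at hi ⊢
          refine ⟨hi.1, ?_⟩
          rw [← hi.2]
          exact Nat.lt_floor_add_one _
        exact_mod_cast Finset.card_le_card this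
      have e2 : Real.exp (-(β * (k : ℝ))) ≤ X ^ (-((a : ℝ) * k)) := by
        rw [hexp]
        refine Real.rpow_le_rpow_of_exponent_le (by linarith) ?_
        have : (a : ℝ) * k ≤ K * k := mul_le_mul_of_nonneg_right hK (Nat.cast_nonneg _)
        linarith
      calc ((Finset.univ.filter fun i => ⌊μ i⌋₊ = k).card : ℝ) * Real.exp (-(β * (k : ℝ)))
          ≤ ((a : ℝ) * L) ^ ((a : ℝ) * ((k + 1 : ℝ) + 1)) * X ^ (-((a : ℝ) * k)) :=
            mul_le_mul e1 e2 (Real.exp_pos _).le (by positivity)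
        _ = (a * L : ℝ) ^ (2 * (a : ℝ)) * ((a * L : ℝ) ^ ((a : ℝ) * k) * X ^ (-((a : ℝ) * k))) := by
            rw [← mul_assoc, ← Real.rpow_add (by positivity)]
            congr 2; ring
        _ = (a * L : ℝ) ^ (2 * (a : ℝ)) * (1 / 2) ^ ((a : ℝ) * k) := by
            congr 1
            have e3 : X = 2 * (a * L : ℝ) := by rw [hX]; ring
            have e4 : (0 : ℝ) < a * L := by linarith
            have e5 : (0 : ℝ) < (a * L : ℝ) ^ ((a : ℝ) * k) := Real.rpow_pos_of_pos e4 _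
            have e6 : (0 : ℝ) < (2 : ℝ) ^ ((a : ℝ) * k) := Real.rpow_pos_of_pos (by norm_num) _
            rw [Real.rpow_neg hX0.le, e3, Real.mul_rpow (x := 2) (by norm_num) e4.le,
              Real.div_rpow (by norm_num) (by norm_num), Real.one_rpow]
            field_simp
        _ ≤ (a * L : ℝ) ^ (2 * (a : ℝ)) * (1 / 2) ^ k := by
            refine mul_le_mul_of_nonneg_left ?_ (by positivity)
            rw [← Real.rpow_natCast]
            refine Real.rpow_le_rpow_of_exponent_ge (by norm_num) (by norm_num) ?_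
            have : (0 : ℝ) ≤ k := Nat.cast_nonneg _
            nlinarith
    calc ∑ i, Real.exp (-(β * μ i)) ≤ ∑ k ∈ Finset.range N,
          (a * L : ℝ) ^ (2 * (a : ℝ)) * (1 / 2) ^ k :=
          h1.trans (h2.trans_le (Finset.sum_le_sum fun k _ => h3 k))
      _ = (a * L : ℝ) ^ (2 * (a : ℝ)) * ∑ k ∈ Finset.range N, (1 / 2 : ℝ) ^ k := by
          rw [Finset.mul_sum]
      _ ≤ (a * L : ℝ) ^ (2 * (a : ℝ)) * 2 := by
          refine mul_le_mul_of_nonneg_left ?_ (by positivity)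
          have hs : Summable fun k : ℕ => (1 / 2 : ℝ) ^ k :=
            summable_geometric_of_lt_one (by norm_num) (by norm_num)
          have := hs.sum_le_tsum (Finset.range N) (fun k _ => by positivity)
          rw [tsum_geometric_of_lt_one (by norm_num) (by norm_num)] at this
          norm_num at this ⊢
          exact this
      _ = 2 * (a * L : ℝ) ^ (2 * (a : ℝ)) := mul_comm _ _
  -- split off the ground state
  have hsplit : ∑ i, Real.exp (-(2 * β * μ i)) - 1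
      = ∑ i ∈ Finset.univ.erase i₀, Real.exp (-(2 * β * μ i)) := by
    rw [← Finset.add_sum_erase _ _ (Finset.mem_univ i₀), h0]
    simp
  have h4 : ∑ i ∈ Finset.univ.erase i₀, Real.exp (-(2 * β * μ i))
      ≤ Real.exp (-(β * Δ)) * ∑ i, Real.exp (-(β * μ i)) := by
    rw [Finset.mul_sum]
    refine le_trans (Finset.sum_le_sum (g := fun i => Real.exp (-(β * Δ)) * Real.exp (-(β * μ i)))
      fun i hi => ?_) (Finset.sum_le_sum_of_subset_of_nonneg (Finset.erase_subset _ _)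
        fun i _ _ => by positivity)
    rw [← Real.exp_add]
    refine Real.exp_le_exp.2 ?_
    have := hgap i (Finset.ne_of_mem_erase hi)
    nlinarith
  rw [hsplit]
  refine h4.trans ?_
  have h5 : Real.exp (-(β * Δ)) * ∑ i, Real.exp (-(β * μ i))
      ≤ X ^ (-(K * Δ)) * (2 * X ^ (2 * (a : ℝ))) := by
    rw [← hexp]
    refine mul_le_mul_of_nonneg_left (hsum.trans ?_) (Real.exp_pos _).le
    refine mul_le_mul_of_nonneg_left ?_ (by norm_num)
    refine Real.rpow_le_rpow (by positivity) ?_ (by positivity)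
    rw [hX]; nlinarith
  refine h5.trans ?_
  have h6 : X ^ (-(K * Δ)) * (2 * X ^ (2 * (a : ℝ))) = 2 * X ^ (2 * a - K * Δ) := by
    rw [mul_left_comm, ← Real.rpow_add hX0]
    congr 2; ring
  have h7 : X ^ (2 * a - K * Δ) ≤ X ^ (-(2 * c) + -(3 : ℝ)) :=
    Real.rpow_le_rpow_of_exponent_le (by linarith) (by linarith)
  have h8 : X ^ (-(2 * c) + -(3 : ℝ)) = X ^ (-(2 * c)) * X ^ (-(3 : ℝ)) := Real.rpow_add hX0 _ _
  have h9 : X ^ (-(3 : ℝ)) ≤ 1 / 8 := by
    have : X ^ (-(3 : ℝ)) ≤ 2 ^ (-(3 : ℝ)) :=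
      Real.rpow_le_rpow_of_nonpos (by norm_num) hX2 (by norm_num)
    refine this.trans ?_
    rw [Real.rpow_neg (by norm_num)]
    norm_num
  have h10 : X ^ (-(2 * c)) ≤ (L : ℝ) ^ (-(2 * c)) := by
    refine Real.rpow_le_rpow_of_nonpos (by positivity) ?_ (by linarith)
    rw [hX]; nlinarith
  have h11 : (1 / 2 * (L : ℝ) ^ (-c)) ^ 2 = 1 / 4 * (L : ℝ) ^ (-(2 * c)) := by
    rw [mul_pow, ← Real.rpow_natCast ((L : ℝ) ^ (-c)) 2, ← Real.rpow_mul (by positivity)]
    norm_num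
    congr 1; ring
  rw [h6, h11]
  have h12 : X ^ (-(2 * c)) * X ^ (-(3 : ℝ)) ≤ (L : ℝ) ^ (-(2 * c)) * (1 / 8) :=
    mul_le_mul h10 h9 (by positivity) (by positivity)
  rw [h8] at h7
  linarith

end DOS

end Pool.Agent.Helper2.PB
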