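import Pool.Agent.Helper2.PB.Defs2

/-! EMB: the embedding of the matrices of a block -/

set_option autoImplicit false

namespace Pool.Agent.Helper2.PB

open Matrix
open scoped Matrix.Norms.L2Operator ComplexOrder

section EMB

variable {V B : Type} [Fintype V] [DecidableEq V] [Fintype B] [DecidableEq B] {d : ℕ}

omit [Fintype V] [DecidableEq V] [Fintype B] [DecidableEq B] in
private theorem emb_apply (pos : B → V) (g : Matrix (B → Fin d) (B → Fin d) ℂ)
    (σ τ : V → Fin d) (h : ∀ u, (∀ p, pos p ≠ u) → σ u = τ u) :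
    emb pos g σ τ = g (fun p => σ (pos p)) (fun p => τ (pos p)) := by
  unfold emb; rw [if_pos h]

omit [Fintype V] [DecidableEq V] [Fintype B] [DecidableEq B] in
private theorem emb_apply_not (pos : B → V) (g : Matrix (B → Fin d) (B → Fin d) ℂ)
    (σ τ : V → Fin d) (h : ¬ ∀ u, (∀ p, pos p ≠ u) → σ u = τ u) :
    emb pos g σ τ = 0 := by
  unfold emb; rw [if_neg h]

omit [Fintype V] [DecidableEq V] [Fintype B] [DecidableEq B] in
private theorem extend_off (pos : B → V) (κ : B → Fin d) (σ : V → Fin d) (u : V)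
    (h : ∀ p, pos p ≠ u) : Function.extend pos κ σ u = σ u :=
  Function.extend_apply' _ _ _ (fun ⟨a, ha⟩ => h a ha)

open Classical in
private theorem sum_ext (pos : B → V) (hpos : Function.Injective pos) (σ : V → Fin d)
    (F : (B → Fin d) → ℂ) :
    (∑ ρ : V → Fin d, if ∀ u, (∀ p, pos p ≠ u) → σ u = ρ u then F (fun p => ρ (pos p)) else 0)
      = ∑ κ, F κ := by
  rw [← Finset.sum_filter]
  refine Finset.sum_nbij' (fun ρ p => ρ (pos p)) (fun κ => Function.extend pos κ σ) ?_ ?_ ?_ ?_ ?_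
  · intro ρ _; exact Finset.mem_univ _
  · intro κ _
    rw [Finset.mem_filter]
    exact ⟨Finset.mem_univ _, fun u hu => (extend_off pos κ σ u hu).symm⟩
  · intro ρ hρ
    rw [Finset.mem_filter] at hρ
    funext u
    by_cases h : ∃ p, pos p = u
    · obtain ⟨p, rfl⟩ := h
      rw [hpos.extend_apply]
    · have h' : ∀ p, pos p ≠ u := fun p hp => h ⟨p, hp⟩
      rw [extend_off _ _ _ _ h']
      exact hρ.2 u h'
  · intro κ _
    funext p
    exact hpos.extend_apply _ _ _
  · intro ρ _; rfl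

theorem emb_one (pos : B → V) (hpos : Function.Injective pos) :
    emb pos (1 : Matrix (B → Fin d) (B → Fin d) ℂ) = 1 := by
  have _ := hpos
  funext σ τ
  by_cases h : ∀ u, (∀ p, pos p ≠ u) → σ u = τ u
  · rw [emb_apply _ _ _ _ h, Matrix.one_apply, Matrix.one_apply]
    by_cases h2 : σ = τ
    · rw [h2, if_pos rfl, if_pos rfl]
    · rw [if_neg h2, if_neg]
      intro h3
      apply h2
      funext u
      by_cases h4 : ∃ p, pos p = u
      · obtain ⟨p, rfl⟩ := h4
        exact congrFun h3 p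
      · exact h u fun p hp => h4 ⟨p, hp⟩
  · rw [emb_apply_not _ _ _ _ h, Matrix.one_apply, if_neg]
    rintro rfl
    exact h fun u _ => rfl

theorem emb_add (pos : B → V) (g g' : Matrix (B → Fin d) (B → Fin d) ℂ) :
    emb pos (g + g') = emb pos g + emb pos g' := by
  funext σ τ
  rw [Matrix.add_apply]
  unfold emb
  split_ifs
  · rw [Matrix.add_apply]
  · rw [add_zero]

theorem emb_smul (pos : B → V) (c : ℂ) (g : Matrix (B → Fin d) (B → Fin d) ℂ) :
    emb pos (c • g) = c • emb pos g := by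
  funext σ τ
  rw [Matrix.smul_apply]
  unfold emb
  split_ifs
  · rw [Matrix.smul_apply]
  · rw [smul_zero]

theorem emb_mul (pos : B → V) (hpos : Function.Injective pos)
    (g g' : Matrix (B → Fin d) (B → Fin d) ℂ) :
    emb pos (g * g') = emb pos g * emb pos g' := by
  classical
  funext σ τ
  rw [Matrix.mul_apply]
  by_cases h : ∀ u, (∀ p, pos p ≠ u) → σ u = τ u
  · rw [emb_apply _ _ _ _ h, Matrix.mul_apply,
      ← sum_ext pos hpos σ (fun κ => g (fun p => σ (pos p)) κ * g' κ (fun p => τ (pos p)))]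
    refine Finset.sum_congr rfl fun ρ _ => ?_
    by_cases h1 : ∀ u, (∀ p, pos p ≠ u) → σ u = ρ u
    · rw [if_pos h1, emb_apply _ _ _ _ h1, emb_apply _ _ ρ τ]
      intro u hu
      rw [← h1 u hu, h u hu]
    · rw [if_neg h1, emb_apply_not _ _ _ _ h1, zero_mul]
  · rw [emb_apply_not _ _ _ _ h]
    symm
    refine Finset.sum_eq_zero fun ρ _ => ?_
    by_cases h1 : ∀ u, (∀ p, pos p ≠ u) → σ u = ρ u
    · rw [emb_apply_not _ _ ρ τ, mul_zero]
      intro h2
      exact h fun u hu => (h1 u hu).trans (h2 u hu)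
    · rw [emb_apply_not _ _ _ _ h1, zero_mul]

theorem emb_conjTranspose (pos : B → V) (g : Matrix (B → Fin d) (B → Fin d) ℂ) :
    emb pos gᴴ = (emb pos g)ᴴ := by
  funext σ τ
  rw [Matrix.conjTranspose_apply]
  by_cases h : ∀ u, (∀ p, pos p ≠ u) → σ u = τ u
  · rw [emb_apply _ _ _ _ h, emb_apply _ _ _ _ fun u hu => (h u hu).symm,
      Matrix.conjTranspose_apply]
  · rw [emb_apply_not _ _ _ _ h, emb_apply_not _ _ τ σ fun h2 => h fun u hu => (h2 u hu).symm,
      star_zero]

open Classical in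
private theorem emb_mul_disj (pos pos' : B → V) (hdisj : ∀ p p', pos p ≠ pos' p')
    (g g' : Matrix (B → Fin d) (B → Fin d) ℂ) (σ τ : V → Fin d) :
    (emb pos g * emb pos' g') σ τ = if ∀ u, (∀ p, pos p ≠ u) → (∀ p, pos' p ≠ u) → σ u = τ u then
      g (fun p => σ (pos p)) (fun p => τ (pos p)) * g' (fun p => σ (pos' p)) (fun p => τ (pos' p))
      else 0 := by
  rw [Matrix.mul_apply]
  set ρ0 : V → Fin d := fun u => if ∃ p, pos p = u then τ u else σ u with hρ0
  have hρ0on : ∀ p, ρ0 (pos p) = τ (pos p) := fun p => by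
    rw [hρ0]; simp only; rw [if_pos ⟨p, rfl⟩]
  have hρ0off : ∀ u, (∀ p, pos p ≠ u) → ρ0 u = σ u := fun u hu => by
    rw [hρ0]; simp only; rw [if_neg]; rintro ⟨p, hp⟩; exact hu p hp
  rw [Finset.sum_eq_single ρ0]
  · rw [emb_apply pos g σ ρ0 fun u hu => (hρ0off u hu).symm]
    by_cases h : ∀ u, (∀ p, pos p ≠ u) → (∀ p, pos' p ≠ u) → σ u = τ u
    · rw [if_pos h, emb_apply pos' g' ρ0 τ]
      · congr 2
        · funext p; exact hρ0on p
        · funext p
          exact hρ0off (pos' p) fun q => hdisj q p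
      · intro u hu
        by_cases h1 : ∃ p, pos p = u
        · obtain ⟨p, rfl⟩ := h1
          exact hρ0on p
        · have h1' : ∀ p, pos p ≠ u := fun p hp => h1 ⟨p, hp⟩
          rw [hρ0off u h1']
          exact h u h1' hu
    · rw [if_neg h, emb_apply_not pos' g' ρ0 τ, mul_zero]
      intro h2
      apply h
      intro u hu hu'
      rw [← h2 u hu', hρ0off u hu]
  · intro ρ _ hρ
    by_cases h1 : ∀ u, (∀ p, pos p ≠ u) → σ u = ρ u
    · rw [emb_apply_not pos' g' ρ τ, mul_zero]
      intro h2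
      apply hρ
      funext u
      by_cases h3 : ∃ p, pos p = u
      · obtain ⟨p, rfl⟩ := h3
        rw [hρ0on p]
        exact h2 (pos p) fun q hq => hdisj p q hq.symm
      · have h3' : ∀ p, pos p ≠ u := fun p hp => h3 ⟨p, hp⟩
        rw [hρ0off u h3']
        exact (h1 u h3').symm
    · rw [emb_apply_not _ _ _ _ h1, zero_mul]
  · intro h; exact absurd (Finset.mem_univ _) h

theorem emb_commute (pos pos' : B → V) (hpos : Function.Injective pos)
    (hpos' : Function.Injective pos') (hdisj : ∀ p p', pos p ≠ pos' p')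
    (g g' : Matrix (B → Fin d) (B → Fin d) ℂ) : Commute (emb pos g) (emb pos' g') := by
  have _ := hpos
  have _ := hpos'
  classical
  show emb pos g * emb pos' g' = emb pos' g' * emb pos g
  ext σ τ
  rw [emb_mul_disj pos pos' hdisj, emb_mul_disj pos' pos fun p p' h => hdisj p' p h.symm]
  by_cases h : ∀ u, (∀ p, pos p ≠ u) → (∀ p, pos' p ≠ u) → σ u = τ u
  · rw [if_pos h, if_pos fun u h1 h2 => h u h2 h1, mul_comm]
  · rw [if_neg h, if_neg fun h2 => h fun u h3 h4 => h2 u h4 h3]

/-- the embedding as a homomorphism of C*-algebras -/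
private noncomputable def embHom (pos : B → V) (hpos : Function.Injective pos) :
    Matrix (B → Fin d) (B → Fin d) ℂ →⋆ₙₐ[ℂ] Matrix (V → Fin d) (V → Fin d) ℂ where
  toFun := emb pos
  map_smul' c g := emb_smul pos c g
  map_zero' := by
    have h := emb_smul pos (0 : ℂ) (0 : Matrix (B → Fin d) (B → Fin d) ℂ)
    rwa [zero_smul, zero_smul] at h
  map_add' := emb_add pos
  map_mul' := emb_mul pos hpos
  map_star' g := by
    rw [Matrix.star_eq_conjTranspose, Matrix.star_eq_conjTranspose, emb_conjTranspose]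

theorem norm_emb_le (pos : B → V) (hpos : Function.Injective pos)
    (g : Matrix (B → Fin d) (B → Fin d) ℂ) : ‖emb pos g‖ ≤ ‖g‖ :=
  NonUnitalStarAlgHom.norm_apply_le (embHom pos hpos) g

end EMB

end Pool.Agent.Helper2.PB
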