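import Pool.Agent.Helper2.PB.Defs2

/-!
# Schatten-Hoelder inequality for binary trees of matrices
-/

set_option autoImplicit false

namespace Pool.Agent.Helper2.PB

open Matrix
open scoped Matrix.Norms.L2Operator ComplexOrder

/-! ## HOLDER (file Holder.lean) -/
section HOLDER

namespace Holder

/-- Regrouping the leaves in pairs. -/
def regroup {α : Type} : (n : ℕ) → Tr α (n + 1) → Tr (α × α) n
  | 0, t => t
  | n + 1, t => (regroup n t.1, regroup n t.2)

theorem tprod_regroup {α M : Type} [Mul M] (f : α → M) : ∀ (n : ℕ) (t : Tr α (n + 1)),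
    tprod (fun p : α × α => f p.1 * f p.2) n (regroup n t) = tprod f (n + 1) t
  | 0, t => rfl
  | n + 1, t => by
    change tprod _ n (regroup n t.1) * tprod _ n (regroup n t.2) = tprod f (n + 1) t.1 * tprod f (n + 1) t.2
    rw [tprod_regroup f n t.1, tprod_regroup f n t.2]

theorem tprod_nonneg {α : Type} (f : α → ℝ) (hf : ∀ a, 0 ≤ f a) : ∀ (n : ℕ) (t : Tr α n),
    0 ≤ tprod f n t
  | 0, t => hf t
  | n + 1, t => mul_nonneg (tprod_nonneg f hf n t.1) (tprod_nonneg f hf n t.2)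

theorem tprod_mono {α : Type} (f g : α → ℝ) (hf : ∀ a, 0 ≤ f a) (h : ∀ a, f a ≤ g a) :
    ∀ (n : ℕ) (t : Tr α n), tprod f n t ≤ tprod g n t
  | 0, t => h t
  | n + 1, t => mul_le_mul (tprod_mono f g hf h n t.1) (tprod_mono f g hf h n t.2)
      (tprod_nonneg f hf n t.2) (tprod_nonneg g (fun a => (hf a).trans (h a)) n t.1)

theorem tprod_pow {α : Type} (f : α → ℝ) (k : ℕ) : ∀ (n : ℕ) (t : Tr α n),
    tprod f n t ^ k = tprod (fun a => f a ^ k) n t
  | 0, t => rfl
  | n + 1, t => by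
    change (tprod f n t.1 * tprod f n t.2) ^ k = _
    rw [mul_pow, tprod_pow f k n t.1, tprod_pow f k n t.2]
    rfl

theorem tprod_mul_const {α : Type} (f : α → ℝ) (m : ℝ) : ∀ (n : ℕ) (t : Tr α n),
    tprod (fun a => f a * m) n t = tprod f n t * m ^ 2 ^ n
  | 0, t => by
    change f t * m = f t * m ^ 2 ^ 0
    simp
  | n + 1, t => by
    change tprod (fun a => f a * m) n t.1 * tprod (fun a => f a * m) n t.2 =
      (tprod f n t.1 * tprod f n t.2) * m ^ 2 ^ (n + 1)
    rw [tprod_mul_const f m n t.1, tprod_mul_const f m n t.2, pow_succ 2 n, pow_mul]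
    ring

/-- The alternating tree. -/
def alt : (n : ℕ) → Tr Bool (n + 1)
  | 0 => ((true, false) : Bool × Bool)
  | n + 1 => (alt n, alt n)

theorem tprod_alt {M : Type} [Monoid M] (f : Bool → M) : ∀ n : ℕ,
    tprod f (n + 1) (alt n) = (f true * f false) ^ 2 ^ n
  | 0 => by
    change f true * f false = _
    simp
  | n + 1 => by
    change tprod f (n + 1) (alt n) * tprod f (n + 1) (alt n) = _
    rw [tprod_alt f n, ← pow_add, pow_succ 2 n]
    congr 1
    ring

theorem tprod_off {M : Type} [Monoid M] (f : Bool → M) : ∀ n : ℕ,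
    tprod f n (off n) = f false ^ 2 ^ n
  | 0 => by
    change f false = _
    simp
  | n + 1 => by
    change tprod f n (off n) * tprod f n (off n) = _
    rw [tprod_off f n, ← pow_add, pow_succ 2 n]
    congr 1
    ring

/-- The tree whose last leaf is `true`. -/
def lastT : (n : ℕ) → Tr Bool n
  | 0 => true
  | n + 1 => (off n, lastT n)

theorem tprod_lastT {M : Type} [Monoid M] (f : Bool → M) : ∀ n : ℕ,
    tprod f n (lastT n) = f false ^ (2 ^ n - 1) * f true
  | 0 => by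
    change f true = _
    simp
  | n + 1 => by
    change tprod f n (off n) * tprod f n (lastT n) = _
    rw [tprod_off f n, tprod_lastT f n, ← mul_assoc, ← pow_add]
    congr 2
    have : 1 ≤ 2 ^ n := Nat.one_le_two_pow
    rw [pow_succ]
    omega

variable {ι : Type} [Fintype ι] [DecidableEq ι]

omit [DecidableEq ι] in
theorem trace_self (A : Matrix ι ι ℂ) : (A * Aᴴ).trace.re = ∑ i, ∑ j, ‖A i j‖ ^ 2 := by
  simp only [Matrix.trace, Matrix.diag_apply, Matrix.mul_apply, Matrix.conjTranspose_apply,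
    Complex.re_sum]
  refine Finset.sum_congr rfl fun i _ => Finset.sum_congr rfl fun j _ => ?_
  have := Complex.mul_conj (A i j)
  change (A i j * (starRingEnd ℂ) (A i j)).re = _
  rw [this, Complex.ofReal_re, Complex.normSq_eq_norm_sq]

omit [DecidableEq ι] in
theorem trace_cs (A B : Matrix ι ι ℂ) :
    ‖(A * B).trace‖ ^ 2 ≤ (A * Aᴴ).trace.re * (B * Bᴴ).trace.re := by
  rw [trace_self, trace_self]
  have h1 : ‖(A * B).trace‖ ≤ ∑ p : ι × ι, ‖A p.1 p.2‖ * ‖B p.2 p.1‖ := by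
    rw [Fintype.sum_prod_type]
    simp only [Matrix.trace, Matrix.diag_apply, Matrix.mul_apply]
    refine (norm_sum_le _ _).trans (Finset.sum_le_sum fun i _ => ?_)
    refine (norm_sum_le _ _).trans (Finset.sum_le_sum fun j _ => ?_)
    rw [norm_mul]
  have h2 := Finset.sum_mul_sq_le_sq_mul_sq (Finset.univ : Finset (ι × ι))
    (fun p => ‖A p.1 p.2‖) (fun p => ‖B p.2 p.1‖)
  have h3 : ∑ p : ι × ι, ‖A p.1 p.2‖ ^ 2 = ∑ i, ∑ j, ‖A i j‖ ^ 2 := by
    rw [Fintype.sum_prod_type]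
  have h4 : ∑ p : ι × ι, ‖B p.2 p.1‖ ^ 2 = ∑ i, ∑ j, ‖B i j‖ ^ 2 := by
    rw [Fintype.sum_prod_type_right]
  rw [h3, h4] at h2
  refine le_trans ?_ h2
  exact pow_le_pow_left₀ (norm_nonneg _) h1 2

theorem trace_pow_cyc (A B : Matrix ι ι ℂ) (n : ℕ) :
    ((A * B) ^ n).trace = ((B * A) ^ n).trace := by
  cases n with
  | zero => simp
  | succ n =>
    rw [pow_succ, ← mul_assoc, Matrix.trace_mul_comm, ← mul_assoc, pow_succ']
    have h : B * (A * B) ^ n = (B * A) ^ n * B := by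
      induction n with
      | zero => simp
      | succ n ih => rw [pow_succ, ← mul_assoc, ih, pow_succ]; simp [mul_assoc]
    rw [h, mul_assoc, ← pow_succ, pow_succ']

theorem psd_pow_re (A : Matrix ι ι ℂ) (hA : A.PosSemidef) (n : ℕ) : 0 ≤ (A ^ n).trace.re := by
  have := (hA.pow n).trace_nonneg
  exact (Complex.le_def.1 this).1

omit [DecidableEq ι] in
theorem psd_self (A : Matrix ι ι ℂ) : (A * Aᴴ).PosSemidef := Matrix.posSemidef_self_mul_conjTranspose A

/-- The Hoelder inequality for the trace of a product of `2 ^ (T + 1)` matrices. -/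
theorem h1 : ∀ (T : ℕ) {α : Type} (f : α → Matrix ι ι ℂ) (t : Tr α (T + 1)),
    ‖(tprod f (T + 1) t).trace‖ ^ 2 ^ (T + 1) ≤
      tprod (fun a => ((f a * (f a)ᴴ) ^ 2 ^ T).trace.re) (T + 1) t
  | 0, α, f, t => by
    change ‖(f t.1 * f t.2).trace‖ ^ 2 ^ (0 + 1) ≤ ((f t.1 * (f t.1)ᴴ) ^ 2 ^ 0).trace.re *
      ((f t.2 * (f t.2)ᴴ) ^ 2 ^ 0).trace.re
    simpa using trace_cs (f t.1) (f t.2)
  | T + 1, α, f, t => by
    have ih1 := h1 T (fun p : α × α => f p.1 * f p.2) (regroup (T + 1) t)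
    rw [tprod_regroup] at ih1
    have key : ∀ A B : Matrix ι ι ℂ, ((A * B * (A * B)ᴴ) ^ 2 ^ T).trace.re ^ 2 ≤
        ((A * Aᴴ) ^ 2 ^ (T + 1)).trace.re * ((B * Bᴴ) ^ 2 ^ (T + 1)).trace.re := by
      intro A B
      have e1 : ((A * B * (A * B)ᴴ) ^ 2 ^ T).trace = (((Aᴴ * A) * (B * Bᴴ)) ^ 2 ^ T).trace := by
        rw [Matrix.conjTranspose_mul]
        have : A * B * (Bᴴ * Aᴴ) = A * (B * Bᴴ * Aᴴ) := by simp [mul_assoc]
        rw [this, trace_pow_cyc]
        have : B * Bᴴ * Aᴴ * A = (B * Bᴴ) * (Aᴴ * A) := by simp [mul_assoc]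
        rw [this, trace_pow_cyc]
      have ih2 := h1 T (fun b : Bool => if b = true then Aᴴ * A else B * Bᴴ) (alt T)
      rw [tprod_alt, tprod_alt] at ih2
      simp only [if_true, Bool.false_eq_true, if_false] at ih2
      have eX : (Aᴴ * A) * (Aᴴ * A)ᴴ = (Aᴴ * A) ^ 2 := by
        rw [Matrix.conjTranspose_mul, Matrix.conjTranspose_conjTranspose, pow_two]
      have eY : (B * Bᴴ) * (B * Bᴴ)ᴴ = (B * Bᴴ) ^ 2 := by
        rw [Matrix.conjTranspose_mul, Matrix.conjTranspose_conjTranspose, pow_two]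
      rw [eX, eY, ← pow_mul, ← pow_mul, ← pow_succ', trace_pow_cyc Aᴴ A, ← e1] at ih2
      rw [pow_succ' 2 T, pow_mul] at ih2
      have h5 := (pow_le_pow_iff_left₀ (by positivity) (mul_nonneg
        (psd_pow_re _ (psd_self A) _) (psd_pow_re _ (psd_self B) _)) (by positivity)).1 ih2
      rw [pow_succ' 2 T]
      refine le_trans ?_ h5
      rw [← sq_abs (Complex.re _)]
      exact pow_le_pow_left₀ (abs_nonneg _) (Complex.abs_re_le_norm _) 2
    calc ‖(tprod f (T + 1 + 1) t).trace‖ ^ 2 ^ (T + 1 + 1)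
        = (‖(tprod f (T + 1 + 1) t).trace‖ ^ 2 ^ (T + 1)) ^ 2 := by rw [← pow_mul, ← pow_succ]
      _ ≤ (tprod (fun p : α × α => ((f p.1 * f p.2 * (f p.1 * f p.2)ᴴ) ^ 2 ^ T).trace.re) (T + 1)
            (regroup (T + 1) t)) ^ 2 := pow_le_pow_left₀ (by positivity) ih1 2
      _ = tprod (fun p : α × α => ((f p.1 * f p.2 * (f p.1 * f p.2)ᴴ) ^ 2 ^ T).trace.re ^ 2) (T + 1)
            (regroup (T + 1) t) := tprod_pow _ _ _ _
      _ ≤ tprod (fun p : α × α => ((f p.1 * (f p.1)ᴴ) ^ 2 ^ (T + 1)).trace.re *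
            ((f p.2 * (f p.2)ᴴ) ^ 2 ^ (T + 1)).trace.re) (T + 1) (regroup (T + 1) t) :=
          tprod_mono _ _ (fun p => sq_nonneg _) (fun p => key _ _) _ _
      _ = _ := tprod_regroup (fun a => ((f a * (f a)ᴴ) ^ 2 ^ (T + 1)).trace.re) (T + 1) t

/-- The mirrored tree. -/
def mir {α : Type} : (n : ℕ) → Tr α n → Tr (α × Bool) n
  | 0, a => (a, false)
  | n + 1, t => (mir n t.2, mir n t.1)

/-- The lifted tree. -/
def lif {α : Type} : (n : ℕ) → Tr α n → Tr (α × Bool) n
  | 0, a => (a, true)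
  | n + 1, t => (lif n t.1, lif n t.2)

theorem tprod_lif {α M : Type} [Mul M] (f : α × Bool → M) : ∀ (n : ℕ) (t : Tr α n),
    tprod f n (lif n t) = tprod (fun a => f (a, true)) n t
  | 0, t => rfl
  | n + 1, t => by
    change tprod f n (lif n t.1) * tprod f n (lif n t.2) = _
    rw [tprod_lif f n t.1, tprod_lif f n t.2]
    rfl

theorem tprod_mir_re {α : Type} (f : α × Bool → ℝ) : ∀ (n : ℕ) (t : Tr α n),
    tprod f n (mir n t) = tprod (fun a => f (a, false)) n t
  | 0, t => rfl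
  | n + 1, t => by
    change tprod f n (mir n t.2) * tprod f n (mir n t.1) = _
    rw [tprod_mir_re f n t.1, tprod_mir_re f n t.2, mul_comm]
    rfl

omit [DecidableEq ι] in
theorem tprod_mir {α : Type} (f : α → Matrix ι ι ℂ) : ∀ (n : ℕ) (t : Tr α n),
    tprod (fun p : α × Bool => if p.2 = true then f p.1 else (f p.1)ᴴ) n (mir n t) =
      (tprod f n t)ᴴ
  | 0, t => by
    change (if false = true then f t else (f t)ᴴ) = _
    simp
    rfl
  | n + 1, t => by
    change tprod _ n (mir n t.2) * tprod _ n (mir n t.1) = (tprod f n t.1 * tprod f n t.2)ᴴ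
    rw [tprod_mir f n t.1, tprod_mir f n t.2, Matrix.conjTranspose_mul]

omit [DecidableEq ι] in
theorem hs_sq (P : Matrix ι ι ℂ) : hs P ^ 2 = (P * Pᴴ).trace.re := by
  rw [trace_self, hs, Real.sq_sqrt]
  exact Finset.sum_nonneg fun i _ => Finset.sum_nonneg fun j _ => sq_nonneg _

theorem h2 {α : Type} (f : α → Matrix ι ι ℂ) (T : ℕ) (t : Tr α T) :
    (hs (tprod f T t) ^ 2) ^ 2 ^ T ≤ tprod (fun a => ((f a * (f a)ᴴ) ^ 2 ^ T).trace.re) T t := by
  have h := h1 T (fun p : α × Bool => if p.2 = true then f p.1 else (f p.1)ᴴ)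
    ((lif T t, mir T t) : Tr (α × Bool) T × Tr (α × Bool) T)
  change ‖(tprod (fun p : α × Bool => if p.2 = true then f p.1 else (f p.1)ᴴ) T (lif T t) *
    tprod (fun p : α × Bool => if p.2 = true then f p.1 else (f p.1)ᴴ) T (mir T t)).trace‖ ^
      2 ^ (T + 1) ≤ tprod _ T (lif T t) * tprod _ T (mir T t) at h
  rw [tprod_mir, tprod_lif, tprod_lif, tprod_mir_re] at h
  simp only [if_true, Bool.false_eq_true, if_false, Matrix.conjTranspose_conjTranspose] at h
  have e : (fun a => (((f a)ᴴ * f a) ^ 2 ^ T).trace.re) =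
      fun a => ((f a * (f a)ᴴ) ^ 2 ^ T).trace.re := by
    funext a
    rw [trace_pow_cyc]
  rw [e, ← pow_two, pow_succ, pow_mul] at h
  have h5 := (pow_le_pow_iff_left₀ (by positivity)
    (tprod_nonneg _ (fun a => psd_pow_re _ (psd_self (f a)) _) _ _) (by norm_num)).1 h
  refine le_trans ?_ h5
  rw [hs_sq]
  refine pow_le_pow_left₀ ?_ (Complex.re_le_norm _) _
  rw [← hs_sq]
  positivity

open scoped MatrixOrder in
theorem psd_mul_re (P Q : Matrix ι ι ℂ) (hP : P.PosSemidef) (hQ : Q.PosSemidef) :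
    0 ≤ (P * Q).trace.re := by
  obtain ⟨B, hB⟩ := CStarAlgebra.nonneg_iff_eq_star_mul_self.mp hQ.nonneg
  rw [Matrix.star_eq_conjTranspose] at hB
  rw [hB, ← mul_assoc, Matrix.trace_mul_comm, ← mul_assoc]
  exact (Complex.le_def.1 (hP.mul_mul_conjTranspose_same B).trace_nonneg).1

theorem h3 (A B : Matrix ι ι ℂ) (hA : A.PosSemidef) (hAB : (B - A).PosSemidef) (T : ℕ) :
    (A ^ 2 ^ T).trace.re ≤ (B ^ 2 ^ T).trace.re := by
  have hB : B.PosSemidef := by simpa using hAB.add hA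
  cases T with
  | zero =>
    have := (Complex.le_def.1 hAB.trace_nonneg).1
    simp only [Matrix.trace_sub, Complex.sub_re, Complex.zero_re] at this
    simpa using this
  | succ T =>
    have h := h1 T (fun b : Bool => if b = true then B else A) (lastT (T + 1))
    rw [tprod_lastT, tprod_lastT] at h
    simp only [if_true, Bool.false_eq_true, if_false] at h
    rw [hA.isHermitian.eq, hB.isHermitian.eq, ← pow_two, ← pow_two, ← pow_mul, ← pow_mul,
      ← pow_succ'] at h
    set n := 2 ^ (T + 1) with hn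
    have hn1 : 1 ≤ n := Nat.one_le_two_pow
    have h6 : (A ^ n).trace.re ≤ (A ^ (n - 1) * B).trace.re := by
      have := psd_mul_re (A ^ (n - 1)) (B - A) (hA.pow _) hAB
      rw [mul_sub, Matrix.trace_sub, Complex.sub_re, ← pow_succ, Nat.sub_add_cancel hn1] at this
      linarith
    have hx := psd_pow_re A hA n
    have hy := psd_pow_re B hB n
    have h7 : (A ^ n).trace.re ^ n ≤ (A ^ n).trace.re ^ (n - 1) * (B ^ n).trace.re := by
      refine le_trans (pow_le_pow_left₀ hx (h6.trans (Complex.re_le_norm _)) n) h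
    rcases hx.eq_or_lt with h0 | h0
    · rw [← h0]
      exact hy
    · have h8 : (A ^ n).trace.re ^ n = (A ^ n).trace.re ^ (n - 1) * (A ^ n).trace.re := by
        rw [← pow_succ, Nat.sub_add_cancel hn1]
      rw [h8] at h7
      exact le_of_mul_le_mul_left h7 (by positivity)

end Holder

/-- Schatten-Hoelder for a binary tree of matrices, with operator upper bounds for the leaves. -/
theorem hs_tprod_le {ι : Type} [Fintype ι] [DecidableEq ι] {α : Type} (f : α → Matrix ι ι ℂ)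
    (c : α → ℝ) (hc : ∀ a, 0 ≤ c a) (M : Matrix ι ι ℂ) (hM : M.PosSemidef)
    (h : ∀ a, ((c a : ℂ) • M - f a * (f a)ᴴ).PosSemidef) (T : ℕ) (t : Tr α T) :
    hs (tprod f T t) ^ 2 ≤ tprod c T t * (M ^ 2 ^ T).trace.re := by
  have hm := Holder.psd_pow_re M hM (2 ^ T)
  have h4 : ∀ a, ((f a * (f a)ᴴ) ^ 2 ^ T).trace.re ≤ c a ^ 2 ^ T * (M ^ 2 ^ T).trace.re := by
    intro a
    refine (Holder.h3 _ _ (Holder.psd_self (f a)) (h a) T).trans (le_of_eq ?_)
    rw [smul_pow, Matrix.trace_smul, smul_eq_mul, ← Complex.ofReal_pow, Complex.re_ofReal_mul]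
  have h5 := (Holder.h2 f T t).trans (Holder.tprod_mono _ _
    (fun a => Holder.psd_pow_re _ (Holder.psd_self (f a)) _) h4 T t)
  rw [Holder.tprod_mul_const (fun a => c a ^ 2 ^ T), ← Holder.tprod_pow, ← mul_pow] at h5
  exact (pow_le_pow_iff_left₀ (by positivity)
    (mul_nonneg (Holder.tprod_nonneg c hc _ _) hm) (by positivity)).1 h5

end HOLDER

end Pool.Agent.Helper2.PB
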