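import Pool.Agent.Helper2.PB.Defs2

/-!
# Operator estimates for the leaf matrices
-/

set_option autoImplicit false

namespace Pool.Agent.Helper2.PB

open Matrix
open scoped Matrix.Norms.L2Operator ComplexOrder

namespace Leaf

section gen

variable {A : Type} [CStarAlgebra A]

theorem norm_one_le' : ‖(1 : A)‖ ≤ 1 := by
  have h : ‖(1 : A)‖ = ‖(1 : A)‖ * ‖(1 : A)‖ := by
    have := CStarRing.norm_star_mul_self (x := (1 : A))
    rwa [star_one, one_mul] at this
  by_contra hcon
  push Not at hcon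
  nlinarith

/-- norm of a product over a list -/
theorem norm_listprod_le {E : Type} (f : E → A) (c : E → ℝ) (hc : ∀ b, ‖f b‖ ≤ c b) (l : List E) :
    ‖(l.map f).prod‖ ≤ (l.map c).prod := by
  induction l with
  | nil => simpa using norm_one_le'
  | cons b l ih =>
    simp only [List.map_cons, List.prod_cons]
    refine (norm_mul_le _ _).trans ?_
    exact mul_le_mul (hc b) ih (norm_nonneg _) ((norm_nonneg _).trans (hc b))

theorem listprod_bounds {E : Type} (y : E → A) (t : ℝ) (ht : 0 ≤ t) (hy : ∀ b, ‖y b‖ ≤ t)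
    (l : List E) : ‖(l.map fun b => 1 + y b).prod - 1‖ ≤ (1 + t) ^ l.length - 1 ∧
      ‖(l.map fun b => 1 + y b).prod - 1 - (l.map y).sum‖ ≤
        (1 + t) ^ l.length - 1 - l.length * t := by
  induction l with
  | nil => simp
  | cons b l ih =>
    obtain ⟨h1, h2⟩ := ih
    simp only [List.map_cons, List.prod_cons, List.sum_cons, List.length_cons]
    set P := (l.map fun b => 1 + y b).prod
    set S := (l.map y).sum
    have hyP : ‖y b * (P - 1)‖ ≤ t * ((1 + t) ^ l.length - 1) :=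
      (norm_mul_le _ _).trans (mul_le_mul (hy b) h1 (norm_nonneg _) ht)
    constructor
    · have e : (1 + y b) * P - 1 = (P - 1) + (y b + y b * (P - 1)) := by noncomm_ring
      rw [e]
      refine (norm_add_le _ _).trans ?_
      have := norm_add_le (y b) (y b * (P - 1))
      have h3 := hy b
      calc ‖P - 1‖ + ‖y b + y b * (P - 1)‖ ≤ ((1 + t) ^ l.length - 1) +
            (t + t * ((1 + t) ^ l.length - 1)) := by linarith
        _ = (1 + t) ^ (l.length + 1) - 1 := by ring
    · have e : (1 + y b) * P - 1 - (y b + S) = (P - 1 - S) + y b * (P - 1) := by noncomm_ring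
      rw [e]
      refine (norm_add_le _ _).trans ?_
      calc ‖P - 1 - S‖ + ‖y b * (P - 1)‖ ≤ ((1 + t) ^ l.length - 1 - l.length * t) +
            t * ((1 + t) ^ l.length - 1) := by linarith
        _ = (1 + t) ^ (l.length + 1) - 1 - ((l.length + 1 : ℕ) : ℝ) * t := by
            push_cast
            ring

theorem pow_le_exp {t : ℝ} (ht : 0 ≤ t) (N : ℕ) : (1 + t) ^ N ≤ Real.exp (N * t) := by
  rw [Real.exp_nat_mul]
  exact pow_le_pow_left₀ (by linarith) (by linarith [Real.add_one_le_exp t]) N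

theorem pow_sub_le {t : ℝ} (ht : 0 ≤ t) (N : ℕ) (hu : N * t ≤ 1) :
    (1 + t) ^ N - 1 - N * t ≤ (N * t) ^ 2 := by
  have h1 := pow_le_exp ht N
  have h0 : 0 ≤ (N : ℝ) * t := by positivity
  have h2 := Real.abs_exp_sub_one_sub_id_le (x := (N : ℝ) * t) (by rwa [abs_of_nonneg h0])
  have h3 := (abs_le.1 h2).2
  linarith

variable {E : Type} [Fintype E] [DecidableEq E]

theorem norm_smul_real {x : ℝ} (hx : 0 ≤ x) (a : A) : ‖(x : ℂ) • a‖ = x * ‖a‖ := by
  rw [norm_smul, Complex.norm_real, Real.norm_of_nonneg hx]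

theorem norm_smul_sum_le (hb : E → A) (J x : ℝ) (hx : 0 ≤ x)
    (hnorm : ∀ b, ‖hb b‖ ≤ J) : ‖(x : ℂ) • ∑ b, hb b‖ ≤ x * J * Fintype.card E := by
  rw [norm_smul_real hx]
  have h : ‖∑ b, hb b‖ ≤ Fintype.card E * J := by
    refine (norm_sum_le _ _).trans ?_
    refine (Finset.sum_le_sum fun b _ => hnorm b).trans ?_
    simp
  nlinarith

/-- the generic list product of the leaf matrices -/
noncomputable def Lf (hb : E → A) (x : ℝ) (F : Finset E) (a : E → Bool) : A :=
  ((Finset.univ : Finset E).toList.map fun b =>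
    if b ∈ F then (if a b = true then (-(x : ℂ)) • hb b else 1) else 1 - (x : ℂ) • hb b).prod

/-- first order expansion -/
theorem Lf_expand (hb : E → A) (J x : ℝ) (hJ : 0 ≤ J) (hx : 0 ≤ x)
    (hnorm : ∀ b, ‖hb b‖ ≤ J) (hu : x * J * Fintype.card E ≤ 1 / 4) (F : Finset E) (a : E → Bool)
    (ha : ∀ b ∈ F, a b ≠ true) :
    ‖Lf hb x F a - 1 - ∑ b, (if b ∈ F then (0 : A) else -((x : ℂ) • hb b))‖ ≤
      (x * J * Fintype.card E) ^ 2 := by
  have ht : 0 ≤ x * J := mul_nonneg hx hJ
  have hy : ∀ b, ‖(if b ∈ F then (0 : A) else -((x : ℂ) • hb b))‖ ≤ x * J := by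
    intro b
    split_ifs
    · simpa using ht
    · rw [norm_neg, norm_smul_real hx]
      exact mul_le_mul_of_nonneg_left (hnorm b) hx
  have h := (listprod_bounds (fun b => (if b ∈ F then (0 : A) else -((x : ℂ) • hb b))) (x * J) ht hy
    (Finset.univ : Finset E).toList).2
  have e1 : Lf hb x F a = ((Finset.univ : Finset E).toList.map fun b =>
      1 + (if b ∈ F then (0 : A) else -((x : ℂ) • hb b))).prod := by
    unfold Lf
    congr 2
    funext b
    by_cases hbF : b ∈ F
    · simp [hbF, ha b hbF]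
    · simp [hbF, sub_eq_add_neg]
  rw [← e1, Finset.sum_map_toList, Finset.length_toList, Finset.card_univ] at h
  refine h.trans ?_
  have e2 : (Fintype.card E : ℝ) * (x * J) = x * J * Fintype.card E := by ring
  have h3 := pow_sub_le ht (Fintype.card E) (by rw [e2]; linarith)
  rwa [e2] at h3 ⊢

end gen

section ord

variable {A : Type} [CStarAlgebra A] [PartialOrder A] [StarOrderedRing A]

theorem rsmul_nonneg {c : ℝ} (hc : 0 ≤ c) {a : A} (ha : 0 ≤ a) : 0 ≤ (c : ℂ) • a := by
  have h := star_left_conjugate_nonneg ha (((Real.sqrt c : ℝ) : ℂ) • (1 : A))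
  have e : star (((Real.sqrt c : ℝ) : ℂ) • (1 : A)) * a * (((Real.sqrt c : ℝ) : ℂ) • (1 : A)) =
      (c : ℂ) • a := by
    rw [star_smul, star_one, smul_mul_assoc, one_mul, smul_mul_smul_comm, mul_one]
    congr 1
    rw [Complex.star_def, Complex.conj_ofReal, ← Complex.ofReal_mul, Real.mul_self_sqrt hc]
  rwa [e] at h

theorem rsmul_le {c : ℝ} (hc : 0 ≤ c) {a b : A} (h : a ≤ b) : (c : ℂ) • a ≤ (c : ℂ) • b := by
  rw [← sub_nonneg, ← smul_sub]
  exact rsmul_nonneg hc (sub_nonneg.2 h)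

theorem rsmul_le_right {c d : ℝ} (h : c ≤ d) {a : A} (ha : 0 ≤ a) :
    (c : ℂ) • a ≤ (d : ℂ) • a := by
  rw [← sub_nonneg, ← sub_smul, ← Complex.ofReal_sub]
  exact rsmul_nonneg (sub_nonneg.2 h) ha

theorem le_smul_one {a : A} (ha : IsSelfAdjoint a) {c : ℝ} (h : ‖a‖ ≤ c) :
    a ≤ (c : ℂ) • (1 : A) := by
  refine ha.le_algebraMap_norm_self.trans ?_
  rw [Algebra.algebraMap_eq_smul_one, ← Complex.coe_smul]
  exact rsmul_le_right h zero_le_one

variable {E : Type} [Fintype E] [DecidableEq E]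

theorem isSelfAdjoint_rsmul (x : ℝ) {a : A} (ha : IsSelfAdjoint a) :
    IsSelfAdjoint ((x : ℂ) • a) := by
  rw [isSelfAdjoint_iff, star_smul, Complex.star_def, Complex.conj_ofReal, ha.star_eq]

theorem K_sq_ge (hb : E → A) (J x : ℝ) (hx : 0 ≤ x)
    (hherm : ∀ b, IsSelfAdjoint (hb b)) (hnorm : ∀ b, ‖hb b‖ ≤ J)
    (hu : x * J * Fintype.card E ≤ 1 / 4) :
    (((9 / 16 : ℝ) : ℝ) : ℂ) • (1 : A) ≤ (1 - (x : ℂ) • ∑ b, hb b) ^ 2 := by
  set Z := (x : ℂ) • ∑ b, hb b with hZ
  have hZs : IsSelfAdjoint Z := isSelfAdjoint_rsmul x (isSelfAdjoint_sum _ fun b _ => hherm b)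
  have hZn : ‖Z‖ ≤ 1 / 4 := (norm_smul_sum_le hb J x hx hnorm).trans hu
  have h1 : Z ≤ (((1 / 4 : ℝ)) : ℂ) • (1 : A) := le_smul_one hZs hZn
  set D := (((1 / 4 : ℝ)) : ℂ) • (1 : A) - Z with hD
  have hD0 : 0 ≤ D := sub_nonneg.2 h1
  have hD2 : 0 ≤ D ^ 2 := (IsSelfAdjoint.of_nonneg hD0).sq_nonneg
  have h2 : 0 ≤ (((3 / 2 : ℝ)) : ℂ) • D := rsmul_nonneg (by norm_num) hD0
  have e : (1 - Z) ^ 2 = (((9 / 16 : ℝ) : ℝ) : ℂ) • (1 : A) + ((((3 / 2 : ℝ)) : ℂ) • D + D ^ 2) := by
    have e0 : (1 : A) - Z = (((3 / 4 : ℝ)) : ℂ) • (1 : A) + D := by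
      rw [hD, ← add_sub_assoc, ← add_smul, ← Complex.ofReal_add]
      norm_num
    rw [e0, sq, sq]
    simp only [add_mul, mul_add, smul_mul_assoc, mul_smul_comm, one_mul, mul_one]
    push_cast
    module
  rw [e]
  exact le_add_of_nonneg_right (add_nonneg h2 hD2)

theorem exp_half_le : Real.exp (1 / 2) ≤ 9 / 4 := by
  have h : Real.exp (1 / 2) ^ 2 = Real.exp 1 := by
    rw [← Real.exp_nat_mul]
    norm_num
  have h2 := Real.exp_one_lt_d9
  have h3 := Real.exp_pos (1 / 2)
  by_contra hcon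
  push Not at hcon
  nlinarith

theorem core (hb : E → A) (J x : ℝ) (hJ : 0 ≤ J) (hx : 0 ≤ x)
    (hherm : ∀ b, IsSelfAdjoint (hb b)) (hnorm : ∀ b, ‖hb b‖ ≤ J)
    (hu : x * J * Fintype.card E ≤ 1 / 4) (F : Finset E) (a : E → Bool) :
    Lf hb x F a * star (Lf hb x F a) ≤ ((((2 * x * J) ^ (2 * (F.filter fun b => a b = true).card) *
      (1 + 4 * x * J * F.card + 8 * (x * J * Fintype.card E) ^ 2) : ℝ) : ℂ)) •
        (1 - (x : ℂ) • ∑ b, hb b) ^ 2 := by
  have ht : 0 ≤ x * J := mul_nonneg hx hJ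
  set N := Fintype.card E with hN
  set u := x * J * N with hudef
  have hu0 : 0 ≤ u := by positivity
  have hK := K_sq_ge hb J x hx hherm hnorm hu
  set K := (1 : A) - (x : ℂ) • ∑ b, hb b with hKdef
  have hKs : IsSelfAdjoint K := (IsSelfAdjoint.one A).sub
    (isSelfAdjoint_rsmul x (isSelfAdjoint_sum _ fun b _ => hherm b))
  have hK0 : 0 ≤ K ^ 2 := hKs.sq_nonneg
  set r := (F.filter fun b => a b = true).card with hr
  rcases Nat.eq_zero_or_pos r with h0 | h0
  · -- no event
    have ha : ∀ b ∈ F, a b ≠ true := by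
      intro b hbF hab
      have : b ∈ F.filter fun b => a b = true := Finset.mem_filter.2 ⟨hbF, hab⟩
      rw [Finset.card_eq_zero.1 (hr.symm.trans h0)] at this
      simp at this
    rw [h0]
    simp only [mul_zero, pow_zero, one_mul]
    set S := ∑ b, (if b ∈ F then (0 : A) else -((x : ℂ) • hb b)) with hS
    set Y := Lf hb x F a - 1 - S with hY
    have hYn : ‖Y‖ ≤ u ^ 2 := Lf_expand hb J x hJ hx hnorm hu F a ha
    have hSs : IsSelfAdjoint S := by
      apply isSelfAdjoint_sum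
      intro b _
      split_ifs
      · exact IsSelfAdjoint.zero A
      · exact (isSelfAdjoint_rsmul x (hherm b)).neg
    have hSn : ‖S‖ ≤ u := by
      refine (norm_sum_le _ _).trans ?_
      have : ∀ b ∈ (Finset.univ : Finset E),
          ‖(if b ∈ F then (0 : A) else -((x : ℂ) • hb b))‖ ≤ x * J := by
        intro b _
        split_ifs
        · simpa using ht
        · rw [norm_neg, norm_smul_real hx]
          exact mul_le_mul_of_nonneg_left (hnorm b) hx
      refine (Finset.sum_le_sum this).trans ?_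
      rw [Finset.sum_const, Finset.card_univ, nsmul_eq_mul, hudef]
      apply le_of_eq
      ring
    -- the part of H in F
    set W := ∑ b, (if b ∈ F then (x : ℂ) • hb b else (0 : A)) with hW
    have hWs : IsSelfAdjoint W := by
      apply isSelfAdjoint_sum
      intro b _
      split_ifs
      · exact isSelfAdjoint_rsmul x (hherm b)
      · exact IsSelfAdjoint.zero A
    have hWn : ‖W‖ ≤ x * J * F.card := by
      refine (norm_sum_le _ _).trans ?_
      have : ∀ b ∈ (Finset.univ : Finset E),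
          ‖(if b ∈ F then (x : ℂ) • hb b else (0 : A))‖ ≤ (if b ∈ F then x * J else 0) := by
        intro b _
        split_ifs
        · rw [norm_smul_real hx]
          exact mul_le_mul_of_nonneg_left (hnorm b) hx
        · simp
      refine (Finset.sum_le_sum this).trans ?_
      rw [Finset.sum_ite_mem, Finset.univ_inter, Finset.sum_const, nsmul_eq_mul]
      apply le_of_eq
      ring
    have hSW : S = (K - 1) + W := by
      rw [hS, hKdef, hW, Finset.smul_sum, sub_sub_cancel_left, ← Finset.sum_neg_distrib,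
        ← Finset.sum_add_distrib]
      refine Finset.sum_congr rfl fun b _ => ?_
      split_ifs <;> simp
    have hL : Lf hb x F a = 1 + S + Y := by
      rw [hY]
      abel
    set R := S * S + (Y * (1 + S) + (1 + S) * star Y) + Y * star Y with hR
    have hRs : IsSelfAdjoint R := by
      rw [isSelfAdjoint_iff, hR]
      simp only [star_add, star_mul, star_star, star_one, hSs.star_eq]
      abel
    have h1S : ‖(1 : A) + S‖ ≤ 1 + u := (norm_add_le _ _).trans (add_le_add norm_one_le' hSn)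
    have hRn : ‖R‖ ≤ 4 * u ^ 2 := by
      have e1 : ‖S * S‖ ≤ u * u := (norm_mul_le _ _).trans
        (mul_le_mul hSn hSn (norm_nonneg _) hu0)
      have e2 : ‖Y * (1 + S)‖ ≤ u ^ 2 * (1 + u) := (norm_mul_le _ _).trans
        (mul_le_mul hYn h1S (norm_nonneg _) (by positivity))
      have e3 : ‖(1 + S) * star Y‖ ≤ (1 + u) * u ^ 2 := (norm_mul_le _ _).trans
        (mul_le_mul h1S (by rwa [norm_star]) (norm_nonneg _) (by positivity))
      have e4 : ‖Y * star Y‖ ≤ u ^ 2 * u ^ 2 := (norm_mul_le _ _).trans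
        (mul_le_mul hYn (by rwa [norm_star]) (norm_nonneg _) (by positivity))
      have e5 := norm_add_le (S * S + (Y * (1 + S) + (1 + S) * star Y)) (Y * star Y)
      have e6 := norm_add_le (S * S) (Y * (1 + S) + (1 + S) * star Y)
      have e7 := norm_add_le (Y * (1 + S)) ((1 + S) * star Y)
      have e8 : u * u + (u ^ 2 * (1 + u) + (1 + u) * u ^ 2) + u ^ 2 * u ^ 2 ≤ 4 * u ^ 2 := by
        have : 0 ≤ u ^ 2 * (1 - 2 * u - u ^ 2) := by
          apply mul_nonneg (by positivity)
          nlinarith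
        nlinarith
      linarith
    have hR1 := le_smul_one hRs hRn
    have hW1 := le_smul_one hWs hWn
    -- L L^* = 1 + 2 S + R
    have hLL : Lf hb x F a * star (Lf hb x F a) = 1 + (S + S) + R := by
      rw [hL, hR]
      simp only [star_add, star_one, hSs.star_eq]
      noncomm_ring
    have hK2 : K ^ 2 = 1 + ((K - 1) + (K - 1)) + (K - 1) ^ 2 := by
      noncomm_ring
    have hK1 : 0 ≤ (K - 1) ^ 2 := (hKs.sub (IsSelfAdjoint.one A)).sq_nonneg
    have hstep : Lf hb x F a * star (Lf hb x F a) ≤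
        K ^ 2 + (((2 * (x * J * F.card) + 4 * u ^ 2 : ℝ)) : ℂ) • (1 : A) := by
      rw [hLL, hSW, hK2]
      have h5 : W + W + R ≤ (((2 * (x * J * F.card) + 4 * u ^ 2 : ℝ)) : ℂ) • (1 : A) := by
        refine (add_le_add (add_le_add hW1 hW1) hR1).trans (le_of_eq ?_)
        rw [← add_smul, ← add_smul, ← Complex.ofReal_add, ← Complex.ofReal_add]
        congr 2
        ring
      calc 1 + (K - 1 + W + (K - 1 + W)) + R = (1 + ((K - 1) + (K - 1))) + (W + W + R) := by abel
        _ ≤ (1 + ((K - 1) + (K - 1)) + (K - 1) ^ 2) +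
            (((2 * (x * J * F.card) + 4 * u ^ 2 : ℝ)) : ℂ) • (1 : A) :=
          add_le_add (le_add_of_nonneg_right hK1) h5
    refine hstep.trans ?_
    have hf0 : 0 ≤ x * J * F.card := mul_nonneg ht (Nat.cast_nonneg _)
    have hg0 : 0 ≤ 4 * (x * J * F.card) + 8 * u ^ 2 := by
      have := sq_nonneg u
      linarith
    have h6 : (((2 * (x * J * F.card) + 4 * u ^ 2 : ℝ)) : ℂ) • (1 : A) ≤
        (((4 * (x * J * F.card) + 8 * u ^ 2 : ℝ)) : ℂ) • K ^ 2 := by
      refine le_trans ?_ (rsmul_le hg0 hK)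
      rw [smul_smul, ← Complex.ofReal_mul]
      apply rsmul_le_right _ zero_le_one
      nlinarith [sq_nonneg u]
    calc K ^ 2 + (((2 * (x * J * F.card) + 4 * u ^ 2 : ℝ)) : ℂ) • (1 : A) ≤
          K ^ 2 + (((4 * (x * J * F.card) + 8 * u ^ 2 : ℝ)) : ℂ) • K ^ 2 :=
          add_le_add le_rfl h6
      _ = (((1 + 4 * x * J * F.card + 8 * u ^ 2 : ℝ)) : ℂ) • K ^ 2 := by
          have h12 : (((1 + 4 * x * J * F.card + 8 * u ^ 2 : ℝ)) : ℂ) =
              1 + (((4 * (x * J * F.card) + 8 * u ^ 2 : ℝ)) : ℂ) := by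
            push_cast
            ring
          rw [h12, add_smul, one_smul]
  · -- at least one event
    have hLn : ‖Lf hb x F a‖ ≤ (x * J) ^ r * (1 + x * J) ^ N := by
      let c : E → ℝ := fun b => if b ∈ F then (if a b = true then x * J else 1) else 1 + x * J
      have hc : ∀ b, ‖(if b ∈ F then (if a b = true then (-(x : ℂ)) • hb b else 1) else
          1 - (x : ℂ) • hb b : A)‖ ≤ c b := by
        intro b
        simp only [c]
        have h1 : ‖(x : ℂ) • hb b‖ ≤ x * J := by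
          rw [norm_smul_real hx]
          exact mul_le_mul_of_nonneg_left (hnorm b) hx
        split_ifs
        · rwa [neg_smul, norm_neg]
        · exact norm_one_le'
        · exact (norm_sub_le _ _).trans (add_le_add norm_one_le' h1)
      refine (norm_listprod_le _ c hc _).trans ?_
      rw [Finset.prod_map_toList]
      have h2 : ∀ b ∈ (Finset.univ : Finset E),
          c b ≤ (if b ∈ F.filter (fun b => a b = true) then x * J else 1) * (1 + x * J) := by
        intro b _
        simp only [c, Finset.mem_filter]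
        by_cases h3 : b ∈ F <;> by_cases h4 : a b = true <;> simp [h3, h4] <;> nlinarith
      have h5 : ∀ b ∈ (Finset.univ : Finset E), 0 ≤ c b := by
        intro b _
        simp only [c]
        split_ifs <;> linarith
      refine (Finset.prod_le_prod h5 h2).trans ?_
      rw [Finset.prod_mul_distrib, Finset.prod_ite_mem, Finset.univ_inter, Finset.prod_const,
        Finset.prod_const, Finset.card_univ]
    have hexp : (1 + x * J) ^ N ≤ Real.exp u := by
      have := pow_le_exp ht N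
      rwa [show (N : ℝ) * (x * J) = u by rw [hudef]; ring] at this
    have hLn2 : ‖Lf hb x F a‖ ^ 2 ≤ 4 * (x * J) ^ (2 * r) * (9 / 16) := by
      have h1 : ‖Lf hb x F a‖ ≤ (x * J) ^ r * Real.exp u :=
        hLn.trans (mul_le_mul_of_nonneg_left hexp (by positivity))
      have h2 : ‖Lf hb x F a‖ ^ 2 ≤ ((x * J) ^ r * Real.exp u) ^ 2 :=
        pow_le_pow_left₀ (norm_nonneg _) h1 2
      have h3 : Real.exp u ^ 2 ≤ 9 / 4 := by
        rw [← Real.exp_nat_mul]
        refine le_trans (Real.exp_le_exp.2 ?_) exp_half_le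
        push_cast
        linarith
      calc ‖Lf hb x F a‖ ^ 2 ≤ ((x * J) ^ r * Real.exp u) ^ 2 := h2
        _ = (x * J) ^ (2 * r) * Real.exp u ^ 2 := by ring
        _ ≤ (x * J) ^ (2 * r) * (9 / 4) := mul_le_mul_of_nonneg_left h3 (by positivity)
        _ = 4 * (x * J) ^ (2 * r) * (9 / 16) := by ring
    have h7 : Lf hb x F a * star (Lf hb x F a) ≤
        (((4 * (x * J) ^ (2 * r) * (9 / 16) : ℝ)) : ℂ) • (1 : A) := by
      refine CStarAlgebra.mul_star_le_algebraMap_norm_sq.trans ?_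
      rw [Algebra.algebraMap_eq_smul_one, ← Complex.coe_smul]
      exact rsmul_le_right hLn2 zero_le_one
    refine h7.trans ?_
    rw [Complex.ofReal_mul, ← smul_smul]
    refine (rsmul_le (by positivity) hK).trans ?_
    apply rsmul_le_right _ hK0
    have h8 : (1 : ℝ) ≤ 1 + 4 * x * J * F.card + 8 * u ^ 2 := by
      have : 0 ≤ 4 * (x * J) * F.card := by positivity
      nlinarith [sq_nonneg u]
    have h9 : (4 : ℝ) ≤ 4 ^ r := by
      calc (4 : ℝ) = 4 ^ 1 := by norm_num
        _ ≤ 4 ^ r := pow_le_pow_right₀ (by norm_num) h0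
    have h10 : (2 * x * J) ^ (2 * r) = 4 ^ r * (x * J) ^ (2 * r) := by
      rw [show 2 * x * J = 2 * (x * J) by ring, mul_pow, pow_mul 2 2 r]
      norm_num
    rw [h10]
    have h11 : (0 : ℝ) ≤ (x * J) ^ (2 * r) := by positivity
    calc 4 * (x * J) ^ (2 * r) ≤ 4 ^ r * (x * J) ^ (2 * r) :=
          mul_le_mul_of_nonneg_right h9 h11
      _ = 4 ^ r * (x * J) ^ (2 * r) * 1 := by ring
      _ ≤ _ := mul_le_mul_of_nonneg_left h8 (by positivity)

end ord

section pow

variable {A : Type} [CStarAlgebra A]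

theorem norm_pow_sub_le (S K : A) (c d : ℝ) (hc : 0 ≤ c) (hS : ‖S‖ ≤ c)
    (hK : ‖K‖ ≤ c) (hd : ‖S - K‖ ≤ d) (n : ℕ) : ‖S ^ (n + 1) - K ^ (n + 1)‖ ≤ (n + 1) * c ^ n * d := by
  have hd0 : 0 ≤ d := (norm_nonneg _).trans hd
  have hSn : ∀ k : ℕ, ‖S ^ k‖ ≤ c ^ k := by
    intro k
    induction k with
    | zero => simpa using norm_one_le'
    | succ k ih =>
      rw [pow_succ, pow_succ]
      exact (norm_mul_le _ _).trans (mul_le_mul ih hS (norm_nonneg _) (by positivity))
  induction n with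
  | zero => simpa using hd
  | succ n ih =>
    have e : S ^ (n + 1 + 1) - K ^ (n + 1 + 1) =
        S ^ (n + 1) * (S - K) + (S ^ (n + 1) - K ^ (n + 1)) * K := by
      rw [pow_succ S (n + 1), pow_succ K (n + 1)]
      noncomm_ring
    rw [e]
    refine (norm_add_le _ _).trans ?_
    have h1 : ‖S ^ (n + 1) * (S - K)‖ ≤ c ^ (n + 1) * d :=
      (norm_mul_le _ _).trans (mul_le_mul (hSn _) hd (norm_nonneg _) (by positivity))
    have h2 : ‖(S ^ (n + 1) - K ^ (n + 1)) * K‖ ≤ ((n + 1) * c ^ n * d) * c :=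
      (norm_mul_le _ _).trans (mul_le_mul ih hK (norm_nonneg _) (by positivity))
    refine (add_le_add h1 h2).trans (le_of_eq ?_)
    push_cast
    ring

end pow

section hsn

variable {ι : Type} [Fintype ι] [DecidableEq ι]

theorem hs_le_norm (M : Matrix ι ι ℂ) : hs M ≤ Real.sqrt (Fintype.card ι) * ‖M‖ := by
  have hcol : ∀ j, ∑ i, ‖M i j‖ ^ 2 ≤ ‖M‖ ^ 2 := by
    intro j
    have h := Matrix.l2_opNorm_mulVec M (EuclideanSpace.single j (1 : ℂ))
    rw [PiLp.norm_single, norm_one, mul_one] at h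
    have h2 := pow_le_pow_left₀ (norm_nonneg _) h 2
    rw [EuclideanSpace.norm_sq_eq] at h2
    refine le_trans (le_of_eq ?_) h2
    refine Finset.sum_congr rfl fun i _ => ?_
    congr 2
    simp [EuclideanSpace.single, Matrix.mulVec_single]
  unfold hs
  rw [Real.sqrt_le_left (by positivity), mul_pow, Real.sq_sqrt (by positivity), Finset.sum_comm]
  refine (Finset.sum_le_sum fun j _ => hcol j).trans ?_
  simp

end hsn

end Leaf

section LEAF

variable {E : Type} [Fintype E] [DecidableEq E] {ι : Type} [Fintype ι] [DecidableEq ι]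

open scoped MatrixOrder in
/-- operator bound for the leaf matrices -/
theorem leaf_psd (hb : E → Matrix ι ι ℂ) (J x : ℝ) (hJ : 0 ≤ J) (hx : 0 ≤ x)
    (hherm : ∀ b, (hb b).IsHermitian) (hnorm : ∀ b, ‖hb b‖ ≤ J) (hH : (∑ b, hb b).PosSemidef)
    (hu : x * J * Fintype.card E ≤ 1 / 4) (F : Finset E) (a : E → Bool) :
    ((((2 * x * J) ^ (2 * (F.filter fun b => a b = true).card) *
      (1 + 4 * x * J * F.card + 8 * (x * J * Fintype.card E) ^ 2) : ℝ) : ℂ) •
        (1 - (x : ℂ) • ∑ b, hb b) ^ 2 - leafM hb x F a * (leafM hb x F a)ᴴ).PosSemidef :=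
  Leaf.core hb J x hJ hx hherm hnorm hu F a

theorem pow_diff (hb : E → Matrix ι ι ℂ) (J x : ℝ) (hJ : 0 ≤ J) (hx : 0 ≤ x)
    (hherm : ∀ b, (hb b).IsHermitian) (hnorm : ∀ b, ‖hb b‖ ≤ J) (hH : (∑ b, hb b).PosSemidef)
    (hu : x * J * Fintype.card E ≤ 1 / 4) (a : E → Bool) (n : ℕ) :
    hs (leafM hb x ∅ a ^ n - (1 - (x : ℂ) • ∑ b, hb b) ^ n) ≤
      Real.sqrt (Fintype.card ι) * n * Real.exp (n * (x * J * Fintype.card E)) *
        (x * J * Fintype.card E) ^ 2 := by
  refine (Leaf.hs_le_norm _).trans ?_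
  rcases n with _ | n
  · simp
  rw [mul_assoc, mul_assoc]
  apply mul_le_mul_of_nonneg_left _ (Real.sqrt_nonneg _)
  set u := x * J * Fintype.card E with hudef
  have hu0 : 0 ≤ u := by positivity
  have ht : 0 ≤ x * J := mul_nonneg hx hJ
  have h1 : ‖leafM hb x ∅ a‖ ≤ Real.exp u := by
    have h2 := Leaf.norm_listprod_le (fun b => if b ∈ (∅ : Finset E) then
      (if a b = true then (-(x : ℂ)) • hb b else 1) else 1 - (x : ℂ) • hb b) (fun _ => 1 + x * J)
      (by
        intro b
        simp only [Finset.notMem_empty, if_false]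
        refine (norm_sub_le _ _).trans (add_le_add Leaf.norm_one_le' ?_)
        rw [Leaf.norm_smul_real hx]
        exact mul_le_mul_of_nonneg_left (hnorm b) hx) (Finset.univ : Finset E).toList
    refine h2.trans ?_
    rw [Finset.prod_map_toList, Finset.prod_const, Finset.card_univ]
    refine (Leaf.pow_le_exp ht _).trans (le_of_eq ?_)
    congr 1
    rw [hudef]
    ring
  have h3 : ‖(1 : Matrix ι ι ℂ) - (x : ℂ) • ∑ b, hb b‖ ≤ Real.exp u := by
    refine (norm_sub_le _ _).trans ?_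
    have := Leaf.norm_smul_sum_le hb J x hx hnorm
    have h4 := Real.add_one_le_exp u
    have h5 := Leaf.norm_one_le' (A := Matrix ι ι ℂ)
    linarith
  have h6 : ‖leafM hb x ∅ a - (1 - (x : ℂ) • ∑ b, hb b)‖ ≤ u ^ 2 := by
    have h7 := Leaf.Lf_expand hb J x hJ hx hnorm hu ∅ a (by simp)
    convert h7 using 2
    rw [Finset.smul_sum]
    simp only [Finset.notMem_empty, if_false, Finset.sum_neg_distrib, Leaf.Lf, leafM]
    abel
  refine (Leaf.norm_pow_sub_le _ _ (Real.exp u) (u ^ 2) (Real.exp_pos _).le h1 h3 h6 n).trans ?_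
  have h8 : Real.exp u ^ n ≤ Real.exp ((n + 1 : ℕ) * u) := by
    rw [← Real.exp_nat_mul]
    apply Real.exp_le_exp.2
    push_cast
    nlinarith
  have h9 : (0 : ℝ) ≤ u ^ 2 := by positivity
  calc ((n : ℝ) + 1) * Real.exp u ^ n * u ^ 2 ≤
        ((n : ℝ) + 1) * Real.exp ((n + 1 : ℕ) * u) * u ^ 2 := by gcongr
    _ = ((n + 1 : ℕ) : ℝ) * (Real.exp (((n + 1 : ℕ) : ℝ) * u) * u ^ 2) := by
        push_cast
        ring

end LEAF

end Pool.Agent.Helper2.PB
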