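import Pool.Agent.Helper2.PB.Defs2
import Pool.Agent.Helper2.PB.Holder
import Pool.Agent.Helper2.PB.Leaf
import Pool.Agent.Helper2.PB.Comb

/-!
# Module ERR of MP_e4acd5_mp: the truncation error in Hilbert-Schmidt norm
-/

set_option autoImplicit false

namespace Pool.Agent.Helper2.PB

open Matrix
open scoped Matrix.Norms.L2Operator ComplexOrder

section ERR

variable {E : Type} [Fintype E] [DecidableEq E] {ι : Type} [Fintype ι] [DecidableEq ι]

namespace Err

/-! ### Hilbert-Schmidt norm -/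

theorem hs_eq_norm {ι : Type} [Fintype ι] (M : Matrix ι ι ℂ) :
    hs M = ‖(WithLp.toLp 2 (fun p : ι × ι => M p.1 p.2) : EuclideanSpace ℂ (ι × ι))‖ := by
  rw [EuclideanSpace.norm_eq, hs, Fintype.sum_prod_type]

theorem hs_nonneg {ι : Type} [Fintype ι] (M : Matrix ι ι ℂ) : 0 ≤ hs M := Real.sqrt_nonneg _

theorem hs_zero {ι : Type} [Fintype ι] : hs (0 : Matrix ι ι ℂ) = 0 := by
  simp [hs]

theorem hs_sum_le {ι κ : Type} [Fintype ι] (s : Finset κ) (f : κ → Matrix ι ι ℂ) :
    hs (∑ k ∈ s, f k) ≤ ∑ k ∈ s, hs (f k) := by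
  classical
  have h : (WithLp.toLp 2 (fun p : ι × ι => (∑ k ∈ s, f k) p.1 p.2) : EuclideanSpace ℂ (ι × ι)) =
      ∑ k ∈ s, (WithLp.toLp 2 (fun p : ι × ι => f k p.1 p.2) : EuclideanSpace ℂ (ι × ι)) := by
    ext p
    simp [Matrix.sum_apply]
  rw [hs_eq_norm, h]
  simp only [hs_eq_norm]
  exact norm_sum_le _ _

theorem hs_smul {ι : Type} [Fintype ι] (c : ℂ) (M : Matrix ι ι ℂ) :
    hs (c • M) = ‖c‖ * hs M := by
  rw [hs_eq_norm, hs_eq_norm, ← norm_smul]
  rfl

/-! ### Leaf matrices -/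

theorem leafM_insert (hb : E → Matrix ι ι ℂ) (x : ℝ) (F : Finset E) (b₀ : E) (hb₀ : b₀ ∉ F)
    (a : E → Bool) :
    leafM hb x F a = ∑ c : Bool, leafM hb x (insert b₀ F) (Function.update a b₀ c) := by
  obtain ⟨l₁, l₂, hl⟩ := List.append_of_mem (Finset.mem_toList.2 (Finset.mem_univ b₀))
  have hnd : ((Finset.univ : Finset E).toList).Nodup := Finset.nodup_toList _
  rw [hl] at hnd
  have hn1 : b₀ ∉ l₁ := by
    intro h
    exact (List.nodup_append.1 hnd).2.2 b₀ h b₀ (by simp) rfl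
  have hn2 : b₀ ∉ l₂ := (List.nodup_cons.1 (List.nodup_append.1 hnd).2.1).1
  have key : ∀ (l : List E) (c : Bool), b₀ ∉ l →
      (l.map fun b => if b ∈ insert b₀ F then (if Function.update a b₀ c b = true then
        (-(x : ℂ)) • hb b else 1) else 1 - (x : ℂ) • hb b) =
      l.map fun b => if b ∈ F then (if a b = true then (-(x : ℂ)) • hb b else 1)
        else 1 - (x : ℂ) • hb b := by
    intro l c hl
    apply List.map_congr_left
    intro b hbl
    have hne : b ≠ b₀ := fun h => hl (h ▸ hbl)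
    simp [Finset.mem_insert, hne]
  simp only [leafM, hl, List.map_append, List.map_cons, List.prod_append, List.prod_cons]
  simp only [key l₁ _ hn1, key l₂ _ hn2]
  simp only [Fintype.sum_bool, Finset.mem_insert, true_or, if_true, Function.update_self, hb₀,
    if_false]
  simp only [Bool.false_eq_true, if_false]
  rw [← mul_add, ← add_mul]
  congr 2
  rw [neg_smul]
  abel

theorem Wm_insert (hb : E → Matrix ι ι ℂ) (x : ℝ) (F : Finset E) (b₀ : E) (hb₀ : b₀ ∉ F)
    (n : ℕ) (η : E → Tr Bool n) :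
    Wm (leafM hb x F) n η =
      ∑ t : Tr Bool n, Wm (leafM hb x (insert b₀ F)) n (Function.update η b₀ t) := by
  induction n with
  | zero => exact leafM_insert hb x F b₀ hb₀ η
  | succ n ih =>
    have h1 : ∀ t : Tr Bool (n + 1),
        (fun b => (Function.update η b₀ t b).1) = Function.update (fun b => (η b).1) b₀ t.1 := by
      intro t
      funext b
      by_cases h : b = b₀
      · subst h; simp
      · simp [Function.update_of_ne h]
    have h2 : ∀ t : Tr Bool (n + 1),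
        (fun b => (Function.update η b₀ t b).2) = Function.update (fun b => (η b).2) b₀ t.2 := by
      intro t
      funext b
      by_cases h : b = b₀
      · subst h; simp
      · simp [Function.update_of_ne h]
    simp only [Wm, h1, h2]
    rw [ih (fun b => (η b).1), ih (fun b => (η b).2), Finset.sum_mul_sum]
    exact (Fintype.sum_prod_type' (fun (t₁ t₂ : Tr Bool n) =>
      Wm (leafM hb x (insert b₀ F)) n (Function.update (fun b => (η b).1) b₀ t₁) *
        Wm (leafM hb x (insert b₀ F)) n (Function.update (fun b => (η b).2) b₀ t₂))).symm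

theorem Wm_sum_off (hb : E → Matrix ι ι ℂ) (x : ℝ) (n : ℕ) (G : Finset E) :
    ∀ (F : Finset E), F = Gᶜ → ∀ η : E → Tr Bool n, Wm (leafM hb x F) n η =
      ∑ ξ : E → Tr Bool n, if ∀ b ∈ F, ξ b = η b then Wm (leafM hb x Finset.univ) n ξ else 0 := by
  classical
  induction G using Finset.induction_on with
  | empty =>
    intro F hF η
    have hF' : F = Finset.univ := by simpa using hF
    subst hF'
    have : ∀ ξ : E → Tr Bool n, (if ∀ b ∈ (Finset.univ : Finset E), ξ b = η b then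
        Wm (leafM hb x Finset.univ) n ξ else 0) =
        if ξ = η then Wm (leafM hb x Finset.univ) n ξ else 0 := by
      intro ξ
      have : (∀ b ∈ (Finset.univ : Finset E), ξ b = η b) ↔ ξ = η :=
        ⟨fun h => funext fun b => h b (Finset.mem_univ b), fun h b _ => by rw [h]⟩
      simp only [this]
    rw [Finset.sum_congr rfl fun ξ _ => this ξ]
    simp
  | insert b₀ G hb₀ ih =>
    intro F hF η
    have hbF : b₀ ∉ F := by rw [hF]; simp
    have hins : insert b₀ F = Gᶜ := by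
      rw [hF]
      ext b
      simp only [Finset.mem_insert, Finset.mem_compl]
      by_cases h : b = b₀
      · subst h; simp [hb₀]
      · simp [h]
    rw [Wm_insert hb x F b₀ hbF n η]
    simp only [ih _ hins]
    rw [Finset.sum_comm]
    refine Finset.sum_congr rfl fun ξ _ => ?_
    have h1 : ∀ t : Tr Bool n, (∀ b ∈ insert b₀ F, ξ b = Function.update η b₀ t b) ↔
        (t = ξ b₀ ∧ ∀ b ∈ F, ξ b = η b) := by
      intro t
      constructor
      · intro h
        refine ⟨by simpa using (h b₀ (Finset.mem_insert_self _ _)).symm, fun b hb => ?_⟩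
        have hne : b ≠ b₀ := fun h => hbF (h ▸ hb)
        simpa [Function.update_of_ne hne] using h b (Finset.mem_insert_of_mem hb)
      · rintro ⟨h2, h3⟩ b hb
        rcases Finset.mem_insert.1 hb with h | h
        · subst h; simp [h2]
        · have hne : b ≠ b₀ := fun h' => hbF (h' ▸ h)
          simpa [Function.update_of_ne hne] using h3 b h
    simp only [h1]
    by_cases hc : ∀ b ∈ F, ξ b = η b
    · have : ∀ t : Tr Bool n, (t = ξ b₀ ∧ ∀ b ∈ F, ξ b = η b) ↔ t = ξ b₀ :=
        fun t => ⟨fun h => h.1, fun h => ⟨h, hc⟩⟩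
      simp only [this, if_pos hc]
      simp
    · have : ∀ t : Tr Bool n, ¬ (t = ξ b₀ ∧ ∀ b ∈ F, ξ b = η b) := fun t h => hc h.2
      simp only [this, if_neg hc, if_false]
      simp

open Classical in
theorem cost_local {E : Type} (adj : E → E → Prop) (q : ℕ) (b : E) : ∀ (n : ℕ) (ξ η : E → Tr Bool n),
    ξ b = η b → (∀ b', adj b b' → ξ b' = η b') → cost adj q n ξ b = cost adj q n η b := by
  intro n
  induction n with
  | zero => intros; rfl
  | succ n ih =>
    intro ξ η h1 h2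
    simp only [cost]
    rw [ih (fun b' => (ξ b').1) (fun b' => (η b').1) (congrArg Prod.fst h1)
      (fun b' hb' => congrArg Prod.fst (h2 b' hb'))]
    rw [ih (fun b' => (ξ b').2) (fun b' => (η b').2) (congrArg Prod.snd h1)
      (fun b' hb' => congrArg Prod.snd (h2 b' hb'))]
    have h3 : (∃ b', adj b b' ∧ act (n + 1) (ξ b') = true) ↔
        (∃ b', adj b b' ∧ act (n + 1) (η b') = true) := by
      constructor
      · rintro ⟨b', hb', h⟩; exact ⟨b', hb', by rw [← h2 b' hb']; exact h⟩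
      · rintro ⟨b', hb', h⟩; exact ⟨b', hb', by rw [h2 b' hb']; exact h⟩
    refine congrArg₂ (· + ·) (congrArg₂ (· + ·) ?_ rfl) rfl
    exact if_congr (and_congr Iff.rfl (and_congr (by rw [h1]) h3)) rfl rfl

open Classical in
/-- The neighbourhood of a set of terms. -/
noncomputable def nbh (adj : E → E → Prop) (B : Finset E) : Finset E :=
  B ∪ B.biUnion fun b => Finset.univ.filter fun b' => adj b b'

theorem card_nbh_le (adj : E → E → Prop) (Δ₀ : ℕ)
    (hdeg : ∀ b (s : Finset E), (∀ b' ∈ s, adj b b') → s.card ≤ Δ₀) (B : Finset E) :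
    (nbh adj B).card ≤ (Δ₀ + 1) * B.card := by
  classical
  refine (Finset.card_union_le _ _).trans ?_
  have h' : (B.biUnion fun b => @Finset.filter E (fun b' => adj b b') (fun a => Classical.propDecidable _) Finset.univ).card ≤ B.card * Δ₀ := by
    refine Finset.card_biUnion_le_card_mul _ _ _ fun b _ => ?_
    exact hdeg b _ fun b' hb' => (Finset.mem_filter.1 hb').2
  have : (Δ₀ + 1) * B.card = B.card + B.card * Δ₀ := by ring
  rw [this]
  refine Nat.add_le_add_left ?_ _
  convert h' using 2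

theorem mem_nbh_self (adj : E → E → Prop) (B : Finset E) {b : E} (hb : b ∈ B) : b ∈ nbh adj B :=
  Finset.mem_union_left _ hb

theorem mem_nbh_adj (adj : E → E → Prop) (B : Finset E) {b b' : E} (hb : b ∈ B)
    (h : adj b b') : b' ∈ nbh adj B := by
  classical
  refine Finset.mem_union_right _ (Finset.mem_biUnion.2 ⟨b, hb, ?_⟩)
  simpa using h

open Classical in
/-- The sum over the event sets in which all the terms of `B` are expensive. -/
noncomputable def TB (hb : E → Matrix ι ι ℂ) (x : ℝ) (adj : E → E → Prop) (q n m : ℕ)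
    (B : Finset E) : Matrix ι ι ℂ :=
  ∑ ξ : E → Tr Bool n,
    if ∀ b ∈ B, m < cost adj q n ξ b then Wm (leafM hb x Finset.univ) n ξ else 0

open Classical in
theorem TB_eq (hb : E → Matrix ι ι ℂ) (x : ℝ) (adj : E → E → Prop) (q n m : ℕ)
    (B : Finset E) :
    TB hb x adj q n m B =
      ∑ η ∈ Fintype.piFinset (fun b => if b ∈ nbh adj B then (Finset.univ : Finset (Tr Bool n))
        else {off n}),
        if ∀ b ∈ B, m < cost adj q n η b then Wm (leafM hb x (nbh adj B)) n η else 0 := by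
  set F := nbh adj B with hF
  have h1 : ∀ η : E → Tr Bool n, (if ∀ b ∈ B, m < cost adj q n η b then
      Wm (leafM hb x F) n η else 0) =
      ∑ ξ : E → Tr Bool n, if (∀ b ∈ F, ξ b = η b) ∧ (∀ b ∈ B, m < cost adj q n η b) then
        Wm (leafM hb x Finset.univ) n ξ else 0 := by
    intro η
    by_cases hc : ∀ b ∈ B, m < cost adj q n η b
    · rw [if_pos hc, Wm_sum_off hb x n Fᶜ F (by simp) η]
      refine Finset.sum_congr rfl fun ξ _ => ?_
      by_cases h : ∀ b ∈ F, ξ b = η b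
      · rw [if_pos h, if_pos ⟨h, hc⟩]
      · rw [if_neg h, if_neg fun h' => h h'.1]
    · rw [if_neg hc]
      symm
      refine Finset.sum_eq_zero fun ξ _ => ?_
      rw [if_neg fun h' => hc h'.2]
  rw [Finset.sum_congr rfl fun η _ => h1 η, Finset.sum_comm]
  unfold TB
  refine Finset.sum_congr rfl fun ξ _ => ?_
  set η₀ : E → Tr Bool n := fun b => if b ∈ F then ξ b else off n with hη₀
  have hcost : ∀ b ∈ B, cost adj q n η₀ b = cost adj q n ξ b := by
    intro b hbB
    refine cost_local adj q b n η₀ ξ ?_ ?_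
    · simp only [hη₀, if_pos (show b ∈ F from mem_nbh_self adj B hbB)]
    · intro b' hb'
      simp only [hη₀, if_pos (show b' ∈ F from mem_nbh_adj adj B hbB hb')]
  have hmem : η₀ ∈ Fintype.piFinset (fun b => if b ∈ F then (Finset.univ : Finset (Tr Bool n))
        else {off n}) := by
    rw [Fintype.mem_piFinset]
    intro b
    by_cases h : b ∈ F
    · simp [h]
    · simp [h, hη₀]
  rw [Finset.sum_eq_single_of_mem η₀ hmem]
  · have h2 : (∀ b ∈ F, ξ b = η₀ b) := fun b hb => by simp only [hη₀, if_pos hb]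
    by_cases hc : ∀ b ∈ B, m < cost adj q n ξ b
    · rw [if_pos hc, if_pos ⟨h2, fun b hb => by rw [hcost b hb]; exact hc b hb⟩]
    · rw [if_neg hc, if_neg fun h' => hc fun b hb => by rw [← hcost b hb]; exact h'.2 b hb]
  · intro η hη hne
    rw [if_neg]
    rintro ⟨h3, -⟩
    apply hne
    funext b
    rw [Fintype.mem_piFinset] at hη
    have := hη b
    by_cases h : b ∈ F
    · simp only [hη₀, if_pos h]; exact (h3 b h).symm
    · simp only [h, if_false, Finset.mem_singleton] at this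
      simp only [hη₀, if_neg h]; exact this

/-- The tree of leaf configurations. -/
def zipT {E : Type} : (n : ℕ) → (E → Tr Bool n) → Tr (E → Bool) n
  | 0, ξ => ξ
  | n + 1, ξ => (zipT n (fun b => (ξ b).1), zipT n (fun b => (ξ b).2))

theorem Wm_eq_tprod {E M : Type} [Mul M] (leaf : (E → Bool) → M) (n : ℕ) (ξ : E → Tr Bool n) :
    Wm leaf n ξ = tprod leaf n (zipT n ξ) := by
  induction n with
  | zero => rfl
  | succ n ih =>
    show Wm leaf n (fun b => (ξ b).1) * Wm leaf n (fun b => (ξ b).2) =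
      tprod leaf n (zipT n (fun b => (ξ b).1)) * tprod leaf n (zipT n (fun b => (ξ b).2))
    rw [ih, ih]

theorem tprod_leaf0 {E : Type} (F : Finset E) (w K : ℝ) (a : E → Bool) :
    w ^ (2 * (F.filter fun b => a b = true).card) * K =
      w ^ (2 * ∑ b ∈ F, (bif a b then 1 else 0)) * K ^ 2 ^ 0 := by
  rw [Finset.card_filter]
  simp only [pow_zero, pow_one]
  congr 3
  refine Finset.sum_congr rfl fun b _ => ?_
  rw [Bool.cond_eq_ite]

theorem tprod_leaf {E : Type} (F : Finset E) (w K : ℝ) (n : ℕ) (η : E → Tr Bool n) :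
    tprod (fun a : E → Bool => w ^ (2 * (F.filter fun b => a b = true).card) * K) n (zipT n η) =
      w ^ (2 * ∑ b ∈ F, size n (η b)) * K ^ 2 ^ n := by
  induction n with
  | zero => exact tprod_leaf0 F w K η
  | succ n ih =>
    show tprod _ n (zipT n (fun b => (η b).1)) * tprod _ n (zipT n (fun b => (η b).2)) = _
    rw [ih, ih]
    have h : ∑ b ∈ F, size (n + 1) (η b) =
        ∑ b ∈ F, size n (η b).1 + ∑ b ∈ F, size n (η b).2 := by
      rw [← Finset.sum_add_distrib]
      rfl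
    rw [h, pow_succ 2 n, mul_add, pow_add, pow_mul K]
    ring

theorem size_off (n : ℕ) : size n (off n) = 0 := by
  induction n with
  | zero => rfl
  | succ n ih =>
    show size n (off n) + size n (off n) = 0
    rw [ih]

omit [DecidableEq E] in
theorem hM (hb : E → Matrix ι ι ℂ) (x : ℝ) (hherm : ∀ b, (hb b).IsHermitian) :
    ((1 - (x : ℂ) • ∑ b, hb b) ^ 2).PosSemidef := by
  have h : (1 - (x : ℂ) • ∑ b, hb b).IsHermitian := by
    refine Matrix.isHermitian_one.sub ?_
    have h1 : (∑ b, hb b).IsHermitian := by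
      rw [Matrix.IsHermitian, Matrix.conjTranspose_sum]
      exact Finset.sum_congr rfl fun b _ => hherm b
    rw [Matrix.IsHermitian, Matrix.conjTranspose_smul, h1.eq]
    simp
  rw [sq]
  nth_rewrite 2 [← h.eq]
  exact Matrix.posSemidef_self_mul_conjTranspose _

theorem trM_nonneg (M : Matrix ι ι ℂ) (hM : M.PosSemidef) (k : ℕ) : 0 ≤ (M ^ k).trace.re := by
  have h := (hM.pow k).trace_nonneg
  exact (Complex.le_def.1 h).1

theorem hs_Wm_le (hb : E → Matrix ι ι ℂ) (J β : ℝ) (hJ : 0 ≤ J) (hβ : 0 ≤ β)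
    (hherm : ∀ b, (hb b).IsHermitian) (hnorm : ∀ b, ‖hb b‖ ≤ J) (hH : (∑ b, hb b).PosSemidef)
    (n : ℕ) (x : ℝ) (hx : x = β / 2 ^ n)
    (hu : x * J * Fintype.card E ≤ 1 / 4)
    (hu2 : 4 * 2 ^ n * (x * J * Fintype.card E) ^ 2 ≤ Real.log 2) (F : Finset E)
    (η : E → Tr Bool n) :
    hs (Wm (leafM hb x F) n η) ≤ (2 * x * J) ^ (∑ b ∈ F, size n (η b)) *
      (2 * Real.exp (2 * β * J * F.card)) *
      Real.sqrt (((1 - (x : ℂ) • ∑ b, hb b) ^ 2) ^ 2 ^ n).trace.re := by
  have hx0 : 0 ≤ x := by rw [hx]; positivity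
  set M := (1 - (x : ℂ) • ∑ b, hb b) ^ 2 with hMdef
  have hMps : M.PosSemidef := hM hb x hherm
  set u := x * J * Fintype.card E with hudef
  set K : ℝ := 1 + 4 * x * J * F.card + 8 * u ^ 2 with hK
  have hK0 : 0 ≤ K := by positivity
  have hc : ∀ a : E → Bool, 0 ≤ (2 * x * J) ^ (2 * (F.filter fun b => a b = true).card) * K :=
    fun a => by positivity
  have h1 := hs_tprod_le (leafM hb x F)
    (fun a => (2 * x * J) ^ (2 * (F.filter fun b => a b = true).card) * K) hc M hMps
    (fun a => leaf_psd hb J x hJ hx0 hherm hnorm hH hu F a) n (zipT n η)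
  rw [← Wm_eq_tprod, tprod_leaf] at h1
  have htr : 0 ≤ (M ^ 2 ^ n).trace.re := trM_nonneg M hMps _
  have hKn : K ^ 2 ^ n ≤ (2 * Real.exp (2 * β * J * F.card)) ^ 2 := by
    have e1 : K ≤ Real.exp (4 * x * J * F.card + 8 * u ^ 2) := by
      have := Real.add_one_le_exp (4 * x * J * F.card + 8 * u ^ 2)
      rw [hK]; linarith
    have e2 : K ^ 2 ^ n ≤ Real.exp (4 * x * J * F.card + 8 * u ^ 2) ^ 2 ^ n :=
      pow_le_pow_left₀ hK0 e1 _
    refine e2.trans ?_
    rw [← Real.exp_nat_mul]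
    have e3 : (((2 ^ n : ℕ) : ℝ)) * (4 * x * J * F.card + 8 * u ^ 2) ≤
        Real.log 2 + Real.log 2 + 2 * (2 * β * J * F.card) := by
      have e4 : (2 : ℝ) ^ n * x = β := by
        rw [hx]; field_simp
      push_cast
      have e5 : (2 : ℝ) ^ n * (4 * x * J * F.card + 8 * u ^ 2) =
          4 * ((2 : ℝ) ^ n * x) * J * F.card + 2 * (4 * 2 ^ n * u ^ 2) := by ring
      rw [e5, e4]
      linarith
    refine (Real.exp_le_exp.2 e3).trans (le_of_eq ?_)
    rw [Real.exp_add, Real.exp_add, Real.exp_log (by norm_num : (0 : ℝ) < 2), mul_pow,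
      ← Real.exp_nat_mul]
    norm_num
  refine le_of_sq_le_sq ?_ (by positivity)
  refine h1.trans ?_
  have h9 : ((2 * x * J) ^ (∑ b ∈ F, size n (η b)) * (2 * Real.exp (2 * β * J * F.card)) *
      Real.sqrt (M ^ 2 ^ n).trace.re) ^ 2 = (2 * x * J) ^ (2 * ∑ b ∈ F, size n (η b)) *
        (2 * Real.exp (2 * β * J * F.card)) ^ 2 * (M ^ 2 ^ n).trace.re := by
    rw [mul_pow (_ * _) (Real.sqrt _) 2, mul_pow (_ ^ _) (_ * _) 2, Real.sq_sqrt htr, ← pow_mul,
      mul_comm (∑ b ∈ F, size n (η b)) 2]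
  rw [h9]
  refine mul_le_mul_of_nonneg_right ?_ htr
  exact mul_le_mul_of_nonneg_left hKn (by positivity)

open Classical in
theorem hs_TB_le (hb : E → Matrix ι ι ℂ) (J β : ℝ) (hJ : 0 ≤ J) (hβ : 0 ≤ β)
    (hherm : ∀ b, (hb b).IsHermitian) (hnorm : ∀ b, ‖hb b‖ ≤ J) (hH : (∑ b, hb b).PosSemidef)
    (adj : E → E → Prop) (hsymm : ∀ b b', adj b b' → adj b' b) (hirr : ∀ b, ¬ adj b b) (Δ₀ : ℕ)
    (hdeg : ∀ b (s : Finset E), (∀ b' ∈ s, adj b b') → s.card ≤ Δ₀)
    (q P m : ℕ) (R x : ℝ) (hR : 1 ≤ R) (hR2 : R ^ (2 * Δ₀) ≤ 4 / 3) (hx : x = β / 2 ^ (q + P))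
    (hu : x * J * Fintype.card E ≤ 1 / 4)
    (hu2 : 4 * 2 ^ (q + P) * (x * J * Fintype.card E) ^ 2 ≤ Real.log 2)
    (hsmall : 8 * β * J * Δ₀ / 2 ^ P ≤ Real.log 2) (B : Finset E) :
    hs (TB hb x adj q (q + P) m B) ≤
      2 * Real.sqrt (((1 - (x : ℂ) • ∑ b, hb b) ^ 2) ^ 2 ^ (q + P)).trace.re *
        (Real.exp (6 * β * J * (Δ₀ + 1)) / R ^ m) ^ B.card := by
  have hx0 : 0 ≤ x := by rw [hx]; positivity
  set F := nbh adj B with hF
  set tr := Real.sqrt (((1 - (x : ℂ) • ∑ b, hb b) ^ 2) ^ 2 ^ (q + P)).trace.re with htr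
  have htr0 : 0 ≤ tr := Real.sqrt_nonneg _
  have hR0 : 0 < R := lt_of_lt_of_le one_pos hR
  have hRm : 0 < R ^ (m * B.card) := pow_pos hR0 _
  set pi := Fintype.piFinset (fun b => if b ∈ F then (Finset.univ : Finset (Tr Bool (q + P)))
        else {off (q + P)}) with hpi
  rw [TB_eq]
  refine (hs_sum_le _ _).trans ?_
  have hterm : ∀ η ∈ pi, hs (if ∀ b ∈ B, m < cost adj q (q + P) η b then
      Wm (leafM hb x F) (q + P) η else 0) ≤
      ((2 * x * J) ^ (∑ b, size (q + P) (η b)) * R ^ (∑ b, cost adj q (q + P) η b)) *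
        ((2 * Real.exp (2 * β * J * F.card)) * tr / R ^ (m * B.card)) := by
    intro η hη
    by_cases hc : ∀ b ∈ B, m < cost adj q (q + P) η b
    · rw [if_pos hc]
      refine (hs_Wm_le hb J β hJ hβ hherm hnorm hH (q + P) x hx hu hu2 F η).trans ?_
      have hsz : ∑ b ∈ F, size (q + P) (η b) = ∑ b, size (q + P) (η b) := by
        refine Finset.sum_subset (Finset.subset_univ _) fun b _ hbF => ?_
        have := (Fintype.mem_piFinset.1 hη) b
        rw [if_neg hbF, Finset.mem_singleton] at this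
        rw [this, size_off]
      rw [hsz]
      have hcost : R ^ (m * B.card) ≤ R ^ (∑ b, cost adj q (q + P) η b) := by
        refine pow_le_pow_right₀ hR ?_
        calc m * B.card = ∑ b ∈ B, m := by rw [Finset.sum_const, smul_eq_mul, mul_comm]
          _ ≤ ∑ b ∈ B, cost adj q (q + P) η b := Finset.sum_le_sum fun b hb => (hc b hb).le
          _ ≤ ∑ b, cost adj q (q + P) η b :=
            Finset.sum_le_sum_of_subset (Finset.subset_univ _)
      have h1 : 1 ≤ R ^ (∑ b, cost adj q (q + P) η b) / R ^ (m * B.card) := by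
        rwa [le_div_iff₀ hRm, one_mul]
      have h2 : 0 ≤ (2 * x * J) ^ (∑ b, size (q + P) (η b)) *
          (2 * Real.exp (2 * β * J * F.card)) * tr := by positivity
      calc (2 * x * J) ^ (∑ b, size (q + P) (η b)) *
          (2 * Real.exp (2 * β * J * F.card)) * tr
          = (2 * x * J) ^ (∑ b, size (q + P) (η b)) *
          (2 * Real.exp (2 * β * J * F.card)) * tr * 1 := by ring
        _ ≤ (2 * x * J) ^ (∑ b, size (q + P) (η b)) *
          (2 * Real.exp (2 * β * J * F.card)) * tr *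
            (R ^ (∑ b, cost adj q (q + P) η b) / R ^ (m * B.card)) :=
          mul_le_mul_of_nonneg_left h1 h2
        _ = _ := by ring
    · rw [if_neg hc, hs_zero]
      positivity
  refine (Finset.sum_le_sum hterm).trans ?_
  rw [← Finset.sum_mul]
  have hcomb := comb_bound adj hsymm hirr Δ₀ hdeg q (q + P) (2 * x * J) R (by positivity) hR hR2
    (by
      have : 4 * (2 * x * J) * 2 ^ q * Δ₀ = 8 * β * J * Δ₀ / 2 ^ P := by
        rw [hx, pow_add]
        field_simp
        ring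
      rw [this]; exact hsmall) F
  have hx2 : x * 2 ^ (q + P) = β := by rw [hx]; field_simp
  have h3 : 2 * (2 * x * J) * 2 ^ (q + P) * F.card = 4 * β * J * F.card := by
    rw [← hx2]; ring
  rw [h3] at hcomb
  refine (mul_le_mul_of_nonneg_right hcomb (by positivity)).trans ?_
  have h4 : Real.exp (4 * β * J * F.card) * (2 * Real.exp (2 * β * J * F.card) * tr /
      R ^ (m * B.card)) = 2 * tr * (Real.exp (6 * β * J * F.card) / R ^ (m * B.card)) := by
    have : Real.exp (6 * β * J * F.card) =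
        Real.exp (4 * β * J * F.card) * Real.exp (2 * β * J * F.card) := by
      rw [← Real.exp_add]; congr 1; ring
    rw [this]; ring
  rw [h4]
  refine mul_le_mul_of_nonneg_left ?_ (by positivity)
  rw [div_pow, ← pow_mul]
  refine div_le_div_of_nonneg_right ?_ hRm.le
  rw [← Real.exp_nat_mul]
  refine Real.exp_le_exp.2 ?_
  have h5 : (F.card : ℝ) ≤ (Δ₀ + 1) * B.card := by
    exact_mod_cast card_nbh_le adj Δ₀ hdeg B
  have h6 : 0 ≤ 6 * β * J := by positivity
  calc 6 * β * J * F.card ≤ 6 * β * J * ((Δ₀ + 1) * B.card) := mul_le_mul_of_nonneg_left h5 h6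
    _ = B.card * (6 * β * J * (Δ₀ + 1)) := by ring

open Classical in
theorem Tm_eq_sum (hb : E → Matrix ι ι ℂ) (x : ℝ) (adj : E → E → Prop) (q n m : ℕ) :
    Tm hb x adj q n m = ∑ B : Finset E, ((-1 : ℂ) ^ B.card) • TB hb x adj q n m B := by
  unfold Tm TB
  simp only [Finset.smul_sum]
  rw [Finset.sum_comm]
  refine Finset.sum_congr rfl fun ξ _ => ?_
  set Bad : Finset E := Finset.univ.filter fun b => m < cost adj q n ξ b with hBad
  have h1 : ∀ B : Finset E, ((-1 : ℂ) ^ B.card) • (if ∀ b ∈ B, m < cost adj q n ξ b then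
      Wm (leafM hb x Finset.univ) n ξ else 0) =
      (if B ⊆ Bad then ((-1 : ℂ) ^ B.card) else 0) • Wm (leafM hb x Finset.univ) n ξ := by
    intro B
    have : (∀ b ∈ B, m < cost adj q n ξ b) ↔ B ⊆ Bad := by
      simp [hBad, Finset.subset_iff]
    by_cases h : B ⊆ Bad
    · rw [if_pos (this.2 h), if_pos h]
    · rw [if_neg fun h' => h (this.1 h'), if_neg h, smul_zero, zero_smul]
  simp only [h1]
  rw [← Finset.sum_smul]
  have h2 : ∑ B : Finset E, (if B ⊆ Bad then ((-1 : ℂ) ^ B.card) else 0) =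
      if Bad = ∅ then 1 else 0 := by
    have h3 : ∑ B : Finset E, (if B ⊆ Bad then ((-1 : ℂ) ^ B.card) else 0) =
        ∑ B ∈ Bad.powerset, (-1 : ℂ) ^ B.card := by
      rw [← Finset.sum_filter]
      refine Finset.sum_congr ?_ fun _ _ => rfl
      ext B; simp
    rw [h3]
    have := @Finset.sum_powerset_neg_one_pow_card E _ Bad
    have h4 := congrArg (Int.cast : ℤ → ℂ) this
    push_cast at h4
    convert h4 using 1
  rw [h2]
  have h5 : (∀ b, cost adj q n ξ b ≤ m) ↔ Bad = ∅ := by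
    simp [hBad, Finset.filter_eq_empty_iff]
  by_cases h : Bad = ∅
  · rw [if_pos (h5.2 h), if_pos h, one_smul]
  · rw [if_neg fun h' => h (h5.1 h'), if_neg h, zero_smul]

theorem Wm_empty (hb : E → Matrix ι ι ℂ) (x : ℝ) (a₀ : E → Bool) (n : ℕ) (η : E → Tr Bool n) :
    Wm (leafM hb x ∅) n η = leafM hb x ∅ a₀ ^ 2 ^ n := by
  induction n with
  | zero =>
    show leafM hb x ∅ η = _
    rw [pow_zero, pow_one]
    simp [leafM]
  | succ n ih =>
    show Wm (leafM hb x ∅) n (fun b => (η b).1) * Wm (leafM hb x ∅) n (fun b => (η b).2) = _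
    rw [ih, ih, pow_succ 2 n, mul_two, pow_add]

theorem TB_empty (hb : E → Matrix ι ι ℂ) (x : ℝ) (adj : E → E → Prop) (q n m : ℕ)
    (a₀ : E → Bool) : TB hb x adj q n m ∅ = leafM hb x ∅ a₀ ^ 2 ^ n := by
  classical
  rw [← Wm_empty hb x a₀ n (fun _ => off n), Wm_sum_off hb x n Finset.univ ∅ (by simp)]
  unfold TB
  refine Finset.sum_congr rfl fun ξ _ => ?_
  rw [if_pos (by simp), if_pos (by simp)]

end Err

theorem err_bound (hb : E → Matrix ι ι ℂ) (J β : ℝ) (hJ : 0 ≤ J) (hβ : 0 ≤ β)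
    (hherm : ∀ b, (hb b).IsHermitian) (hnorm : ∀ b, ‖hb b‖ ≤ J) (hH : (∑ b, hb b).PosSemidef)
    (adj : E → E → Prop) (hsymm : ∀ b b', adj b b' → adj b' b) (hirr : ∀ b, ¬ adj b b) (Δ₀ : ℕ)
    (hdeg : ∀ b (s : Finset E), (∀ b' ∈ s, adj b b') → s.card ≤ Δ₀)
    (q P m : ℕ) (R x : ℝ) (hR : 1 ≤ R) (hR2 : R ^ (2 * Δ₀) ≤ 4 / 3) (hx : x = β / 2 ^ (q + P))
    (hu : x * J * Fintype.card E ≤ 1 / 4)
    (hu2 : 4 * 2 ^ (q + P) * (x * J * Fintype.card E) ^ 2 ≤ Real.log 2)
    (hsmall : 8 * β * J * Δ₀ / 2 ^ P ≤ Real.log 2) (a₀ : E → Bool) :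
    hs (Tm hb x adj q (q + P) m - leafM hb x ∅ a₀ ^ 2 ^ (q + P)) ≤
      2 * Real.sqrt (((1 - (x : ℂ) • ∑ b, hb b) ^ 2) ^ 2 ^ (q + P)).trace.re *
        ((1 + Real.exp (6 * β * J * (Δ₀ + 1)) / R ^ m) ^ Fintype.card E - 1) := by
  classical
  set C := 2 * Real.sqrt (((1 - (x : ℂ) • ∑ b, hb b) ^ 2) ^ 2 ^ (q + P)).trace.re with hC
  set δ := Real.exp (6 * β * J * (Δ₀ + 1)) / R ^ m with hδ
  have h1 : Tm hb x adj q (q + P) m - leafM hb x ∅ a₀ ^ 2 ^ (q + P) =
      ∑ B ∈ (Finset.univ : Finset (Finset E)).erase ∅,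
        ((-1 : ℂ) ^ B.card) • Err.TB hb x adj q (q + P) m B := by
    rw [Err.Tm_eq_sum, ← Finset.add_sum_erase _ _ (Finset.mem_univ (∅ : Finset E))]
    rw [Err.TB_empty hb x adj q (q + P) m a₀]
    simp
  rw [h1]
  refine (Err.hs_sum_le _ _).trans ?_
  have h2 : ∀ B ∈ (Finset.univ : Finset (Finset E)).erase ∅,
      hs (((-1 : ℂ) ^ B.card) • Err.TB hb x adj q (q + P) m B) ≤ C * δ ^ B.card := by
    intro B _
    rw [Err.hs_smul]
    have : ‖((-1 : ℂ) ^ B.card)‖ = 1 := by simp
    rw [this, one_mul]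
    exact Err.hs_TB_le hb J β hJ hβ hherm hnorm hH adj hsymm hirr Δ₀ hdeg q P m R x hR hR2 hx hu
      hu2 hsmall B
  refine (Finset.sum_le_sum h2).trans (le_of_eq ?_)
  rw [← Finset.mul_sum]
  congr 1
  have h3 : ∑ B : Finset E, δ ^ B.card = (1 + δ) ^ Fintype.card E := by
    have := Finset.sum_pow_mul_eq_add_pow δ (1 : ℝ) (Finset.univ : Finset E)
    simp only [one_pow, mul_one, Finset.powerset_univ, Finset.card_univ] at this
    rw [this, add_comm]
  have h4 := Finset.add_sum_erase (Finset.univ : Finset (Finset E)) (fun B => δ ^ B.card)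
    (Finset.mem_univ ∅)
  rw [h3] at h4
  simp only [Finset.card_empty, pow_zero] at h4
  linarith

end ERR

end Pool.Agent.Helper2.PB
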