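import Pool.Agent.Helper2.PB.Emb

/-! RECL: fibre sums of event configurations -/

set_option autoImplicit false

namespace Pool.Agent.Helper2.PB

open Matrix
open scoped Matrix.Norms.L2Operator ComplexOrder

section RECL

/-! ### trees -/

private theorem act_succ (n : ℕ) (t : Tr Bool (n + 1)) :
    act (n + 1) t = (act n t.1 || act n t.2) := rfl

private theorem act_off : ∀ n, act n (off n) = false
  | 0 => rfl
  | n + 1 => by
    rw [act_succ]
    show (act n (off n) || act n (off n)) = false
    rw [act_off n]; rfl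

private theorem eq_off : ∀ (n : ℕ) (t : Tr Bool n), act n t = false → t = off n
  | 0, _, h => h
  | n + 1, t, h => by
    rw [act_succ, Bool.or_eq_false_iff] at h
    exact Prod.ext (eq_off n t.1 h.1) (eq_off n t.2 h.2)

private theorem size_off : ∀ n, size n (off n) = 0
  | 0 => rfl
  | n + 1 => by
    show size n (off n) + size n (off n) = 0
    rw [size_off n]

private theorem sum_size {R : Type} [Ring R] (y : R) : ∀ n : ℕ,
    ∑ S : Tr Bool n, y ^ size n S = (1 + y) ^ 2 ^ n
  | 0 => by
    show ∑ S : Bool, y ^ (bif S then 1 else 0) = (1 + y) ^ 2 ^ 0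
    simp [add_comm]
  | n + 1 => by
    show ∑ S : Tr Bool n × Tr Bool n, y ^ (size n S.1 + size n S.2) = _
    rw [Fintype.sum_prod_type]
    simp only [pow_add]
    have h : ∀ a : Tr Bool n, ∑ b : Tr Bool n, y ^ size n a * y ^ size n b
        = y ^ size n a * (1 + y) ^ 2 ^ n := by
      intro a
      rw [← Finset.mul_sum, sum_size y n]
    rw [Finset.sum_congr rfl fun a _ => h a, ← Finset.sum_mul, sum_size y n, ← pow_add]
    congr 1
    rw [pow_succ]; ring

private theorem sum_size_act {R : Type} [Ring R] (y : R) (n : ℕ) :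
    ∑ S ∈ (Finset.univ : Finset (Tr Bool n)).filter (fun S => act n S = true), y ^ size n S
      = (1 + y) ^ 2 ^ n - 1 := by
  have h1 := sum_size y n
  rw [← Finset.sum_filter_add_sum_filter_not Finset.univ (fun S => act n S = true)] at h1
  have h2 : (Finset.univ : Finset (Tr Bool n)).filter (fun S => ¬ act n S = true) = {off n} := by
    ext S
    simp only [Finset.mem_filter, Finset.mem_univ, true_and, Finset.mem_singleton,
      Bool.not_eq_true]
    constructor
    · exact eq_off n S
    · rintro rfl; exact act_off n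
  rw [h2, Finset.sum_singleton, size_off, pow_zero] at h1
  rw [← h1]; abel

/-! ### records -/

private theorem ron_roff {Λ W : Type} : ∀ n, ron (Λ := Λ) (W := W) n (roff n) = false
  | 0 => rfl
  | _ + 1 => rfl

variable {E V B : Type} {d : ℕ}

private theorem recOf_zero (pos : E → B → V) (a : E → Bool) (b : E) :
    recOf pos 0 a b = (if a b = true then some () else none : Option Unit) := rfl

private theorem recOf_inactive (pos : E → B → V) (n : ℕ) (ξ : E → Tr Bool n) (b : E)
    (h : act n (ξ b) = false) : recOf pos n ξ b = roff n := by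
  cases n with
  | zero =>
    have h' : ¬ (ξ b = true) := by
      have : (ξ b : Bool) = false := h
      intro h2
      rw [this] at h2
      exact Bool.false_ne_true h2
    rw [recOf]
    exact if_neg h'
  | succ n =>
    rw [recOf]
    rw [if_neg (by rw [h]; exact Bool.false_ne_true)]
    rfl

private theorem ron_recOf (pos : E → B → V) (n : ℕ) (ξ : E → Tr Bool n) (b : E) :
    ron n (recOf pos n ξ b) = act n (ξ b) := by
  cases h : act n (ξ b) with
  | false => rw [recOf_inactive pos n ξ b h, ron_roff]
  | true =>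
    cases n with
    | zero =>
      have h' : ξ b = true := h
      rw [recOf, if_pos h']
      rfl
    | succ n =>
      rw [recOf, if_pos h]
      split_ifs <;> rfl

/-- the only term seen is `b₀`, which overlaps no other active term -/
private def Sep (pos : E → B → V) (b₀ : E) (n : ℕ) (ξ : E → Tr Bool n) : Prop :=
  ∀ b, b ≠ b₀ → act n (ξ b) = true → ∀ p p', pos b p ≠ pos b₀ p'

private theorem Sep.fst {pos : E → B → V} {b₀ : E} {n : ℕ} {ξ : E → Tr Bool (n + 1)}
    (h : Sep pos b₀ (n + 1) ξ) : Sep pos b₀ n (fun b => (ξ b).1) := by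
  intro b hb ha
  refine h b hb ?_
  rw [act_succ]
  have ha' : act n (ξ b).1 = true := ha
  rw [ha']; rfl

private theorem Sep.snd {pos : E → B → V} {b₀ : E} {n : ℕ} {ξ : E → Tr Bool (n + 1)}
    (h : Sep pos b₀ (n + 1) ξ) : Sep pos b₀ n (fun b => (ξ b).2) := by
  intro b hb ha
  refine h b hb ?_
  rw [act_succ]
  have ha' : act n (ξ b).2 = true := ha
  rw [ha']; exact Bool.or_true _

private theorem upd_fst [DecidableEq E] {n : ℕ} (ξ : E → Tr Bool (n + 1)) (b₀ : E)
    (S : Tr Bool (n + 1)) :
    (fun b => (Function.update ξ b₀ S b).1) = Function.update (fun b => (ξ b).1) b₀ S.1 := by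
  funext b
  by_cases h : b = b₀
  · subst h; rw [Function.update_self, Function.update_self]
  · rw [Function.update_of_ne h, Function.update_of_ne h]

private theorem upd_snd [DecidableEq E] {n : ℕ} (ξ : E → Tr Bool (n + 1)) (b₀ : E)
    (S : Tr Bool (n + 1)) :
    (fun b => (Function.update ξ b₀ S b).2) = Function.update (fun b => (ξ b).2) b₀ S.2 := by
  funext b
  by_cases h : b = b₀
  · subst h; rw [Function.update_self, Function.update_self]
  · rw [Function.update_of_ne h, Function.update_of_ne h]

open Classical in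
private theorem wit_congr (pos : E → B → V) (A A' : E → Bool) (b : E) (p : B)
    (h : ∀ b' p', b' ≠ b → pos b' p' = pos b p → A b' = A' b') :
    wit pos A b p = wit pos A' b p := by
  unfold wit
  congr 1
  apply propext
  constructor
  · rintro ⟨b', p', h1, h2, h3⟩
    exact ⟨b', p', h1, (h b' p' h1 h3) ▸ h2, h3⟩
  · rintro ⟨b', p', h1, h2, h3⟩
    exact ⟨b', p', h1, (h b' p' h1 h3).symm ▸ h2, h3⟩

private theorem wit_false_iff (pos : E → B → V) (A : E → Bool) (b : E) (p : B) :
    wit pos A b p = false ↔ ∀ b' p', b' ≠ b → A b' = true → pos b' p' ≠ pos b p := by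
  classical
  unfold wit
  rw [decide_eq_false_iff_not]
  push Not
  rfl

/-- locality of the records -/
private theorem recOf_update [DecidableEq E] (pos : E → B → V) (b₀ : E) : ∀ (n : ℕ)
    (ξ : E → Tr Bool n) (_ : Sep pos b₀ n ξ) (b : E) (_ : b ≠ b₀),
    recOf pos n (Function.update ξ b₀ (off n)) b = recOf pos n ξ b
  | 0, ξ, _, b, hb => by
    rw [recOf, recOf, Function.update_of_ne hb]
  | n + 1, ξ, hs, b, hb => by
    cases h : act (n + 1) (ξ b) with
    | false =>
      rw [recOf_inactive pos (n + 1) ξ b h, recOf_inactive pos (n + 1) _ b]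
      rw [Function.update_of_ne hb]; exact h
    | true =>
      have hw : ∀ p, wit pos (fun b' => act (n + 1) (Function.update ξ b₀ (off (n + 1)) b')) b p
          = wit pos (fun b' => act (n + 1) (ξ b')) b p := by
        intro p
        refine wit_congr _ _ _ _ _ fun b' p' _ h3 => ?_
        by_cases hb' : b' = b₀
        · subst hb'
          exact absurd h3.symm (hs b hb h p p')
        · show act (n + 1) (Function.update ξ b₀ (off (n + 1)) b') = _
          rw [Function.update_of_ne hb']
      have hw' : wit pos (fun b' => act (n + 1) (Function.update ξ b₀ (off (n + 1)) b')) b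
          = wit pos (fun b' => act (n + 1) (ξ b')) b := funext hw
      rw [recOf, recOf, hw', Function.update_of_ne hb, upd_fst, upd_snd]
      have e1 : (off (n + 1)).1 = off n := rfl
      have e2 : (off (n + 1)).2 = off n := rfl
      rw [e1, e2, recOf_update pos b₀ n _ hs.fst b hb, recOf_update pos b₀ n _ hs.snd b hb]

/-! ### products -/

private theorem list_prod_update {M : Type} [Monoid M] [DecidableEq E] (f : E → M) (b₀ : E)
    (l : List E) (hl : l.Nodup) (hc : ∀ b, b ≠ b₀ → Commute (f b₀) (f b)) :
    (l.map f).prod = (if b₀ ∈ l then f b₀ else 1) * (l.map (Function.update f b₀ 1)).prod := by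
  induction l with
  | nil => simp
  | cons a l ih =>
    rw [List.nodup_cons] at hl
    rw [List.map_cons, List.map_cons, List.prod_cons, List.prod_cons, ih hl.2]
    by_cases ha : a = b₀
    · subst ha
      rw [if_neg hl.1, if_pos List.mem_cons_self, Function.update_self, one_mul]
    · rw [Function.update_of_ne ha]
      have h1 : (b₀ ∈ a :: l) ↔ b₀ ∈ l := by
        rw [List.mem_cons]
        constructor
        · rintro (h | h)
          · exact absurd h.symm ha
          · exact h
        · exact Or.inr
      by_cases h2 : b₀ ∈ l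
      · rw [if_pos h2, if_pos (h1.2 h2), ← mul_assoc, ← mul_assoc, (hc a ha).eq]
      · rw [if_neg h2, if_neg fun h => h2 (h1.1 h), one_mul, one_mul]

variable [Fintype E] [DecidableEq E] [Fintype V] [DecidableEq V] [Fintype B]
  [DecidableEq B]

/-- the factor of the leaf product -/
private noncomputable def fac (pos : E → B → V) (g : Matrix (B → Fin d) (B → Fin d) ℂ) (x : ℝ)
    (a : E → Bool) (b : E) : Matrix (V → Fin d) (V → Fin d) ℂ :=
  if a b = true then (-(x : ℂ)) • emb (pos b) g else 1

omit [Fintype E] [DecidableEq E] [Fintype B] [DecidableEq B] in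
private theorem fac_pow (pos : E → B → V) (g : Matrix (B → Fin d) (B → Fin d) ℂ) (x : ℝ)
    (a : E → Bool) (b : E) :
    fac pos g x a b = ((-(x : ℂ)) • emb (pos b) g) ^ (bif a b then 1 else 0) := by
  unfold fac
  cases a b with
  | false => rw [if_neg Bool.false_ne_true]; exact (pow_zero _).symm
  | true => rw [if_pos rfl]; exact (pow_one _).symm

private theorem leafM_eq (pos : E → B → V) (g : Matrix (B → Fin d) (B → Fin d) ℂ) (x : ℝ)
    (a : E → Bool) : leafM (fun b => emb (pos b) g) x Finset.univ a
      = ((Finset.univ : Finset E).toList.map (fac pos g x a)).prod := by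
  unfold leafM fac
  simp only [Finset.mem_univ, if_true]

private theorem fac_commute (pos : E → B → V) (hpos : ∀ b, Function.Injective (pos b))
    (g : Matrix (B → Fin d) (B → Fin d) ℂ) (x : ℝ) (b₀ : E) (a : E → Bool)
    (hs : Sep pos b₀ 0 a) (b : E) (hb : b ≠ b₀) :
    Commute (emb (pos b₀) g) (fac pos g x a b) := by
  unfold fac
  by_cases h : a b = true
  · rw [if_pos h]
    exact (emb_commute (pos b₀) (pos b) (hpos b₀) (hpos b)
      (fun p p' h2 => hs b hb h p' p h2.symm) g g).smul_right _
  · rw [if_neg h]; exact Commute.one_right _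

private theorem leafM_update (pos : E → B → V) (hpos : ∀ b, Function.Injective (pos b))
    (g : Matrix (B → Fin d) (B → Fin d) ℂ) (x : ℝ) (b₀ : E) (a : E → Bool)
    (hs : Sep pos b₀ 0 a) :
    leafM (fun b => emb (pos b) g) x Finset.univ a = fac pos g x a b₀ *
      leafM (fun b => emb (pos b) g) x Finset.univ (Function.update a b₀ false) := by
  rw [leafM_eq, leafM_eq, list_prod_update (fac pos g x a) b₀ _ (Finset.nodup_toList _),
    if_pos (Finset.mem_toList.2 (Finset.mem_univ _))]
  · congr 3
    funext b
    by_cases hb : b = b₀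
    · subst hb
      rw [Function.update_self]
      unfold fac
      rw [Function.update_self, if_neg Bool.false_ne_true]
    · rw [Function.update_of_ne hb]
      unfold fac
      rw [Function.update_of_ne hb]
  · intro b hb
    have h1 := fac_commute pos hpos g x b₀ a hs b hb
    have h2 : fac pos g x a b₀ = (-(x : ℂ)) • emb (pos b₀) g ∨ fac pos g x a b₀ = 1 := by
      unfold fac
      split_ifs
      · exact Or.inl rfl
      · exact Or.inr rfl
    rcases h2 with h2 | h2
    · rw [h2]; exact h1.smul_left _
    · rw [h2]; exact Commute.one_left _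

private theorem leaf_commute (pos : E → B → V) (hpos : ∀ b, Function.Injective (pos b))
    (g : Matrix (B → Fin d) (B → Fin d) ℂ) (x : ℝ) (b₀ : E) (a : E → Bool)
    (hs : Sep pos b₀ 0 a) : Commute (emb (pos b₀) g)
      (leafM (fun b => emb (pos b) g) x Finset.univ (Function.update a b₀ false)) := by
  rw [leafM_eq]
  refine Commute.list_prod_right _ _ fun y hy => ?_
  rw [List.mem_map] at hy
  obtain ⟨b, -, rfl⟩ := hy
  by_cases hb : b = b₀
  · subst hb
    unfold fac
    rw [Function.update_self, if_neg Bool.false_ne_true]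
    exact Commute.one_right _
  · have h1 := fac_commute pos hpos g x b₀ a hs b hb
    have h2 : fac pos g x (Function.update a b₀ false) b = fac pos g x a b := by
      unfold fac
      rw [Function.update_of_ne hb]
    rw [h2]; exact h1

private theorem Wm_commute (pos : E → B → V) (hpos : ∀ b, Function.Injective (pos b))
    (g : Matrix (B → Fin d) (B → Fin d) ℂ) (x : ℝ) (b₀ : E) : ∀ (n : ℕ) (ξ : E → Tr Bool n)
    (_ : Sep pos b₀ n ξ), Commute (emb (pos b₀) g)
      (Wm (leafM (fun b => emb (pos b) g) x Finset.univ) n (Function.update ξ b₀ (off n)))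
  | 0, ξ, hs => leaf_commute pos hpos g x b₀ ξ hs
  | n + 1, ξ, hs => by
    show Commute (emb (pos b₀) g)
      (Wm (leafM (fun b => emb (pos b) g) x Finset.univ) n
          (fun b => (Function.update ξ b₀ (off (n + 1)) b).1) *
        Wm (leafM (fun b => emb (pos b) g) x Finset.univ) n
          (fun b => (Function.update ξ b₀ (off (n + 1)) b).2))
    rw [upd_fst, upd_snd]
    exact (Wm_commute pos hpos g x b₀ n _ hs.fst).mul_right
      (Wm_commute pos hpos g x b₀ n _ hs.snd)

private theorem Wm_fac (pos : E → B → V) (hpos : ∀ b, Function.Injective (pos b))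
    (g : Matrix (B → Fin d) (B → Fin d) ℂ) (x : ℝ) (b₀ : E) : ∀ (n : ℕ) (ξ : E → Tr Bool n)
    (_ : Sep pos b₀ n ξ), Wm (leafM (fun b => emb (pos b) g) x Finset.univ) n ξ =
      ((-(x : ℂ)) • emb (pos b₀) g) ^ size n (ξ b₀) *
      Wm (leafM (fun b => emb (pos b) g) x Finset.univ) n (Function.update ξ b₀ (off n))
  | 0, ξ, hs => by
    have h := leafM_update pos hpos g x b₀ ξ hs
    have h2 : fac pos g x ξ b₀ = ((-(x : ℂ)) • emb (pos b₀) g) ^ size 0 (ξ b₀) :=
      fac_pow pos g x ξ b₀
    rw [← h2]
    exact h
  | n + 1, ξ, hs => by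
    have e1 := Wm_fac pos hpos g x b₀ n _ hs.fst
    have e2 := Wm_fac pos hpos g x b₀ n _ hs.snd
    have hc := (Wm_commute pos hpos g x b₀ n _ hs.fst).smul_left (-(x : ℂ))
    show Wm (leafM (fun b => emb (pos b) g) x Finset.univ) n (fun b => (ξ b).1) *
        Wm (leafM (fun b => emb (pos b) g) x Finset.univ) n (fun b => (ξ b).2) =
      ((-(x : ℂ)) • emb (pos b₀) g) ^ (size n (ξ b₀).1 + size n (ξ b₀).2) *
      (Wm (leafM (fun b => emb (pos b) g) x Finset.univ) n
          (fun b => (Function.update ξ b₀ (off (n + 1)) b).1) *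
        Wm (leafM (fun b => emb (pos b) g) x Finset.univ) n
          (fun b => (Function.update ξ b₀ (off (n + 1)) b).2))
    rw [upd_fst, upd_snd, e1, e2, pow_add]
    have f1 : (off (n + 1)).1 = off n := rfl
    have f2 : (off (n + 1)).2 = off n := rfl
    rw [f1, f2]
    generalize Wm (leafM (fun b => emb (pos b) g) x Finset.univ) n
      (Function.update (fun b => (ξ b).1) b₀ (off n)) = W1 at hc ⊢
    generalize Wm (leafM (fun b => emb (pos b) g) x Finset.univ) n
      (Function.update (fun b => (ξ b).2) b₀ (off n)) = W2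
    have hc2 := hc.pow_left (size n (ξ b₀).2)
    rw [mul_assoc, ← mul_assoc W1, ← hc2.eq, mul_assoc, mul_assoc]

/-! ### the five statements -/

theorem Qr_zero (pos : E → B → V) (g : Matrix (B → Fin d) (B → Fin d) ℂ) (x : ℝ)
    (r : E → RecG Unit (B → Bool) 0) :
    Qr pos g x 0 r = ((Finset.univ : Finset E).toList.map fun b =>
      if ron 0 (r b) = true then (-(x : ℂ)) • emb (pos b) g else 1).prod := by
  classical
  unfold Qr
  have key : ∀ ξ : E → Tr Bool 0, recOf pos 0 ξ = r ↔ ξ = fun b => ron 0 (r b) := by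
    intro ξ
    constructor
    · rintro rfl
      funext b
      exact (ron_recOf pos 0 ξ b).symm
    · rintro rfl
      funext b
      rw [recOf_zero]
      rcases h : r b with _ | u
      · exact if_neg Bool.false_ne_true
      · exact if_pos rfl
  let ξ0 : E → Tr Bool 0 := fun b => ron 0 (r b)
  rw [Finset.sum_eq_single ξ0]
  · rw [if_pos ((key ξ0).2 rfl)]
    show leafM (fun b => emb (pos b) g) x Finset.univ (fun b => ron 0 (r b)) = _
    rw [leafM_eq]
    rfl
  · intro ξ _ hξ
    rw [if_neg fun h => hξ ((key ξ).1 h)]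
  · intro h; exact absurd (Finset.mem_univ _) h

private theorem act_of_rec {pos : E → B → V} {n : ℕ} {ξ : E → Tr Bool n}
    {r : E → RecG Unit (B → Bool) n} (h : recOf pos n ξ = r) :
    (fun b => act n (ξ b)) = fun b => ron n (r b) := by
  funext b
  rw [← h, ron_recOf]

theorem Qr_lump (pos : E → B → V) (hpos : ∀ b, Function.Injective (pos b))
    (g : Matrix (B → Fin d) (B → Fin d) ℂ) (x : ℝ) (n : ℕ)
    (r : E → RecG Unit (B → Bool) (n + 1)) (b₀ : E) (hl : r b₀ = some (Sum.inl ()))
    (hn : ∀ p, wit pos (fun b => ron (n + 1) (r b)) b₀ p = false) :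
    Qr pos g x (n + 1) r = emb (pos b₀) ((1 - (x : ℂ) • g) ^ 2 ^ (n + 1) - 1) *
      Qr pos g x (n + 1) (Function.update r b₀ (roff (n + 1))) := by
  classical
  -- the operator of the lump
  have hpow : ∀ (m : ℕ) (h : Matrix (B → Fin d) (B → Fin d) ℂ),
      emb (pos b₀) (h ^ m) = (emb (pos b₀) h) ^ m := by
    intro m h
    induction m with
    | zero => rw [pow_zero, pow_zero, emb_one _ (hpos b₀)]
    | succ m ih => rw [pow_succ, pow_succ, emb_mul _ (hpos b₀), ih]
  have hy : emb (pos b₀) ((1 - (x : ℂ) • g) ^ 2 ^ (n + 1) - 1) =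
      ∑ S ∈ (Finset.univ : Finset (Tr Bool (n + 1))).filter (fun S => act (n + 1) S = true),
        ((-(x : ℂ)) • emb (pos b₀) g) ^ size (n + 1) S := by
    rw [sum_size_act]
    have e1 : ∀ h : Matrix (B → Fin d) (B → Fin d) ℂ,
        emb (pos b₀) (h - 1) = emb (pos b₀) h - 1 := by
      intro h
      have h3 : h - 1 = h + (-1 : ℂ) • (1 : Matrix (B → Fin d) (B → Fin d) ℂ) := by
        rw [neg_smul, one_smul, sub_eq_add_neg]
      rw [h3, emb_add, emb_smul, emb_one _ (hpos b₀), neg_smul, one_smul, sub_eq_add_neg]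
    rw [e1, hpow]
    congr 2
    have h3 : (1 : Matrix (B → Fin d) (B → Fin d) ℂ) - (x : ℂ) • g = 1 + (-(x : ℂ)) • g := by
      rw [neg_smul, sub_eq_add_neg]
    rw [h3, emb_add, emb_smul, emb_one _ (hpos b₀)]
  set r' := Function.update r b₀ (roff (n + 1)) with hr'
  have hnn : ∀ b' p' p, b' ≠ b₀ → ron (n + 1) (r b') = true → pos b' p' ≠ pos b₀ p := by
    intro b' p' p h1 h2
    exact (wit_false_iff pos _ b₀ p).1 (hn p) b' p' h1 h2
  -- the separated configurations
  have hsep : ∀ ξ : E → Tr Bool (n + 1), (∀ b, b ≠ b₀ → act (n + 1) (ξ b) = ron (n + 1) (r b)) →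
      Sep pos b₀ (n + 1) ξ := by
    intro ξ h b hb ha p p'
    rw [h b hb] at ha
    exact hnn b p p' hb ha
  have hr'b : ∀ b, b ≠ b₀ → r' b = r b := fun b hb => by rw [hr', Function.update_of_ne hb]
  have hr'0 : r' b₀ = roff (n + 1) := by rw [hr', Function.update_self]
  unfold Qr
  rw [← Finset.sum_filter, ← Finset.sum_filter, hy, Finset.sum_mul_sum, ← Finset.sum_product']
  symm
  refine Finset.sum_nbij' (fun q => Function.update q.2 b₀ q.1)
    (fun ξ => (ξ b₀, Function.update ξ b₀ (off (n + 1)))) ?_ ?_ ?_ ?_ ?_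
  · rintro ⟨S, ξ'⟩ hq
    rw [Finset.mem_product, Finset.mem_filter, Finset.mem_filter] at hq
    obtain ⟨⟨-, hS⟩, -, hξ'⟩ := hq
    simp only at hS hξ'
    rw [Finset.mem_filter]
    refine ⟨Finset.mem_univ _, ?_⟩
    simp only
    have hact : ∀ b, b ≠ b₀ → act (n + 1) (Function.update ξ' b₀ S b) = ron (n + 1) (r b) := by
      intro b hb
      rw [Function.update_of_ne hb, ← hr'b b hb, ← hξ', ron_recOf]
    have hs := hsep _ hact
    have hoff : ξ' b₀ = off (n + 1) := by
      apply eq_off
      rw [← ron_recOf pos, hξ', hr'0, ron_roff]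
    have hupd : Function.update (Function.update ξ' b₀ S) b₀ (off (n + 1)) = ξ' := by
      rw [Function.update_idem, ← hoff, Function.update_eq_self]
    funext b
    by_cases hb : b = b₀
    · subst hb
      rw [recOf, Function.update_self, if_pos hS, if_pos, hl]
      intro p
      rw [← hn p]
      exact wit_congr _ _ _ _ _ fun b' p' h1 _ => hact b' h1
    · have h5 := recOf_update pos b₀ (n + 1) _ hs b hb
      rw [hupd] at h5
      rw [← h5, hξ', hr'b b hb]
  · intro ξ hξ
    rw [Finset.mem_filter] at hξ
    have hξ' := hξ.2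
    have hact := act_of_rec hξ'
    have hact' : ∀ b, act (n + 1) (ξ b) = ron (n + 1) (r b) := fun b => congrFun hact b
    have hs := hsep ξ fun b _ => hact' b
    rw [Finset.mem_product, Finset.mem_filter, Finset.mem_filter]
    refine ⟨⟨Finset.mem_univ _, ?_⟩, Finset.mem_univ _, ?_⟩
    · simp only
      rw [hact' b₀, hl]; rfl
    · simp only
      funext b
      by_cases hb : b = b₀
      · subst hb
        rw [hr'0]
        apply recOf_inactive
        rw [Function.update_self, act_off]
      · rw [recOf_update pos b₀ (n + 1) ξ hs b hb, hξ', hr'b b hb]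
  · rintro ⟨S, ξ'⟩ hq
    rw [Finset.mem_product, Finset.mem_filter, Finset.mem_filter] at hq
    obtain ⟨⟨-, hS⟩, -, hξ'⟩ := hq
    simp only at hS hξ'
    have hoff : ξ' b₀ = off (n + 1) := by
      apply eq_off
      rw [← ron_recOf pos, hξ', hr'0, ron_roff]
    simp only
    rw [Function.update_self, Function.update_idem, ← hoff, Function.update_eq_self]
  · intro ξ _
    simp only
    rw [Function.update_idem, Function.update_eq_self]
  · rintro ⟨S, ξ'⟩ hq
    rw [Finset.mem_product, Finset.mem_filter, Finset.mem_filter] at hq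
    obtain ⟨⟨-, hS⟩, -, hξ'⟩ := hq
    simp only at hS hξ'
    have hact : ∀ b, b ≠ b₀ → act (n + 1) (Function.update ξ' b₀ S b) = ron (n + 1) (r b) := by
      intro b hb
      rw [Function.update_of_ne hb, ← hr'b b hb, ← hξ', ron_recOf]
    have hs := hsep _ hact
    have hoff : ξ' b₀ = off (n + 1) := by
      apply eq_off
      rw [← ron_recOf pos, hξ', hr'0, ron_roff]
    have hupd : Function.update (Function.update ξ' b₀ S) b₀ (off (n + 1)) = ξ' := by
      rw [Function.update_idem, ← hoff, Function.update_eq_self]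
    have h6 := Wm_fac pos hpos g x b₀ (n + 1) _ hs
    rw [hupd, Function.update_self] at h6
    exact h6.symm

theorem Qr_split (pos : E → B → V) (g : Matrix (B → Fin d) (B → Fin d) ℂ) (x : ℝ) (n : ℕ)
    (r : E → RecG Unit (B → Bool) (n + 1)) (hl : ∀ b, r b ≠ some (Sum.inl ()))
    (hok : ∀ b w l l', r b = some (Sum.inr (w, l, l')) →
      w = wit pos (fun b => ron (n + 1) (r b)) b ∧ (∃ p, w p = true) ∧
        (ron n l = true ∨ ron n l' = true)) :
    Qr pos g x (n + 1) r =
      Qr pos g x n (fun b => half1 (r b)) * Qr pos g x n (fun b => half2 (r b)) := by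
  classical
  have key : ∀ ξ : E → Tr Bool (n + 1), recOf pos (n + 1) ξ = r ↔
      (recOf pos n (fun b => (ξ b).1) = fun b => half1 (r b)) ∧
        (recOf pos n (fun b => (ξ b).2) = fun b => half2 (r b)) := by
    intro ξ
    constructor
    · intro h
      have hb : ∀ b, recOf pos n (fun b => (ξ b).1) b = half1 (r b) ∧
          recOf pos n (fun b => (ξ b).2) b = half2 (r b) := by
        intro b
        have h1 := congrFun h b
        cases ha : act (n + 1) (ξ b) with
        | false =>
          rw [recOf_inactive pos (n + 1) ξ b ha] at h1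
          rw [← h1]
          rw [act_succ, Bool.or_eq_false_iff] at ha
          exact ⟨recOf_inactive pos n _ b ha.1, recOf_inactive pos n _ b ha.2⟩
        | true =>
          rw [recOf, if_pos ha] at h1
          split_ifs at h1 with h2
          · exact absurd h1.symm (hl b)
          · rw [← h1]; exact ⟨rfl, rfl⟩
      exact ⟨funext fun b => (hb b).1, funext fun b => (hb b).2⟩
    · rintro ⟨h1, h2⟩
      have hact : (fun b => act (n + 1) (ξ b)) = fun b => ron (n + 1) (r b) := by
        funext b
        rw [act_succ]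
        have e1 : act n (ξ b).1 = ron n (half1 (r b)) := by
          rw [← ron_recOf pos n (fun b => (ξ b).1) b, h1]
        have e2 : act n (ξ b).2 = ron n (half2 (r b)) := by
          rw [← ron_recOf pos n (fun b => (ξ b).2) b, h2]
        rw [e1, e2]
        rcases hr : r b with _ | ⟨⟨⟩ | ⟨w, l, l'⟩⟩
        · show (ron n (roff n) || ron n (roff n)) = false
          rw [ron_roff]; rfl
        · exact absurd hr (hl b)
        · show (ron n l || ron n l') = true
          obtain ⟨-, -, h3⟩ := hok b w l l' hr
          rcases h3 with h3 | h3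
          · rw [h3]; rfl
          · rw [h3, Bool.or_true]
      funext b
      have hab : act (n + 1) (ξ b) = ron (n + 1) (r b) := congrFun hact b
      rcases hr : r b with _ | ⟨⟨⟩ | ⟨w, l, l'⟩⟩
      · rw [hr] at hab
        rw [recOf_inactive pos (n + 1) ξ b hab]; rfl
      · exact absurd hr (hl b)
      · rw [hr] at hab
        obtain ⟨h3, ⟨p, h4⟩, -⟩ := hok b w l l' hr
        have h3' : wit pos (fun b' => act (n + 1) (ξ b')) b = w := by rw [h3, hact]
        have hab' : act (n + 1) (ξ b) = true := hab
        rw [recOf, if_pos hab', h3', if_neg]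
        · have e1 : recOf pos n (fun b => (ξ b).1) b = half1 (r b) := congrFun h1 b
          have e2 : recOf pos n (fun b => (ξ b).2) b = half2 (r b) := congrFun h2 b
          rw [hr] at e1 e2
          rw [e1, e2]
          rfl
        · intro h5
          rw [h5 p] at h4
          exact Bool.false_ne_true h4
  unfold Qr
  rw [Finset.sum_mul_sum, ← Finset.sum_product']
  refine Finset.sum_nbij' (fun ξ => ((fun b => (ξ b).1), (fun b => (ξ b).2)))
    (fun q b => (q.1 b, q.2 b)) (fun _ _ => Finset.mem_product.2 ⟨Finset.mem_univ _,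
      Finset.mem_univ _⟩) (fun _ _ => Finset.mem_univ _) (fun _ _ => rfl) (fun _ _ => rfl) ?_
  intro ξ _
  simp only
  by_cases h : recOf pos (n + 1) ξ = r
  · obtain ⟨h1, h2⟩ := (key ξ).1 h
    rw [if_pos h, if_pos h1, if_pos h2]
    rfl
  · rw [if_neg h]
    by_cases h1 : recOf pos n (fun b => (ξ b).1) = fun b => half1 (r b)
    · by_cases h2 : recOf pos n (fun b => (ξ b).2) = fun b => half2 (r b)
      · exact absurd ((key ξ).2 ⟨h1, h2⟩) h
      · rw [if_neg h2, mul_zero]
    · rw [if_neg h1, zero_mul]

theorem Qr_bad_lump (pos : E → B → V) (g : Matrix (B → Fin d) (B → Fin d) ℂ) (x : ℝ) (n : ℕ)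
    (r : E → RecG Unit (B → Bool) (n + 1)) (b₀ : E) (hl : r b₀ = some (Sum.inl ()))
    (hn : ∃ p, wit pos (fun b => ron (n + 1) (r b)) b₀ p = true) :
    Qr pos g x (n + 1) r = 0 := by
  classical
  unfold Qr
  refine Finset.sum_eq_zero fun ξ _ => ?_
  rw [if_neg]
  intro h
  obtain ⟨p, hp⟩ := hn
  have hact := act_of_rec h
  have h1 := congrFun h b₀
  have ha : act (n + 1) (ξ b₀) = true := by
    have : act (n + 1) (ξ b₀) = ron (n + 1) (r b₀) := congrFun hact b₀
    rw [this, hl]; rfl
  rw [hl, recOf, if_pos ha] at h1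
  split_ifs at h1 with h2
  · have h3 := h2 p
    rw [hact] at h3
    rw [h3] at hp
    exact Bool.false_ne_true hp
  · cases h1

theorem Qr_bad_node (pos : E → B → V) (g : Matrix (B → Fin d) (B → Fin d) ℂ) (x : ℝ) (n : ℕ)
    (r : E → RecG Unit (B → Bool) (n + 1)) (b₀ : E) (w : B → Bool)
    (l l' : RecG Unit (B → Bool) n) (hl : r b₀ = some (Sum.inr (w, l, l')))
    (hn : ¬ (w = wit pos (fun b => ron (n + 1) (r b)) b₀ ∧ (∃ p, w p = true) ∧
        (ron n l = true ∨ ron n l' = true))) :
    Qr pos g x (n + 1) r = 0 := by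
  classical
  unfold Qr
  refine Finset.sum_eq_zero fun ξ _ => ?_
  rw [if_neg]
  intro h
  apply hn
  have hact := act_of_rec h
  have h1 := congrFun h b₀
  have ha : act (n + 1) (ξ b₀) = true := by
    have : act (n + 1) (ξ b₀) = ron (n + 1) (r b₀) := congrFun hact b₀
    rw [this, hl]; rfl
  rw [hl, recOf, if_pos ha] at h1
  split_ifs at h1 with h2
  · cases h1
  · have h3 := Option.some_injective _ h1
    have h4 := Sum.inr_injective h3
    have h5 : wit pos (fun b' => act (n + 1) (ξ b')) b₀ = w := congrArg Prod.fst h4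
    have h6 : recOf pos n (fun b' => (ξ b').1) b₀ = l := congrArg (fun q => q.2.1) h4
    have h7 : recOf pos n (fun b' => (ξ b').2) b₀ = l' := congrArg (fun q => q.2.2) h4
    refine ⟨?_, ?_, ?_⟩
    · rw [← h5, hact]
    · rw [← h5]
      push Not at h2
      obtain ⟨p, hp⟩ := h2
      exact ⟨p, by simpa using hp⟩
    · rw [← h6, ← h7, ron_recOf, ron_recOf]
      rw [act_succ, Bool.or_eq_true] at ha
      exact ha

end RECL

end Pool.Agent.Helper2.PB
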