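import Pool.Agent.Helper2.PB.Defs2

/-!
# Module RECR: labelled records and product operators
-/

set_option autoImplicit false
set_option linter.unusedSectionVars false

namespace Pool.Agent.Helper2.PB

open Matrix
open scoped Matrix.Norms.L2Operator ComplexOrder

namespace RecR

section lists

/-- A list product with only one entry different from `1`. -/
theorem prod_eq_single {E M : Type} [Monoid M] (f : E → M) (b₀ : E) :
    ∀ l : List E, l.Nodup → b₀ ∈ l → (∀ b, b ≠ b₀ → f b = 1) → (l.map f).prod = f b₀ := by
  intro l
  induction l with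
  | nil => intro _ h; simp at h
  | cons a l ih =>
    intro hn hb h
    rw [List.nodup_cons] at hn
    rw [List.map_cons, List.prod_cons]
    by_cases hab : a = b₀
    · subst hab
      have h1 : (l.map f).prod = 1 := by
        apply List.prod_eq_one
        intro y hy
        rw [List.mem_map] at hy
        obtain ⟨b, hb1, rfl⟩ := hy
        apply h
        rintro rfl
        exact hn.1 hb1
      rw [h1, mul_one]
    · rw [h a hab, one_mul]
      apply ih hn.2 _ h
      rcases List.mem_cons.1 hb with h1 | h1
      · exact absurd h1.symm hab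
      · exact h1

theorem prod_smul_list {E ι : Type} [Fintype ι] [DecidableEq ι] (c : E → ℂ)
    (F : E → Matrix ι ι ℂ) (l : List E) :
    (l.map fun b => c b • F b).prod = (l.map c).prod • (l.map F).prod := by
  induction l with
  | nil => simp
  | cons a l ih =>
    simp only [List.map_cons, List.prod_cons, ih]
    rw [smul_mul_smul_comm]

/-- Distributivity of a noncommutative product over a list. -/
theorem list_prod_sum {E X M : Type} [Fintype E] [DecidableEq E] [Fintype X] [DecidableEq X]
    [Semiring M] (F : E → X → M) (a₀ : X) (l : List E) (hl : l.Nodup) :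
    ∑ ρ ∈ (Finset.univ : Finset (E → X)).filter (fun ρ => ∀ b, b ∉ l → ρ b = a₀),
      (l.map fun b => F b (ρ b)).prod = (l.map fun b => ∑ a, F b a).prod := by
  induction l with
  | nil =>
    have h1 : (Finset.univ : Finset (E → X)).filter (fun ρ => ∀ b, b ∉ ([] : List E) → ρ b = a₀)
        = {fun _ => a₀} := by
      ext ρ
      simp only [List.not_mem_nil, not_false_eq_true, forall_const, Finset.mem_filter,
        Finset.mem_univ, true_and, Finset.mem_singleton]
      constructor
      · intro h
        funext b
        exact h b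
      · rintro rfl b
        rfl
    rw [h1]
    simp
  | cons b₀ l ih =>
    rw [List.nodup_cons] at hl
    rw [List.map_cons, List.prod_cons, ← ih hl.2, Finset.sum_mul_sum, ← Finset.sum_product']
    symm
    refine Finset.sum_bij (fun p _ => Function.update p.2 b₀ p.1) ?_ ?_ ?_ ?_
    · rintro ⟨a, ρ⟩ hp
      simp only [Finset.mem_product, Finset.mem_univ, Finset.mem_filter, true_and] at hp ⊢
      intro b hb
      rw [List.mem_cons, not_or] at hb
      rw [Function.update_of_ne hb.1]
      exact hp b hb.2
    · rintro ⟨a, ρ⟩ hp ⟨a', ρ'⟩ hp' he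
      simp only [Finset.mem_product, Finset.mem_univ, Finset.mem_filter, true_and] at hp hp'
      have h1 : a = a' := by
        have := congrFun he b₀
        simpa using this
      have h2 : ρ = ρ' := by
        funext b
        by_cases hb : b = b₀
        · rw [hb, hp b₀ hl.1, hp' b₀ hl.1]
        · have := congrFun he b
          simpa [Function.update_of_ne hb] using this
      rw [h1, h2]
    · intro ρ hρ
      simp only [Finset.mem_filter, Finset.mem_univ, true_and] at hρ
      refine ⟨(ρ b₀, Function.update ρ b₀ a₀), ?_, ?_⟩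
      · simp only [Finset.mem_product, Finset.mem_univ, Finset.mem_filter, true_and]
        intro b hb
        by_cases hb0 : b = b₀
        · rw [hb0]; simp
        · rw [Function.update_of_ne hb0]
          apply hρ
          rw [List.mem_cons, not_or]
          exact ⟨hb0, hb⟩
      · funext b
        by_cases hb0 : b = b₀
        · rw [hb0]; simp
        · simp [Function.update_of_ne hb0]
    · rintro ⟨a, ρ⟩ hp
      simp only [Finset.mem_product, Finset.mem_univ, Finset.mem_filter, true_and] at hp
      rw [List.map_cons, List.prod_cons]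
      simp only [Function.update_self]
      congr 2
      apply List.map_congr_left
      intro b hb
      have : b ≠ b₀ := by
        rintro rfl
        exact hl.1 hb
      rw [Function.update_of_ne this]

theorem univ_prod_sum {E X M : Type} [Fintype E] [DecidableEq E] [Fintype X] [DecidableEq X]
    [Nonempty X] [Semiring M] (F : E → X → M) :
    ∑ ρ : E → X, ((Finset.univ : Finset E).toList.map fun b => F b (ρ b)).prod =
      ((Finset.univ : Finset E).toList.map fun b => ∑ a, F b a).prod := by
  obtain ⟨a₀⟩ := ‹Nonempty X›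
  rw [← list_prod_sum F a₀ _ (Finset.nodup_toList _)]
  apply Finset.sum_congr _ (fun _ _ => rfl)
  ext ρ
  simp

end lists

section recs

variable {Λ W : Type}

theorem ron_forget : ∀ (n : ℕ) (ρ : RecG Λ W n), ron n (forget n ρ) = ron n ρ
  | 0, none => rfl
  | 0, some _ => rfl
  | _ + 1, none => rfl
  | _ + 1, some (Sum.inl _) => rfl
  | _ + 1, some (Sum.inr (_, _, _)) => rfl

theorem forget_roff : ∀ n : ℕ, forget n (roff n : RecG Λ W n) = roff n
  | 0 => rfl
  | _ + 1 => rfl

theorem eq_roff : ∀ (n : ℕ) (ρ : RecG Λ W n), forget n ρ = roff n → ρ = roff n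
  | 0, none, _ => rfl
  | 0, some _, h => by simp [forget, roff] at h
  | _ + 1, none, _ => rfl
  | _ + 1, some (Sum.inl _), h => by simp [forget, roff] at h
  | _ + 1, some (Sum.inr (_, _, _)), h => by simp [forget, roff] at h

theorem eq_roff_of_ron : ∀ (n : ℕ) (ρ : RecG Λ W n), ron n ρ = false → ρ = roff n
  | 0, none, _ => rfl
  | 0, some _, h => by simp [ron] at h
  | _ + 1, none, _ => rfl
  | _ + 1, some (Sum.inl _), h => by simp [ron] at h
  | _ + 1, some (Sum.inr (_, _, _)), h => by simp [ron] at h

theorem half1_forget {n : ℕ} : ∀ ρ : RecG Λ W (n + 1), half1 (forget (n + 1) ρ) = forget n (half1 ρ)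
  | none => (forget_roff n).symm
  | some (Sum.inl _) => (forget_roff n).symm
  | some (Sum.inr (_, _, _)) => rfl

theorem half2_forget {n : ℕ} : ∀ ρ : RecG Λ W (n + 1), half2 (forget (n + 1) ρ) = forget n (half2 ρ)
  | none => (forget_roff n).symm
  | some (Sum.inl _) => (forget_roff n).symm
  | some (Sum.inr (_, _, _)) => rfl

/-- The lump with a label. -/
def mkLump {n : ℕ} (l : Λ) : RecG Λ W (n + 1) :=
  (some (Sum.inl l) : Option (Λ ⊕ (W × RecG Λ W n × RecG Λ W n)))

theorem half1_roff {n : ℕ} : half1 (roff (n + 1) : RecG Λ W (n + 1)) = roff n := rfl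

theorem half2_roff {n : ℕ} : half2 (roff (n + 1) : RecG Λ W (n + 1)) = roff n := rfl

end recs

section tens

variable {V : Type} [Fintype V] [DecidableEq V] {d : ℕ}

theorem tens_one : tens (fun _ : V => (1 : Matrix (Fin d) (Fin d) ℂ)) = 1 := by
  ext σ τ
  simp only [tens, Matrix.one_apply]
  by_cases h : σ = τ
  · subst h
    simp
  · rw [if_neg h]
    have : ∃ v, σ v ≠ τ v := by
      by_contra hc
      push Not at hc
      exact h (funext hc)
    obtain ⟨v, hv⟩ := this
    exact Finset.prod_eq_zero (Finset.mem_univ v) (if_neg hv)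

theorem tens_zero {A : V → Matrix (Fin d) (Fin d) ℂ} (v : V) (h : A v = 0) : tens A = 0 := by
  ext σ τ
  simp only [tens, Matrix.zero_apply]
  exact Finset.prod_eq_zero (Finset.mem_univ v) (by rw [h]; rfl)

theorem tens_mul' (A A' : V → Matrix (Fin d) (Fin d) ℂ) :
    tens A * tens A' = tens (fun v => A v * A' v) := by
  ext σ τ
  simp only [tens, Matrix.mul_apply]
  rw [Finset.prod_univ_sum, Fintype.piFinset_univ]
  apply Finset.sum_congr rfl
  intro ρ _
  rw [Finset.prod_mul_distrib]

theorem tens_list {E : Type} (l : List E) (F : V → E → Matrix (Fin d) (Fin d) ℂ) :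
    tens (fun v => (l.map (F v)).prod) = (l.map fun b => tens (fun v => F v b)).prod := by
  induction l with
  | nil => simpa using tens_one
  | cons a l ih =>
    simp only [List.map_cons, List.prod_cons]
    rw [← ih, tens_mul']

end tens

section units

variable {E V B : Type} [Fintype E] [DecidableEq E] [Fintype V] [DecidableEq V] [Fintype B]
  [DecidableEq B] {d : ℕ}

theorem unitAt_off (pos : E → B → V) (v : V) (b : E) (l : Lab B d) (h : ¬ ∃ p, pos b p = v) :
    unitAt pos v b l = 1 := by
  unfold unitAt
  rw [dif_neg h]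

theorem unitAt_on (pos : E → B → V) (b : E) (hpos : Function.Injective (pos b)) (p : B)
    (l : Lab B d) : unitAt pos (pos b p) b l = Matrix.single (l.1 p) (l.2 p) 1 := by
  unfold unitAt
  have h : ∃ p', pos b p' = pos b p := ⟨p, rfl⟩
  rw [dif_pos h]
  have : h.choose = p := hpos h.choose_spec
  rw [this]

/-- Expansion of an embedded block operator into product operators. -/
theorem emb_eq_sum (pos : E → B → V) (b : E) (hpos : Function.Injective (pos b))
    (g : Matrix (B → Fin d) (B → Fin d) ℂ) :
    emb (pos b) g = ∑ l : Lab B d, g l.1 l.2 • tens (fun v => unitAt pos v b l) := by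
  classical
  ext σ τ
  rw [Matrix.sum_apply]
  simp only [Matrix.smul_apply, smul_eq_mul, tens]
  have hval : ∀ l : Lab B d, (∏ v, unitAt pos v b l (σ v) (τ v)) =
      if (∀ u, (∀ p, pos b p ≠ u) → σ u = τ u) ∧
        l = ((fun p => σ (pos b p)), (fun p => τ (pos b p))) then 1 else 0 := by
    intro l
    split_ifs with h
    · apply Finset.prod_eq_one
      intro v _
      by_cases hv : ∃ p, pos b p = v
      · obtain ⟨p, rfl⟩ := hv
        rw [unitAt_on pos b hpos, h.2]
        simp
      · rw [unitAt_off pos v b l hv, Matrix.one_apply, if_pos]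
        apply h.1
        intro p hp
        exact hv ⟨p, hp⟩
    · rw [not_and_or] at h
      rcases h with h | h
      · push Not at h
        obtain ⟨u, hu, hne⟩ := h
        apply Finset.prod_eq_zero (Finset.mem_univ u)
        rw [unitAt_off pos u b l (by rintro ⟨p, hp⟩; exact hu p hp), Matrix.one_apply, if_neg hne]
      · have : ∃ p, ¬ (l.1 p = σ (pos b p) ∧ l.2 p = τ (pos b p)) := by
          by_contra hc
          push Not at hc
          apply h
          ext1
          · funext p
            exact (hc p).1
          · funext p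
            exact (hc p).2
        obtain ⟨p, hp⟩ := this
        apply Finset.prod_eq_zero (Finset.mem_univ (pos b p))
        rw [unitAt_on pos b hpos]
        exact Matrix.single_apply_of_ne (i := l.1 p) (j := l.2 p) (c := (1 : ℂ))
          (i' := σ (pos b p)) (j' := τ (pos b p)) hp
  simp only [hval]
  unfold emb
  by_cases h : ∀ u, (∀ p, pos b p ≠ u) → σ u = τ u
  · rw [if_pos h, Finset.sum_eq_single ((fun p => σ (pos b p)), (fun p => τ (pos b p)))]
    · rw [if_pos ⟨h, rfl⟩, mul_one]
    · intro l _ hl
      rw [if_neg (fun hc => hl hc.2), mul_zero]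
    · intro hc
      exact absurd (Finset.mem_univ _) hc
  · rw [if_neg h, Finset.sum_eq_zero]
    intro l _
    rw [if_neg (fun hc => h hc.1), mul_zero]

theorem evU_off (pos : E → B → V) (v : V) (b : E) (h : ¬ ∃ p, pos b p = v) :
    ∀ r : RecG (Lab B d) (B → Bool) 0, evU pos v b r = 1
  | none => rfl
  | some l => unitAt_off pos v b l h

theorem lumpU_off {n : ℕ} (pos : E → B → V) (v : V) (b : E) (h : ¬ ∃ p, pos b p = v) :
    ∀ r : RecG (Lab B d) (B → Bool) (n + 1), lumpU pos v b r = 1
  | none => rfl
  | some (Sum.inl l) => unitAt_off pos v b l h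
  | some (Sum.inr _) => rfl

theorem wit_congr (pos : E → B → V) (A A' : E → Bool) (b : E) (p : B)
    (h : ∀ b', (∃ p', pos b' p' = pos b p) → A b' = A' b') : wit pos A b p = wit pos A' b p := by
  unfold wit
  rw [decide_eq_decide]
  constructor
  · rintro ⟨b', p', h1, h2, h3⟩
    exact ⟨b', p', h1, by rw [← h b' ⟨p', h3⟩]; exact h2, h3⟩
  · rintro ⟨b', p', h1, h2, h3⟩
    exact ⟨b', p', h1, by rw [h b' ⟨p', h3⟩]; exact h2, h3⟩

theorem chk_congr {n : ℕ} (pos : E → B → V) (v : V)
    (ρ ρ' : E → RecG (Lab B d) (B → Bool) (n + 1))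
    (h : ∀ b, (∃ p, pos b p = v) → ρ b = ρ' b) (hc : chk pos v ρ) : chk pos v ρ' := by
  intro b p hp
  have h1 := hc b p hp
  have h2 : wit pos (fun b' => ron (n + 1) (ρ b')) b p =
      wit pos (fun b' => ron (n + 1) (ρ' b')) b p := by
    apply wit_congr
    rintro b' ⟨p', hp'⟩
    rw [h b' ⟨p', hp'.trans hp⟩]
  rw [h b ⟨p, hp⟩, h2] at h1
  exact h1

theorem phi_local' (pos : E → B → V) (v : V) (n : ℕ) :
    ∀ (ρ ρ' : E → RecG (Lab B d) (B → Bool) n),
    (∀ b, (∃ p, pos b p = v) → ρ b = ρ' b) → phi pos v n ρ = phi pos v n ρ' := by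
  induction n with
  | zero =>
    intro ρ ρ' h
    unfold phi
    congr 1
    apply List.map_congr_left
    intro b _
    by_cases hb : ∃ p, pos b p = v
    · rw [h b hb]
    · rw [evU_off pos v b hb, evU_off pos v b hb]
  | succ n ih =>
    intro ρ ρ' h
    have hchk : chk pos v ρ ↔ chk pos v ρ' :=
      ⟨chk_congr pos v ρ ρ' h, chk_congr pos v ρ' ρ (fun b hb => (h b hb).symm)⟩
    have h1 : (fun b => lumpU pos v b (ρ b)) = fun b => lumpU pos v b (ρ' b) := by
      funext b
      by_cases hb : ∃ p, pos b p = v
      · rw [h b hb]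
      · rw [lumpU_off pos v b hb, lumpU_off pos v b hb]
    have h2 := ih (fun b => half1 (ρ b)) (fun b => half1 (ρ' b)) (fun b hb => by
      simp only [h b hb])
    have h3 := ih (fun b => half2 (ρ b)) (fun b => half2 (ρ' b)) (fun b hb => by
      simp only [h b hb])
    unfold phi
    rw [h1, h2, h3]
    by_cases hc : chk pos v ρ
    · rw [if_pos hc, if_pos (hchk.1 hc)]
    · rw [if_neg hc, if_neg (fun hc' => hc (hchk.2 hc'))]

theorem phi_roff (pos : E → B → V) (v : V) (n : ℕ) :
    ∀ (ρ : E → RecG (Lab B d) (B → Bool) n),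
    (∀ b, (∃ p, pos b p = v) → ρ b = roff n) → phi pos v n ρ = 1 := by
  induction n with
  | zero =>
    intro ρ h
    unfold phi
    apply List.prod_eq_one
    intro y hy
    rw [List.mem_map] at hy
    obtain ⟨b, _, rfl⟩ := hy
    by_cases hb : ∃ p, pos b p = v
    · rw [h b hb]; rfl
    · exact evU_off pos v b hb _
  | succ n ih =>
    intro ρ h
    unfold phi
    have hchk : chk pos v ρ := by
      intro b p hp
      rw [h b ⟨p, hp⟩]
      trivial
    rw [if_pos hchk, ih _ (fun b hb => by simp only [h b hb, half1_roff]),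
      ih _ (fun b hb => by simp only [h b hb, half2_roff]), mul_one, mul_one]
    apply List.prod_eq_one
    intro y hy
    rw [List.mem_map] at hy
    obtain ⟨b, _, rfl⟩ := hy
    by_cases hb : ∃ p, pos b p = v
    · rw [h b hb]; rfl
    · exact lumpU_off pos v b hb _

theorem coef_roff (g : Matrix (B → Fin d) (B → Fin d) ℂ) (x : ℝ) :
    ∀ n : ℕ, coef g x n (roff n) = 1
  | 0 => rfl
  | _ + 1 => rfl

end units

end RecR

section RECR

variable {E V B : Type} [Fintype E] [DecidableEq E] [Fintype V] [DecidableEq V] [Fintype B]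
  [DecidableEq B] {d : ℕ}

theorem tens_mul (A A' : V → Matrix (Fin d) (Fin d) ℂ) :
    tens A * tens A' = tens (fun v => A v * A' v) :=
  RecR.tens_mul' A A'

/-- The factor at `v` only depends on the records of the terms covering `v`. -/
theorem phi_local (pos : E → B → V) (v : V) (n : ℕ) (ρ ρ' : E → RecG (Lab B d) (B → Bool) n)
    (h : ∀ b, (∃ p, pos b p = v) → ρ b = ρ' b) : phi pos v n ρ = phi pos v n ρ' :=
  RecR.phi_local' pos v n ρ ρ' h

theorem Vr_zero (pos : E → B → V) (hpos : ∀ b, Function.Injective (pos b))
    (g : Matrix (B → Fin d) (B → Fin d) ℂ) (x : ℝ) (r : E → RecG Unit (B → Bool) 0) :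
    Vr pos g x 0 r = ((Finset.univ : Finset E).toList.map fun b =>
      if ron 0 (r b) = true then (-(x : ℂ)) • emb (pos b) g else 1).prod := by
  classical
  have : Nonempty (RecG (Lab B d) (B → Bool) 0) := ⟨roff 0⟩
  unfold Vr
  have h1 : ∀ ρ : E → RecG (Lab B d) (B → Bool) 0,
      (if (fun b => forget 0 (ρ b)) = r then
        (∏ b, coef g x 0 (ρ b)) • tens (fun v => phi pos v 0 ρ) else 0) =
      ((Finset.univ : Finset E).toList.map fun b =>
        (if forget 0 (ρ b) = r b then coef g x 0 (ρ b) else 0) •
          tens (fun v => evU pos v b (ρ b))).prod := by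
    intro ρ
    rw [RecR.prod_smul_list, Finset.prod_map_toList, Finset.prod_ite_zero]
    have h2 : tens (fun v => phi pos v 0 ρ) =
        ((Finset.univ : Finset E).toList.map fun b => tens (fun v => evU pos v b (ρ b))).prod := by
      rw [← RecR.tens_list]
      rfl
    rw [h2]
    by_cases h : (fun b => forget 0 (ρ b)) = r
    · rw [if_pos h, if_pos (fun b _ => congrFun h b)]
    · rw [if_neg h, if_neg (fun hc => h (funext (fun b => hc b (Finset.mem_univ b)))), zero_smul]
  rw [Finset.sum_congr rfl (fun ρ _ => h1 ρ)]
  rw [RecR.univ_prod_sum (fun (b : E) (a : RecG (Lab B d) (B → Bool) 0) =>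
    (if forget 0 a = r b then coef g x 0 a else 0) • tens (fun v => evU pos v b a))]
  congr 1
  apply List.map_congr_left
  intro b _
  change (∑ a : Option (Lab B d), (if forget 0 (a : RecG (Lab B d) (B → Bool) 0) = r b then
    coef g x 0 (a : RecG (Lab B d) (B → Bool) 0) else 0) •
      tens (fun v => evU pos v b (a : RecG (Lab B d) (B → Bool) 0))) = _
  rw [Fintype.sum_option]
  rcases hr : r b with _ | u
  · have h2 : forget (W := B → Bool) 0 (none : RecG (Lab B d) (B → Bool) 0) =
        (none : RecG Unit (B → Bool) 0) := rfl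
    rw [if_pos h2, Finset.sum_eq_zero, add_zero]
    · have h3 : (fun v => evU pos v b (none : RecG (Lab B d) (B → Bool) 0)) =
        fun _ => (1 : Matrix (Fin d) (Fin d) ℂ) := rfl
      rw [h3, RecR.tens_one]
      have h4 : coef g x 0 (none : RecG (Lab B d) (B → Bool) 0) = 1 := rfl
      rw [h4, one_smul, if_neg]
      simp [ron]
    · intro l _
      rw [if_neg, zero_smul]
      simp [forget]
  · have h2 : ¬ forget (W := B → Bool) 0 (none : RecG (Lab B d) (B → Bool) 0) =
        (some u : RecG Unit (B → Bool) 0) := by simp [forget]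
    rw [if_neg h2, zero_smul, zero_add, if_pos (by simp [ron]), RecR.emb_eq_sum pos b (hpos b),
      Finset.smul_sum]
    apply Finset.sum_congr rfl
    intro l _
    have h3 : forget (W := B → Bool) 0 (some l : RecG (Lab B d) (B → Bool) 0) =
        (some u : RecG Unit (B → Bool) 0) := by
      cases u; rfl
    rw [if_pos h3, smul_smul]
    rfl

theorem Vr_lump (pos : E → B → V) (hpos : ∀ b, Function.Injective (pos b))
    (g : Matrix (B → Fin d) (B → Fin d) ℂ) (x : ℝ) (n : ℕ)
    (r : E → RecG Unit (B → Bool) (n + 1)) (b₀ : E) (hl : r b₀ = some (Sum.inl ()))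
    (hn : ∀ p, wit pos (fun b => ron (n + 1) (r b)) b₀ p = false) :
    Vr pos g x (n + 1) r = emb (pos b₀) ((1 - (x : ℂ) • g) ^ 2 ^ (n + 1) - 1) *
      Vr pos g x (n + 1) (Function.update r b₀ (roff (n + 1))) := by
  classical
  set G : Matrix (B → Fin d) (B → Fin d) ℂ := (1 - (x : ℂ) • g) ^ 2 ^ (n + 1) - 1 with hG
  set r' := Function.update r b₀ (roff (n + 1)) with hr'
  unfold Vr
  rw [← Finset.sum_filter, ← Finset.sum_filter, RecR.emb_eq_sum pos b₀ (hpos b₀),
    Finset.sum_mul_sum, ← Finset.sum_product']
  symm
  refine Finset.sum_bij (fun (p : Lab B d × (E → RecG (Lab B d) (B → Bool) (n + 1))) _ =>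
    Function.update p.2 b₀ (RecR.mkLump p.1)) ?_ ?_ ?_ ?_
  · rintro ⟨l, ρ⟩ hp
    simp only [Finset.mem_product, Finset.mem_univ, Finset.mem_filter, true_and] at hp ⊢
    funext b
    by_cases hb : b = b₀
    · subst hb
      rw [Function.update_self, hl]
      rfl
    · rw [Function.update_of_ne hb, congrFun hp b, hr', Function.update_of_ne hb]
  · rintro ⟨l, ρ⟩ hp ⟨l', ρ'⟩ hp' he
    simp only [Finset.mem_product, Finset.mem_univ, Finset.mem_filter, true_and] at hp hp'
    have h1 : l = l' := by
      have h2 := congrFun he b₀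
      simp only [Function.update_self] at h2
      exact Sum.inl_injective (Option.some_injective _ h2)
    have h2 : ρ = ρ' := by
      funext b
      by_cases hb : b = b₀
      · subst hb
        have h3 := congrFun hp b
        have h4 := congrFun hp' b
        simp only [hr', Function.update_self] at h3 h4
        rw [RecR.eq_roff _ _ h3, RecR.eq_roff _ _ h4]
      · have h3 := congrFun he b
        simp only [Function.update_of_ne hb] at h3
        exact h3
    rw [h1, h2]
  · intro ρ hρ
    simp only [Finset.mem_filter, Finset.mem_univ, true_and] at hρ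
    have h1 : forget (n + 1) (ρ b₀) = r b₀ := congrFun hρ b₀
    rw [hl] at h1
    have h2 : ∃ l, ρ b₀ = some (Sum.inl l) := by
      rcases hb : ρ b₀ with _ | (l | ⟨w, a, c⟩)
      · rw [hb] at h1
        simp [forget] at h1
      · exact ⟨l, rfl⟩
      · rw [hb] at h1
        exact (Sum.inr_ne_inl (Option.some_injective _ h1)).elim
    obtain ⟨l, hl2⟩ := h2
    refine ⟨(l, Function.update ρ b₀ (roff (n + 1))), ?_, ?_⟩
    · simp only [Finset.mem_product, Finset.mem_univ, Finset.mem_filter, true_and]
      funext b
      by_cases hb : b = b₀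
      · subst hb
        simp only [hr', Function.update_self]
        exact RecR.forget_roff _
      · simp only [hr', Function.update_of_ne hb]
        exact congrFun hρ b
    · funext b
      by_cases hb : b = b₀
      · subst hb
        simp only [Function.update_self]
        exact hl2.symm
      · simp only [Function.update_of_ne hb]
  · rintro ⟨l, ρ⟩ hp
    simp only [Finset.mem_product, Finset.mem_univ, Finset.mem_filter, true_and] at hp
    simp only
    -- coefficients
    have hρ0 : ρ b₀ = roff (n + 1) := by
      have h3 := congrFun hp b₀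
      simp only [hr', Function.update_self] at h3
      exact RecR.eq_roff _ _ h3
    have hcoef : (∏ b, coef g x (n + 1) (Function.update ρ b₀ (RecR.mkLump l) b)) =
        G l.1 l.2 * ∏ b, coef g x (n + 1) (ρ b) := by
      rw [← Finset.mul_prod_erase Finset.univ _ (Finset.mem_univ b₀),
        ← Finset.mul_prod_erase Finset.univ (fun b => coef g x (n + 1) (ρ b))
          (Finset.mem_univ b₀), Function.update_self, hρ0, RecR.coef_roff, one_mul]
      congr 1
      apply Finset.prod_congr rfl
      intro b hb
      rw [Function.update_of_ne (Finset.ne_of_mem_erase hb)]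
    -- the factors
    have hphi : ∀ v, phi pos v (n + 1) (Function.update ρ b₀ (RecR.mkLump l)) =
        unitAt pos v b₀ l * phi pos v (n + 1) ρ := by
      intro v
      by_cases hv : ∃ p, pos b₀ p = v
      · obtain ⟨p₀, rfl⟩ := hv
        have hoff : ∀ b, b ≠ b₀ → (∃ p, pos b p = pos b₀ p₀) → ρ b = roff (n + 1) := by
          rintro b hb ⟨p, hp'⟩
          have h1 := hn p₀
          unfold wit at h1
          rw [decide_eq_false_iff_not] at h1
          apply RecR.eq_roff_of_ron
          by_contra hc
          apply h1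
          refine ⟨b, p, hb, ?_, hp'⟩
          have h2 := congrFun hp b
          simp only [hr', Function.update_of_ne hb] at h2
          change ron (n + 1) (r b) = true
          rw [← h2, RecR.ron_forget]
          simpa using hc
        have hoff' : ∀ b, (∃ p, pos b p = pos b₀ p₀) → ρ b = roff (n + 1) := by
          intro b hb
          by_cases hbb : b = b₀
          · rw [hbb]; exact hρ0
          · exact hoff b hbb hb
        rw [RecR.phi_roff pos _ (n + 1) ρ hoff', mul_one]
        have hchk : chk pos (pos b₀ p₀) (Function.update ρ b₀ (RecR.mkLump l)) := by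
          intro b p hbp
          by_cases hbb : b = b₀
          · subst hbb
            rw [Function.update_self]
            change wit pos _ b p = false
            unfold wit
            rw [decide_eq_false_iff_not]
            rintro ⟨b', p', h1, h2, h3⟩
            change ron (n + 1) (Function.update ρ b (RecR.mkLump l) b') = true at h2
            rw [Function.update_of_ne h1, hoff b' h1 ⟨p', h3.trans hbp⟩] at h2
            simp [ron, roff] at h2
          · rw [Function.update_of_ne hbb, hoff b hbb ⟨p, hbp⟩]
            trivial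
        unfold phi
        rw [if_pos hchk, RecR.phi_roff, RecR.phi_roff, mul_one, mul_one]
        · rw [RecR.prod_eq_single _ b₀ _ (Finset.nodup_toList _)
            (Finset.mem_toList.2 (Finset.mem_univ _))]
          · rw [Function.update_self]
            rfl
          · intro b hb
            rw [Function.update_of_ne hb]
            by_cases hbv : ∃ p, pos b p = pos b₀ p₀
            · rw [hoff b hb hbv]; rfl
            · exact RecR.lumpU_off pos _ b hbv _
        · intro b hb
          by_cases hbb : b = b₀
          · subst hbb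
            rw [Function.update_self]
            rfl
          · rw [Function.update_of_ne hbb, hoff b hbb hb]
            rfl
        · intro b hb
          by_cases hbb : b = b₀
          · subst hbb
            rw [Function.update_self]
            rfl
          · rw [Function.update_of_ne hbb, hoff b hbb hb]
            rfl
      · rw [RecR.unitAt_off pos v b₀ l hv, one_mul]
        apply phi_local
        rintro b hb
        have : b ≠ b₀ := by
          rintro rfl
          exact hv hb
        rw [Function.update_of_ne this]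
    rw [hcoef, smul_mul_smul_comm, tens_mul]
    congr 2
    funext v
    exact (hphi v).symm

theorem Vr_split (pos : E → B → V) (g : Matrix (B → Fin d) (B → Fin d) ℂ) (x : ℝ) (n : ℕ)
    (r : E → RecG Unit (B → Bool) (n + 1)) (hl : ∀ b, r b ≠ some (Sum.inl ()))
    (hok : ∀ b w l l', r b = some (Sum.inr (w, l, l')) →
      w = wit pos (fun b => ron (n + 1) (r b)) b ∧ (∃ p, w p = true) ∧
        (ron n l = true ∨ ron n l' = true)) :
    Vr pos g x (n + 1) r =
      Vr pos g x n (fun b => half1 (r b)) * Vr pos g x n (fun b => half2 (r b)) := by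
  classical
  unfold Vr
  rw [← Finset.sum_filter, ← Finset.sum_filter, ← Finset.sum_filter, Finset.sum_mul_sum,
    ← Finset.sum_product']
  have hform : ∀ (ρ : E → RecG (Lab B d) (B → Bool) (n + 1)),
      (fun b => forget (n + 1) (ρ b)) = r → ∀ b, (ρ b = roff (n + 1) ∧ r b = roff (n + 1)) ∨
        ∃ w l l', ρ b = some (Sum.inr (w, l, l')) ∧
          r b = some (Sum.inr (w, forget n l, forget n l')) := by
    intro ρ hρ b
    have h1 : forget (n + 1) (ρ b) = r b := congrFun hρ b
    rcases hb : ρ b with _ | (l | ⟨w, l, l'⟩)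
    · rw [hb] at h1
      exact Or.inl ⟨rfl, h1.symm⟩
    · rw [hb] at h1
      exact absurd h1.symm (hl b)
    · rw [hb] at h1
      exact Or.inr ⟨w, l, l', rfl, h1.symm⟩
  refine Finset.sum_bij (fun (ρ : E → RecG (Lab B d) (B → Bool) (n + 1)) _ =>
    ((fun b => half1 (ρ b)), (fun b => half2 (ρ b)))) ?_ ?_ ?_ ?_
  · intro ρ hρ
    simp only [Finset.mem_product, Finset.mem_univ, Finset.mem_filter, true_and] at hρ ⊢
    constructor
    · funext b
      rw [← RecR.half1_forget, congrFun hρ b]
    · funext b
      rw [← RecR.half2_forget, congrFun hρ b]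
  · intro ρ hρ ρ' hρ' he
    simp only [Finset.mem_univ, Finset.mem_filter, true_and] at hρ hρ'
    rw [Prod.mk.injEq] at he
    funext b
    have h1 : half1 (ρ b) = half1 (ρ' b) := congrFun he.1 b
    have h2 : half2 (ρ b) = half2 (ρ' b) := congrFun he.2 b
    rcases hform ρ hρ b with ⟨h3, h4⟩ | ⟨w, l, l', h3, h4⟩
    · rcases hform ρ' hρ' b with ⟨h5, h6⟩ | ⟨w', m, m', h5, h6⟩
      · rw [h3, h5]
      · rw [h4] at h6
        simp [roff] at h6
    · rcases hform ρ' hρ' b with ⟨h5, h6⟩ | ⟨w', m, m', h5, h6⟩
      · rw [h6] at h4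
        simp [roff] at h4
      · rw [h4] at h6
        have h7 := Sum.inr_injective (Option.some_injective _ h6)
        rw [Prod.mk.injEq] at h7
        rw [h3, h5] at h1 h2
        have h8 : l = m := h1
        have h9 : l' = m' := h2
        rw [h3, h5, h7.1, h8, h9]
  · rintro ⟨ρ₁, ρ₂⟩ hρ
    simp only [Finset.mem_product, Finset.mem_univ, Finset.mem_filter, true_and] at hρ
    obtain ⟨h1, h2⟩ := hρ
    let ρ : E → RecG (Lab B d) (B → Bool) (n + 1) := fun b =>
      match r b with
      | none => roff (n + 1)
      | some (Sum.inl _) => roff (n + 1)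
      | some (Sum.inr (w, _, _)) => some (Sum.inr (w, ρ₁ b, ρ₂ b))
    have hρ1 : ∀ b, half1 (ρ b) = ρ₁ b ∧ half2 (ρ b) = ρ₂ b ∧ forget (n + 1) (ρ b) = r b := by
      intro b
      have h3 : forget n (ρ₁ b) = half1 (r b) := congrFun h1 b
      have h4 : forget n (ρ₂ b) = half2 (r b) := congrFun h2 b
      rcases hb : r b with _ | (l | ⟨w, l, l'⟩)
      · have h5 : ρ b = roff (n + 1) := by
          simp only [ρ]
          rw [hb]
        rw [hb] at h3 h4
        have h6 : ρ₁ b = roff n := RecR.eq_roff _ _ h3
        have h7 : ρ₂ b = roff n := RecR.eq_roff _ _ h4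
        rw [h5, h6, h7]
        exact ⟨rfl, rfl, rfl⟩
      · exact absurd hb (hl b)
      · have h5 : ρ b = some (Sum.inr (w, ρ₁ b, ρ₂ b)) := by
          simp only [ρ]
          rw [hb]
        rw [hb] at h3 h4
        have h6 : forget n (ρ₁ b) = l := h3
        have h7 : forget n (ρ₂ b) = l' := h4
        rw [h5]
        refine ⟨rfl, rfl, ?_⟩
        rw [← h6, ← h7]
        rfl
    refine ⟨ρ, ?_, ?_⟩
    · simp only [Finset.mem_univ, Finset.mem_filter, true_and]
      funext b
      exact (hρ1 b).2.2
    · rw [Prod.mk.injEq]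
      exact ⟨funext (fun b => (hρ1 b).1), funext (fun b => (hρ1 b).2.1)⟩
  · intro ρ hρ
    simp only [Finset.mem_univ, Finset.mem_filter, true_and] at hρ
    rw [smul_mul_smul_comm, tens_mul, ← Finset.prod_mul_distrib]
    have hron : ∀ b, ron (n + 1) (ρ b) = ron (n + 1) (r b) := by
      intro b
      rw [← congrFun hρ b, RecR.ron_forget]
    congr 1
    · apply Finset.prod_congr rfl
      intro b _
      change coef g x (n + 1) (ρ b) = coef g x n (half1 (ρ b)) * coef g x n (half2 (ρ b))
      rcases hform ρ hρ b with ⟨h3, h4⟩ | ⟨w, l, l', h3, h4⟩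
      · rw [h3, RecR.half1_roff, RecR.half2_roff, RecR.coef_roff, RecR.coef_roff, mul_one]
      · rw [h3]
        have h5 := hok b w _ _ h4
        rw [RecR.ron_forget, RecR.ron_forget] at h5
        change (if (∃ p, w p = true) ∧ (ron n l = true ∨ ron n l' = true) then
          coef g x n l * coef g x n l' else 0) = _
        rw [if_pos h5.2]
        rfl
    · congr 1
      funext v
      have hchk : chk pos v ρ := by
        intro b p hbp
        have hw : wit pos (fun b' => ron (n + 1) (ρ b')) b p =
            wit pos (fun b' => ron (n + 1) (r b')) b p := by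
          apply RecR.wit_congr
          intro b' _
          exact hron b'
        rcases hform ρ hρ b with ⟨h3, h4⟩ | ⟨w, l, l', h3, h4⟩
        · rw [h3]; trivial
        · rw [h3]
          change w p = wit pos (fun b' => ron (n + 1) (ρ b')) b p
          rw [hw, ← (hok b w _ _ h4).1]
      have hunit : ((Finset.univ : Finset E).toList.map fun b => lumpU pos v b (ρ b)).prod = 1 := by
        apply List.prod_eq_one
        intro y hy
        rw [List.mem_map] at hy
        obtain ⟨b, _, rfl⟩ := hy
        rcases hform ρ hρ b with ⟨h3, h4⟩ | ⟨w, l, l', h3, h4⟩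
        · rw [h3]; rfl
        · rw [h3]; rfl
      conv_lhs => unfold phi
      rw [if_pos hchk, hunit, one_mul]

theorem Vr_bad_lump (pos : E → B → V) (g : Matrix (B → Fin d) (B → Fin d) ℂ) (x : ℝ) (n : ℕ)
    (r : E → RecG Unit (B → Bool) (n + 1)) (b₀ : E) (hl : r b₀ = some (Sum.inl ()))
    (hn : ∃ p, wit pos (fun b => ron (n + 1) (r b)) b₀ p = true) :
    Vr pos g x (n + 1) r = 0 := by
  classical
  obtain ⟨p, hp⟩ := hn
  unfold Vr
  apply Finset.sum_eq_zero
  intro ρ _
  split_ifs with hρ
  · have hron : ∀ b, ron (n + 1) (ρ b) = ron (n + 1) (r b) := by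
      intro b
      rw [← congrFun hρ b, RecR.ron_forget]
    have h2 : ∃ l, ρ b₀ = some (Sum.inl l) := by
      have h1 : forget (n + 1) (ρ b₀) = r b₀ := congrFun hρ b₀
      rw [hl] at h1
      rcases hb : ρ b₀ with _ | (l | ⟨w, a, c⟩)
      · rw [hb] at h1
        simp [forget] at h1
      · exact ⟨l, rfl⟩
      · rw [hb] at h1
        exact (Sum.inr_ne_inl (Option.some_injective _ h1)).elim
    obtain ⟨l, hl2⟩ := h2
    have hchk : ¬ chk pos (pos b₀ p) ρ := by
      intro hc
      have h3 := hc b₀ p rfl
      rw [hl2] at h3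
      have h4 : wit pos (fun b' => ron (n + 1) (ρ b')) b₀ p = false := h3
      have h5 : wit pos (fun b' => ron (n + 1) (ρ b')) b₀ p =
          wit pos (fun b' => ron (n + 1) (r b')) b₀ p := by
        apply RecR.wit_congr
        intro b' _
        exact hron b'
      rw [h5, hp] at h4
      exact absurd h4 (by simp)
    rw [RecR.tens_zero (pos b₀ p), smul_zero]
    unfold phi
    rw [if_neg hchk]
  · rfl

theorem Vr_bad_node (pos : E → B → V) (g : Matrix (B → Fin d) (B → Fin d) ℂ) (x : ℝ) (n : ℕ)
    (r : E → RecG Unit (B → Bool) (n + 1)) (b₀ : E) (w : B → Bool)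
    (l l' : RecG Unit (B → Bool) n) (hl : r b₀ = some (Sum.inr (w, l, l')))
    (hn : ¬ (w = wit pos (fun b => ron (n + 1) (r b)) b₀ ∧ (∃ p, w p = true) ∧
        (ron n l = true ∨ ron n l' = true))) :
    Vr pos g x (n + 1) r = 0 := by
  classical
  unfold Vr
  apply Finset.sum_eq_zero
  intro ρ _
  split_ifs with hρ
  · have hron : ∀ b, ron (n + 1) (ρ b) = ron (n + 1) (r b) := by
      intro b
      rw [← congrFun hρ b, RecR.ron_forget]
    have h2 : ∃ m m', ρ b₀ = some (Sum.inr (w, m, m')) ∧ forget n m = l ∧ forget n m' = l' := by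
      have h1 : forget (n + 1) (ρ b₀) = r b₀ := congrFun hρ b₀
      rw [hl] at h1
      rcases hb : ρ b₀ with _ | (l | ⟨w', a, c⟩)
      · rw [hb] at h1
        simp [forget] at h1
      · rw [hb] at h1
        exact (Sum.inl_ne_inr (Option.some_injective _ h1)).elim
      · rw [hb] at h1
        have h3 := Sum.inr_injective (Option.some_injective _ h1)
        rw [Prod.mk.injEq, Prod.mk.injEq] at h3
        obtain ⟨rfl, h4, h5⟩ := h3
        exact ⟨a, c, rfl, h4, h5⟩
    obtain ⟨m, m', hm, hm1, hm2⟩ := h2
    rw [not_and_or] at hn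
    rcases hn with hn | hn
    · have h6 : ∃ p, w p ≠ wit pos (fun b => ron (n + 1) (r b)) b₀ p := by
        by_contra hc
        push Not at hc
        exact hn (funext hc)
      obtain ⟨p, hp⟩ := h6
      have hchk : ¬ chk pos (pos b₀ p) ρ := by
        intro hc
        have h3 := hc b₀ p rfl
        rw [hm] at h3
        have h4 : w p = wit pos (fun b' => ron (n + 1) (ρ b')) b₀ p := h3
        have h5 : wit pos (fun b' => ron (n + 1) (ρ b')) b₀ p =
            wit pos (fun b' => ron (n + 1) (r b')) b₀ p := by
          apply RecR.wit_congr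
          intro b' _
          exact hron b'
        rw [h5] at h4
        exact hp h4
      rw [RecR.tens_zero (pos b₀ p), smul_zero]
      unfold phi
      rw [if_neg hchk]
    · have hz : coef g x (n + 1) (ρ b₀) = 0 := by
        rw [hm]
        change (if (∃ p, w p = true) ∧ (ron n m = true ∨ ron n m' = true) then
          coef g x n m * coef g x n m' else 0) = 0
        rw [if_neg]
        rw [← hm1, ← hm2, RecR.ron_forget, RecR.ron_forget] at hn
        exact hn
      rw [Finset.prod_eq_zero (Finset.mem_univ b₀) hz, zero_smul]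
  · rfl

end RECR

end Pool.Agent.Helper2.PB
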