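import Pool.Agent.Helper2.PB.Defs2
import Pool.Agent.Helper2.PB.RecL
import Pool.Agent.Helper2.PB.RecR

/-!
# IDENT: the sum over event sets is the sum over labelled records
-/

set_option autoImplicit false

namespace Pool.Agent.Helper2.PB

open Matrix
open scoped Matrix.Norms.L2Operator ComplexOrder

section IDENT

variable {E V B : Type} [Fintype E] [DecidableEq E] [Fintype V] [DecidableEq V] [Fintype B]
  [DecidableEq B] {d : ℕ}

theorem Qr_eq_Vr (pos : E → B → V) (hpos : ∀ b, Function.Injective (pos b))
    (g : Matrix (B → Fin d) (B → Fin d) ℂ) (x : ℝ) (n : ℕ) (r : E → RecG Unit (B → Bool) n) :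
    Qr pos g x n r = Vr pos g x n r := by
  classical
  induction n with
  | zero => rw [Qr_zero, Vr_zero pos hpos]
  | succ n ih =>
    let nl : (E → RecG Unit (B → Bool) (n + 1)) → ℕ := fun r =>
      (Finset.univ.filter fun b => r b = (some (Sum.inl ()) :
        Option (Unit ⊕ ((B → Bool) × RecG Unit (B → Bool) n × RecG Unit (B → Bool) n)))).card
    have key : ∀ (k : ℕ) (r : E → RecG Unit (B → Bool) (n + 1)), nl r = k →
        Qr pos g x (n + 1) r = Vr pos g x (n + 1) r := by
      intro k
      induction k using Nat.strong_induction_on with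
      | _ k ihk =>
        intro r hr
        by_cases hlump : ∃ b₀, r b₀ = (some (Sum.inl ()) :
            Option (Unit ⊕ ((B → Bool) × RecG Unit (B → Bool) n × RecG Unit (B → Bool) n)))
        · obtain ⟨b₀, hb⟩ := hlump
          by_cases hw : ∀ p, wit pos (fun b => ron (n + 1) (r b)) b₀ p = false
          · rw [Qr_lump pos hpos g x n r b₀ hb hw, Vr_lump pos hpos g x n r b₀ hb hw]
            congr 1
            refine ihk _ ?_ (Function.update r b₀ (roff (n + 1))) rfl
            rw [← hr]
            apply Finset.card_lt_card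
            rw [Finset.ssubset_iff_of_subset]
            · refine ⟨b₀, by simp [hb], ?_⟩
              simp only [Finset.mem_filter, Finset.mem_univ, true_and, Function.update_self]
              intro h
              have h' : (none : Option (Unit ⊕ ((B → Bool) × RecG Unit (B → Bool) n ×
                RecG Unit (B → Bool) n))) = some (Sum.inl ()) := h
              simp at h'
            · intro b hbm
              simp only [Finset.mem_filter, Finset.mem_univ, true_and] at hbm ⊢
              by_cases hbb : b = b₀
              · rw [hbb]; exact hb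
              · rwa [Function.update_of_ne hbb] at hbm
          · have hw' : ∃ p, wit pos (fun b => ron (n + 1) (r b)) b₀ p = true := by
              push Not at hw
              obtain ⟨p, hp⟩ := hw
              exact ⟨p, by simpa using hp⟩
            rw [Qr_bad_lump pos g x n r b₀ hb hw', Vr_bad_lump pos g x n r b₀ hb hw']
        · push Not at hlump
          by_cases hok : ∀ b w l l', r b = (some (Sum.inr (w, l, l')) :
              Option (Unit ⊕ ((B → Bool) × RecG Unit (B → Bool) n × RecG Unit (B → Bool) n))) →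
              w = wit pos (fun b => ron (n + 1) (r b)) b ∧ (∃ p, w p = true) ∧
                (ron n l = true ∨ ron n l' = true)
          · rw [Qr_split pos g x n r hlump hok, Vr_split pos g x n r hlump hok, ih, ih]
          · push Not at hok
            obtain ⟨b, w, l, l', hb, hn⟩ := hok
            have hn' : ¬ (w = wit pos (fun b => ron (n + 1) (r b)) b ∧ (∃ p, w p = true) ∧
                (ron n l = true ∨ ron n l' = true)) := by
              rintro ⟨h1, h2, h3⟩
              have h4 := hn h1 h2
              rcases h3 with h | h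
              · exact h4.1 h
              · exact h4.2 h
            rw [Qr_bad_node pos g x n r b w l l' hb hn', Vr_bad_node pos g x n r b w l l' hb hn']
    exact key _ r rfl

/-- The records at the top levels. -/
noncomputable def recTop (pos : E → B → V) (q : ℕ) :
    (P : ℕ) → (E → Tr Bool (q + P)) → E → Tr (RecG Unit (B → Bool) q) P
  | 0, ξ, b => recOf pos q ξ b
  | P + 1, ξ, b => (recTop pos q P (fun b' => (ξ b').1) b, recTop pos q P (fun b' => (ξ b').2) b)

/-- Forget the labels in a tree of records. -/
def forgetT {Λ W : Type} (q : ℕ) : (P : ℕ) → Tr (RecG Λ W q) P → Tr (RecG Unit W q) P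
  | 0, r => forget q r
  | P + 1, r => (forgetT q P r.1, forgetT q P r.2)

theorem rcost_forget {Λ W : Type} (n : ℕ) (r : RecG Λ W n) : rcost n (forget n r) = rcost n r := by
  induction n with
  | zero => rfl
  | succ n ih =>
    match r with
    | none => rfl
    | some (Sum.inl _) => rfl
    | some (Sum.inr (w, l, l')) =>
      change 1 + rcost n (forget n l) + rcost n (forget n l') = 1 + rcost n l + rcost n l'
      rw [ih, ih]

theorem costT_forgetT {Λ W : Type} (q P : ℕ) (r : Tr (RecG Λ W q) P) :
    costT q P (forgetT q P r) = costT q P r := by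
  induction P with
  | zero => exact rcost_forget q r
  | succ P ih =>
    change costT q P (forgetT q P r.1) + costT q P (forgetT q P r.2) = _
    rw [ih, ih]
    rfl

theorem act_succ (n : ℕ) (t : Tr Bool (n + 1)) : act (n + 1) t = (act n t.1 || act n t.2) := rfl

/-- No activity, no cost. -/
theorem cost_eq_zero_of_not_act {E : Type} (adj : E → E → Prop) (q n : ℕ) (ξ : E → Tr Bool n) (b : E)
    (h : act n (ξ b) = false) : cost adj q n ξ b = 0 := by
  induction n with
  | zero => rfl
  | succ n ih =>
    have h1 : act n (ξ b).1 = false ∧ act n (ξ b).2 = false := by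
      rw [act_succ] at h
      simpa using h
    rw [cost, if_neg (by rw [h]; simp), ih _ h1.1, ih _ h1.2]

/-- No active neighbour, no cost. -/
theorem cost_eq_zero_of_no_neighbour {E : Type} (adj : E → E → Prop) (q n : ℕ) (ξ : E → Tr Bool n)
    (b : E) (h : ∀ b', adj b b' → act n (ξ b') = false) : cost adj q n ξ b = 0 := by
  induction n with
  | zero => rfl
  | succ n ih =>
    have h1 : ∀ b', adj b b' → act n (ξ b').1 = false ∧ act n (ξ b').2 = false := by
      intro b' hb'
      have := h b' hb'
      rw [act_succ] at this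
      simpa using this
    rw [cost, if_neg, ih _ fun b' hb' => (h1 b' hb').1, ih _ fun b' hb' => (h1 b' hb').2]
    rintro ⟨-, -, b', hb', hact⟩
    rw [h b' hb'] at hact
    exact Bool.false_ne_true hact

theorem wit_iff (pos : E → B → V) (A : E → Bool) (b : E) :
    (∃ p, wit pos A b p = true) ↔ ∃ b', adjP pos b b' ∧ A b' = true := by
  unfold wit adjP
  simp only [decide_eq_true_eq]
  constructor
  · rintro ⟨p, b', p', h1, h2, h3⟩
    exact ⟨b', ⟨h1.symm, p, p', h3.symm⟩, h2⟩
  · rintro ⟨b', ⟨h1, p, p', h2⟩, h3⟩
    exact ⟨p, b', p', h1.symm, h3, h2.symm⟩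

/-- The cost is the cost of the record. -/
theorem cost_recOf (pos : E → B → V) (q n : ℕ) (hn : n ≤ q) (ξ : E → Tr Bool n) (b : E) :
    cost (adjP pos) q n ξ b = rcost n (recOf pos n ξ b) := by
  classical
  induction n with
  | zero => rfl
  | succ n ih =>
    by_cases hact : act (n + 1) (ξ b) = true
    · by_cases hw : ∀ p, wit pos (fun b' => act (n + 1) (ξ b')) b p = false
      · have h1 : recOf pos (n + 1) ξ b = (some (Sum.inl ()) :
            Option (Unit ⊕ ((B → Bool) × RecG Unit (B → Bool) n × RecG Unit (B → Bool) n))) := by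
          rw [recOf, if_pos hact, if_pos hw]
        rw [h1]
        change _ = 0
        apply cost_eq_zero_of_no_neighbour
        intro b' hb'
        by_contra hcon
        have h2 : ∃ p, wit pos (fun b' => act (n + 1) (ξ b')) b p = true :=
          (wit_iff pos _ b).2 ⟨b', hb', by simpa using hcon⟩
        obtain ⟨p, hp⟩ := h2
        rw [hw p] at hp
        exact Bool.false_ne_true hp
      · have hw' : ∃ p, wit pos (fun b' => act (n + 1) (ξ b')) b p = true := by
          push Not at hw
          obtain ⟨p, hp⟩ := hw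
          exact ⟨p, by simpa using hp⟩
        have h1 : recOf pos (n + 1) ξ b =
            (some (Sum.inr (wit pos (fun b' => act (n + 1) (ξ b')) b,
              recOf pos n (fun b' => (ξ b').1) b, recOf pos n (fun b' => (ξ b').2) b)) :
            Option (Unit ⊕ ((B → Bool) × RecG Unit (B → Bool) n × RecG Unit (B → Bool) n))) := by
          rw [recOf, if_pos hact, if_neg hw]
        rw [h1]
        change _ = 1 + rcost n (recOf pos n (fun b' => (ξ b').1) b) +
          rcost n (recOf pos n (fun b' => (ξ b').2) b)
        rw [cost, if_pos ⟨hn, hact, (wit_iff pos _ b).1 hw'⟩, ih (by omega), ih (by omega)]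
    · have hact' : act (n + 1) (ξ b) = false := by simpa using hact
      have h1 : recOf pos (n + 1) ξ b = (none :
          Option (Unit ⊕ ((B → Bool) × RecG Unit (B → Bool) n × RecG Unit (B → Bool) n))) := by
        rw [recOf, if_neg hact]
      rw [h1]
      change _ = 0
      exact cost_eq_zero_of_not_act _ _ _ _ _ hact'

theorem cost_recTop (pos : E → B → V) (q P : ℕ) (ξ : E → Tr Bool (q + P)) (b : E) :
    cost (adjP pos) q (q + P) ξ b = costT q P (recTop pos q P ξ b) := by
  classical
  induction P with
  | zero => exact cost_recOf pos q q le_rfl ξ b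
  | succ P ih =>
    change cost (adjP pos) q ((q + P) + 1) ξ b = costT q P (recTop pos q P (fun b' => (ξ b').1) b) +
      costT q P (recTop pos q P (fun b' => (ξ b').2) b)
    rw [cost, if_neg (by omega), ih, ih, zero_add]

/-- Splitting a family of trees into its halves. -/
def splitE (E α : Type) (n : ℕ) : (E → Tr α (n + 1)) ≃ (E → Tr α n) × (E → Tr α n) where
  toFun ξ := (fun b => (ξ b).1, fun b => (ξ b).2)
  invFun p := fun b => (p.1 b, p.2 b)
  left_inv _ := rfl
  right_inv _ := rfl

theorem sum_split {α M : Type} [Fintype α] [AddCommMonoid M] (n : ℕ)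
    (F : (E → Tr α n) → (E → Tr α n) → M) :
    ∑ ξ : E → Tr α (n + 1), F (fun b => (ξ b).1) (fun b => (ξ b).2) =
      ∑ ξ₁ : E → Tr α n, ∑ ξ₂ : E → Tr α n, F ξ₁ ξ₂ := by
  rw [← Fintype.sum_prod_type' F]
  exact Fintype.sum_equiv (splitE E α n) _ _ fun ξ => rfl

open Classical in
/-- The sum of all event sets with given records at level `q`. -/
noncomputable def QrT (pos : E → B → V) (g : Matrix (B → Fin d) (B → Fin d) ℂ) (x : ℝ) (q P : ℕ)
    (r : E → Tr (RecG Unit (B → Bool) q) P) : Matrix (V → Fin d) (V → Fin d) ℂ :=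
  ∑ ξ : E → Tr Bool (q + P),
    if recTop pos q P ξ = r then
      Wm (leafM (fun b => emb (pos b) g) x Finset.univ) (q + P) ξ else 0

open Classical in
/-- The sum over labels. -/
noncomputable def VrT (pos : E → B → V) (g : Matrix (B → Fin d) (B → Fin d) ℂ) (x : ℝ) (q P : ℕ)
    (r : E → Tr (RecG Unit (B → Bool) q) P) : Matrix (V → Fin d) (V → Fin d) ℂ :=
  ∑ ρ : E → Tr (RecG (Lab B d) (B → Bool) q) P,
    if (fun b => forgetT q P (ρ b)) = r then
      (∏ b, coefT g x q P (ρ b)) • tens (fun v => phiT pos v q P ρ) else 0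

theorem ite_mul_ite_zero' {M : Type} [MulZeroClass M] (p p' : Prop) [Decidable p] [Decidable p']
    [Decidable (p ∧ p')] (a b : M) :
    (if p ∧ p' then a * b else 0) = (if p then a else 0) * (if p' then b else 0) := by
  by_cases h : p <;> by_cases h' : p' <;> simp [h, h']

theorem QrT_succ (pos : E → B → V) (g : Matrix (B → Fin d) (B → Fin d) ℂ) (x : ℝ) (q P : ℕ)
    (r : E → Tr (RecG Unit (B → Bool) q) (P + 1)) :
    QrT pos g x q (P + 1) r =
      QrT pos g x q P (fun b => (r b).1) * QrT pos g x q P (fun b => (r b).2) := by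
  classical
  unfold QrT
  rw [Finset.sum_mul_sum]
  rw [← sum_split (E := E) (α := Bool) (q + P) (fun ξ₁ ξ₂ =>
    (if recTop pos q P ξ₁ = (fun b => (r b).1) then
      Wm (leafM (fun b => emb (pos b) g) x Finset.univ) (q + P) ξ₁ else 0) *
    (if recTop pos q P ξ₂ = (fun b => (r b).2) then
      Wm (leafM (fun b => emb (pos b) g) x Finset.univ) (q + P) ξ₂ else 0))]
  refine Finset.sum_congr rfl fun ξ _ => ?_
  rw [← ite_mul_ite_zero']
  refine if_congr ?_ rfl rfl
  constructor
  · intro h
    exact ⟨funext fun b => congrArg Prod.fst (congrFun h b),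
      funext fun b => congrArg Prod.snd (congrFun h b)⟩
  · rintro ⟨h1, h2⟩
    funext b
    exact Prod.ext (congrFun h1 b) (congrFun h2 b)

theorem VrT_succ (pos : E → B → V) (g : Matrix (B → Fin d) (B → Fin d) ℂ) (x : ℝ) (q P : ℕ)
    (r : E → Tr (RecG Unit (B → Bool) q) (P + 1)) :
    VrT pos g x q (P + 1) r =
      VrT pos g x q P (fun b => (r b).1) * VrT pos g x q P (fun b => (r b).2) := by
  classical
  unfold VrT
  rw [Finset.sum_mul_sum]
  rw [← sum_split (E := E) (α := RecG (Lab B d) (B → Bool) q) P (fun ρ₁ ρ₂ =>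
    (if (fun b => forgetT q P (ρ₁ b)) = (fun b => (r b).1) then
      (∏ b, coefT g x q P (ρ₁ b)) • tens (fun v => phiT pos v q P ρ₁) else 0) *
    (if (fun b => forgetT q P (ρ₂ b)) = (fun b => (r b).2) then
      (∏ b, coefT g x q P (ρ₂ b)) • tens (fun v => phiT pos v q P ρ₂) else 0))]
  refine Finset.sum_congr rfl fun ρ _ => ?_
  rw [← ite_mul_ite_zero']
  refine if_congr ?_ ?_ rfl
  · constructor
    · intro h
      exact ⟨funext fun b => congrArg Prod.fst (congrFun h b),
        funext fun b => congrArg Prod.snd (congrFun h b)⟩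
    · rintro ⟨h1, h2⟩
      funext b
      exact Prod.ext (congrFun h1 b) (congrFun h2 b)
  · rw [Matrix.smul_mul, Matrix.mul_smul, smul_smul, tens_mul, ← Finset.prod_mul_distrib]
    rfl

theorem QrT_eq_VrT (pos : E → B → V) (hpos : ∀ b, Function.Injective (pos b))
    (g : Matrix (B → Fin d) (B → Fin d) ℂ) (x : ℝ) (q P : ℕ)
    (r : E → Tr (RecG Unit (B → Bool) q) P) : QrT pos g x q P r = VrT pos g x q P r := by
  induction P with
  | zero => exact Qr_eq_Vr pos hpos g x q r
  | succ P ih => rw [QrT_succ, VrT_succ, ih, ih]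

theorem sum_ite_eq_fiber {α β M : Type} [Fintype α] [Fintype β] [AddCommMonoid M]
    (f : α → β) (c : β → Prop) (F : α → M) [DecidableEq β] [DecidablePred c] :
    (∑ a, if c (f a) then F a else 0) =
      ∑ r : β, if c r then (∑ a, if f a = r then F a else 0) else 0 := by
  have h : ∀ a, (if c (f a) then F a else 0) =
      ∑ r : β, if c r then (if f a = r then F a else 0) else 0 := by
    intro a
    rw [Finset.sum_eq_single (f a)]
    · rw [if_pos (rfl : f a = f a)]
    · intro r _ hr
      rw [if_neg (fun h => hr h.symm : ¬ f a = r), ite_self]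
    · intro h
      exact absurd (Finset.mem_univ _) h
  rw [Finset.sum_congr rfl fun a _ => h a, Finset.sum_comm]
  refine Finset.sum_congr rfl fun r _ => ?_
  by_cases hc : c r
  · simp [hc]
  · simp [hc]

open Classical in
theorem Tm_eq (pos : E → B → V) (hpos : ∀ b, Function.Injective (pos b))
    (g : Matrix (B → Fin d) (B → Fin d) ℂ) (x : ℝ) (q P m : ℕ) :
    Tm (fun b => emb (pos b) g) x (adjP pos) q (q + P) m =
      ∑ ρ : E → Tr (RecG (Lab B d) (B → Bool) q) P,
        if ∀ b, costT q P (ρ b) ≤ m then
          (∏ b, coefT g x q P (ρ b)) • tens (fun v => phiT pos v q P ρ) else 0 := by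
  have h1 : Tm (fun b => emb (pos b) g) x (adjP pos) q (q + P) m =
      ∑ r : E → Tr (RecG Unit (B → Bool) q) P,
        if ∀ b, costT q P (r b) ≤ m then QrT pos g x q P r else 0 := by
    unfold Tm QrT
    rw [← sum_ite_eq_fiber (fun ξ => recTop pos q P ξ)
      (fun r : E → Tr (RecG Unit (B → Bool) q) P => ∀ b, costT q P (r b) ≤ m)
      (fun ξ => Wm (leafM (fun b => emb (pos b) g) x Finset.univ) (q + P) ξ)]
    refine Finset.sum_congr rfl fun ξ _ => ?_
    refine if_congr ?_ rfl rfl
    simp only [cost_recTop]
  have h2 : (∑ ρ : E → Tr (RecG (Lab B d) (B → Bool) q) P,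
        if ∀ b, costT q P (ρ b) ≤ m then
          (∏ b, coefT g x q P (ρ b)) • tens (fun v => phiT pos v q P ρ) else 0) =
      ∑ r : E → Tr (RecG Unit (B → Bool) q) P,
        if ∀ b, costT q P (r b) ≤ m then VrT pos g x q P r else 0 := by
    unfold VrT
    rw [← sum_ite_eq_fiber (fun ρ : E → Tr (RecG (Lab B d) (B → Bool) q) P =>
        (fun b => forgetT q P (ρ b)))
      (fun r : E → Tr (RecG Unit (B → Bool) q) P => ∀ b, costT q P (r b) ≤ m)
      (fun ρ => (∏ b, coefT g x q P (ρ b)) • tens (fun v => phiT pos v q P ρ))]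
    refine Finset.sum_congr rfl fun ρ _ => ?_
    refine if_congr ?_ rfl rfl
    simp only [costT_forgetT]
  rw [h1, h2]
  refine Finset.sum_congr rfl fun r _ => ?_
  rw [QrT_eq_VrT pos hpos]

end IDENT

end Pool.Agent.Helper2.PB
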