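import Pool.Agent.Helper2.PB.Defs2

/-!
# The truncated sum over records is a projected entangled pair state
-/

set_option autoImplicit false

namespace Pool.Agent.Helper2.PB

open Matrix
open scoped Matrix.Norms.L2Operator ComplexOrder

namespace RepAux

section phi

variable {E V B : Type} {d : ℕ}

theorem unitAt_of_not (pos : E → B → V) (v : V) (b : E) (l : Lab B d) (h : ¬ ∃ p, pos b p = v) :
    unitAt pos v b l = 1 := by
  unfold unitAt
  rw [dif_neg h]

theorem evU_of_not (pos : E → B → V) (v : V) (b : E) (r : RecG (Lab B d) (B → Bool) 0)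
    (h : ¬ ∃ p, pos b p = v) : evU pos v b r = 1 := by
  cases r with
  | none => rfl
  | some l => exact unitAt_of_not pos v b l h

theorem lumpU_of_not {n : ℕ} (pos : E → B → V) (v : V) (b : E)
    (r : RecG (Lab B d) (B → Bool) (n + 1))
    (h : ¬ ∃ p, pos b p = v) : lumpU pos v b r = 1 := by
  cases r with
  | none => rfl
  | some l =>
    cases l with
    | inl l => exact unitAt_of_not pos v b l h
    | inr l => rfl

theorem wit_congr (pos : E → B → V) (v : V) (A A' : E → Bool)
    (h : ∀ b, (∃ p, pos b p = v) → A b = A' b) (b : E) (p : B) (hp : pos b p = v) :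
    wit pos A b p = wit pos A' b p := by
  unfold wit
  congr 1
  apply propext
  constructor
  · rintro ⟨b', p', h1, h2, h3⟩
    exact ⟨b', p', h1, by rw [← h b' ⟨p', h3.trans hp⟩]; exact h2, h3⟩
  · rintro ⟨b', p', h1, h2, h3⟩
    exact ⟨b', p', h1, by rw [h b' ⟨p', h3.trans hp⟩]; exact h2, h3⟩

theorem chk_congr {n : ℕ} (pos : E → B → V) (v : V)
    (ρ ρ' : E → RecG (Lab B d) (B → Bool) (n + 1))
    (h : ∀ b, (∃ p, pos b p = v) → ρ b = ρ' b) (hc : chk pos v ρ) : chk pos v ρ' := by
  intro b p hp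
  have h1 := hc b p hp
  rw [h b ⟨p, hp⟩] at h1
  have hw : wit pos (fun b' => ron (n + 1) (ρ b')) b p =
      wit pos (fun b' => ron (n + 1) (ρ' b')) b p :=
    wit_congr pos v _ _ (fun b' hb' => by rw [h b' hb']) b p hp
  revert h1
  cases ρ' b with
  | none => exact fun _ => trivial
  | some l =>
    cases l with
    | inl l => intro h1; rw [← hw]; exact h1
    | inr l => intro h1; rw [← hw]; exact h1

theorem phi_loc [Fintype E] (pos : E → B → V) (v : V) (n : ℕ)
    (ρ ρ' : E → RecG (Lab B d) (B → Bool) n)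
    (h : ∀ b, (∃ p, pos b p = v) → ρ b = ρ' b) : phi pos v n ρ = phi pos v n ρ' := by
  induction n with
  | zero =>
    unfold phi
    congr 1
    apply List.map_congr_left
    intro b _
    by_cases hb : ∃ p, pos b p = v
    · rw [h b hb]
    · rw [evU_of_not pos v b _ hb, evU_of_not pos v b _ hb]
  | succ n ih =>
    unfold phi
    have hiff : chk pos v ρ ↔ chk pos v ρ' :=
      ⟨chk_congr pos v ρ ρ' h, chk_congr pos v ρ' ρ (fun b hb => (h b hb).symm)⟩
    have e1 : (fun b => lumpU pos v b (ρ b)) = (fun b => lumpU pos v b (ρ' b)) := by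
      funext b
      by_cases hb : ∃ p, pos b p = v
      · rw [h b hb]
      · rw [lumpU_of_not pos v b _ hb, lumpU_of_not pos v b _ hb]
    have e2 : phi pos v n (fun b => half1 (ρ b)) = phi pos v n (fun b => half1 (ρ' b)) :=
      ih _ _ (fun b hb => by rw [h b hb])
    have e3 : phi pos v n (fun b => half2 (ρ b)) = phi pos v n (fun b => half2 (ρ' b)) :=
      ih _ _ (fun b hb => by rw [h b hb])
    rw [e1, e2, e3]
    by_cases hc : chk pos v ρ
    · rw [if_pos hc, if_pos (hiff.1 hc)]
    · rw [if_neg hc, if_neg (fun h' => hc (hiff.2 h'))]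

theorem phiT_loc [Fintype E] (pos : E → B → V) (v : V) (q P : ℕ)
    (ρ ρ' : E → Tr (RecG (Lab B d) (B → Bool) q) P)
    (h : ∀ b, (∃ p, pos b p = v) → ρ b = ρ' b) : phiT pos v q P ρ = phiT pos v q P ρ' := by
  induction P with
  | zero => exact phi_loc pos v q ρ ρ' h
  | succ P ih =>
    unfold phiT
    rw [ih (fun b => (ρ b).1) (fun b => (ρ' b).1) (fun b hb => by rw [h b hb]),
      ih (fun b => (ρ b).2) (fun b => (ρ' b).2) (fun b hb => by rw [h b hb])]

end phi

section windows

variable {s L : ℕ} {R : Type}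

/-- The window at `v` of a family. -/
def win (r : Torus L → R) (v : Torus L) : Box s → R :=
  fun p => r (v.1 - ((p.1 : ℕ) : ZMod L), v.2 - ((p.2 : ℕ) : ZMod L))

/-- The consistency of four windows. -/
def Cons (w w1 u u1 : Box s → R) : Prop :=
  w = u ∧ (∀ (i j : ℕ) (hi : i + 1 < s) (hj : j < s),
      w (⟨i + 1, hi⟩, ⟨j, hj⟩) = w1 (⟨i, by omega⟩, ⟨j, hj⟩)) ∧
    (∀ (i j : ℕ) (hi : i < s) (hj : j + 1 < s),
      w (⟨i, hi⟩, ⟨j + 1, hj⟩) = u1 (⟨i, hi⟩, ⟨j, by omega⟩))

theorem cons_win (r : Torus L → R) (v : Torus L) :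
    Cons (s := s) (win r v) (win r (v.1 - 1, v.2)) (win r v) (win r (v.1, v.2 - 1)) := by
  refine ⟨rfl, ?_, ?_⟩
  · intro i j hi hj
    unfold win
    congr 1
    ext
    · simp only
      push_cast
      ring
    · rfl
  · intro i j hi hj
    unfold win
    congr 1
    ext
    · rfl
    · simp only
      push_cast
      ring

theorem eq_win (hs : 1 ≤ s) (a b : Torus L → Box s → R)
    (h : ∀ v : Torus L, Cons (a v) (a (v.1 - 1, v.2)) (b v) (b (v.1, v.2 - 1))) :
    a = win (fun v => a v (⟨0, hs⟩, ⟨0, hs⟩)) ∧ b = win (fun v => a v (⟨0, hs⟩, ⟨0, hs⟩)) := by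
  have hab : ∀ v, a v = b v := fun v => (h v).1
  have h1 : ∀ (i : ℕ) (hi : i < s) (j : ℕ) (hj : j < s) (v : Torus L),
      a v (⟨i, hi⟩, ⟨j, hj⟩) = a (v.1 - (i : ZMod L), v.2) (⟨0, hs⟩, ⟨j, hj⟩) := by
    intro i
    induction i with
    | zero => intro hi j hj v; simp
    | succ i ih =>
      intro hi j hj v
      rw [(h v).2.1 i j hi hj, ih (by omega) j hj]
      congr 1
      ext
      · simp only
        push_cast
        ring
      · rfl
  have h2 : ∀ (j : ℕ) (hj : j < s) (i : ℕ) (hi : i < s) (v : Torus L),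
      a v (⟨i, hi⟩, ⟨j, hj⟩) = a (v.1, v.2 - (j : ZMod L)) (⟨i, hi⟩, ⟨0, hs⟩) := by
    intro j
    induction j with
    | zero => intro hj i hi v; simp
    | succ j ih =>
      intro hj i hi v
      rw [(h v).2.2 i j hi hj, ← hab, ih (by omega) i hi]
      congr 1
      ext
      · rfl
      · simp only
        push_cast
        ring
  have h3 : a = win (fun v => a v (⟨0, hs⟩, ⟨0, hs⟩)) := by
    funext v p
    obtain ⟨⟨i, hi⟩, ⟨j, hj⟩⟩ := p
    unfold win
    rw [h1 i hi j hj v, h2 j hj 0 hs]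
  refine ⟨h3, ?_⟩
  have h4 : b = a := by
    funext v
    exact (hab v).symm
  rw [h4]
  exact h3

open Classical in
/-- The extension of a window at `v` to a family. -/
noncomputable def ext (x₀ : R) (v : Torus L) (w : Box s → R) (b : Torus L) : R :=
  if h : ∃ p : Box s, site b p = v then w h.choose else x₀

theorem ext_win (x₀ : R) (r : Torus L → R) (v b : Torus L) (h : ∃ p : Box s, site b p = v) :
    ext x₀ v (win (s := s) r v) b = r b := by
  unfold ext
  rw [dif_pos h]
  have h1 := h.choose_spec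
  generalize h.choose = p at h1
  subst h1
  unfold win site
  simp

end windows

open Classical in
theorem peps_gen {d s L : ℕ} [NeZero L] (hs1 : 1 ≤ s) (q P m : ℕ)
    (g : Matrix (Box s → Fin d) (Box s → Fin d) ℂ) (x : ℝ) (c : ℂ) (τ : Torus L → Fin d)
    (R : Type) [Fintype R] (val : R → Tr (RecG (Lab (Box s) d) (Box s → Bool) q) P)
    (hinj : Function.Injective val) (hle : ∀ r, costT q P (val r) ≤ m)
    (hsurj : ∀ y, costT q P y ≤ m → ∃ r, val r = y) :
    ∃ A : Torus L → Fin d → Fin (Fintype.card R ^ (s ^ 2)) → Fin (Fintype.card R ^ (s ^ 2)) →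
        Fin (Fintype.card R ^ (s ^ 2)) → Fin (Fintype.card R ^ (s ^ 2)) → ℂ,
      ∀ σ, pepsState A σ = c * (∑ ρ : Torus L → Tr (RecG (Lab (Box s) d) (Box s → Bool) q) P,
        if ∀ b, costT q P (ρ b) ≤ m then
          (∏ b, coefT g x q P (ρ b)) • tens (fun v => phiT (site (L := L)) v q P ρ)
        else 0 : Matrix (Torus L → Fin d) (Torus L → Fin d) ℂ) σ τ := by
  have hcard : Fintype.card (Box s → R) = Fintype.card R ^ (s ^ 2) := by
    rw [Fintype.card_fun]
    congr 1
    simp [Box, sq]
  let e : Fin (Fintype.card R ^ (s ^ 2)) ≃ (Box s → R) := (Fintype.equivFinOfCardEq hcard).symm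
  let A' : Torus L → Fin d → (Box s → R) → (Box s → R) → (Box s → R) → (Box s → R) → ℂ :=
    fun v t w w1 u u1 =>
      if Cons w w1 u u1 then (if v = 0 then c else 1) *
        (coefT g x q P (val (w (⟨0, hs1⟩, ⟨0, hs1⟩))) *
          phiT (site (L := L)) v q P (fun b => val (ext (w (⟨0, hs1⟩, ⟨0, hs1⟩)) v w b)) t (τ v))
      else 0
  refine ⟨fun v t i1 i2 i3 i4 => A' v t (e i1) (e i2) (e i3) (e i4), ?_⟩
  intro σ
  -- the left-hand side over windows
  have step1 : pepsState (fun v t i1 i2 i3 i4 => A' v t (e i1) (e i2) (e i3) (e i4)) σ =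
      ∑ ab : (Torus L → Box s → R) × (Torus L → Box s → R), ∏ v : Torus L,
        A' v (σ v) (ab.1 v) (ab.1 (v.1 - 1, v.2)) (ab.2 v) (ab.2 (v.1, v.2 - 1)) := by
    unfold pepsState
    rw [Fintype.sum_prod_type]
    refine Fintype.sum_equiv (Equiv.piCongrRight fun _ => e) _ _ ?_
    intro a
    refine Fintype.sum_equiv (Equiv.piCongrRight fun _ => e) _ _ ?_
    intro b
    rfl
  rw [step1]
  have step2 : ∑ ab : (Torus L → Box s → R) × (Torus L → Box s → R), ∏ v : Torus L,
        A' v (σ v) (ab.1 v) (ab.1 (v.1 - 1, v.2)) (ab.2 v) (ab.2 (v.1, v.2 - 1)) =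
      ∑ r : Torus L → R, ∏ v : Torus L, ((if v = 0 then c else 1) *
        (coefT g x q P (val (r v)) *
          phiT (site (L := L)) v q P (fun b => val (r b)) (σ v) (τ v))) := by
    symm
    refine Fintype.sum_of_injective (fun r : Torus L → R => (win (s := s) r, win (s := s) r))
      ?_ _ _ ?_ ?_
    · intro r r' h
      have h1 : win (s := s) r = win (s := s) r' := (Prod.mk.inj h).1
      funext v
      have h2 := congrFun (congrFun h1 v) (⟨0, hs1⟩, ⟨0, hs1⟩)
      unfold win at h2
      simpa using h2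
    · rintro ⟨a, b⟩ hab
      by_contra hne
      apply hab
      have hall : ∀ v : Torus L, Cons (a v) (a (v.1 - 1, v.2)) (b v) (b (v.1, v.2 - 1)) := by
        intro v
        by_contra hv
        apply hne
        apply Finset.prod_eq_zero (Finset.mem_univ v)
        exact if_neg hv
      obtain ⟨h1, h2⟩ := eq_win hs1 a b hall
      refine ⟨fun v => a v (⟨0, hs1⟩, ⟨0, hs1⟩), ?_⟩
      exact Prod.ext h1.symm h2.symm
    · intro r
      apply Finset.prod_congr rfl
      intro v _
      have h1 : A' v (σ v) (win (s := s) r v) (win (s := s) r (v.1 - 1, v.2))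
          (win (s := s) r v) (win (s := s) r (v.1, v.2 - 1)) = (if v = 0 then c else 1) *
        (coefT g x q P (val ((win (s := s) r v) (⟨0, hs1⟩, ⟨0, hs1⟩))) *
          phiT (site (L := L)) v q P
            (fun b => val (ext ((win (s := s) r v) (⟨0, hs1⟩, ⟨0, hs1⟩)) v (win (s := s) r v) b))
            (σ v) (τ v)) := if_pos (cons_win r v)
      have h0 : (win (s := s) r v) (⟨0, hs1⟩, ⟨0, hs1⟩) = r v := by
        unfold win
        simp
      have h3 : phiT (site (L := L)) v q P
            (fun b => val (ext ((win (s := s) r v) (⟨0, hs1⟩, ⟨0, hs1⟩)) v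
              (win (s := s) r v) b)) =
          phiT (site (L := L) (s := s)) v q P (fun b => val (r b)) := by
        apply phiT_loc
        intro b hb
        rw [ext_win _ r v b hb]
      simp only
      rw [h1, h3, h0]
  rw [step2]
  have step3 : ∀ r : Torus L → R, ∏ v : Torus L, ((if v = 0 then c else 1) *
        (coefT g x q P (val (r v)) *
          phiT (site (L := L)) v q P (fun b => val (r b)) (σ v) (τ v))) =
      c * ((∏ v : Torus L, coefT g x q P (val (r v))) *
        ∏ v : Torus L, phiT (site (L := L)) v q P (fun b => val (r b)) (σ v) (τ v)) := by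
    intro r
    rw [Finset.prod_mul_distrib, Finset.prod_mul_distrib]
    congr 1
    rw [Finset.prod_ite_eq' Finset.univ (0 : Torus L) (fun _ => c)]
    simp
  simp only [step3]
  rw [← Finset.mul_sum]
  congr 1
  rw [Matrix.sum_apply]
  refine Fintype.sum_of_injective (fun (r : Torus L → R) (b : Torus L) => val (r b)) ?_ _ _ ?_ ?_
  · intro r r' h
    funext v
    exact hinj (congrFun h v)
  · intro ρ hρ
    have hn : ¬ ∀ b, costT q P (ρ b) ≤ m := by
      intro hall
      choose r hr using fun b => hsurj (ρ b) (hall b)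
      exact hρ ⟨r, funext hr⟩
    rw [if_neg hn]
    rfl
  · intro r
    have hp : ∀ b, costT q P ((fun b => val (r b)) b) ≤ m := fun b => hle (r b)
    rw [if_pos hp]
    rfl

end RepAux

open RepAux

open Classical in
theorem peps_of_rec {d s L : ℕ} [NeZero L] (hs1 : 1 ≤ s) (hsL : s ≤ L) (q P m : ℕ)
    (g : Matrix (Box s → Fin d) (Box s → Fin d) ℂ) (x : ℝ) (c : ℂ) (τ : Torus L → Fin d) :
    ∃ A : Torus L → Fin d →
        Fin (Fintype.card {r : Tr (RecG (Lab (Box s) d) (Box s → Bool) q) P //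
          costT q P r ≤ m} ^ (s ^ 2)) →
        Fin (Fintype.card {r : Tr (RecG (Lab (Box s) d) (Box s → Bool) q) P //
          costT q P r ≤ m} ^ (s ^ 2)) →
        Fin (Fintype.card {r : Tr (RecG (Lab (Box s) d) (Box s → Bool) q) P //
          costT q P r ≤ m} ^ (s ^ 2)) →
        Fin (Fintype.card {r : Tr (RecG (Lab (Box s) d) (Box s → Bool) q) P //
          costT q P r ≤ m} ^ (s ^ 2)) → ℂ,
      ∀ σ, pepsState A σ = c * (∑ ρ : Torus L → Tr (RecG (Lab (Box s) d) (Box s → Bool) q) P,
        if ∀ b, costT q P (ρ b) ≤ m then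
          (∏ b, coefT g x q P (ρ b)) • tens (fun v => phiT (site (L := L)) v q P ρ)
        else 0 : Matrix (Torus L → Fin d) (Torus L → Fin d) ℂ) σ τ := by
  exact peps_gen hs1 q P m g x c τ
    {r : Tr (RecG (Lab (Box s) d) (Box s → Bool) q) P // costT q P r ≤ m} Subtype.val
    Subtype.val_injective (fun r => r.2) (fun y hy => ⟨⟨y, hy⟩, rfl⟩)

end Pool.Agent.Helper2.PB
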