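import Pool.Agent.Helper2.PB.Ham
import Pool.Agent.Helper2.PB.Err
import Pool.Agent.Helper2.PB.Leaf
import Pool.Agent.Helper2.PB.Ident
import Pool.Agent.Helper2.PB.Rep

/-! Final assembly -/

set_option autoImplicit false

namespace Pool.Agent.Helper2.PB

open Matrix
open scoped Matrix.Norms.L2Operator ComplexOrder

/-- The number of records of total cost at most `m`. -/
noncomputable def nrec (s d q P m : ℕ) : ℕ :=
  Fintype.card {r : Tr (RecG (Lab (Box s) d) (Box s → Bool) q) P // costT q P r ≤ m}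

theorem exists_P (a : ℝ) (ha : 0 ≤ a) : ∃ P : ℕ, a ≤ 2 ^ P ∧ (2 : ℝ) ^ P ≤ 2 * a + 1 := by
  classical
  obtain ⟨n, hn⟩ : ∃ n : ℕ, a ≤ 2 ^ n := by
    obtain ⟨n, hn⟩ := pow_unbounded_of_one_lt a (one_lt_two)
    exact ⟨n, hn.le⟩
  have hex : ∃ n : ℕ, a ≤ 2 ^ n := ⟨n, hn⟩
  refine ⟨Nat.find hex, Nat.find_spec hex, ?_⟩
  rcases Nat.eq_zero_or_pos (Nat.find hex) with h0 | h0
  · rw [h0]; simp; exact ha
  · obtain ⟨k, hk⟩ := Nat.exists_eq_succ_of_ne_zero h0.ne'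
    have h1 : ¬ a ≤ 2 ^ k := Nat.find_min hex (by omega)
    rw [hk, pow_succ]
    push Not at h1
    linarith

theorem exists_q (K : ℝ) : ∃ q : ℕ, K ≤ (2 : ℝ) ^ q := by
  obtain ⟨n, hn⟩ := pow_unbounded_of_one_lt K (one_lt_two)
  exact ⟨n, hn.le⟩

theorem hs_sub_triangle {ι : Type} [Fintype ι] [DecidableEq ι] (A B C D : Matrix ι ι ℂ) :
    hs (A - D) ≤ hs (A - B) + hs (B - C) + hs (C - D) := by
  have h : A - D = (A - B) + (B - C) + (C - D) := by abel
  rw [h]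
  exact (hs_add_le _ _).trans (add_le_add (hs_add_le _ _) le_rfl)

theorem pow_le_exp_aux (N : ℕ) (δ : ℝ) (hδ : 0 ≤ δ) (h : N * δ ≤ 1) :
    (1 + δ) ^ N - 1 ≤ 2 * (N * δ) := by
  have h1 : (1 + δ) ^ N ≤ Real.exp (N * δ) := by
    rw [Real.exp_nat_mul]
    exact pow_le_pow_left₀ (by linarith) (by linarith [Real.add_one_le_exp δ]) N
  have h0 : 0 ≤ N * δ := by positivity
  have h2 : Real.exp (N * δ) ≤ 1 + 2 * (N * δ) := by
    have := Real.abs_exp_sub_one_sub_id_le (x := N * δ) (by rw [abs_of_nonneg h0]; exact h)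
    have h3 := (abs_le.1 this).2
    nlinarith
  linarith

/-- The core estimate on one torus. -/
theorem core {d s L : ℕ} [NeZero L] (hs1 : 1 ≤ s) (hsL : s ≤ L)
    (h : Matrix (Box s → Fin d) (Box s → Fin d) ℂ) (hh : h.IsHermitian) (E₀ : ℝ)
    (ψ : (Torus L → Fin d) → ℂ) (hψ : nsq ψ = 1) (hHψ : (ham L h).mulVec ψ = (E₀ : ℂ) • ψ)
    (h0 : ∀ i, E₀ ≤ (ham_isHermitian L h hh).eigenvalues i) (β ε R : ℝ) (hβ : 0 ≤ β) (hε : 0 < ε)
    (hε1 : ε ≤ 1) (hR : 1 ≤ R) (hR2 : R ^ (2 * s ^ 4) ≤ 4 / 3) (P m : ℕ)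
    (hP : 8 * β * (2 * ‖h‖ + 1) * (s ^ 4 : ℕ) / 2 ^ P ≤ Real.log 2)
    (hm : (L : ℝ) ^ 2 * (Real.exp (6 * β * (2 * ‖h‖ + 1) * ((s ^ 4 : ℕ) + 1)) / R ^ m) ≤ ε / 16)
    (hZ : partZ (ham_isHermitian L h hh) E₀ β ≤ 2) :
    ∃ q : ℕ, ∃ A : Torus L → Fin d → Fin (nrec s d q P m ^ (s ^ 2)) →
      Fin (nrec s d q P m ^ (s ^ 2)) → Fin (nrec s d q P m ^ (s ^ 2)) →
      Fin (nrec s d q P m ^ (s ^ 2)) → ℂ,
      Real.sqrt (nsq (fun σ => pepsState A σ - ψ σ)) ≤
        ε + Real.sqrt (partZ (ham_isHermitian L h hh) E₀ β - 1) := by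
  classical
  set hH := ham_isHermitian L h hh with hHdef
  set J : ℝ := 2 * ‖h‖ + 1 with hJdef
  have hJ : 0 ≤ J := by positivity
  set N : ℝ := (Fintype.card (Torus L) : ℝ) with hNdef
  have hN0 : 0 ≤ N := Nat.cast_nonneg _
  have hNL : N = (L : ℝ) ^ 2 := by rw [hNdef, card_torus]; push_cast; ring
  set K0 : ℝ := 4 * (β * J * N) + 4 * (β * J * N) ^ 2 / Real.log 2 +
    2 * (Real.sqrt (Fintype.card (Torus L → Fin d)) * Real.exp (β * J * N) * (β * J * N) ^ 2) / ε with hK0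
  have hlog2 : 0 < Real.log 2 := Real.log_pos one_lt_two
  obtain ⟨q, hq⟩ := exists_q K0
  set n : ℕ := 2 ^ (q + P) with hn
  have hn' : (n : ℝ) = 2 ^ (q + P) := by rw [hn]; push_cast; rfl
  have hnK : K0 ≤ (n : ℝ) := by
    rw [hn', pow_add]
    have : (1 : ℝ) ≤ 2 ^ P := one_le_pow₀ one_le_two
    nlinarith [pow_pos (zero_lt_two (α := ℝ)) q]
  have hnpos : (0 : ℝ) < n := by rw [hn']; positivity
  set x : ℝ := β / 2 ^ (q + P) with hx
  have hx0 : 0 ≤ x := by positivity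
  have hnx : (n : ℝ) * x = β := by rw [hn', hx]; field_simp
  have hw0 : 0 ≤ β * J * N := by positivity
  have hu_eq : x * J * N = β * J * N / n := by rw [hx, hn']; ring
  have ht1 : 0 ≤ 4 * (β * J * N) ^ 2 / Real.log 2 := by positivity
  have ht2 : 0 ≤ 2 * (Real.sqrt (Fintype.card (Torus L → Fin d)) * Real.exp (β * J * N) * (β * J * N) ^ 2) / ε := by
    positivity
  have hu : x * J * N ≤ 1 / 4 := by
    rw [hu_eq, div_le_iff₀ hnpos]; linarith
  have hu2 : 4 * 2 ^ (q + P) * (x * J * N) ^ 2 ≤ Real.log 2 := by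
    rw [← hn', hu_eq, div_pow]
    have : 4 * (n : ℝ) * ((β * J * N) ^ 2 / (n : ℝ) ^ 2) = 4 * (β * J * N) ^ 2 / n := by
      field_simp
    rw [this, div_le_iff₀ hnpos]
    have h3 : 4 * (β * J * N) ^ 2 / Real.log 2 ≤ n := by linarith
    rw [div_le_iff₀ hlog2] at h3
    linarith
  -- the terms
  set g := shifted L h E₀ with hg
  have hgH : g.IsHermitian := shifted_herm L h hh E₀
  have hsum : ∑ v : Torus L, emb (site v) g = ham L h - (E₀ : ℂ) • 1 := sum_shifted L hsL h E₀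
  have hnorm : ∀ b : Torus L, ‖emb (site b) g‖ ≤ J := fun b =>
    (norm_emb_le _ (site_injective hsL b) g).trans (norm_shifted_le L hsL h E₀ ψ hψ hHψ)
  have hherm : ∀ b : Torus L, (emb (site b) g).IsHermitian := fun b => emb_isHermitian _ g hgH
  have hpsd : (∑ v : Torus L, emb (site v) g).PosSemidef := by
    rw [hsum]; exact spec_psd hH E₀ h0
  have h1 : ∀ i, x * (hH.eigenvalues i - E₀) ≤ 1 := by
    intro i
    have e1 : hH.eigenvalues i - E₀ ≤ J * N := by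
      refine (spec_norm hH E₀ i).trans ?_
      rw [← hsum]
      refine (norm_sum_le _ _).trans ?_
      calc ∑ v : Torus L, ‖emb (site v) g‖ ≤ ∑ _v : Torus L, J := Finset.sum_le_sum fun v _ => hnorm v
        _ = J * N := by rw [Finset.sum_const, Finset.card_univ, nsmul_eq_mul, hNdef]; ring
    nlinarith [mul_le_mul_of_nonneg_left e1 hx0]
  -- the three errors
  set T := Tm (fun b => emb (site b) g) x (adjP (site : Torus L → Box s → Torus L)) q (q + P) m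
    with hT
  set S := leafM (fun b : Torus L => emb (site b) g) x ∅ (fun _ => false) with hS
  set Kx : Matrix (Torus L → Fin d) (Torus L → Fin d) ℂ := 1 - (x : ℂ) • (ham L h - (E₀ : ℂ) • 1) with hKx
  have e1 : hs (T - S ^ n) ≤ ε / 2 := by
    have := err_bound (fun b : Torus L => emb (site b) g) J β hJ hβ hherm hnorm hpsd
      (adjP (site : Torus L → Box s → Torus L)) (adjP_symm _) (adjP_irr _) (s ^ 4)
      (fun b t ht => adjP_deg b t ht) q P m R x hR hR2 hx hu hu2 hP (fun _ => false)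
    refine this.trans ?_
    rw [hsum]
    have hZn : (((1 - (x : ℂ) • (ham L h - (E₀ : ℂ) • 1)) ^ 2) ^ 2 ^ (q + P)).trace.re ≤ 2 :=
      (spec_trace hH E₀ x β n hx0 hnx.symm h0 h1).trans hZ
    set δ : ℝ := Real.exp (6 * β * J * ((s ^ 4 : ℕ) + 1)) / R ^ m with hδ
    have hδ0 : 0 ≤ δ := by positivity
    have hNδ : N * δ ≤ ε / 16 := by rw [hNL]; exact hm
    have h2 : (1 + δ) ^ Fintype.card (Torus L) - 1 ≤ ε / 8 := by
      refine (pow_le_exp_aux _ δ hδ0 (by rw [← hNdef]; linarith)).trans ?_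
      rw [← hNdef]; linarith
    have h3 : Real.sqrt (((1 - (x : ℂ) • (ham L h - (E₀ : ℂ) • 1)) ^ 2) ^ 2 ^ (q + P)).trace.re ≤ 2 := by
      rw [Real.sqrt_le_left (by norm_num)]; linarith
    have h4 : 0 ≤ (1 + δ) ^ Fintype.card (Torus L) - 1 := by
      have : (1 : ℝ) ≤ (1 + δ) ^ Fintype.card (Torus L) := one_le_pow₀ (by linarith)
      linarith
    calc 2 * Real.sqrt (((1 - (x : ℂ) • (ham L h - (E₀ : ℂ) • 1)) ^ 2) ^ 2 ^ (q + P)).trace.re *
          ((1 + δ) ^ Fintype.card (Torus L) - 1) ≤ 2 * 2 * (ε / 8) := by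
          apply mul_le_mul (by linarith) h2 h4 (by norm_num)
      _ = ε / 2 := by ring
  have e2 : hs (S ^ n - Kx ^ n) ≤ ε / 2 := by
    have := pow_diff (fun b : Torus L => emb (site b) g) J x hJ hx0 hherm hnorm hpsd hu
      (fun _ => false) n
    rw [hsum] at this
    refine this.trans ?_
    have h5 : (n : ℝ) * (x * J * Fintype.card (Torus L)) = β * J * N := by
      rw [← hNdef]; linear_combination (J * N) * hnx
    rw [h5, ← hNdef, hu_eq, div_pow]
    have h6 : Real.sqrt (Fintype.card (Torus L → Fin d)) * (n : ℝ) * Real.exp (β * J * N) *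
        ((β * J * N) ^ 2 / (n : ℝ) ^ 2) =
        (Real.sqrt (Fintype.card (Torus L → Fin d)) * Real.exp (β * J * N) * (β * J * N) ^ 2) / n := by
      field_simp
    rw [h6, div_le_iff₀ hnpos]
    have h7 : 2 * (Real.sqrt (Fintype.card (Torus L → Fin d)) * Real.exp (β * J * N) * (β * J * N) ^ 2) / ε ≤ n := by
      have : 0 ≤ 4 * (β * J * N) := by positivity
      linarith
    rw [div_le_iff₀ hε] at h7
    linarith
  have e3 : hs (Kx ^ n - vecMulVec ψ (star ψ)) ≤ Real.sqrt (partZ hH E₀ β - 1) := by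
    apply Real.le_sqrt_of_sq_le
    exact spec_proj hH E₀ x β n hx0 hnx.symm h0 h1 ψ hψ hHψ
  have e4 : hs (T - vecMulVec ψ (star ψ)) ≤ ε + Real.sqrt (partZ hH E₀ β - 1) := by
    refine (hs_sub_triangle T (S ^ n) (Kx ^ n) (vecMulVec ψ (star ψ))).trans ?_
    linarith
  obtain ⟨τ, c, hc⟩ := select T ψ hψ _ e4
  obtain ⟨A, hA⟩ := peps_of_rec (L := L) hs1 hsL q P m g x c τ
  refine ⟨q, A, ?_⟩
  have h9 : (fun σ => pepsState A σ - ψ σ) = fun σ => c * T σ τ - ψ σ := by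
    funext σ
    rw [hA σ, hT, Tm_eq _ (fun b => site_injective hsL b)]
  have h9' : nsq (fun σ => pepsState A σ - ψ σ) = nsq (fun σ => c * T σ τ - ψ σ) := by
    rw [h9]
  refine (Real.sqrt_le_sqrt (h9'.le.trans hc)).trans ?_
  rw [Real.sqrt_sq]
  positivity

end Pool.Agent.Helper2.PB
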