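import Pool.Agent.Helper2.PB.Defs2

/-! Geometry of the torus -/

set_option autoImplicit false

namespace Pool.Agent.Helper2.PB

open Matrix

theorem site_injective {L s : ℕ} (hsL : s ≤ L) (v : Torus L) :
    Function.Injective (site v : Box s → Torus L) := by
  intro p p' h
  have h1 : v.1 + ((p.1 : ℕ) : ZMod L) = v.1 + ((p'.1 : ℕ) : ZMod L) := congrArg Prod.fst h
  have h2 : v.2 + ((p.2 : ℕ) : ZMod L) = v.2 + ((p'.2 : ℕ) : ZMod L) := congrArg Prod.snd h
  have key : ∀ i j : Fin s, ((i : ℕ) : ZMod L) = ((j : ℕ) : ZMod L) → i = j := by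
    intro i j hij
    rw [ZMod.natCast_eq_natCast_iff'] at hij
    rw [Nat.mod_eq_of_lt (by omega), Nat.mod_eq_of_lt (by omega)] at hij
    exact Fin.ext hij
  exact Prod.ext (key _ _ (add_left_cancel h1)) (key _ _ (add_left_cancel h2))

theorem adjP_symm {E V B : Type} (pos : E → B → V) (b b' : E) (h : adjP pos b b') :
    adjP pos b' b := by
  obtain ⟨h1, p, p', h2⟩ := h
  exact ⟨fun h => h1 h.symm, p', p, h2.symm⟩

theorem adjP_irr {E V B : Type} (pos : E → B → V) (b : E) : ¬ adjP pos b b := fun h => h.1 rfl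

theorem adjP_deg {L s : ℕ} (b : Torus L) (t : Finset (Torus L))
    (h : ∀ b' ∈ t, adjP (site : Torus L → Box s → Torus L) b b') : t.card ≤ s ^ 4 := by
  classical
  let f : Box s × Box s → Torus L := fun pp =>
    (b.1 + ((pp.1.1 : ℕ) : ZMod L) - ((pp.2.1 : ℕ) : ZMod L),
      b.2 + ((pp.1.2 : ℕ) : ZMod L) - ((pp.2.2 : ℕ) : ZMod L))
  have hsub : t ⊆ Finset.univ.image f := by
    intro b' hb'
    obtain ⟨_, p, p', hp⟩ := h b' hb'
    rw [Finset.mem_image]
    refine ⟨(p, p'), Finset.mem_univ _, ?_⟩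
    have h1 : b.1 + ((p.1 : ℕ) : ZMod L) = b'.1 + ((p'.1 : ℕ) : ZMod L) := congrArg Prod.fst hp
    have h2 : b.2 + ((p.2 : ℕ) : ZMod L) = b'.2 + ((p'.2 : ℕ) : ZMod L) := congrArg Prod.snd hp
    apply Prod.ext
    · show b.1 + ((p.1 : ℕ) : ZMod L) - ((p'.1 : ℕ) : ZMod L) = b'.1
      rw [h1]; ring
    · show b.2 + ((p.2 : ℕ) : ZMod L) - ((p'.2 : ℕ) : ZMod L) = b'.2
      rw [h2]; ring
  calc t.card ≤ (Finset.univ.image f).card := Finset.card_le_card hsub
    _ ≤ (Finset.univ : Finset (Box s × Box s)).card := Finset.card_image_le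
    _ = s ^ 4 := by
      rw [Finset.card_univ, Fintype.card_prod, Fintype.card_prod, Fintype.card_fin]; ring

end Pool.Agent.Helper2.PB
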