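import Pool.Agent.Helper2.PB.Defs2

/-! Module SPEC: the spectral theorem for Hermitian matrices and the Hilbert-Schmidt norm. -/

set_option autoImplicit false

namespace Pool.Agent.Helper2.PB

open Matrix
open scoped Matrix.Norms.L2Operator ComplexOrder

section SPEC

variable {ι : Type} [Fintype ι] [DecidableEq ι]

/-- the eigenvector matrix -/
noncomputable def specU {H : Matrix ι ι ℂ} (hH : H.IsHermitian) : Matrix ι ι ℂ :=
  (hH.eigenvectorUnitary : Matrix ι ι ℂ)

lemma specU_star_mul {H : Matrix ι ι ℂ} (hH : H.IsHermitian) :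
    star (specU hH) * specU hH = 1 := Unitary.coe_star_mul_self _

lemma specU_mul_star {H : Matrix ι ι ℂ} (hH : H.IsHermitian) :
    specU hH * star (specU hH) = 1 := Unitary.coe_mul_star_self _

/-- functional calculus -/
noncomputable def specF {H : Matrix ι ι ℂ} (hH : H.IsHermitian) (f : ι → ℂ) : Matrix ι ι ℂ :=
  specU hH * diagonal f * star (specU hH)

lemma specF_mul {H : Matrix ι ι ℂ} (hH : H.IsHermitian) (f g : ι → ℂ) :
    specF hH f * specF hH g = specF hH (fun i => f i * g i) := by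
  unfold specF
  have h := specU_star_mul hH
  calc specU hH * diagonal f * star (specU hH) * (specU hH * diagonal g * star (specU hH))
      = specU hH * diagonal f * (star (specU hH) * specU hH) * diagonal g * star (specU hH) := by
        simp only [Matrix.mul_assoc]
    _ = specU hH * (diagonal f * diagonal g) * star (specU hH) := by
        rw [h, Matrix.mul_one]
        simp only [Matrix.mul_assoc]
    _ = _ := by rw [diagonal_mul_diagonal]

lemma specF_one {H : Matrix ι ι ℂ} (hH : H.IsHermitian) : specF hH (fun _ => 1) = 1 := by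
  unfold specF
  rw [show (diagonal (fun _ : ι => (1 : ℂ))) = 1 from diagonal_one, Matrix.mul_one,
    specU_mul_star]

lemma specF_sub {H : Matrix ι ι ℂ} (hH : H.IsHermitian) (f g : ι → ℂ) :
    specF hH f - specF hH g = specF hH (fun i => f i - g i) := by
  unfold specF
  rw [← Matrix.sub_mul, ← Matrix.mul_sub, diagonal_sub]

lemma specF_smul {H : Matrix ι ι ℂ} (hH : H.IsHermitian) (c : ℂ) (f : ι → ℂ) :
    c • specF hH f = specF hH (fun i => c * f i) := by
  unfold specF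
  have : diagonal (fun i => c * f i) = c • diagonal f := by
    rw [← diagonal_smul]; rfl
  rw [this, Matrix.mul_smul, Matrix.smul_mul]

lemma specF_self {H : Matrix ι ι ℂ} (hH : H.IsHermitian) :
    H = specF hH (fun i => (hH.eigenvalues i : ℂ)) := by
  conv_lhs => rw [hH.spectral_theorem]
  rw [Unitary.conjStarAlgAut_apply]
  rfl

lemma specF_pow {H : Matrix ι ι ℂ} (hH : H.IsHermitian) (f : ι → ℂ) (n : ℕ) :
    specF hH f ^ n = specF hH (fun i => f i ^ n) := by
  induction n with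
  | zero => simp [specF_one]
  | succ n ih => rw [pow_succ, ih, specF_mul]; simp only [pow_succ]

lemma specF_trace {H : Matrix ι ι ℂ} (hH : H.IsHermitian) (f : ι → ℂ) :
    (specF hH f).trace = ∑ i, f i := by
  unfold specF
  rw [Matrix.trace_mul_comm, ← Matrix.mul_assoc, specU_star_mul, Matrix.one_mul,
    Matrix.trace_diagonal]

lemma specF_herm {H : Matrix ι ι ℂ} (hH : H.IsHermitian) (f : ι → ℝ) :
    (specF hH (fun i => (f i : ℂ))).IsHermitian := by
  unfold specF Matrix.IsHermitian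
  rw [conjTranspose_mul, conjTranspose_mul, diagonal_conjTranspose, ← Matrix.mul_assoc]
  have h1 : (star (specU hH))ᴴ = specU hH := by
    rw [star_eq_conjTranspose, conjTranspose_conjTranspose]
  have h2 : star (fun i => (f i : ℂ)) = fun i => (f i : ℂ) := by
    funext i
    simp
  rw [h1, h2, star_eq_conjTranspose]

lemma specF_shift {H : Matrix ι ι ℂ} (hH : H.IsHermitian) (E₀ : ℝ) :
    H - (E₀ : ℂ) • 1 = specF hH (fun i => ((hH.eigenvalues i - E₀ : ℝ) : ℂ)) := by
  conv_lhs => rw [specF_self hH, ← specF_one hH, specF_smul, specF_sub]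
  congr 1
  funext i
  push_cast
  ring

lemma specF_A {H : Matrix ι ι ℂ} (hH : H.IsHermitian) (E₀ x : ℝ) :
    1 - (x : ℂ) • (H - (E₀ : ℂ) • 1) =
      specF hH (fun i => ((1 - x * (hH.eigenvalues i - E₀) : ℝ) : ℂ)) := by
  rw [specF_shift hH, specF_smul]
  conv_lhs => rw [← specF_one hH, specF_sub]
  congr 1
  funext i
  push_cast
  ring

lemma spec_pow_le {t : ℝ} (h : t ≤ 1) (N : ℕ) :
    ((1 - t) ^ 2) ^ N ≤ Real.exp (-(2 * N * t)) := by
  have h1 : 1 - t ≤ Real.exp (-t) := Real.one_sub_le_exp_neg t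
  have h2 : (1 - t) ^ 2 ≤ Real.exp (-t) ^ 2 := pow_le_pow_left₀ (by linarith) h1 2
  have h3 : ((1 - t) ^ 2) ^ N ≤ (Real.exp (-t) ^ 2) ^ N := pow_le_pow_left₀ (by positivity) h2 N
  have h4 : (Real.exp (-t) ^ 2) ^ N = Real.exp (-(2 * N * t)) := by
    rw [← pow_mul, ← Real.exp_nat_mul]
    congr 1
    push_cast
    ring
  rwa [h4] at h3

theorem spec_trace {H : Matrix ι ι ℂ} (hH : H.IsHermitian) (E₀ x β : ℝ) (N : ℕ) (hx : 0 ≤ x)
    (hβ : β = N * x) (h0 : ∀ i, E₀ ≤ hH.eigenvalues i)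
    (h1 : ∀ i, x * (hH.eigenvalues i - E₀) ≤ 1) :
    (((1 - (x : ℂ) • (H - (E₀ : ℂ) • 1)) ^ 2) ^ N).trace.re ≤ partZ hH E₀ β := by
  have _ := hx
  have _ := h0
  rw [specF_A hH, specF_pow, specF_pow, specF_trace, Complex.re_sum]
  unfold partZ
  refine Finset.sum_le_sum fun i _ => ?_
  have h2 : (((((1 - x * (hH.eigenvalues i - E₀) : ℝ) : ℂ)) ^ 2) ^ N).re =
      ((1 - x * (hH.eigenvalues i - E₀)) ^ 2) ^ N := by
    rw [← Complex.ofReal_pow, ← Complex.ofReal_pow, Complex.ofReal_re]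
  rw [h2]
  refine (spec_pow_le (h1 i) N).trans (le_of_eq ?_)
  rw [hβ]
  congr 1
  ring

omit [DecidableEq ι] in
lemma hs_sq (M : Matrix ι ι ℂ) : hs M ^ 2 = (M * Mᴴ).trace.re := by
  unfold hs
  rw [Real.sq_sqrt (Finset.sum_nonneg fun i _ => Finset.sum_nonneg fun j _ => sq_nonneg _)]
  rw [Matrix.trace, Complex.re_sum]
  refine Finset.sum_congr rfl fun i _ => ?_
  rw [Matrix.diag_apply, Matrix.mul_apply, Complex.re_sum]
  refine Finset.sum_congr rfl fun j _ => ?_
  rw [conjTranspose_apply, Complex.star_def, Complex.mul_conj, Complex.ofReal_re,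
    Complex.normSq_eq_norm_sq]

omit [DecidableEq ι] in
lemma nsq_eq (ψ : ι → ℂ) : (star ψ ⬝ᵥ ψ) = (nsq ψ : ℂ) := by
  unfold nsq dotProduct
  push_cast
  refine Finset.sum_congr rfl fun i _ => ?_
  rw [Pi.star_apply, Complex.star_def, mul_comm, Complex.mul_conj, Complex.normSq_eq_norm_sq]
  push_cast
  rfl

theorem spec_proj {H : Matrix ι ι ℂ} (hH : H.IsHermitian) (E₀ x β : ℝ) (N : ℕ) (hx : 0 ≤ x)
    (hβ : β = N * x) (h0 : ∀ i, E₀ ≤ hH.eigenvalues i)
    (h1 : ∀ i, x * (hH.eigenvalues i - E₀) ≤ 1) (ψ : ι → ℂ) (hψ : nsq ψ = 1)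
    (hHψ : H.mulVec ψ = (E₀ : ℂ) • ψ) :
    hs ((1 - (x : ℂ) • (H - (E₀ : ℂ) • 1)) ^ N - vecMulVec ψ (star ψ)) ^ 2 ≤
      partZ hH E₀ β - 1 := by
  have htr := spec_trace hH E₀ x β N hx hβ h0 h1
  set A : Matrix ι ι ℂ := 1 - (x : ℂ) • (H - (E₀ : ℂ) • 1) with hA
  set P : Matrix ι ι ℂ := vecMulVec ψ (star ψ) with hP
  have hAψ : A.mulVec ψ = ψ := by
    rw [hA, Matrix.sub_mulVec, Matrix.smul_mulVec, Matrix.sub_mulVec, Matrix.smul_mulVec,
      Matrix.one_mulVec, hHψ, sub_self, smul_zero, sub_zero]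
  have hANψ : (A ^ N).mulVec ψ = ψ := by
    induction N with
    | zero => simp
    | succ n ih =>
      have ih' : (A ^ n).mulVec ψ = ψ := by
        clear htr hβ ih
        induction n with
        | zero => simp
        | succ n ih => rw [pow_succ, ← Matrix.mulVec_mulVec, hAψ, ih]
      rw [pow_succ, ← Matrix.mulVec_mulVec, hAψ, ih']
  have hAherm : (A ^ N)ᴴ = A ^ N := by
    have h3 : A ^ N = specF hH (fun i => (((1 - x * (hH.eigenvalues i - E₀)) ^ N : ℝ) : ℂ)) := by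
      rw [hA, specF_A hH, specF_pow]
      congr 1
      funext i
      push_cast
      rfl
    rw [h3]
    exact specF_herm hH _
  have hPherm : Pᴴ = P := by
    rw [hP]
    ext i j
    simp [vecMulVec_apply, conjTranspose_apply, mul_comm]
  have hAP : A ^ N * P = P := by
    rw [hP, Matrix.mul_vecMulVec, hANψ]
  have hPA : P * A ^ N = P := by
    have := congrArg conjTranspose hAP
    rwa [conjTranspose_mul, hPherm, hAherm] at this
  have hPP : P * P = P := by
    rw [hP, Matrix.vecMulVec_mul_vecMulVec, nsq_eq, hψ]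
    simp
  have hPtr : P.trace.re = 1 := by
    rw [hP, Matrix.trace_vecMulVec, dotProduct_comm, nsq_eq, hψ]
    simp
  rw [hs_sq, conjTranspose_sub, hAherm, hPherm]
  have hexp : (A ^ N - P) * (A ^ N - P) = A ^ N * A ^ N - P := by
    rw [Matrix.sub_mul, Matrix.mul_sub, Matrix.mul_sub, hAP, hPA, hPP]
    abel
  rw [hexp, Matrix.trace_sub, Complex.sub_re, hPtr]
  have h4 : A ^ N * A ^ N = (A ^ 2) ^ N := by
    rw [← pow_mul, ← pow_add]; congr 1; ring
  rw [h4]
  linarith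

lemma spec_eig {H : Matrix ι ι ℂ} (hH : H.IsHermitian) (i : ι) :
    ∃ v : ι → ℂ, v = ⇑(hH.eigenvectorBasis i) := ⟨_, rfl⟩

lemma spec_orth {H : Matrix ι ι ℂ} (hH : H.IsHermitian) (i j : ι) :
    star (fun k => specU hH k i) ⬝ᵥ (fun k => specU hH k j) = if i = j then 1 else 0 := by
  have h := congrFun (congrFun (specU_star_mul hH) i) j
  rw [Matrix.mul_apply, Matrix.one_apply] at h
  rw [← h]
  rfl

lemma spec_mulVec {H : Matrix ι ι ℂ} (hH : H.IsHermitian) (i : ι) :
    H.mulVec (fun k => specU hH k i) = ((hH.eigenvalues i : ℂ)) • (fun k => specU hH k i) := by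
  have h := hH.mulVec_eigenvectorBasis i
  have h2 : (fun k => specU hH k i) = ⇑(hH.eigenvectorBasis i) := rfl
  rw [h2, h]
  rfl

/-- A unique gapped ground state: exactly one eigenvalue is `E₀`, the others are `≥ E₀ + Δ`. -/
theorem spec_gap {H : Matrix ι ι ℂ} (hH : H.IsHermitian) (E₀ Δ : ℝ) (hΔ : 0 < Δ) (ψ : ι → ℂ)
    (hg : IsGappedGround H E₀ Δ ψ) :
    ∃ i₀, hH.eigenvalues i₀ = E₀ ∧ ∀ i, i ≠ i₀ → E₀ + Δ ≤ hH.eigenvalues i := by
  obtain ⟨hψ, hHψ, hgap⟩ := hg
  set v : ι → ι → ℂ := fun i k => specU hH k i with hv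
  set c : ι → ℂ := fun i => star (v i) ⬝ᵥ ψ with hc
  -- coefficients vanish off the eigenspace
  have hci : ∀ i, c i ≠ 0 → hH.eigenvalues i = E₀ := by
    intro i hi
    have h1 : star (v i) ⬝ᵥ H.mulVec ψ = (hH.eigenvalues i : ℂ) * c i := by
      have h2 : star (v i) ᵥ* H = ((hH.eigenvalues i : ℂ)) • star (v i) := by
        have h3 := congrArg star (spec_mulVec hH i)
        rw [Matrix.star_mulVec, hH.eq] at h3
        have h5 : star ((hH.eigenvalues i : ℂ)) = (hH.eigenvalues i : ℂ) := Complex.conj_ofReal _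
        rw [h3, star_smul, h5]
      rw [Matrix.dotProduct_mulVec, h2, smul_dotProduct]
      rfl
    rw [hHψ, dotProduct_smul] at h1
    have h4 : (E₀ : ℂ) = (hH.eigenvalues i : ℂ) := by
      have : (E₀ : ℂ) * c i = (hH.eigenvalues i : ℂ) * c i := h1
      exact mul_right_cancel₀ hi this
    exact_mod_cast h4.symm
  -- some coefficient is nonzero
  have hex : ∃ i₀, c i₀ ≠ 0 := by
    by_contra hcon
    push Not at hcon
    have h1 : (star (specU hH)).mulVec ψ = 0 := by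
      funext i
      exact hcon i
    have h2 : ψ = 0 := by
      have := congrArg (specU hH).mulVec h1
      rwa [Matrix.mulVec_mulVec, specU_mul_star, Matrix.one_mulVec, Matrix.mulVec_zero] at this
    rw [h2] at hψ
    unfold nsq at hψ
    simp at hψ
  obtain ⟨i₀, hi₀⟩ := hex
  have hnv : ∀ i, nsq (v i) = 1 := by
    intro i
    have h1 := nsq_eq (v i)
    have h2 := spec_orth hH i i
    rw [if_pos rfl] at h2
    have h3 : ((nsq (v i) : ℝ) : ℂ) = 1 := by rw [← h1]; exact h2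
    exact_mod_cast h3
  refine ⟨i₀, hci i₀ hi₀, fun i hi => ?_⟩
  by_cases hz : c i = 0
  · have h1 : star ψ ⬝ᵥ v i = 0 := by
      have h2 := congrArg star hz
      rw [hc] at h2
      simp only [star_zero] at h2
      rw [← h2, Matrix.star_dotProduct]
    have h3 := hgap (v i) h1
    rw [hnv i, mul_one] at h3
    have h4 : (star (v i) ⬝ᵥ H.mulVec (v i)) = (hH.eigenvalues i : ℂ) := by
      have h5 := spec_mulVec hH i
      rw [show H.mulVec (v i) = ((hH.eigenvalues i : ℂ)) • (v i) from h5, dotProduct_smul, nsq_eq,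
        hnv i]
      simp
    rw [h4, Complex.ofReal_re] at h3
    exact h3
  · exfalso
    have he : hH.eigenvalues i = E₀ := hci i hz
    have he0 := hci i₀ hi₀
    set φ : ι → ℂ := star (c i₀) • v i - star (c i) • v i₀ with hφ
    have hconj : ∀ j, star ψ ⬝ᵥ v j = star (c j) := by
      intro j
      rw [hc]
      simp only
      rw [Matrix.star_dotProduct]
    have h1 : star ψ ⬝ᵥ φ = 0 := by
      rw [hφ, dotProduct_sub, dotProduct_smul, dotProduct_smul, hconj, hconj]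
      simp only [smul_eq_mul]
      ring
    have hHφ : H.mulVec φ = (E₀ : ℂ) • φ := by
      rw [hφ, Matrix.mulVec_sub, Matrix.mulVec_smul, Matrix.mulVec_smul]
      rw [show H.mulVec (v i) = ((hH.eigenvalues i : ℂ)) • (v i) from spec_mulVec hH i,
        show H.mulVec (v i₀) = ((hH.eigenvalues i₀ : ℂ)) • (v i₀) from spec_mulVec hH i₀, he, he0,
        smul_sub, smul_comm (E₀ : ℂ), smul_comm (E₀ : ℂ)]
    have h3 := hgap φ h1
    rw [hHφ, dotProduct_smul, nsq_eq] at h3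
    simp only [smul_eq_mul] at h3
    rw [← Complex.ofReal_mul, Complex.ofReal_re] at h3
    have hφ0 : φ ≠ 0 := by
      intro h4
      have h5 : star (v i) ⬝ᵥ φ = 0 := by rw [h4, dotProduct_zero]
      rw [hφ, dotProduct_sub, dotProduct_smul, dotProduct_smul] at h5
      have h6 : star (v i) ⬝ᵥ v i = 1 := by
        have := spec_orth hH i i
        rw [if_pos rfl] at this
        exact this
      have h7 : star (v i) ⬝ᵥ v i₀ = 0 := by
        have := spec_orth hH i i₀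
        rw [if_neg hi] at this
        exact this
      rw [h6, h7] at h5
      simp at h5
      exact hi₀ h5
    have hpos : 0 < nsq φ := by
      have h8 : ∃ k, φ k ≠ 0 := by
        by_contra hcon
        push Not at hcon
        exact hφ0 (funext hcon)
      obtain ⟨k, hk⟩ := h8
      unfold nsq
      refine Finset.sum_pos' (fun j _ => sq_nonneg _) ⟨k, Finset.mem_univ k, ?_⟩
      have : 0 < ‖φ k‖ := norm_pos_iff.mpr hk
      positivity
    nlinarith

/-- A Hermitian matrix with eigenvalues `≥ E₀`. -/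
theorem spec_psd {H : Matrix ι ι ℂ} (hH : H.IsHermitian) (E₀ : ℝ)
    (h0 : ∀ i, E₀ ≤ hH.eigenvalues i) : (H - (E₀ : ℂ) • 1).PosSemidef := by
  rw [specF_shift hH]
  unfold specF
  rw [star_eq_conjTranspose]
  refine Matrix.PosSemidef.mul_mul_conjTranspose_same ?_ _
  refine Matrix.PosSemidef.diagonal ?_
  intro i
  have h1 : 0 ≤ hH.eigenvalues i - E₀ := by linarith [h0 i]
  show (0 : ℂ) ≤ ((hH.eigenvalues i - E₀ : ℝ) : ℂ)
  exact_mod_cast h1

lemma spec_opn (A : Matrix ι ι ℂ) (v : ι → ℂ) (e : ℂ) (hv : nsq v = 1)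
    (h : A.mulVec v = e • v) : ‖e‖ ≤ ‖A‖ := by
  set w : EuclideanSpace ℂ ι := (EuclideanSpace.equiv ι ℂ).symm v with hw
  have hwn : ‖w‖ = 1 := by
    rw [EuclideanSpace.norm_eq]
    have : ∑ i, ‖w i‖ ^ 2 = nsq v := rfl
    rw [this, hv, Real.sqrt_one]
  have h1 := A.l2_opNorm_mulVec w
  have h2 : (EuclideanSpace.equiv ι ℂ).symm (A.mulVec w) = e • w := by
    have : A.mulVec (w : ι → ℂ) = e • v := h
    rw [this]
    rfl
  rw [h2, norm_smul, hwn, mul_one, mul_one] at h1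
  exact h1

theorem spec_norm {H : Matrix ι ι ℂ} (hH : H.IsHermitian) (E₀ : ℝ) (i : ι) :
    hH.eigenvalues i - E₀ ≤ ‖H - (E₀ : ℂ) • 1‖ := by
  have hnv : nsq (fun k => specU hH k i) = 1 := by
    have h1 := nsq_eq (fun k => specU hH k i)
    have h2 := spec_orth hH i i
    rw [if_pos rfl] at h2
    have h3 : ((nsq (fun k => specU hH k i) : ℝ) : ℂ) = 1 := by rw [← h1]; exact h2
    exact_mod_cast h3
  have h1 := spec_opn (H - (E₀ : ℂ) • 1) (fun k => specU hH k i)
    ((hH.eigenvalues i - E₀ : ℝ) : ℂ) hnv (by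
      rw [Matrix.sub_mulVec, Matrix.smul_mulVec, Matrix.one_mulVec, spec_mulVec hH i, ← sub_smul]
      push_cast
      rfl)
  refine le_trans ?_ h1
  rw [Complex.norm_real]
  exact le_abs_self _

theorem eig_norm {H : Matrix ι ι ℂ} (E₀ : ℝ) (ψ : ι → ℂ) (hψ : nsq ψ = 1)
    (hHψ : H.mulVec ψ = (E₀ : ℂ) • ψ) : |E₀| ≤ ‖H‖ := by
  have h := spec_opn H ψ (E₀ : ℂ) hψ hHψ
  rwa [Complex.norm_real, Real.norm_eq_abs] at h

omit [DecidableEq ι] in
lemma hs_eq_norm (M : Matrix ι ι ℂ) :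
    hs M = ‖(EuclideanSpace.equiv (ι × ι) ℂ).symm (fun p => M p.1 p.2)‖ := by
  rw [EuclideanSpace.norm_eq]
  unfold hs
  congr 1
  rw [← Finset.univ_product_univ, Finset.sum_product]
  rfl

theorem hs_add_le (M M' : Matrix ι ι ℂ) : hs (M + M') ≤ hs M + hs M' := by
  rw [hs_eq_norm, hs_eq_norm, hs_eq_norm]
  have h : (EuclideanSpace.equiv (ι × ι) ℂ).symm (fun p => (M + M') p.1 p.2) =
      (EuclideanSpace.equiv (ι × ι) ℂ).symm (fun p => M p.1 p.2) +
      (EuclideanSpace.equiv (ι × ι) ℂ).symm (fun p => M' p.1 p.2) := by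
    rw [← map_add]
    rfl
  rw [h]
  exact norm_add_le _ _

/-- Choice of the product state. -/
theorem select (T : Matrix ι ι ℂ) (ψ : ι → ℂ) (hψ : nsq ψ = 1) (ε : ℝ)
    (h : hs (T - vecMulVec ψ (star ψ)) ≤ ε) :
    ∃ (τ : ι) (c : ℂ), nsq (fun σ => c * T σ τ - ψ σ) ≤ ε ^ 2 := by
  by_contra hcon
  push Not at hcon
  have hs0 : 0 ≤ hs (T - vecMulVec ψ (star ψ)) := Real.sqrt_nonneg _
  have h1 : hs (T - vecMulVec ψ (star ψ)) ^ 2 ≤ ε ^ 2 := pow_le_pow_left₀ hs0 h 2
  have h2 : hs (T - vecMulVec ψ (star ψ)) ^ 2 =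
      ∑ τ, nsq (fun σ => T σ τ - ψ σ * star (ψ τ)) := by
    unfold hs nsq
    rw [Real.sq_sqrt (Finset.sum_nonneg fun i _ => Finset.sum_nonneg fun j _ => sq_nonneg _),
      Finset.sum_comm]
    rfl
  have h3 : ∀ τ, ψ τ ≠ 0 → ε ^ 2 * ‖ψ τ‖ ^ 2 < nsq (fun σ => T σ τ - ψ σ * star (ψ τ)) := by
    intro τ hτ
    have hst : star (ψ τ) ≠ 0 := star_ne_zero.mpr hτ
    have h4 := hcon τ (star (ψ τ))⁻¹
    have h5 : nsq (fun σ => T σ τ - ψ σ * star (ψ τ)) =
        ‖ψ τ‖ ^ 2 * nsq (fun σ => (star (ψ τ))⁻¹ * T σ τ - ψ σ) := by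
      unfold nsq
      rw [Finset.mul_sum]
      refine Finset.sum_congr rfl fun σ _ => ?_
      have h6 : T σ τ - ψ σ * star (ψ τ) =
          star (ψ τ) * ((star (ψ τ))⁻¹ * T σ τ - ψ σ) := by
        rw [mul_sub, ← mul_assoc, mul_inv_cancel₀ hst, one_mul]
        ring
      show ‖T σ τ - ψ σ * star (ψ τ)‖ ^ 2 = ‖ψ τ‖ ^ 2 * ‖(star (ψ τ))⁻¹ * T σ τ - ψ σ‖ ^ 2
      rw [h6, norm_mul, norm_star, mul_pow]
    rw [h5, mul_comm]
    exact mul_lt_mul_of_pos_left h4 (by
      have : 0 < ‖ψ τ‖ := norm_pos_iff.mpr hτ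
      positivity)
  have hex : ∃ τ, ψ τ ≠ 0 := by
    by_contra hc
    push Not at hc
    unfold nsq at hψ
    simp [hc] at hψ
  obtain ⟨τ₀, hτ₀⟩ := hex
  have h7 : ∑ τ, ε ^ 2 * ‖ψ τ‖ ^ 2 < ∑ τ, nsq (fun σ => T σ τ - ψ σ * star (ψ τ)) := by
    refine Finset.sum_lt_sum (fun τ _ => ?_) ⟨τ₀, Finset.mem_univ _, h3 τ₀ hτ₀⟩
    by_cases hτ : ψ τ = 0
    · rw [hτ]
      simp only [norm_zero]
      have : 0 ≤ nsq (fun σ => T σ τ - ψ σ * star (0 : ℂ)) :=
        Finset.sum_nonneg fun σ _ => sq_nonneg _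
      simpa using this
    · exact (h3 τ hτ).le
  rw [← Finset.mul_sum] at h7
  have h8 : ∑ τ, ‖ψ τ‖ ^ 2 = 1 := hψ
  rw [h8, mul_one, ← h2] at h7
  linarith

end SPEC

end Pool.Agent.Helper2.PB
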