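import Pool.Agent.Helper2.PB.Emb
import Pool.Agent.Helper2.PB.Spec
import Pool.Agent.Helper2.PB.Geom

/-! The Hamiltonian on the torus -/

set_option autoImplicit false

namespace Pool.Agent.Helper2.PB

open Matrix
open scoped Matrix.Norms.L2Operator ComplexOrder

theorem ham_isHermitian {d s : ℕ} (L : ℕ) [NeZero L] (h : Matrix (Box s → Fin d) (Box s → Fin d) ℂ)
    (hh : h.IsHermitian) : (ham L h).IsHermitian := by
  unfold ham
  rw [Matrix.IsHermitian, Matrix.conjTranspose_sum]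
  refine Finset.sum_congr rfl fun v _ => ?_
  rw [← emb_conjTranspose, hh.eq]

theorem emb_isHermitian {V B : Type} [Fintype V] [DecidableEq V] [Fintype B] [DecidableEq B] {d : ℕ}
    (pos : B → V) (h : Matrix (B → Fin d) (B → Fin d) ℂ) (hh : h.IsHermitian) :
    (emb pos h).IsHermitian := by
  rw [Matrix.IsHermitian, ← emb_conjTranspose, hh.eq]

theorem card_torus (L : ℕ) [NeZero L] : Fintype.card (Torus L) = L ^ 2 := by
  rw [Fintype.card_prod, ZMod.card, sq]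

/-- the shifted block operator -/
noncomputable def shifted {d s : ℕ} (L : ℕ) (h : Matrix (Box s → Fin d) (Box s → Fin d) ℂ) (E₀ : ℝ) :
    Matrix (Box s → Fin d) (Box s → Fin d) ℂ := h - ((E₀ / (L : ℝ) ^ 2 : ℝ) : ℂ) • 1

theorem shifted_herm {d s : ℕ} (L : ℕ) (h : Matrix (Box s → Fin d) (Box s → Fin d) ℂ)
    (hh : h.IsHermitian) (E₀ : ℝ) : (shifted L h E₀).IsHermitian := by
  unfold shifted
  rw [Matrix.IsHermitian, Matrix.conjTranspose_sub, hh.eq, Matrix.conjTranspose_smul,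
    Matrix.conjTranspose_one, Complex.star_def, Complex.conj_ofReal]

theorem sum_shifted {d s : ℕ} (L : ℕ) [NeZero L] (hsL : s ≤ L)
    (h : Matrix (Box s → Fin d) (Box s → Fin d) ℂ) (E₀ : ℝ) :
    ∑ v : Torus L, emb (site v) (shifted L h E₀) = ham L h - (E₀ : ℂ) • 1 := by
  have hL : (L : ℝ) ≠ 0 := by exact_mod_cast NeZero.ne L
  have h1 : ∀ v : Torus L, emb (site v) (shifted L h E₀) =
      emb (site v) h + (-((E₀ / (L : ℝ) ^ 2 : ℝ) : ℂ)) • 1 := by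
    intro v
    unfold shifted
    rw [sub_eq_add_neg, ← neg_smul, emb_add, emb_smul, emb_one _ (site_injective hsL v)]
  simp_rw [h1]
  rw [Finset.sum_add_distrib, Finset.sum_const, Finset.card_univ, card_torus]
  unfold ham
  rw [sub_eq_add_neg, ← neg_smul]
  congr 1
  rw [← Nat.cast_smul_eq_nsmul ℂ, smul_smul]
  congr 1
  push_cast
  have hL' : (L : ℂ) ≠ 0 := by exact_mod_cast NeZero.ne L
  field_simp

theorem norm_one_le {ι : Type} [Fintype ι] [DecidableEq ι] : ‖(1 : Matrix ι ι ℂ)‖ ≤ 1 := by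
  rcases isEmpty_or_nonempty ι with h | h
  · have : (1 : Matrix ι ι ℂ) = 0 := Subsingleton.elim _ _
    rw [this, norm_zero]; exact zero_le_one
  · exact le_of_eq norm_one

theorem norm_ham_le {d s : ℕ} (L : ℕ) [NeZero L] (hsL : s ≤ L)
    (h : Matrix (Box s → Fin d) (Box s → Fin d) ℂ) : ‖ham L h‖ ≤ (L : ℝ) ^ 2 * ‖h‖ := by
  unfold ham
  calc ‖∑ v : Torus L, emb (site v) h‖ ≤ ∑ v : Torus L, ‖emb (site v) h‖ := norm_sum_le _ _
    _ ≤ ∑ _v : Torus L, ‖h‖ := Finset.sum_le_sum fun v _ => norm_emb_le _ (site_injective hsL v) h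
    _ = (L : ℝ) ^ 2 * ‖h‖ := by
      rw [Finset.sum_const, Finset.card_univ, card_torus, nsmul_eq_mul]; push_cast; ring

theorem norm_shifted_le {d s : ℕ} (L : ℕ) [NeZero L] (hsL : s ≤ L)
    (h : Matrix (Box s → Fin d) (Box s → Fin d) ℂ) (E₀ : ℝ) (ψ : (Torus L → Fin d) → ℂ)
    (hψ : nsq ψ = 1) (hHψ : (ham L h).mulVec ψ = (E₀ : ℂ) • ψ) :
    ‖shifted L h E₀‖ ≤ 2 * ‖h‖ + 1 := by
  have hL : (0 : ℝ) < (L : ℝ) ^ 2 := by
    have : (0 : ℝ) < L := by exact_mod_cast Nat.pos_of_ne_zero (NeZero.ne L)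
    positivity
  have h1 : |E₀| ≤ (L : ℝ) ^ 2 * ‖h‖ := (eig_norm E₀ ψ hψ hHψ).trans (norm_ham_le L hsL h)
  unfold shifted
  refine (norm_sub_le _ _).trans ?_
  rw [norm_smul, Complex.norm_real, Real.norm_eq_abs, abs_div, abs_of_pos hL]
  have h2 : |E₀| / (L : ℝ) ^ 2 ≤ ‖h‖ := by
    rw [div_le_iff₀ hL]; linarith [mul_comm ((L : ℝ) ^ 2) ‖h‖]
  have h3 : |E₀| / (L : ℝ) ^ 2 * ‖(1 : Matrix (Box s → Fin d) (Box s → Fin d) ℂ)‖ ≤ ‖h‖ * 1 :=
    mul_le_mul h2 norm_one_le (norm_nonneg _) (norm_nonneg _)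
  linarith

end Pool.Agent.Helper2.PB
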