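import Pool.Agent.Helper2.PB.Final
import Pool.Agent.Helper2.PB.Count

/-! The general bound and the polynomial bound -/

set_option autoImplicit false

namespace Pool.Agent.Helper2.PB

open Matrix
open scoped Matrix.Norms.L2Operator ComplexOrder

theorem zero_peps {d L : ℕ} [NeZero L] (σ : Torus L → Fin d) :
    pepsState (D := 1) (fun (_ : Torus L) (_ : Fin d) _ _ _ _ => (0 : ℂ)) σ = 0 := by
  unfold pepsState
  refine Finset.sum_eq_zero fun a _ => Finset.sum_eq_zero fun b _ => ?_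
  exact Finset.prod_eq_zero (Finset.mem_univ (0 : Torus L)) rfl

/-- Arithmetic of the bond dimension. -/
theorem nrec_le (s d : ℕ) : ∃ κ : ℝ, 0 ≤ κ ∧ ∀ q P m : ℕ, ∀ X : ℝ, (m : ℝ) + 2 ^ P ≤ X →
    ((nrec s d q P m ^ (s ^ 2) : ℕ) : ℝ) ≤ Real.exp (κ * X) := by
  set a₁ : ℕ := 4 * Fintype.card (Box s → Bool) * (1 + Fintype.card (Lab (Box s) d)) with ha₁
  set a₂ : ℕ := 2 * (1 + Fintype.card (Lab (Box s) d)) with ha₂
  have h₁ : 1 ≤ a₁ := by
    have : 0 < Fintype.card (Box s → Bool) := Fintype.card_pos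
    have h2 : 0 < a₁ := by positivity
    exact h2
  have h₂ : 1 ≤ a₂ := by omega
  set κ₀ : ℝ := Real.log a₁ + Real.log a₂ with hκ₀
  have hl₁ : 0 ≤ Real.log a₁ := Real.log_natCast_nonneg _
  have hl₂ : 0 ≤ Real.log a₂ := Real.log_natCast_nonneg _
  have hκ₀' : 0 ≤ κ₀ := by positivity
  refine ⟨s ^ 2 * κ₀, by positivity, fun q P m X hX => ?_⟩
  have hc : nrec s d q P m ≤ a₁ ^ m * a₂ ^ 2 ^ P := card_rec_le q P m
  have h3 : ((nrec s d q P m : ℕ) : ℝ) ≤ Real.exp (κ₀ * X) := by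
    have h4 : ((nrec s d q P m : ℕ) : ℝ) ≤ (a₁ : ℝ) ^ m * (a₂ : ℝ) ^ 2 ^ P := by exact_mod_cast hc
    refine h4.trans ?_
    have p₁ : (0 : ℝ) < a₁ := by exact_mod_cast h₁
    have p₂ : (0 : ℝ) < a₂ := by exact_mod_cast h₂
    have h5 : (a₁ : ℝ) ^ m * (a₂ : ℝ) ^ 2 ^ P =
        Real.exp (m * Real.log a₁ + (2 ^ P : ℕ) * Real.log a₂) := by
      rw [Real.exp_add, Real.exp_nat_mul, Real.exp_nat_mul, Real.exp_log p₁, Real.exp_log p₂]
    rw [h5]
    apply Real.exp_le_exp.2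
    push_cast
    have hm : (0 : ℝ) ≤ m := Nat.cast_nonneg _
    have hp : (0 : ℝ) ≤ 2 ^ P := by positivity
    nlinarith
  rw [Nat.cast_pow]
  calc ((nrec s d q P m : ℕ) : ℝ) ^ (s ^ 2) ≤ Real.exp (κ₀ * X) ^ (s ^ 2) :=
        pow_le_pow_left₀ (Nat.cast_nonneg _) h3 _
    _ = Real.exp (s ^ 2 * κ₀ * X) := by
        rw [← Real.exp_nat_mul]; congr 1; push_cast; ring

/-- The general bound. -/
theorem general {d s : ℕ} (hs1 : 1 ≤ s) (h : Matrix (Box s → Fin d) (Box s → Fin d) ℂ)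
    (hh : h.IsHermitian) :
    ∃ C : ℝ, 0 < C ∧ ∀ (L : ℕ) [NeZero L], s ≤ L → ∀ (E₀ : ℝ) (ψ : (Torus L → Fin d) → ℂ),
      nsq ψ = 1 → (ham L h).mulVec ψ = (E₀ : ℂ) • ψ →
      (∀ i, E₀ ≤ (ham_isHermitian L h hh).eigenvalues i) →
      ∀ β ε : ℝ, 0 ≤ β → 0 < ε → ε ≤ 1 →
        ∃ D : ℕ, (D : ℝ) ≤ C * (L / ε) ^ C * Real.exp (C * β) ∧
          ∃ A : Torus L → Fin d → Fin D → Fin D → Fin D → Fin D → ℂ,
            Real.sqrt (nsq (fun σ => pepsState A σ - ψ σ)) ≤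
              ε + Real.sqrt (partZ (ham_isHermitian L h hh) E₀ β - 1) := by
  classical
  obtain ⟨κ, hκ, hrec⟩ := nrec_le s d
  set J : ℝ := 2 * ‖h‖ + 1 with hJ
  have hJ0 : 0 < J := by positivity
  set Δ₀ : ℝ := ((s ^ 4 : ℕ) : ℝ) with hΔ₀
  have hΔ1 : 1 ≤ Δ₀ := by
    rw [hΔ₀]; exact_mod_cast Nat.one_le_pow _ _ hs1
  have hlog2 : 0 < Real.log 2 := Real.log_pos one_lt_two
  set R : ℝ := (4 / 3 : ℝ) ^ ((1 : ℝ) / (2 * (s ^ 4 : ℕ) : ℕ)) with hR
  have hs4 : (2 * (s ^ 4 : ℕ) : ℕ) ≠ 0 := by positivity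
  have hR2 : R ^ (2 * s ^ 4) ≤ 4 / 3 := by
    rw [hR, one_div, Real.rpow_inv_natCast_pow (by norm_num) hs4]
  have hR1 : 1 < R := by
    rw [hR]
    apply Real.one_lt_rpow (by norm_num)
    positivity
  have hlogR : 0 < Real.log R := Real.log_pos hR1
  -- the constants
  set k₁ : ℝ := 6 * J * (Δ₀ + 1) / Real.log R with hk₁
  set k₂ : ℝ := 2 * (8 * J * Δ₀ / Real.log 2) with hk₂
  set C : ℝ := Real.exp (κ * (Real.log 16 / Real.log R + 2)) + κ * (k₁ + k₂) +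
    κ * (2 / Real.log R) + 1 with hC
  have hk₁0 : 0 ≤ k₁ := by positivity
  have hk₂0 : 0 ≤ k₂ := by positivity
  have hC1 : 1 ≤ C := by
    have : 0 ≤ Real.exp (κ * (Real.log 16 / Real.log R + 2)) + κ * (k₁ + k₂) +
      κ * (2 / Real.log R) := by positivity
    linarith
  have hC0 : 0 < C := by linarith
  refine ⟨C, hC0, ?_⟩
  intro L _ hsL E₀ ψ hψ hHψ h0 β ε hβ hε hε1
  have hL1 : (1 : ℝ) ≤ L := by exact_mod_cast Nat.pos_of_ne_zero (NeZero.ne L)
  have hLε : 1 ≤ (L : ℝ) / ε := by rw [le_div_iff₀ hε]; linarith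
  have hLε0 : 0 < (L : ℝ) / ε := by linarith
  by_cases hZ : partZ (ham_isHermitian L h hh) E₀ β ≤ 2
  swap
  · refine ⟨1, ?_, fun _ _ _ _ _ _ => 0, ?_⟩
    · have h1 : 1 ≤ ((L : ℝ) / ε) ^ C := Real.one_le_rpow hLε hC0.le
      have h2 : 1 ≤ Real.exp (C * β) := Real.one_le_exp (by positivity)
      push_cast
      have h3 : 1 ≤ C * ((L : ℝ) / ε) ^ C := by nlinarith
      nlinarith
    · have h4 : (fun σ : Torus L → Fin d =>
          pepsState (D := 1) (fun (_ : Torus L) (_ : Fin d) _ _ _ _ => (0 : ℂ)) σ - ψ σ) =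
          fun σ => - ψ σ := by
        funext σ; rw [zero_peps, zero_sub]
      have h5 : nsq (fun σ => - ψ σ) = 1 := by
        rw [← hψ]; unfold nsq; simp
      rw [h4, h5, Real.sqrt_one]
      have h6 : 1 ≤ Real.sqrt (partZ (ham_isHermitian L h hh) E₀ β - 1) := by
        rw [Real.one_le_sqrt]; linarith
      linarith
  -- parameters
  obtain ⟨P, hP1, hP2⟩ := exists_P (8 * β * J * Δ₀ / Real.log 2) (by positivity)
  set m : ℕ := ⌈(6 * β * J * (Δ₀ + 1) + Real.log (16 * (L : ℝ) ^ 2 / ε)) / Real.log R⌉₊ with hm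
  have hP : 8 * β * (2 * ‖h‖ + 1) * (s ^ 4 : ℕ) / 2 ^ P ≤ Real.log 2 := by
    rw [div_le_iff₀ (by positivity)]
    rw [div_le_iff₀ hlog2] at hP1
    calc 8 * β * (2 * ‖h‖ + 1) * (s ^ 4 : ℕ) = 8 * β * J * Δ₀ := by rw [hJ, hΔ₀]
      _ ≤ 2 ^ P * Real.log 2 := hP1
      _ = Real.log 2 * 2 ^ P := by ring
  have harg : 0 < 16 * (L : ℝ) ^ 2 / ε := by positivity
  have hm1 : 6 * β * J * (Δ₀ + 1) + Real.log (16 * (L : ℝ) ^ 2 / ε) ≤ m * Real.log R := by
    have := Nat.le_ceil ((6 * β * J * (Δ₀ + 1) + Real.log (16 * (L : ℝ) ^ 2 / ε)) / Real.log R)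
    rw [← hm, div_le_iff₀ hlogR] at this
    exact this
  have hmm : (L : ℝ) ^ 2 * (Real.exp (6 * β * (2 * ‖h‖ + 1) * ((s ^ 4 : ℕ) + 1)) / R ^ m) ≤
      ε / 16 := by
    have hR0 : 0 < R := by linarith
    have h1 : R ^ m = Real.exp (m * Real.log R) := by
      rw [Real.exp_nat_mul, Real.exp_log hR0]
    have h2 : Real.exp (6 * β * J * (Δ₀ + 1)) * (16 * (L : ℝ) ^ 2 / ε) ≤ R ^ m := by
      rw [h1]
      calc Real.exp (6 * β * J * (Δ₀ + 1)) * (16 * (L : ℝ) ^ 2 / ε)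
          = Real.exp (6 * β * J * (Δ₀ + 1) + Real.log (16 * (L : ℝ) ^ 2 / ε)) := by
            rw [Real.exp_add, Real.exp_log harg]
        _ ≤ _ := Real.exp_le_exp.2 hm1
    have h3 : 0 < R ^ m := by positivity
    rw [← hJ, ← hΔ₀, ← mul_div_assoc, div_le_iff₀ h3]
    have h4 : Real.exp (6 * β * J * (Δ₀ + 1)) * (16 * (L : ℝ) ^ 2 / ε) * (ε / 16) ≤
        R ^ m * (ε / 16) := mul_le_mul_of_nonneg_right h2 (by positivity)
    have h5 : Real.exp (6 * β * J * (Δ₀ + 1)) * (16 * (L : ℝ) ^ 2 / ε) * (ε / 16) =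
        (L : ℝ) ^ 2 * Real.exp (6 * β * J * (Δ₀ + 1)) := by field_simp
    linarith
  obtain ⟨q, A, hA⟩ := core hs1 hsL h hh E₀ ψ hψ hHψ h0 β ε R hβ hε hε1 hR1.le hR2 P m hP hmm hZ
  refine ⟨_, ?_, A, hA⟩
  -- the bound for D
  set X : ℝ := (k₁ + k₂) * β + (Real.log 16 / Real.log R + 2) +
    2 / Real.log R * Real.log (L / ε) with hX
  have hmle : (m : ℝ) ≤ (6 * β * J * (Δ₀ + 1) + Real.log (16 * (L : ℝ) ^ 2 / ε)) / Real.log R + 1 := by
    rw [hm]
    refine (Nat.ceil_lt_add_one ?_).le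
    have : 0 ≤ Real.log (16 * (L : ℝ) ^ 2 / ε) := by
      apply Real.log_nonneg
      rw [le_div_iff₀ hε]; nlinarith
    positivity
  have hlog : Real.log (16 * (L : ℝ) ^ 2 / ε) ≤ Real.log 16 + 2 * Real.log (L / ε) := by
    have e1 : Real.log 16 + 2 * Real.log (L / ε) = Real.log (16 * ((L : ℝ) / ε) ^ 2) := by
      rw [Real.log_mul (by norm_num) (by positivity), Real.log_pow]; push_cast; ring
    rw [e1]
    apply Real.log_le_log harg
    rw [div_pow, mul_div_assoc]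
    apply mul_le_mul_of_nonneg_left _ (by norm_num)
    apply div_le_div_of_nonneg_left (by positivity) (by positivity)
    nlinarith
  have hXle : (m : ℝ) + 2 ^ P ≤ X := by
    have e2 : (6 * β * J * (Δ₀ + 1) + Real.log (16 * (L : ℝ) ^ 2 / ε)) / Real.log R ≤
        k₁ * β + (Real.log 16 / Real.log R + 2 / Real.log R * Real.log (L / ε)) := by
      have : (6 * β * J * (Δ₀ + 1) + (Real.log 16 + 2 * Real.log (L / ε))) / Real.log R =
          k₁ * β + (Real.log 16 / Real.log R + 2 / Real.log R * Real.log (L / ε)) := by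
        rw [hk₁]; field_simp
      rw [← this]
      exact div_le_div_of_nonneg_right (by linarith) hlogR.le
    have e3 : (2 : ℝ) ^ P ≤ k₂ * β + 1 := by
      refine hP2.trans (le_of_eq ?_)
      rw [hk₂]; ring
    rw [hX]; linarith
  refine (hrec q P m X hXle).trans ?_
  have hlogLε : 0 ≤ Real.log (L / ε) := Real.log_nonneg hLε
  have e4 : Real.exp (κ * X) = Real.exp (κ * (Real.log 16 / Real.log R + 2)) *
      Real.exp (κ * (2 / Real.log R) * Real.log (L / ε)) * Real.exp (κ * (k₁ + k₂) * β) := by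
    rw [← Real.exp_add, ← Real.exp_add]; congr 1; rw [hX]; ring
  rw [e4]
  have e5 : Real.exp (κ * (Real.log 16 / Real.log R + 2)) ≤ C := by
    have : 0 ≤ κ * (k₁ + k₂) + κ * (2 / Real.log R) + 1 := by positivity
    linarith
  have e6 : Real.exp (κ * (2 / Real.log R) * Real.log (L / ε)) ≤ ((L : ℝ) / ε) ^ C := by
    rw [Real.rpow_def_of_pos hLε0]
    apply Real.exp_le_exp.2
    have : κ * (2 / Real.log R) ≤ C := by
      have : 0 ≤ Real.exp (κ * (Real.log 16 / Real.log R + 2)) + κ * (k₁ + k₂) + 1 := by positivity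
      linarith
    nlinarith
  have e7 : Real.exp (κ * (k₁ + k₂) * β) ≤ Real.exp (C * β) := by
    apply Real.exp_le_exp.2
    have : κ * (k₁ + k₂) ≤ C := by
      have : 0 ≤ Real.exp (κ * (Real.log 16 / Real.log R + 2)) + κ * (2 / Real.log R) + 1 := by
        positivity
      linarith
    exact mul_le_mul_of_nonneg_right this hβ
  exact mul_le_mul (mul_le_mul e5 e6 (Real.exp_pos _).le hC0.le) e7 (Real.exp_pos _).le
    (by positivity)

end Pool.Agent.Helper2.PB
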