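import Pool.Agent.Helper2.PB.Main
import Pool.Agent.Helper2.PB.Dos

/-! The polynomial bound under the polynomial density of states hypothesis -/

set_option autoImplicit false

namespace Pool.Agent.Helper2.PB

open Matrix
open scoped Matrix.Norms.L2Operator ComplexOrder

theorem poly {d s : ℕ} (hs1 : 1 ≤ s) (h : Matrix (Box s → Fin d) (Box s → Fin d) ℂ)
    (hh : h.IsHermitian) (Δ : ℝ) (hΔ : 0 < Δ) (a : ℕ) (ha : 1 ≤ a)
    (E₀ : ℕ → ℝ) (ψ : (L : ℕ) → (Torus L → Fin d) → ℂ)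
    (hg : ∀ (L : ℕ) [NeZero L], s ≤ L → IsGappedGround (ham L h) (E₀ L) Δ (ψ L))
    (hdos : ∀ (L : ℕ) [NeZero L], s ≤ L → ∀ M : ℝ, 0 ≤ M →
      ((Finset.univ.filter fun i => (ham_isHermitian L h hh).eigenvalues i < E₀ L + M).card : ℝ) ≤
        ((a : ℝ) * L) ^ ((a : ℝ) * (M + 1)))
    (c : ℝ) (hc : 0 ≤ c) :
    ∃ C k : ℕ, ∀ (L : ℕ) [NeZero L], s ≤ L → ∃ D : ℕ, D ≤ C * L ^ k ∧
      ∃ A : Torus L → Fin d → Fin D → Fin D → Fin D → Fin D → ℂ,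
        Real.sqrt (nsq (fun σ => pepsState A σ - ψ L σ)) ≤ (L : ℝ) ^ (-c) := by
  classical
  obtain ⟨C₀, hC₀, hgen⟩ := general hs1 h hh
  set K : ℝ := (a : ℝ) + (2 * a + 2 * c + 3) / Δ with hK
  have ha' : (1 : ℝ) ≤ a := by exact_mod_cast ha
  have hK0 : 0 ≤ K := by positivity
  have hKa : (a : ℝ) ≤ K := by
    have : 0 ≤ (2 * a + 2 * c + 3) / Δ := by positivity
    linarith
  have hKΔ : 2 * a + 2 * c + 3 ≤ K * Δ := by
    rw [hK, add_mul, div_mul_cancel₀ _ hΔ.ne']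
    have : 0 ≤ (a : ℝ) * Δ := by positivity
    linarith
  set B : ℝ := C₀ * (2 : ℝ) ^ C₀ * (2 * (a : ℝ)) ^ (C₀ * K) with hB
  set k₀ : ℝ := (1 + c) * C₀ + C₀ * K with hk₀
  have hB0 : 0 ≤ B := by positivity
  refine ⟨⌈B⌉₊, ⌈k₀⌉₊, ?_⟩
  intro L _ hsL
  have hL1 : (1 : ℝ) ≤ L := by exact_mod_cast Nat.pos_of_ne_zero (NeZero.ne L)
  have hL0 : (0 : ℝ) < L := by linarith
  have hLn : 1 ≤ L := Nat.pos_of_ne_zero (NeZero.ne L)
  obtain ⟨hψ, hHψ, _⟩ := hg L hsL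
  obtain ⟨i₀, hi₀, hgap⟩ := spec_gap (ham_isHermitian L h hh) (E₀ L) Δ hΔ (ψ L) (hg L hsL)
  set β : ℝ := K * Real.log (2 * a * L) with hβ
  have h2aL : (1 : ℝ) ≤ 2 * a * L := by nlinarith
  have hβ0 : 0 ≤ β := mul_nonneg hK0 (Real.log_nonneg h2aL)
  set ε : ℝ := 1 / 2 * (L : ℝ) ^ (-c) with hε
  have hLc : 0 < (L : ℝ) ^ (-c) := Real.rpow_pos_of_pos hL0 _
  have hLc1 : (L : ℝ) ^ (-c) ≤ 1 := Real.rpow_le_one_of_one_le_of_nonpos hL1 (by linarith)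
  have hε0 : 0 < ε := by positivity
  have hε1 : ε ≤ 1 := by linarith
  have h0 : ∀ i, E₀ L ≤ (ham_isHermitian L h hh).eigenvalues i := by
    intro i
    by_cases hi : i = i₀
    · rw [hi, hi₀]
    · linarith [hgap i hi]
  obtain ⟨D, hD, A, hA⟩ := hgen L hsL (E₀ L) (ψ L) hψ hHψ h0 β ε hβ0 hε0 hε1
  have hZ : partZ (ham_isHermitian L h hh) (E₀ L) β - 1 ≤ (1 / 2 * (L : ℝ) ^ (-c)) ^ 2 := by
    refine dos_bound (fun i => (ham_isHermitian L h hh).eigenvalues i - E₀ L) Δ hΔ i₀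
      (by simp [hi₀]) (fun i hi => by linarith [hgap i hi]) a ha L hLn ?_ c K β hc hKa hKΔ hβ
    intro M hM
    have := hdos L hsL M hM
    have e : (Finset.univ.filter fun i => (ham_isHermitian L h hh).eigenvalues i - E₀ L < M) =
        (Finset.univ.filter fun i => (ham_isHermitian L h hh).eigenvalues i < E₀ L + M) := by
      ext i
      simp only [Finset.mem_filter, Finset.mem_univ, true_and]
      constructor <;> intro h <;> linarith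
    rw [e]; exact this
  refine ⟨D, ?_, A, ?_⟩
  · have h1 : (D : ℝ) ≤ B * (L : ℝ) ^ k₀ := by
      refine hD.trans (le_of_eq ?_)
      have e1 : ((L : ℝ) / ε) ^ C₀ = 2 ^ C₀ * (L : ℝ) ^ ((1 + c) * C₀) := by
        have : (L : ℝ) / ε = 2 * (L : ℝ) ^ (1 + c) := by
          rw [hε, Real.rpow_add hL0, Real.rpow_one, Real.rpow_neg hL0.le]
          have : (L : ℝ) ^ c ≠ 0 := (Real.rpow_pos_of_pos hL0 _).ne'
          field_simp
        rw [this, Real.mul_rpow (by norm_num) (Real.rpow_nonneg hL0.le _), ← Real.rpow_mul hL0.le]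
      have e2 : Real.exp (C₀ * β) = (2 * (a : ℝ)) ^ (C₀ * K) * (L : ℝ) ^ (C₀ * K) := by
        rw [← Real.mul_rpow (by positivity) hL0.le, Real.rpow_def_of_pos (by positivity)]
        congr 1; rw [hβ]; ring
      rw [e1, e2, hk₀, Real.rpow_add hL0, hB]; ring
    have h2 : B * (L : ℝ) ^ k₀ ≤ (⌈B⌉₊ : ℝ) * (L : ℝ) ^ (⌈k₀⌉₊ : ℕ) := by
      apply mul_le_mul (Nat.le_ceil B) _ (Real.rpow_nonneg hL0.le _) (Nat.cast_nonneg _)
      rw [← Real.rpow_natCast]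
      exact Real.rpow_le_rpow_of_exponent_le hL1 (Nat.le_ceil k₀)
    have h3 : (D : ℝ) ≤ ((⌈B⌉₊ * L ^ ⌈k₀⌉₊ : ℕ) : ℝ) := by
      push_cast; exact h1.trans h2
    exact_mod_cast h3
  · refine hA.trans ?_
    have h4 : Real.sqrt (partZ (ham_isHermitian L h hh) (E₀ L) β - 1) ≤ 1 / 2 * (L : ℝ) ^ (-c) :=
      Real.sqrt_le_iff.2 ⟨by positivity, hZ⟩
    rw [hε]; linarith

end Pool.Agent.Helper2.PB
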